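import Mathlib
import Pool.Agent.Lib.MP_663568_nul.WeylInv
import Pool.Agent.Lib.MP_663568_nt.Final

/-!
# Closed sets of polynomial phases of every degree (MP_663568_nt): definitions and row statements

See the note tt5_MP_663568_nt for the paper proof.
-/

set_option autoImplicit false
open Finset Polynomial MeasureTheory

namespace Pool.Agent.TU

open Pool.Agent.Lib.MP_663568_nt Pool.Agent.Lib.MP_663568_nt.Katai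
  Pool.Agent.Lib.MP_663568_nt.Nul

/-- The phase `α₁ h + α₂ h² + … + α_t h^t`. -/
noncomputable def ph {t : ℕ} (α : Fin t → ℝ) (h : ℝ) : ℝ := ∑ i : Fin t, α i * h ^ (i.val + 1)

/-- The vector with the first `s` coordinates of `y` and the other ones of `r`. -/
def glue {t : ℕ} (s : ℕ) (y : Fin s → ℝ) (r : Fin t → ℝ) : Fin t → ℝ :=
  fun i => if h : i.val < s then y ⟨i.val, h⟩ else r i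

/-- `ℤ^t`-periodic sets. -/
def Per {t : ℕ} (B : Set (Fin t → ℝ)) : Prop :=
  ∀ α ∈ B, ∀ z : Fin t → ℤ, (fun i => α i + (z i : ℝ)) ∈ B

/-- All rational sections are null sets. -/
def NullSec {t : ℕ} (B : Set (Fin t → ℝ)) : Prop :=
  ∀ s : ℕ, 1 ≤ s → s ≤ t → ∀ r : Fin t → ℚ,
    volume {y : Fin s → ℝ | glue s y (fun i => ((r i : ℚ) : ℝ)) ∈ B} = 0

/-- The closed neighbourhood of `B` for the maximum norm, with attained distance. -/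
def Nb {t : ℕ} (B : Set (Fin t → ℝ)) (ρ : ℝ) : Set (Fin t → ℝ) :=
  {α | ∃ β ∈ B, ∀ i, |α i - β i| ≤ ρ}

/-- The translates of `B` by `(1 / D) ℤ^t`. -/
def Sh {t : ℕ} (D : ℕ) (B : Set (Fin t → ℝ)) : Set (Fin t → ℝ) :=
  {α | ∃ β ∈ B, ∃ z : Fin t → ℤ, ∀ i, α i = β i + (z i : ℝ) / D}

/-- The Taylor coefficients of degree `1, …, t` of `R` at `k`. -/
noncomputable def tv (t : ℕ) (R : ℝ[X]) (k : ℝ) : Fin t → ℝ :=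
  fun i => (taylor k R).coeff (i.val + 1)

/-- The coefficients of degree `> s` are close to `(1 / D) ℤ`. -/
def Near (t s D : ℕ) (Q : ℝ) (H : ℕ) (R : ℝ[X]) : Prop :=
  ∀ j, s < j → j ≤ t → nd ((D : ℝ) * R.coeff j) ≤ Q / (H : ℝ) ^ (j - s)

/-- The frequencies which do not involve the coordinates of degree `< s`. -/
def Low {t : ℕ} (s : ℕ) (l : Fin t → ℤ) : Prop := ∀ i : Fin t, i.val + 1 < s → l i = 0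

/-- Trigonometric polynomials. -/
noncomputable def TP {t : ℕ} (Λ : Finset (Fin t → ℤ)) (w : (Fin t → ℤ) → ℂ) (α : Fin t → ℝ) : ℂ :=
  ∑ l ∈ Λ, w l * ee (∑ i, (l i : ℝ) * α i)

/-! ### The rows -/

/-- Row A: inverse Weyl theorem for all coefficients. -/
def A_stmt : Prop := ∀ t : ℕ, 1 ≤ t → ∃ C : ℕ, 1 ≤ C ∧ ∀ (ρ : ℝ) (M : ℕ) (P : ℝ[X]),
  0 < ρ → ρ ≤ 1 / 2 → (1 / ρ) ^ C ≤ (M : ℝ) → P.natDegree ≤ t →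
  ρ * M ≤ ‖∑ m ∈ Icc 1 M, ee (P.eval (m : ℝ))‖ →
  ∃ q : ℕ, 1 ≤ q ∧ (q : ℝ) ≤ (1 / ρ) ^ C ∧ ∀ j, 1 ≤ j → j ≤ t →
    nd ((q : ℝ) * P.coeff j) ≤ (1 / ρ) ^ C / (M : ℝ) ^ j

/-- Row B1: a bounded sequence which correlates with many functions. -/
def B1_stmt : Prop := ∀ (H : ℕ) (a : ℕ → ℂ) (G : Finset ℕ) (φ : ℕ → ℕ → ℂ) (c : ℝ), 0 < c →
  c ≤ 1 → (∀ n, ‖a n‖ ≤ 1) → (∀ n y, ‖φ n y‖ ≤ 1) → G.Nonempty →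
  (∀ n ∈ G, c * H ≤ ‖∑ y ∈ Icc 1 H, a y * φ n y‖) →
  ∃ n₀ ∈ G, c ^ 2 / 2 * (#G : ℝ) ≤ #(G.filter fun n =>
    c ^ 2 / 2 * H ≤ ‖∑ y ∈ Icc 1 H, φ n y * (starRingEnd ℂ) (φ n₀ y)‖)

/-- Row B2: one polynomial for many windows. -/
def B2_stmt : Prop := ∀ t : ℕ, 1 ≤ t → ∀ c : ℝ, 0 < c → c ≤ 1 →
  ∃ c₄ : ℝ, 0 < c₄ ∧ ∃ D : ℕ, 1 ≤ D ∧ ∃ K : ℝ, 0 < K ∧ ∃ H₀ : ℕ, ∀ H M : ℕ, H₀ ≤ H → M ≤ H →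
  ∀ (B : Set (Fin t → ℝ)) (a : ℕ → ℂ), (∀ n, ‖a n‖ ≤ 1) →
  ∀ (G : Finset ℕ) (α : ℕ → Fin t → ℝ), G ⊆ Icc 1 M → G.Nonempty → (∀ k ∈ G, α k ∈ B) →
  (∀ k ∈ G, c * H ≤ ‖∑ y ∈ Icc 1 H, a y * ee (ph (α k) ((y : ℝ) - (k : ℝ)))‖) →
  ∃ R : ℝ[X], R.natDegree ≤ t ∧ c * H ≤ ‖∑ y ∈ Icc 1 H, a y * ee (R.eval (y : ℝ))‖ ∧
    ∃ G' ⊆ G, c₄ * (#G : ℝ) ≤ #G' ∧ ∀ k ∈ G', tv t R (k : ℝ) ∈ Nb (Sh D B) (K / H)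

/-- Row B3: the hypothesis passes to the rational translates. -/
def B3_stmt : Prop := ∀ (t D : ℕ), 1 ≤ D → ∀ B : Set (Fin t → ℝ), IsClosed B → Per B → NullSec B →
  IsClosed (Sh D B) ∧ Per (Sh D B) ∧ NullSec (Sh D B)

/-- The measure of the fibre of `B` over the coordinates of degree `≥ s` of `α`. -/
noncomputable def fib {t : ℕ} (s : ℕ) (B : Set (Fin t → ℝ)) (α : Fin t → ℝ) : ENNReal :=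
  volume {z : Fin (s - 1) → ℝ | (∀ i, z i ∈ Set.Icc (0 : ℝ) 1) ∧ glue (s - 1) z α ∈ B}

/-- The bad set of the `s`-th coefficient. -/
def Tb {t : ℕ} (s D : ℕ) (B : Set (Fin t → ℝ)) (κ : ℝ) : Set ℝ :=
  {y | ∃ α : Fin t → ℝ, (∀ i : Fin t, i.val + 1 = s → ∃ a : ℤ, α i = y + (a : ℝ) / D) ∧
    (∀ i : Fin t, s ≤ i.val → ∃ z : ℤ, α i = (z : ℝ) / D) ∧ ENNReal.ofReal κ ≤ fib s B α}

/-- Row C1: the bad set is closed, null and (for `s ≥ 2`) has no rational point. -/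
def C1_stmt : Prop := ∀ (t : ℕ) (B : Set (Fin t → ℝ)), IsClosed B → Per B → NullSec B →
  ∀ s : ℕ, 1 ≤ s → s ≤ t → ∀ D : ℕ, 1 ≤ D → ∀ κ : ℝ, 0 < κ →
  IsClosed (Tb s D B κ) ∧ volume (Tb s D B κ) = 0 ∧
    (∀ x ∈ Tb s D B κ, ∀ z : ℤ, x + (z : ℝ) / D ∈ Tb s D B κ) ∧
    (2 ≤ s → ∀ x ∈ Tb s D B κ, Irrational x)

/-- Row C2: compactness. -/
def C2_stmt : Prop := ∀ (t : ℕ) (B : Set (Fin t → ℝ)), IsClosed B → Per B →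
  ∀ s : ℕ, 1 ≤ s → s ≤ t → ∀ D : ℕ, 1 ≤ D → ∀ κ : ℝ, 0 < κ → ∀ ρ : ℝ, 0 < ρ →
  ∃ ρ' : ℝ, 0 < ρ' ∧ ∀ α : Fin t → ℝ,
    (∀ i : Fin t, s ≤ i.val → ∃ z : ℤ, |α i - (z : ℝ) / D| ≤ ρ') →
    (∀ i : Fin t, i.val + 1 = s → ∀ x ∈ Tb s D B κ, ρ < |α i - x|) →
    fib s (Nb B (2 * ρ')) α < ENNReal.ofReal κ

open Classical in
/-- Row C3: a trigonometric majorant. -/
def C3_stmt : Prop := ∀ (t : ℕ) (B : Set (Fin t → ℝ)), IsClosed B → Per B →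
  ∀ s : ℕ, 1 ≤ s → s ≤ t → ∀ ρ η : ℝ, 0 < ρ → 0 < η →
  ∃ (Λ : Finset (Fin t → ℤ)) (w : (Fin t → ℤ) → ℂ), (∀ α, 0 ≤ (TP Λ w α).re) ∧
    (∀ α ∈ Nb B ρ, 1 ≤ (TP Λ w α).re) ∧
    (∀ α, (TP (Λ.filter fun l => Low s l) w α).re ≤ (fib s (Nb B (2 * ρ)) α).toReal + η)

open Classical in
/-- Row C: the bad set `T` of the `s`-th coefficient and the trigonometric majorant. -/
def C_stmt : Prop := ∀ (t : ℕ) (B : Set (Fin t → ℝ)), IsClosed B → Per B → NullSec B →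
  ∀ s : ℕ, 1 ≤ s → s ≤ t → ∀ D : ℕ, 1 ≤ D → ∀ κ : ℝ, 0 < κ → κ ≤ 1 →
  ∃ T : Set ℝ, IsClosed T ∧ volume T = 0 ∧ (∀ x ∈ T, ∀ z : ℤ, x + (z : ℝ) / D ∈ T) ∧
    (2 ≤ s → ∀ x ∈ T, Irrational x) ∧
    ∀ ρ : ℝ, 0 < ρ → ∃ ρ' : ℝ, 0 < ρ' ∧ ∃ (Λ : Finset (Fin t → ℤ)) (w : (Fin t → ℤ) → ℂ),
      (∀ α, 0 ≤ (TP Λ w α).re) ∧
      (∀ α ∈ Nb B ρ', 1 ≤ (TP Λ w α).re) ∧
      (∀ α, (TP (Λ.filter fun l => Low s l) w α).re ≤ 2) ∧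
      (∀ α : Fin t → ℝ, (∀ i : Fin t, s ≤ i.val → ∃ z : ℤ, |α i - (z : ℝ) / D| ≤ ρ') →
        (∀ i : Fin t, i.val + 1 = s → ∀ x ∈ T, ρ < |α i - x|) →
        (TP (Λ.filter fun l => Low s l) w α).re ≤ κ)

/-- Row D: a large exponential sum of the Taylor coefficients gives one more rational
coefficient. -/
def D_stmt : Prop := ∀ t s L : ℕ, 2 ≤ s → s ≤ t → ∀ δ : ℝ, 0 < δ →
  ∃ D : ℕ, 1 ≤ D ∧ ∃ Q : ℝ, 1 ≤ Q ∧ ∃ M₀ : ℕ, ∀ M : ℕ, M₀ ≤ M → ∀ R : ℝ[X], R.natDegree ≤ t →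
  ∀ l : Fin t → ℤ, (∀ i, |l i| ≤ (L : ℤ)) → ¬ Low s l →
  δ * M ≤ ‖∑ k ∈ Icc 1 M, ee (∑ i, (l i : ℝ) * tv t R (k : ℝ) i)‖ →
  Near t (s - 1) D Q M R

open Classical in
/-- Row E: a polynomial with bounded coefficients at scale `M` which is often close to a closed
null set is almost constant. -/
def E_stmt : Prop := ∀ T : Set ℝ, IsClosed T → volume T = 0 → (∀ x ∈ T, ∀ z : ℤ, x + (z : ℝ) ∈ T) →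
  ∀ (d : ℕ) (K c ρ₃ : ℝ), 0 < K → 0 < c → 0 < ρ₃ →
  ∃ ρ : ℝ, 0 < ρ ∧ ∃ M₀ : ℕ, ∀ M : ℕ, M₀ ≤ M → ∀ g : ℝ[X], g.natDegree ≤ d →
  (∀ j, 1 ≤ j → |g.coeff j| * (M : ℝ) ^ j ≤ K) →
  c * M ≤ #{k ∈ Icc 1 M | ∃ x ∈ T, |g.eval ((k : ℕ) : ℝ) - x| ≤ ρ} →
  ∀ j, 1 ≤ j → |g.coeff j| * (M : ℝ) ^ j ≤ ρ₃

/-- Row F: subwindows of fixed length. -/
def F_stmt : Prop := ∀ t s D l : ℕ, 1 ≤ s → s ≤ t → 1 ≤ D → 1 ≤ l → ∀ Q c : ℝ, 1 ≤ Q → 0 < c →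
  c ≤ 1 → ∃ H₀ : ℕ, ∀ H : ℕ, H₀ ≤ H → ∀ a : ℕ → ℂ, (∀ n, ‖a n‖ ≤ 1) →
  ∀ R : ℝ[X], R.natDegree ≤ t → Near t s D Q H R →
  c * H ≤ ‖∑ y ∈ Icc 1 H, a y * ee (R.eval (y : ℝ))‖ →
  ∃ P : ℕ → ℝ[X], (∀ y, (P y).natDegree ≤ s ∧
      ∃ z : ℤ, (P y).coeff s = (taylor (y : ℝ) R).coeff s + (z : ℝ) / D) ∧
    c / 2 * H * l ≤ D * ∑ y ∈ Icc 1 H, ‖∑ h ∈ Icc 1 l, a (y + h) * ee ((P y).eval (h : ℝ))‖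

/-- Row S: `SmallSets` (`s ≥ 2`) and `WholeCircle` (`s = 1`) near a closed null set. -/
def S_stmt : Prop := ∀ s : ℕ, 1 ≤ s → ∀ T : Set ℝ, IsClosed T → volume T = 0 →
  (∀ x ∈ T, ∀ z : ℤ, x + (z : ℝ) ∈ T) → (2 ≤ s → ∀ x ∈ T, Irrational x) →
  ∀ ε : ℝ, 0 < ε → ∃ ρ : ℝ, 0 < ρ ∧ ∃ l₀ : ℕ, ∀ l N : ℕ, l₀ ≤ l → l ≤ N →
  ∑ n ∈ Icc 1 N, (1 / (n : ℝ)) * ⨆ P : {P : ℝ[X] // P.natDegree ≤ s ∧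
      ∃ x ∈ T, |P.coeff s - x| ≤ ρ},
    ‖∑ h ∈ Icc 1 l, muC (n + h) * ee ((P : ℝ[X]).eval (h : ℝ))‖ ≤ ε * l * Real.log N

/-- Row H: Davenport and Hua. -/
def H_stmt : Prop := ∀ (t : ℕ) (ε : ℝ), 0 < ε → ∃ X₀ : ℕ, ∀ X : ℕ, X₀ ≤ X → ∀ P : ℝ[X],
  P.natDegree ≤ t → ‖∑ x ∈ Icc 1 X, muC x * ee (P.eval (x : ℝ))‖ ≤ ε * X

/-- The clusters of windows. -/
def Cl (t s D : ℕ) (B : Set (Fin t → ℝ)) (Q c c₄ : ℝ) (e : ℕ) (K : ℝ) (H m : ℕ) : Prop :=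
  H ≤ m ∧ ∃ R : ℝ[X], R.natDegree ≤ t ∧ Near t s D Q H R ∧
    c * H ≤ ‖∑ y ∈ Icc 1 H, muC (m + y) * ee (R.eval (y : ℝ))‖ ∧
    c₄ * H ≤ Nat.card {k : ℕ // k ∈ Icc 1 (H / e) ∧ tv t R (k : ℝ) ∈ Nb B (K / H)}

open Classical in
/-- Row G: the clusters have small density. -/
def G_stmt : Prop := ∀ (t : ℕ) (B : Set (Fin t → ℝ)), IsClosed B → Per B → NullSec B →
  ∀ (c c₄ : ℝ) (e : ℕ) (K : ℝ), 0 < c → c ≤ 1 → 0 < c₄ → 1 ≤ e → 0 < K →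
  ∀ s : ℕ, 1 ≤ s → s ≤ t → ∀ (D : ℕ) (Q ε : ℝ), 1 ≤ D → 1 ≤ Q → 0 < ε →
  ∃ H₀ : ℕ, ∀ H N : ℕ, H₀ ≤ H → H ≤ N →
    ∑ m ∈ Icc 1 N with Cl t s D B Q c c₄ e K H m, (1 / (m : ℝ)) ≤ ε * Real.log N

/-- **Theorem U.** -/
def U_stmt : Prop := ∀ (t : ℕ), 1 ≤ t → ∀ B : Set (Fin t → ℝ), IsClosed B → Per B → NullSec B →
  ∀ ε : ℝ, 0 < ε → ∃ H₀ : ℕ, ∀ H N : ℕ, H₀ ≤ H → H ≤ N →
    ∑ n ∈ Icc 1 N, (1 / (n : ℝ)) * ⨆ α : {α : Fin t → ℝ // α ∈ B},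
      ‖∑ h ∈ Icc 1 H, muC (n + h) * ee (ph (α : Fin t → ℝ) (h : ℝ))‖ ≤ ε * H * Real.log N

end Pool.Agent.TU
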