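import Mathlib
import Pool.Agent.Lib.TU.Defs
import Pool.Agent.Lib.WC86.Short

/-!
# Theorem U, row H: the Moebius function in progressions (helper31)
-/

set_option autoImplicit false
open Finset Polynomial

namespace Pool.Agent.TU.Hx

open Pool.Agent.Lib.MP_663568_nt Pool.Agent.Lib.MP_663568_nt.Katai
  Pool.Agent.Lib.MP_663568_nt.Nul

/-- Partial sums of the Moebius function in a progression, affine bound. -/
lemma ap_affine (q b : ℕ) (hq : 1 ≤ q) (δ : ℝ) (hδ : 0 < δ) : ∃ A : ℝ, 0 ≤ A ∧ ∀ Y : ℕ,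
    ‖∑ x ∈ Icc 1 Y, (if x % q = b % q then muC x else 0)‖ ≤ 3 / 4 * δ * Y + A := by
  obtain ⟨h0, hh0⟩ := WC86.muAP_top q b hq (δ / 4) (by positivity)
  obtain ⟨h, hh⟩ : ∃ h : ℕ, h = max h0 1 := ⟨_, rfl⟩
  have hh1 : 1 ≤ h := by rw [hh]; exact le_max_right _ _
  obtain ⟨X0, hX0⟩ := hh0 h (by rw [hh]; exact le_max_left _ _)
  set c : ℕ → ℂ := fun x => if x % q = b % q then muC x else 0 with hc
  have hc1 : ∀ n, ‖c n‖ ≤ 1 := by
    intro n
    simp only [hc]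
    split_ifs
    · exact norm_muC n
    · simp
  have hh0' : (0 : ℝ) < h := by exact_mod_cast hh1
  -- one dyadic step
  have step : ∀ M Y : ℕ, X0 ≤ M → M ≤ Y → Y ≤ 2 * M →
      ‖∑ x ∈ Ioc M Y, c x‖ ≤ δ / 4 * M + 2 * h := by
    intro M Y hM hMY hY
    refine (smooth c hc1 M Y h hMY hh1).trans ?_
    have h1 := hX0 (M : ℝ) hM
    have h2 : ∑ j ∈ Ico M Y, ‖∑ l ∈ Icc 1 h, c (j + l)‖ ≤
        ∑ x ∈ Icc ⌈(M : ℝ)⌉₊ ⌊2 * (M : ℝ)⌋₊,
          ‖∑ j ∈ Icc 1 h, (if (x + j) % q = b % q then WC86.mu (x + j) else 0)‖ := by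
      refine sum_le_sum_of_subset_of_nonneg ?_ fun _ _ _ => norm_nonneg _
      intro x hx
      rw [mem_Ico] at hx
      rw [mem_Icc, Nat.ceil_natCast]
      refine ⟨hx.1, Nat.le_floor ?_⟩
      have : x ≤ 2 * M := by omega
      exact_mod_cast this
    have h3 := h2.trans h1
    have h4 : 1 / (h : ℝ) * ∑ j ∈ Ico M Y, ‖∑ l ∈ Icc 1 h, c (j + l)‖ ≤
        1 / (h : ℝ) * (δ / 4 * h * M) := by gcongr
    have h5 : 1 / (h : ℝ) * (δ / 4 * h * M) = δ / 4 * M := by field_simp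
    linarith
  obtain ⟨Y1, hY1⟩ : ∃ Y1 : ℝ, Y1 = 2 * |X0| + 2 + 8 * h / δ := ⟨_, rfl⟩
  have hY10 : 0 ≤ Y1 := by rw [hY1]; positivity
  refine ⟨Y1, hY10, fun Y => ?_⟩
  induction Y using Nat.strong_induction_on with
  | _ Y ih =>
    rcases le_or_gt (Y : ℝ) Y1 with hle | hgt
    · have h1 : ‖∑ x ∈ Icc 1 Y, c x‖ ≤ Y := by
        calc _ ≤ ∑ x ∈ Icc 1 Y, ‖c x‖ := norm_sum_le _ _
          _ ≤ ∑ x ∈ Icc 1 Y, (1 : ℝ) := sum_le_sum fun x _ => hc1 x
          _ = Y := by simp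
      have h2 : 0 ≤ 3 / 4 * δ * (Y : ℝ) := by positivity
      linarith
    · obtain ⟨M, hM⟩ : ∃ M : ℕ, M = (Y + 1) / 2 := ⟨_, rfl⟩
      have hY2 : (2 : ℝ) < Y := by
        have h1 : 0 ≤ |X0| := abs_nonneg _
        have h2 : 0 ≤ 8 * (h : ℝ) / δ := by positivity
        linarith
      have hY3 : 2 < Y := by exact_mod_cast hY2
      have hMY : M < Y := by omega
      have hY2M : Y ≤ 2 * M := by omega
      have hMX : X0 ≤ M := by
        have h1 : (Y : ℝ) ≤ 2 * M := by exact_mod_cast hY2M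
        have h2 : X0 ≤ |X0| := le_abs_self _
        have h3 : 0 ≤ 8 * (h : ℝ) / δ := by positivity
        linarith
      have h1 := step M Y hMX hMY.le hY2M
      have h2 := ih M hMY
      have h3 : ∑ x ∈ Icc 1 Y, c x = ∑ x ∈ Icc 1 M, c x + ∑ x ∈ Ioc M Y, c x := by
        have e1 : Icc 1 Y = Ioc 0 Y := by ext; simp only [mem_Ioc, mem_Icc]; omega
        have e2 : Icc 1 M = Ioc 0 M := by ext; simp only [mem_Ioc, mem_Icc]; omega
        rw [e1, e2, sum_Ioc_consecutive _ (Nat.zero_le _) hMY.le]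
      rw [h3]
      refine (norm_add_le _ _).trans ((add_le_add h2 h1).trans ?_)
      have h4 : (M : ℝ) ≤ (Y + 1) / 2 := by
        have : 2 * M ≤ Y + 1 := by omega
        have h5 : (2 : ℝ) * M ≤ Y + 1 := by exact_mod_cast this
        linarith
      have h5 : 8 * (h : ℝ) + 2 * δ ≤ δ * Y := by
        have h6 : 8 * (h : ℝ) / δ + 2 ≤ Y := by
          have : 0 ≤ |X0| := abs_nonneg _
          linarith
        have h7 : δ * (8 * (h : ℝ) / δ + 2) ≤ δ * Y := by gcongr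
        have h8 : δ * (8 * (h : ℝ) / δ + 2) = 8 * h + 2 * δ := by field_simp
        linarith
      have h6 : δ * M ≤ δ * ((Y + 1) / 2) := by gcongr
      nlinarith

/-- **The Moebius function in progressions.** -/
lemma ap (δ : ℝ) (hδ : 0 < δ) (B : ℕ) : ∃ X₀ : ℕ, ∀ X : ℕ, X₀ ≤ X → ∀ q b : ℕ, 1 ≤ q → q ≤ B →
    b < q → ∀ Y ≤ X, ‖∑ x ∈ Icc 1 Y, (if x % q = b then muC x else 0)‖ ≤ δ * X := by
  have h1 : ∀ q b : ℕ, ∃ A : ℝ, 0 ≤ A ∧ (1 ≤ q → ∀ Y : ℕ,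
      ‖∑ x ∈ Icc 1 Y, (if x % q = b % q then muC x else 0)‖ ≤ 3 / 4 * δ * Y + A) := by
    intro q b
    rcases Nat.eq_zero_or_pos q with h | h
    · exact ⟨0, le_rfl, fun h' => by omega⟩
    · obtain ⟨A, hA, hA'⟩ := ap_affine q b h δ hδ
      exact ⟨A, hA, fun _ => hA'⟩
  choose A hA hA' using h1
  obtain ⟨S, hS⟩ : ∃ S : ℝ, S = ∑ q ∈ range (B + 1), ∑ b ∈ range (B + 1), A q b := ⟨_, rfl⟩
  refine ⟨⌈4 * S / δ⌉₊, fun X hX q b hq hqB hb Y hY => ?_⟩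
  have h2 := hA' q b hq Y
  rw [Nat.mod_eq_of_lt hb] at h2
  refine h2.trans ?_
  have h3 : A q b ≤ S := by
    rw [hS]
    calc A q b ≤ ∑ b ∈ range (B + 1), A q b :=
          single_le_sum (f := fun b => A q b) (fun b _ => hA q b) (mem_range.2 (by omega))
      _ ≤ _ := single_le_sum (f := fun q => ∑ b ∈ range (B + 1), A q b)
          (fun q _ => sum_nonneg fun b _ => hA q b) (mem_range.2 (by omega))
  have h4 : 4 * S / δ ≤ X := (Nat.le_ceil _).trans (by exact_mod_cast hX)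
  rw [div_le_iff₀ hδ] at h4
  have h5 : (Y : ℝ) ≤ X := by exact_mod_cast hY
  nlinarith

end Pool.Agent.TU.Hx
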