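import Mathlib
import Pool.Agent.Lib.TU.Defs
import Pool.Agent.Lib.MP_663568_nt.Log

/-!
# Theorem U, row H: the criterion of Katai for one long sum (helper31)
-/

set_option autoImplicit false
open Finset Polynomial

namespace Pool.Agent.TU.Hx

open Pool.Agent.Lib.MP_663568_nt Pool.Agent.Lib.MP_663568_nt.Katai
  Pool.Agent.Lib.MP_663568_nt.Nul

/-- An initial segment. -/
lemma trunc_sum (g : ℕ → ℂ) (r j L X : ℕ) (hr : 1 ≤ r) :
    ∑ l ∈ Icc 1 L, (if r * (j + l) ≤ X then g l else 0) =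
      ∑ l ∈ Icc 1 (min L (X / r - j)), g l := by
  rw [← sum_filter]
  refine sum_congr ?_ fun _ _ => rfl
  ext l
  simp only [mem_filter, mem_Icc, le_min_iff]
  have h1 : r * (j + l) ≤ X ↔ j + l ≤ X / r := by
    rw [Nat.le_div_iff_mul_le (by omega), mul_comm]
  rw [h1]
  constructor
  · rintro ⟨⟨h2, h3⟩, h4⟩
    exact ⟨h2, h3, by omega⟩
  · rintro ⟨h2, h3, h4⟩
    exact ⟨⟨h2, h3⟩, by omega⟩

/-- **The criterion of Katai for one sum.** -/
lemma katai (ε : ℝ) (hε : 0 < ε) : ∃ P : Finset ℕ, (∀ p ∈ P, p.Prime) ∧ ∃ η : ℝ, 0 < η ∧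
    η ≤ 1 / 2 ∧ ∃ X₀ : ℕ, 1 ≤ X₀ ∧ ∀ X : ℕ, X₀ ≤ X → ∀ f : ℕ → ℂ, (∀ n, ‖f n‖ ≤ 1) →
      ε * X < ‖∑ x ∈ Icc 1 X, muC x * f x‖ →
      ∃ p ∈ P, ∃ q ∈ P, p ≠ q ∧ ∃ j L : ℕ, j ≤ X ∧ η * X ≤ L ∧
        η * L ≤ ‖∑ l ∈ Icc 1 L, f (p * (j + l)) * (starRingEnd ℂ) (f (q * (j + l)))‖ := by
  obtain ⟨P, hPsub, hW⟩ := exists_finset_WW {p : ℕ | p.Prime} not_summable_one_div_on_primes
    (128 / ε ^ 2 + 40 / ε + 1)
  have hP : ∀ p ∈ P, p.Prime := fun p hp => hPsub hp
  set K : ℝ := (P.card : ℝ) with hK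
  have hK0 : 0 ≤ K := by positivity
  set η : ℝ := 1 / (K + 1) ^ 2 with hη
  have hη0 : 0 < η := by positivity
  have hη1 : η ≤ 1 := by
    rw [hη, div_le_one (by positivity)]
    nlinarith
  have hηK : √η * K ≤ 1 := by
    rw [hη, Real.sqrt_div zero_le_one, Real.sqrt_one, Real.sqrt_sq (by positivity),
      div_mul_eq_mul_div, one_mul, div_le_one (by positivity)]
    linarith
  set η' : ℝ := η / (2 * (K + 1)) / 2 with hη'
  have hη'0 : 0 < η' := by positivity
  have hη'1 : η' ≤ η / 2 := by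
    rw [hη']
    refine div_le_div_of_nonneg_right ?_ (by norm_num)
    rw [div_le_iff₀ (by positivity)]
    nlinarith
  refine ⟨P, hP, η', hη'0, by linarith, 2 * P.card + 2, by omega, ?_⟩
  intro X hX f hf hS
  by_contra hcon
  push Not at hcon
  set W := WW P with hWdef
  have hW1 : 1 ≤ W := by
    have : (0 : ℝ) < 128 / ε ^ 2 + 40 / ε := by positivity
    linarith
  have hWa : 128 / ε ^ 2 ≤ W := by
    have : (0 : ℝ) < 40 / ε := by positivity
    linarith
  have hWb : 40 / ε ≤ W := by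
    have : (0 : ℝ) < 128 / ε ^ 2 := by positivity
    linarith
  have hs : √(2 * W) ≤ ε / 8 * W := by
    rw [Real.sqrt_le_left (by positivity)]
    rw [div_le_iff₀ (by positivity)] at hWa
    have : 2 * W ≤ 2 * W * (W * ε ^ 2 / 128) := by
      have h1 : 1 ≤ W * ε ^ 2 / 128 := by linarith
      nlinarith
    nlinarith
  have h5 : 5 ≤ ε / 8 * W := by
    rw [div_le_iff₀ hε] at hWb; linarith
  -- the window length
  obtain ⟨L, hL⟩ : ∃ L : ℕ, L = X / (P.card + 1) := ⟨_, rfl⟩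
  have hL1 : 1 ≤ L := by
    rw [hL]; exact (Nat.one_le_div_iff (by omega)).2 (by omega)
  have hXr : (0 : ℝ) < X := by exact_mod_cast (by omega : 0 < X)
  have hLX : (L : ℝ) * (K + 1) ≤ X := by
    have : L * (P.card + 1) ≤ X := by rw [hL]; exact Nat.div_mul_le_self _ _
    have h2 : ((L * (P.card + 1) : ℕ) : ℝ) ≤ X := by exact_mod_cast this
    push_cast at h2; exact h2
  have hXL : (X : ℝ) ≤ 2 * (K + 1) * L := by
    have h1 : X < (L + 1) * (P.card + 1) := by
      rw [hL]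
      have := Nat.lt_div_mul_add (a := X) (b := P.card + 1) (by omega)
      calc X < X / (P.card + 1) * (P.card + 1) + (P.card + 1) := this
        _ = _ := by ring
    have h2 : (X : ℝ) < (L + 1) * (K + 1) := by
      have h4 : (X : ℝ) < (((L + 1) * (P.card + 1) : ℕ) : ℝ) := by exact_mod_cast h1
      push_cast at h4
      exact h4
    have h3 : (1 : ℝ) ≤ L := by exact_mod_cast hL1
    nlinarith
  have hL0 : (0 : ℝ) < L := by exact_mod_cast hL1
  -- the truncated function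
  set F : Unit → ℕ → ℂ := fun _ n => if n ≤ X then f n else 0 with hF
  have hF1 : ∀ i n, ‖F i n‖ ≤ 1 := by
    intro i n
    simp only [hF]
    split_ifs
    · exact hf n
    · simp
  have horth : ∀ p ∈ P, ∀ q ∈ P, p ≠ q → ∀ i i' j,
      ‖∑ l ∈ Icc 1 L, F i (p * (j + l)) * (starRingEnd ℂ) (F i' (q * (j + l)))‖ ≤ η * L := by
    intro p hp q hq hpq i i' j
    have hr : 1 ≤ max p q := le_max_of_le_left (hP p hp).pos
    have e1 : ∑ l ∈ Icc 1 L, F i (p * (j + l)) * (starRingEnd ℂ) (F i' (q * (j + l))) =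
        ∑ l ∈ Icc 1 L, (if max p q * (j + l) ≤ X then
          f (p * (j + l)) * (starRingEnd ℂ) (f (q * (j + l))) else 0) := by
      refine sum_congr rfl fun l _ => ?_
      simp only [hF]
      have h1 : max p q * (j + l) ≤ X ↔ p * (j + l) ≤ X ∧ q * (j + l) ≤ X := by
        rcases le_total p q with h | h
        · rw [max_eq_right h]
          exact ⟨fun h2 => ⟨(Nat.mul_le_mul_right _ h).trans h2, h2⟩, fun h2 => h2.2⟩
        · rw [max_eq_left h]
          exact ⟨fun h2 => ⟨h2, (Nat.mul_le_mul_right _ h).trans h2⟩, fun h2 => h2.1⟩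
      by_cases h2 : p * (j + l) ≤ X
      · by_cases h3 : q * (j + l) ≤ X
        · rw [if_pos h2, if_pos h3, if_pos (h1.2 ⟨h2, h3⟩)]
        · rw [if_pos h2, if_neg h3, if_neg (fun h => h3 (h1.1 h).2)]; simp
      · rw [if_neg h2, if_neg (fun h => h2 (h1.1 h).1)]; simp
    rw [e1, trunc_sum _ _ _ _ _ hr]
    obtain ⟨L', hL'⟩ : ∃ L' : ℕ, L' = min L (X / max p q - j) := ⟨_, rfl⟩
    rw [← hL']
    have hL'L : (L' : ℝ) ≤ L := by
      have : L' ≤ L := by rw [hL']; exact min_le_left _ _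
      exact_mod_cast this
    have htriv : ‖∑ l ∈ Icc 1 L', f (p * (j + l)) * (starRingEnd ℂ) (f (q * (j + l)))‖ ≤ L' := by
      calc _ ≤ ∑ l ∈ Icc 1 L', ‖f (p * (j + l)) * (starRingEnd ℂ) (f (q * (j + l)))‖ :=
            norm_sum_le _ _
        _ ≤ ∑ l ∈ Icc 1 L', (1 : ℝ) := by
            apply sum_le_sum; intro l _
            rw [norm_mul, RCLike.norm_conj]
            exact mul_le_one₀ (hf _) (norm_nonneg _) (hf _)
        _ = L' := by simp
    by_cases h1 : (L' : ℝ) ≤ η * L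
    · exact htriv.trans h1
    push Not at h1
    have hL'0 : 0 < L' := by
      have : (0 : ℝ) < L' := lt_of_le_of_lt (by positivity) h1
      exact_mod_cast this
    have hjX : j ≤ X := by
      have h2 : L' ≤ X / max p q - j := by rw [hL']; exact min_le_right _ _
      have h3 : X / max p q ≤ X := Nat.div_le_self _ _
      omega
    have h2 : η' * X ≤ L' := by
      refine le_trans ?_ h1.le
      rw [hη']
      calc η / (2 * (K + 1)) / 2 * X ≤ η / (2 * (K + 1)) / 2 * (2 * (K + 1) * L) := by gcongr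
        _ = η / 2 * L := by field_simp
        _ ≤ η * L := by gcongr; linarith
    have h3 := hcon p hp q hq hpq j L' hjX h2
    refine h3.le.trans ?_
    have : η' ≤ η := by linarith
    calc η' * L' ≤ η * L := by gcongr
      _ = _ := rfl
  have hmain := sup_ineq P hP F muC hF1 norm_muC (fun p hp m hm => muC_mul p (hP p hp) m hm)
    L hL1 X 0
  have hle : ε * X ≤ GG F muC X 0 := by
    refine hS.le.trans ?_
    have h1 := le_GG F muC hF1 norm_muC X 0 ()
    refine le_trans (le_of_eq ?_) h1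
    congr 1
    refine sum_congr rfl fun x hx => ?_
    rw [mem_Icc] at hx
    simp only [hF, zero_add]
    rw [if_pos hx.2, mul_comm]
  -- the terms
  have t1 : ∑ m ∈ Ioc 0 (0 + X), |om P m - WW P| ≤ √(2 * W) * X := by
    have h1 := turan_kubilius_one P hP X (by omega)
    have h2 : Ioc 0 (0 + X) = Icc 1 X := by ext; simp only [mem_Ioc, mem_Icc]; omega
    rw [h2]; exact h1
  have t2 : ∑ p ∈ P, (1 / (L : ℝ)) * ∑ m ∈ Ioc (0 / p) ((0 + X) / p), BB F muC L p (m - 1) ≤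
      3 * X := by
    have h1 := sum_BB P hP F muC hF1 norm_muC L η hη0.le horth X
    rw [← mul_sum]
    have h2 : ∑ p ∈ P, ∑ m ∈ Ioc (0 / p) ((0 + X) / p), BB F muC L p (m - 1) =
        ∑ p ∈ P, ∑ m ∈ Icc 1 (X / p), BB F muC L p (m - 1) := by
      refine sum_congr rfl fun p _ => ?_
      refine sum_congr ?_ fun _ _ => rfl
      rw [Nat.zero_div, zero_add]
      ext; simp only [mem_Ioc, mem_Icc]; omega
    rw [h2]
    calc _ ≤ 1 / (L : ℝ) * (L * (2 * X + √η * K * X)) := by gcongr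
      _ = 2 * X + √η * K * X := by field_simp
      _ ≤ 2 * X + 1 * X := by gcongr
      _ = _ := by ring
  have t3 : ∑ p ∈ P, 2 * (L : ℝ) ≤ 2 * X := by
    rw [sum_const, nsmul_eq_mul]
    nlinarith
  have t4 : ∑ p ∈ P, ∑ m ∈ Ioc (0 / p) ((0 + X) / p), (if p ∣ m then (2 : ℝ) else 0) ≤ 2 * X := by
    have h1 : ∀ p ∈ P, ∑ m ∈ Ioc (0 / p) ((0 + X) / p), (if p ∣ m then (2 : ℝ) else 0) ≤
        2 * X * (1 / (p : ℝ) ^ 2) := by
      intro p hp
      have hp0 : (0 : ℝ) < p := by exact_mod_cast (hP p hp).pos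
      have h2 : Ioc (0 / p) ((0 + X) / p) = Icc 1 (X / p) := by
        rw [Nat.zero_div, zero_add]
        ext; simp only [mem_Ioc, mem_Icc]; omega
      have h3 : ∑ m ∈ Icc 1 (X / p), (if p ∣ m then (2 : ℝ) else 0) =
          2 * ∑ m ∈ Icc 1 (X / p), (if p ∣ m then (1 : ℝ) else 0) := by
        rw [mul_sum]
        exact sum_congr rfl fun m _ => by split_ifs <;> ring
      rw [h2, h3, sum_dvd]
      have h4 : (((X / p) / p : ℕ) : ℝ) ≤ (X : ℝ) / p / p := by
        refine (div_le_real _ _).trans ?_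
        gcongr
        exact div_le_real _ _
      calc 2 * (((X / p) / p : ℕ) : ℝ) ≤ 2 * ((X : ℝ) / p / p) := by gcongr
        _ = _ := by field_simp
    refine (sum_le_sum h1).trans ?_
    rw [← mul_sum]
    have h2 := sum_inv_sq_primes P hP
    nlinarith
  have hsplit : ∑ p ∈ P, (((1 / (L : ℝ)) * ∑ m ∈ Ioc (0 / p) ((0 + X) / p), BB F muC L p (m - 1)
      + 2 * L) + ∑ m ∈ Ioc (0 / p) ((0 + X) / p), if p ∣ m then (2 : ℝ) else 0) =
      ∑ p ∈ P, (1 / (L : ℝ)) * ∑ m ∈ Ioc (0 / p) ((0 + X) / p), BB F muC L p (m - 1) +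
      ∑ p ∈ P, 2 * (L : ℝ) +
      ∑ p ∈ P, ∑ m ∈ Ioc (0 / p) ((0 + X) / p), (if p ∣ m then (2 : ℝ) else 0) := by
    rw [sum_add_distrib, sum_add_distrib]
  rw [hsplit] at hmain
  have hfin : W * (ε * X) ≤ √(2 * W) * X + 7 * X := by
    calc W * (ε * X) ≤ W * GG F muC X 0 := by gcongr
      _ ≤ _ := hmain
      _ ≤ _ := by linarith
  have h8 : √(2 * W) * X ≤ ε / 8 * W * X := by gcongr
  have h9 : 5 * (X : ℝ) ≤ ε / 8 * W * X := by gcongr
  nlinarith

end Pool.Agent.TU.Hx
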