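import Mathlib
import Pool.Agent.Lib.MP_663568_nul.WeylInv

/-!
# Inverse Weyl inequality for all coefficients (MP_663568_nt, Theorem U)

helper71.
-/

set_option autoImplicit false
open Finset Polynomial

namespace Pool.Agent.TU

open Pool.Agent.Lib.MP_663568_nt Pool.Agent.Lib.MP_663568_nt.Katai
  Pool.Agent.Lib.MP_663568_nt.Nul

lemma norm_ee_sub_one_le (x : ℝ) : ‖ee x - 1‖ ≤ 2 * Real.pi * |x| := by
  have h1 : ee x = Complex.exp (Complex.I * ((2 * Real.pi * x : ℝ) : ℂ)) := by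
    rw [ee]; congr 1; push_cast; ring
  rw [h1]
  refine (Real.norm_exp_I_mul_ofReal_sub_one_le (x := 2 * Real.pi * x)).trans (le_of_eq ?_)
  rw [Real.norm_eq_abs, abs_mul, abs_of_pos (by positivity : (0 : ℝ) < 2 * Real.pi)]

lemma shift_sum (u : ℕ → ℂ) (hu : ∀ m, ‖u m‖ ≤ 1) (M k : ℕ) (hk : 1 ≤ k) :
    ‖∑ a ∈ range M, u (a + k) - ∑ m ∈ Icc 1 M, u m‖ ≤ 2 * k := by
  have e1 : ∑ a ∈ range M, u (a + k) = ∑ m ∈ Ico k (k + M), u m := by
    rw [sum_Ico_eq_sum_range]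
    rw [Nat.add_sub_cancel_left]
    exact sum_congr rfl fun a _ => by rw [add_comm]
  have e2 : ∑ m ∈ Icc 1 M, u m = ∑ m ∈ Ico 1 (M + 1), u m := by
    congr 1
  have e3 : ∑ m ∈ Ico 1 k, u m + ∑ m ∈ Ico k (k + M), u m = ∑ m ∈ Ico 1 (k + M), u m :=
    sum_Ico_consecutive _ hk (by omega)
  have e4 : ∑ m ∈ Ico 1 (M + 1), u m + ∑ m ∈ Ico (M + 1) (k + M), u m =
      ∑ m ∈ Ico 1 (k + M), u m := sum_Ico_consecutive _ (by omega) (by omega)
  have e5 : ∑ m ∈ Ico k (k + M), u m - ∑ m ∈ Ico 1 (M + 1), u m =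
      ∑ m ∈ Ico (M + 1) (k + M), u m - ∑ m ∈ Ico 1 k, u m := by
    linear_combination e3 - e4
  rw [e1, e2, e5]
  have b : ∀ s : Finset ℕ, ‖∑ m ∈ s, u m‖ ≤ #s := fun s => by
    refine (norm_sum_le _ _).trans ?_
    refine (sum_le_sum fun m _ => hu m).trans ?_
    simp
  refine (norm_sub_le _ _).trans ?_
  have h1 := b (Ico (M + 1) (k + M))
  have h2 := b (Ico 1 k)
  rw [Nat.card_Ico] at h1 h2
  have h3 : ((k + M - (M + 1) : ℕ) : ℝ) ≤ k := by exact_mod_cast (by omega)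
  have h4 : ((k - 1 : ℕ) : ℝ) ≤ k := by exact_mod_cast (by omega)
  linarith

/-- A large sum is large on a progression of given difference and length. -/
lemma exists_sub (u : ℕ → ℂ) (hu : ∀ m, ‖u m‖ ≤ 1) (M q L : ℕ) (hq : 1 ≤ q) (hL : 1 ≤ L)
    (hM : 1 ≤ M) (ρ : ℝ) (h : 4 * ((q : ℝ) * L) ≤ ρ * M) (hS : ρ * M ≤ ‖∑ m ∈ Icc 1 M, u m‖) :
    ∃ a < M, ρ / 2 * L ≤ ‖∑ y ∈ Icc 1 L, u (a + q * y)‖ := by
  by_contra hcon
  push Not at hcon
  have hM' : (0 : ℝ) < M := by exact_mod_cast hM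
  have hL' : (0 : ℝ) < L := by exact_mod_cast hL
  have h1 : ‖∑ a ∈ range M, ∑ y ∈ Icc 1 L, u (a + q * y)‖ < M * (ρ / 2 * L) := by
    refine (norm_sum_le _ _).trans_lt ?_
    calc ∑ a ∈ range M, ‖∑ y ∈ Icc 1 L, u (a + q * y)‖ < ∑ a ∈ range M, ρ / 2 * L := by
          refine sum_lt_sum_of_nonempty ?_ fun a ha => hcon a (mem_range.1 ha)
          exact ⟨0, mem_range.2 (by omega)⟩
      _ = M * (ρ / 2 * L) := by simp
  rw [sum_comm] at h1
  have h2 : ‖∑ y ∈ Icc 1 L, ∑ a ∈ range M, u (a + q * y) - L * ∑ m ∈ Icc 1 M, u m‖ ≤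
      2 * q * L * L := by
    have e : (L : ℂ) * ∑ m ∈ Icc 1 M, u m = ∑ y ∈ Icc 1 L, ∑ m ∈ Icc 1 M, u m := by
      simp
    rw [e, ← sum_sub_distrib]
    refine (norm_sum_le _ _).trans ?_
    calc ∑ y ∈ Icc 1 L, ‖∑ a ∈ range M, u (a + q * y) - ∑ m ∈ Icc 1 M, u m‖ ≤
        ∑ y ∈ Icc 1 L, (2 * q * L : ℝ) := by
          refine sum_le_sum fun y hy => ?_
          rw [mem_Icc] at hy
          refine (shift_sum u hu M (q * y) (Nat.mul_pos (by omega) (by omega))).trans ?_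
          push_cast
          have : (y : ℝ) ≤ L := by exact_mod_cast hy.2
          have hq' : (0 : ℝ) ≤ q := by positivity
          nlinarith
      _ = 2 * q * L * L := by simp; ring
  have h3 : L * (ρ * M) ≤ ‖(L : ℂ) * ∑ m ∈ Icc 1 M, u m‖ := by
    rw [norm_mul, Complex.norm_natCast]
    exact mul_le_mul_of_nonneg_left hS hL'.le
  have h4 : ‖(L : ℂ) * ∑ m ∈ Icc 1 M, u m‖ ≤
      ‖∑ y ∈ Icc 1 L, ∑ a ∈ range M, u (a + q * y)‖ + 2 * q * L * L := by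
    have := norm_sub_norm_le ((L : ℂ) * ∑ m ∈ Icc 1 M, u m)
      (∑ y ∈ Icc 1 L, ∑ a ∈ range M, u (a + q * y))
    rw [norm_sub_rev] at this
    linarith
  have h5 : L * (4 * ((q : ℝ) * L)) ≤ L * (ρ * M) := mul_le_mul_of_nonneg_left h hL'.le
  nlinarith

lemma coeff_shift_split (P : ℝ[X]) (t : ℕ) (hP : P.natDegree ≤ t) (r : ℝ) (j : ℕ) (hj : j ≤ t) :
    (P.comp (X + C r)).coeff j =
      P.coeff j + ∑ i ∈ Ioc j t, P.coeff i * (r ^ (i - j) * (i.choose j : ℝ)) := by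
  rw [coeff_shift_aux P t hP, range_eq_Ico,
    ← sum_Ico_consecutive _ (Nat.zero_le j) (by omega : j ≤ t + 1)]
  have h0 : ∑ i ∈ Ico 0 j, P.coeff i * (r ^ (i - j) * (i.choose j : ℝ)) = 0 := by
    refine sum_eq_zero fun i hi => ?_
    rw [mem_Ico] at hi
    rw [Nat.choose_eq_zero_of_lt hi.2]; simp
  rw [h0, zero_add, sum_eq_sum_Ico_succ_bot (by omega : j < t + 1)]
  simp only [Nat.sub_self, pow_zero, Nat.choose_self, Nat.cast_one, mul_one]
  congr 1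
  refine sum_congr ?_ fun _ _ => rfl
  ext i
  rw [mem_Ico, mem_Ioc]
  omega

/-- The top term is constant up to a small error on a short progression. -/
lemma top_term (t : ℕ) (α : ℝ) (q a y L M : ℕ) (hy : y ≤ L) (ha : a ≤ M) (hqL : q * L ≤ M)
    (b : ℤ) : ‖ee (α * ((a + q * y : ℕ) : ℝ) ^ (t + 1)) - ee (α * (a : ℝ) ^ (t + 1))‖ ≤
      2 * Real.pi * (|(q : ℝ) * α - b| * (L * ((t + 1) * (2 * M : ℝ) ^ t))) := by
  obtain ⟨D, hD⟩ : ∃ D : ℕ, D = y * ∑ i ∈ range (t + 1), (a + q * y) ^ i * a ^ (t - i) := ⟨_, rfl⟩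
  have h1 : ((a + q * y : ℕ) : ℝ) ^ (t + 1) = (a : ℝ) ^ (t + 1) + q * D := by
    have h := geom_sum₂_mul ((a + q * y : ℕ) : ℝ) (a : ℝ) (t + 1)
    rw [hD]
    push_cast at h ⊢
    linear_combination -h
  have h2 : α * ((a + q * y : ℕ) : ℝ) ^ (t + 1) =
      α * (a : ℝ) ^ (t + 1) + ((b * (D : ℤ) : ℤ) : ℝ) + ((q : ℝ) * α - b) * D := by
    rw [h1]; push_cast; ring
  have h3 : ee (α * ((a + q * y : ℕ) : ℝ) ^ (t + 1)) =
      ee (α * (a : ℝ) ^ (t + 1)) * ee (((q : ℝ) * α - b) * D) := by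
    rw [h2, ee_add, ee_add, ee_int, mul_one]
  rw [h3, show ee (α * (a : ℝ) ^ (t + 1)) * ee (((q : ℝ) * α - b) * D) -
    ee (α * (a : ℝ) ^ (t + 1)) = ee (α * (a : ℝ) ^ (t + 1)) *
      (ee (((q : ℝ) * α - b) * D) - 1) by ring, norm_mul, norm_ee, one_mul]
  refine (norm_ee_sub_one_le _).trans ?_
  rw [abs_mul]
  have hDL : |(D : ℝ)| ≤ L * ((t + 1) * (2 * M : ℝ) ^ t) := by
    rw [abs_of_nonneg (Nat.cast_nonneg _)]
    have h4 : D ≤ L * ((t + 1) * (2 * M) ^ t) := by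
      rw [hD]
      refine Nat.mul_le_mul hy ?_
      have h5 : ∀ i ∈ range (t + 1), (a + q * y) ^ i * a ^ (t - i) ≤ (2 * M) ^ t := by
        intro i hi
        rw [mem_range] at hi
        have h6 : q * y ≤ M := (Nat.mul_le_mul_left q hy).trans hqL
        calc (a + q * y) ^ i * a ^ (t - i) ≤ (2 * M) ^ i * (2 * M) ^ (t - i) :=
              Nat.mul_le_mul (Nat.pow_le_pow_left (by omega) _)
                (Nat.pow_le_pow_left (by omega) _)
          _ = (2 * M) ^ t := by rw [← pow_add]; congr 1; omega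
      refine (sum_le_card_nsmul _ _ _ h5).trans ?_
      simp
    exact_mod_cast h4
  have hpi := Real.pi_pos
  have : |(q : ℝ) * α - b| * |(D : ℝ)| ≤
      |(q : ℝ) * α - b| * (L * ((t + 1) * (2 * M : ℝ) ^ t)) :=
    mul_le_mul_of_nonneg_left hDL (abs_nonneg _)
  nlinarith

/-- descending induction on the coefficients. -/
lemma descend (t : ℕ) (P R : ℝ[X]) (q₁ q₂ a M : ℕ) (X G : ℝ) (hX : 2 ≤ X) (hM : 1 ≤ M) (ha : a ≤ M)
    (hR : ∀ j, 1 ≤ j → j ≤ t → R.coeff j =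
      P.coeff j + ∑ i ∈ Ioc j t, P.coeff i * ((a : ℝ) ^ (i - j) * (i.choose j : ℝ)))
    (hG : 0 ≤ G)
    (h : ∀ j, 1 ≤ j → j ≤ t → (q₁ : ℝ) ^ (t - j) * nd (q₂ * ((q₁ : ℝ) ^ j * R.coeff j)) ≤
      G / (M : ℝ) ^ j) :
    ∀ j, 1 ≤ j → j ≤ t → nd (((q₂ * q₁ ^ t : ℕ) : ℝ) * P.coeff j) ≤
      (G * (X ^ (2 * t + 1)) ^ (t - j)) / (M : ℝ) ^ j := by
  have hM0 : (0 : ℝ) < M := by exact_mod_cast hM
  suffices H : ∀ k j, 1 ≤ j → j ≤ t → t - j = k → nd (((q₂ * q₁ ^ t : ℕ) : ℝ) * P.coeff j) ≤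
      (G * (X ^ (2 * t + 1)) ^ (t - j)) / (M : ℝ) ^ j from fun j h1 h2 => H (t - j) j h1 h2 rfl
  intro k
  induction k using Nat.strong_induction_on with
  | _ k ih =>
    intro j h1 h2 hk
    set q : ℕ := q₂ * q₁ ^ t with hq
    have e1 : (q : ℝ) * P.coeff j = (q₁ : ℝ) ^ (t - j) * (q₂ * ((q₁ : ℝ) ^ j * R.coeff j)) -
        ∑ i ∈ Ioc j t, (((a ^ (i - j) * i.choose j : ℕ) : ℝ) * ((q : ℝ) * P.coeff i)) := by
      rw [hR j h1 h2, hq]
      push_cast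
      have e2 : (q₁ : ℝ) ^ t = (q₁ : ℝ) ^ (t - j) * (q₁ : ℝ) ^ j := by
        rw [← pow_add]; congr 1; omega
      have e3 : ∑ i ∈ Ioc j t, ((a : ℝ) ^ (i - j) * (i.choose j : ℝ) *
          ((q₂ : ℝ) * (q₁ : ℝ) ^ t * P.coeff i)) = (q₂ : ℝ) * (q₁ : ℝ) ^ t *
          ∑ i ∈ Ioc j t, P.coeff i * ((a : ℝ) ^ (i - j) * (i.choose j : ℝ)) := by
        rw [mul_sum]
        exact sum_congr rfl fun i _ => by ring
      rw [e3, e2]; ring
    have hnd : ∀ s : Finset ℕ, ∀ g : ℕ → ℝ, nd (∑ i ∈ s, g i) ≤ ∑ i ∈ s, nd (g i) := by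
      intro s g
      induction s using Finset.induction_on with
      | empty => simp [show nd 0 = 0 by simpa using nd_int 0]
      | insert a s ha ih => rw [sum_insert ha, sum_insert ha]; exact (nd_add_le _ _).trans (by gcongr)
    have h3 : nd ((q₁ : ℝ) ^ (t - j) * (q₂ * ((q₁ : ℝ) ^ j * R.coeff j))) ≤ G / (M : ℝ) ^ j := by
      refine le_trans ?_ (h j h1 h2)
      have := nd_nat_mul_le (q₁ ^ (t - j)) (q₂ * ((q₁ : ℝ) ^ j * R.coeff j))
      push_cast at this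
      exact this
    have hXp : ∀ n : ℕ, (1 : ℝ) ≤ X ^ n := fun n => one_le_pow₀ (by linarith)
    have hterm : ∀ i ∈ Ioc j t, nd (((a ^ (i - j) * i.choose j : ℕ) : ℝ) * ((q : ℝ) * P.coeff i)) ≤
        2 ^ t * (G * (X ^ (2 * t + 1)) ^ (t - j - 1)) / (M : ℝ) ^ j := by
      intro i hi
      rw [mem_Ioc] at hi
      have h4 := ih (t - i) (by omega) i (by omega) hi.2 rfl
      refine (nd_nat_mul_le _ _).trans ?_
      have h5 : ((a ^ (i - j) * i.choose j : ℕ) : ℝ) ≤ (M : ℝ) ^ (i - j) * 2 ^ t := by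
        push_cast
        have h6 : (i.choose j : ℝ) ≤ 2 ^ t := by
          have h7 : i.choose j ≤ 2 ^ t := (Nat.choose_le_two_pow i j).trans
            (Nat.pow_le_pow_right (by norm_num) hi.2)
          exact_mod_cast h7
        have h8 : (a : ℝ) ^ (i - j) ≤ (M : ℝ) ^ (i - j) :=
          pow_le_pow_left₀ (Nat.cast_nonneg _) (by exact_mod_cast ha) _
        exact mul_le_mul h8 h6 (Nat.cast_nonneg _) (by positivity)
      have h9 : G * (X ^ (2 * t + 1)) ^ (t - i) ≤ G * (X ^ (2 * t + 1)) ^ (t - j - 1) := by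
        refine mul_le_mul_of_nonneg_left ?_ hG
        exact pow_le_pow_right₀ (hXp _) (by omega)
      calc ((a ^ (i - j) * i.choose j : ℕ) : ℝ) * nd ((q : ℝ) * P.coeff i) ≤
          ((M : ℝ) ^ (i - j) * 2 ^ t) * ((G * (X ^ (2 * t + 1)) ^ (t - i)) / (M : ℝ) ^ i) :=
            mul_le_mul h5 h4 (nd_nonneg _) (by positivity)
        _ = 2 ^ t * (G * (X ^ (2 * t + 1)) ^ (t - i)) / (M : ℝ) ^ j := by
            have : (M : ℝ) ^ i = (M : ℝ) ^ (i - j) * (M : ℝ) ^ j := by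
              rw [← pow_add]; congr 1; omega
            rw [this]; field_simp
        _ ≤ _ := by gcongr
    rw [e1]
    refine (nd_sub_le _ _).trans ?_
    refine (add_le_add h3 ((hnd _ _).trans (sum_le_sum hterm))).trans ?_
    rw [sum_const, Nat.card_Ioc, nsmul_eq_mul]
    rcases Nat.eq_zero_or_pos (t - j) with h0 | h0
    · rw [h0]; simp
    · have h10 : ((t - j : ℕ) : ℝ) ≤ 2 ^ t := by
        have : t - j ≤ 2 ^ t := (Nat.sub_le _ _).trans Nat.lt_two_pow_self.le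
        exact_mod_cast this
      have h11 : (X ^ (2 * t + 1)) ^ (t - j) = X ^ (2 * t + 1) * (X ^ (2 * t + 1)) ^ (t - j - 1) := by
        rw [← pow_succ']; congr 1; omega
      have h12 : (2 : ℝ) ^ t * 2 ^ t * 2 ≤ X ^ (2 * t + 1) := by
        rw [← pow_add, ← pow_succ, ← two_mul]
        exact pow_le_pow_left₀ (by norm_num) hX _
      set Y := (X ^ (2 * t + 1)) ^ (t - j - 1) with hY
      have hY1 : 1 ≤ Y := one_le_pow₀ (hXp _)
      rw [h11, mul_div_assoc', ← add_div]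
      refine div_le_div_of_nonneg_right ?_ (by positivity)
      have h13 : ((t - j : ℕ) : ℝ) * (2 ^ t * (G * Y)) ≤ 2 ^ t * (2 ^ t * (G * Y)) := by
        gcongr
      have h14 : (2 : ℝ) ^ t * 2 ^ t * 2 * (G * Y) ≤ X ^ (2 * t + 1) * (G * Y) := by
        gcongr
      have h15 : G ≤ G * Y := le_mul_of_one_le_right hG hY1
      have h16 : G * Y ≤ 2 ^ t * (2 ^ t * (G * Y)) := by
        have : (1 : ℝ) ≤ 2 ^ t := one_le_pow₀ (by norm_num)
        have hGY : 0 ≤ G * Y := by positivity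
        nlinarith [mul_le_mul this this (by norm_num) (by positivity)]
      nlinarith

/-- One step: from a large sum of degree `t + 1` to a large sum of degree `t` on a progression. -/
lemma step_down (t : ℕ) (P : ℝ[X]) (hP : P.natDegree ≤ t + 1) (ρ Y : ℝ) (M q L : ℕ)
    (hρ : 0 < ρ) (hM : 1 ≤ M) (hq : 1 ≤ q) (hL : 1 ≤ L)
    (hY : nd ((q : ℝ) * P.coeff (t + 1)) ≤ Y / (M : ℝ) ^ (t + 1))
    (h1 : 4 * ((q : ℝ) * L) ≤ ρ * M) (hρ1 : ρ ≤ 1)
    (h2 : 2 * Real.pi * ((t + 1) * 2 ^ t) * Y * L ≤ ρ / 4 * M)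
    (hS : ρ * M ≤ ‖∑ m ∈ Icc 1 M, ee (P.eval (m : ℝ))‖) :
    ∃ a < M, ρ / 4 * L ≤ ‖∑ y ∈ Icc 1 L,
      ee (((((P - C (P.coeff (t + 1)) * X ^ (t + 1)).comp (X + C (a : ℝ))).comp
        (C (q : ℝ) * X))).eval (y : ℝ))‖ := by
  set α := P.coeff (t + 1) with hα
  set P₀ := P - C α * X ^ (t + 1) with hP₀
  have hM0 : (0 : ℝ) < M := by exact_mod_cast hM
  obtain ⟨a, ha, hS2⟩ := exists_sub (fun m => ee (P.eval (m : ℝ))) (fun m => (norm_ee _).le) M q L
    hq hL hM ρ h1 hS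
  refine ⟨a, ha, ?_⟩
  obtain ⟨b, hb⟩ := nd_exists ((q : ℝ) * α)
  have hqL : q * L ≤ M := by
    have : (q : ℝ) * L ≤ M := by nlinarith
    exact_mod_cast this
  have hterm : ∀ y ∈ Icc 1 L, ‖ee (P.eval ((a + q * y : ℕ) : ℝ)) - ee (α * (a : ℝ) ^ (t + 1)) *
      ee (((P₀.comp (X + C (a : ℝ))).comp (C (q : ℝ) * X)).eval (y : ℝ))‖ ≤ ρ / 4 := by
    intro y hy
    rw [mem_Icc] at hy
    have e1 : ((P₀.comp (X + C (a : ℝ))).comp (C (q : ℝ) * X)).eval (y : ℝ) =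
        P₀.eval ((a + q * y : ℕ) : ℝ) := by
      simp only [eval_comp, eval_add, eval_mul, eval_X, eval_C]
      push_cast
      congr 1; ring
    have e2 : P.eval ((a + q * y : ℕ) : ℝ) = α * ((a + q * y : ℕ) : ℝ) ^ (t + 1) +
        P₀.eval ((a + q * y : ℕ) : ℝ) := by
      rw [hP₀]; simp
    rw [e1, e2, ee_add, ← sub_mul, norm_mul, norm_ee, mul_one]
    refine (top_term t α q a y L M hy.2 ha.le hqL b).trans ?_
    rw [← hb]
    have h3 : nd ((q : ℝ) * α) * (L * ((t + 1) * (2 * M : ℝ) ^ t)) ≤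
        Y / (M : ℝ) ^ (t + 1) * (L * ((t + 1) * (2 * M : ℝ) ^ t)) :=
      mul_le_mul_of_nonneg_right hY (by positivity)
    have h4 : Y / (M : ℝ) ^ (t + 1) * (L * ((t + 1) * (2 * M : ℝ) ^ t)) =
        ((t + 1) * 2 ^ t) * Y * L / M := by
      rw [mul_pow, pow_succ]; field_simp
    have h5 : 2 * Real.pi * (((t + 1) * 2 ^ t) * Y * L / M) ≤ ρ / 4 := by
      rw [← mul_div_assoc, div_le_iff₀ hM0]
      calc 2 * Real.pi * (((t + 1) * 2 ^ t) * Y * L) = 2 * Real.pi * ((t + 1) * 2 ^ t) * Y * L := by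
            ring
        _ ≤ _ := h2
    have hpi := Real.pi_pos
    calc _ ≤ 2 * Real.pi * (Y / (M : ℝ) ^ (t + 1) * (L * ((t + 1) * (2 * M : ℝ) ^ t))) := by
          gcongr
      _ ≤ ρ / 4 := by rw [h4]; exact h5
  have h6 : ‖∑ y ∈ Icc 1 L, ee (P.eval ((a + q * y : ℕ) : ℝ))‖ ≤
      ‖∑ y ∈ Icc 1 L, ee (((P₀.comp (X + C (a : ℝ))).comp (C (q : ℝ) * X)).eval (y : ℝ))‖ +
        ρ / 4 * L := by
    have e3 : ∑ y ∈ Icc 1 L, ee (P.eval ((a + q * y : ℕ) : ℝ)) =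
        ee (α * (a : ℝ) ^ (t + 1)) * ∑ y ∈ Icc 1 L,
          ee (((P₀.comp (X + C (a : ℝ))).comp (C (q : ℝ) * X)).eval (y : ℝ)) +
        ∑ y ∈ Icc 1 L, (ee (P.eval ((a + q * y : ℕ) : ℝ)) - ee (α * (a : ℝ) ^ (t + 1)) *
          ee (((P₀.comp (X + C (a : ℝ))).comp (C (q : ℝ) * X)).eval (y : ℝ))) := by
      rw [mul_sum, ← sum_add_distrib]
      exact sum_congr rfl fun y _ => by ring
    rw [e3]
    refine (norm_add_le _ _).trans ?_
    rw [norm_mul, norm_ee, one_mul]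
    gcongr
    refine (norm_sum_le _ _).trans ((sum_le_sum hterm).trans (le_of_eq ?_))
    simp; ring
  have hL' : (0 : ℝ) < L := by exact_mod_cast hL
  linarith

/-- **Inverse Weyl theorem for all coefficients**, with polynomial bounds. -/
theorem weyl_all (t : ℕ) (ht : 1 ≤ t) : ∃ C : ℕ, 1 ≤ C ∧ ∀ (ρ : ℝ) (M : ℕ) (P : ℝ[X]),
    0 < ρ → ρ ≤ 1 / 2 → (1 / ρ) ^ C ≤ (M : ℝ) → P.natDegree ≤ t →
    ρ * M ≤ ‖∑ m ∈ Icc 1 M, ee (P.eval (m : ℝ))‖ →
    ∃ q : ℕ, 1 ≤ q ∧ (q : ℝ) ≤ (1 / ρ) ^ C ∧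
      ∀ j, 1 ≤ j → j ≤ t → nd ((q : ℝ) * P.coeff j) ≤ (1 / ρ) ^ C / (M : ℝ) ^ j := by
  induction t, ht using Nat.le_induction with
  | base =>
    obtain ⟨C, hC1, hC⟩ := weyl_inverse 1 le_rfl
    refine ⟨C, hC1, fun ρ M P h1 h2 h3 h4 h5 => ?_⟩
    obtain ⟨q, hq1, hq2, hq3⟩ := hC ρ M P h1 h2 h3 h4 h5
    refine ⟨q, hq1, hq2, fun j hj1 hj2 => ?_⟩
    obtain rfl : j = 1 := by omega
    exact hq3
  | succ t ht ih =>
    obtain ⟨C₂, hC₂1, hC₂⟩ := ih
    obtain ⟨C₁, hC₁1, hC₁⟩ := weyl_inverse (t + 1) (by omega)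
    -- exponents
    obtain ⟨E, hE⟩ : ∃ E : ℕ, E = C₁ + 2 * t + 8 := ⟨_, rfl⟩
    obtain ⟨G, hG⟩ : ∃ G : ℕ, G = C₁ * t + 3 * C₂ + E * t := ⟨_, rfl⟩
    obtain ⟨F, hF⟩ : ∃ F : ℕ, F = G + (2 * t + 1) * t + E + 3 * C₂ + C₁ * (t + 1) := ⟨_, rfl⟩
    refine ⟨F, by rw [hF]; omega, fun ρ M P hρ hρ2 hM hP hS => ?_⟩
    set Z : ℝ := 1 / ρ with hZ
    have hZ2 : 2 ≤ Z := by rw [hZ, le_div_iff₀ hρ]; linarith
    have hZ1 : 1 ≤ Z := by linarith
    have hZ0 : 0 < Z := by linarith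
    have hZρ : ρ = 1 / Z := by rw [hZ]; field_simp
    have hmono : ∀ m n : ℕ, m ≤ n → Z ^ m ≤ Z ^ n := fun m n h => pow_le_pow_right₀ hZ1 h
    have hM0 : (0 : ℝ) < M := lt_of_lt_of_le (by positivity) hM
    have hM1 : 1 ≤ M := by exact_mod_cast hM0
    obtain ⟨q₁, hq₁1, hq₁2, hq₁3⟩ := hC₁ ρ M P hρ hρ2 ((hmono _ _ (by rw [hF]; nlinarith)).trans hM)
      hP hS
    rw [← hZ] at hq₁2 hq₁3
    -- the length
    obtain ⟨K, hK⟩ : ∃ K : ℝ, K = 2 ^ (t + 5) * (t + 1) * Z ^ (C₁ + 1) := ⟨_, rfl⟩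
    have hK0 : 0 < K := by rw [hK]; positivity
    have hKE : 2 * K ≤ Z ^ E := by
      have h1 : (2 : ℝ) * (2 ^ (t + 5) * (t + 1)) ≤ Z ^ (2 * t + 7) := by
        have h2 : ((t : ℝ) + 1) ≤ 2 ^ (t + 1) := by
          exact_mod_cast (Nat.lt_two_pow_self (n := t + 1)).le
        calc (2 : ℝ) * (2 ^ (t + 5) * (t + 1)) ≤ 2 * (2 ^ (t + 5) * 2 ^ (t + 1)) := by gcongr
          _ = 2 ^ (2 * t + 7) := by rw [← pow_add, ← pow_succ']; congr 1; omega
          _ ≤ Z ^ (2 * t + 7) := pow_le_pow_left₀ (by norm_num) hZ2 _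
      calc 2 * K = 2 * (2 ^ (t + 5) * (t + 1)) * Z ^ (C₁ + 1) := by rw [hK]; ring
        _ ≤ Z ^ (2 * t + 7) * Z ^ (C₁ + 1) := by gcongr
        _ = Z ^ E := by rw [← pow_add, hE]; congr 1; omega
    obtain ⟨L, hL⟩ : ∃ L : ℕ, L = ⌊(M : ℝ) / K⌋₊ := ⟨_, rfl⟩
    have hMK : Z ^ E ≤ M := (hmono _ _ (by rw [hF]; omega)).trans hM
    have hLK : (L : ℝ) * K ≤ M := by
      have := Nat.floor_le (show (0 : ℝ) ≤ M / K by positivity)
      rw [← hL] at this
      rwa [le_div_iff₀ hK0] at this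
    have hLE : (M : ℝ) ≤ Z ^ E * L := by
      have h1 : (M : ℝ) / K < L + 1 := by rw [hL]; exact Nat.lt_floor_add_one _
      have h2 : 2 ≤ (M : ℝ) / K := by
        rw [le_div_iff₀ hK0]; linarith
      have h3 : (M : ℝ) / K ≤ 2 * L := by linarith
      rw [div_le_iff₀ hK0] at h3
      have hL0 : (0 : ℝ) ≤ L := Nat.cast_nonneg _
      nlinarith
    have hL1 : 1 ≤ L := by
      have h2 : 2 ≤ (M : ℝ) / K := by
        rw [le_div_iff₀ hK0]; linarith
      rw [hL]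
      exact Nat.le_floor (by push_cast; linarith)
    have hL0 : (0 : ℝ) < L := by exact_mod_cast hL1
    obtain ⟨a, haM, hS2⟩ := step_down t P hP ρ (Z ^ C₁) M q₁ L hρ hM1 hq₁1 hL1 hq₁3 (by
        -- 4 q L ≤ ρ M
        have h1 : (4 : ℝ) * Z ^ C₁ * Z ≤ K := by
          rw [hK, mul_assoc 4, ← pow_succ]
          have : (4 : ℝ) ≤ 2 ^ (t + 5) * (t + 1) := by
            calc (4 : ℝ) ≤ 2 ^ (t + 5) * 1 := by
                  rw [mul_one]
                  calc (4 : ℝ) = 2 ^ 2 := by norm_num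
                    _ ≤ 2 ^ (t + 5) := pow_le_pow_right₀ (by norm_num) (by omega)
              _ ≤ _ := by
                  gcongr
                  have : (0 : ℝ) ≤ t := Nat.cast_nonneg _
                  linarith
          exact mul_le_mul_of_nonneg_right this (by positivity)
        have h2 : 4 * ((q₁ : ℝ) * L) * Z ≤ M := by
          calc 4 * ((q₁ : ℝ) * L) * Z ≤ 4 * (Z ^ C₁ * L) * Z := by gcongr
            _ = L * (4 * Z ^ C₁ * Z) := by ring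
            _ ≤ L * K := by gcongr
            _ ≤ M := hLK
        rw [hZρ, one_div, ← div_eq_inv_mul, le_div_iff₀ hZ0]
        exact h2) (by linarith) (by
        have hpi := Real.pi_lt_d2
        have h1 : 2 * Real.pi * ((t + 1) * 2 ^ t) * Z ^ C₁ * (4 * Z) ≤ K := by
          have h3 : 2 * Real.pi * ((t + 1) * 2 ^ t) * 4 ≤ 2 ^ (t + 5) * (t + 1) := by
            have h4 : (2 : ℝ) ^ (t + 5) = 2 ^ t * 32 := by rw [pow_add]; norm_num
            rw [h4]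
            have h5 : (0 : ℝ) < (t + 1) * 2 ^ t := by positivity
            nlinarith
          calc 2 * Real.pi * ((t + 1) * 2 ^ t) * Z ^ C₁ * (4 * Z) =
              (2 * Real.pi * ((t + 1) * 2 ^ t) * 4) * (Z ^ (C₁ + 1)) := by rw [pow_succ]; ring
            _ ≤ (2 ^ (t + 5) * (t + 1)) * Z ^ (C₁ + 1) := by gcongr
            _ = K := hK.symm
        have h2 : 2 * Real.pi * ((t + 1) * 2 ^ t) * Z ^ C₁ * L * (4 * Z) ≤ M := by
          calc _ = L * (2 * Real.pi * ((t + 1) * 2 ^ t) * Z ^ C₁ * (4 * Z)) := by ring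
            _ ≤ L * K := by gcongr
            _ ≤ M := hLK
        have h3 : ρ / 4 * M = M / (4 * Z) := by rw [hZρ]; field_simp
        rw [h3, le_div_iff₀ (by positivity)]
        exact h2) hS
    set α := P.coeff (t + 1) with hα
    set P₀ := P - C α * X ^ (t + 1) with hP₀
    set R := P₀.comp (X + C (a : ℝ)) with hR
    have hP₀c : ∀ i, i ≤ t → P₀.coeff i = P.coeff i := by
      intro i hi
      rw [hP₀, coeff_sub, coeff_C_mul, coeff_X_pow, if_neg (by omega)]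
      ring
    have hP₀d : P₀.natDegree ≤ t := by
      rw [natDegree_le_iff_coeff_eq_zero]
      intro i hi
      rcases Nat.eq_or_lt_of_le (Nat.succ_le_of_lt hi) with h | h
      · rw [hP₀, ← h, coeff_sub, coeff_C_mul, coeff_X_pow, if_pos rfl, hα]; simp
      · rw [hP₀, coeff_sub, coeff_C_mul, coeff_X_pow, if_neg (by omega),
          coeff_eq_zero_of_natDegree_lt (lt_of_le_of_lt hP h)]
        ring
    have hRd : R.natDegree ≤ t := by
      rw [hR]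
      refine (natDegree_comp_le).trans ?_
      refine (Nat.mul_le_mul hP₀d (le_refl _)).trans ?_
      have : (X + C (a : ℝ)).natDegree ≤ 1 := (natDegree_X_add_C _).le
      nlinarith
    have hQd : (R.comp (C (q₁ : ℝ) * X)).natDegree ≤ t := by
      refine (natDegree_comp_le).trans ?_
      have : (C (q₁ : ℝ) * X).natDegree ≤ 1 :=
        (natDegree_C_mul_le _ _).trans natDegree_X_le
      nlinarith
    -- the induction hypothesis
    have hρ4 : 1 / (ρ / 4) = 4 * Z := by rw [hZ]; field_simp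
    have h4Z : ∀ n : ℕ, (4 * Z) ^ n ≤ Z ^ (3 * n) := by
      intro n
      rw [pow_mul]
      refine pow_le_pow_left₀ (by positivity) ?_ n
      nlinarith [mul_le_mul hZ2 hZ2 (by norm_num) hZ0.le]
    obtain ⟨q₂, hq₂1, hq₂2, hq₂3⟩ := hC₂ (ρ / 4) L (R.comp (C (q₁ : ℝ) * X)) (by positivity)
      (by linarith) (by
        rw [hρ4]
        refine (h4Z C₂).trans ?_
        have h1 : Z ^ E * Z ^ (3 * C₂) ≤ Z ^ E * L := by
          rw [← pow_add]
          exact ((hmono _ _ (by rw [hF]; omega)).trans hM).trans hLE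
        exact le_of_mul_le_mul_left h1 (by positivity)) hQd hS2
    rw [hρ4] at hq₂2 hq₂3
    have hcoef : ∀ j, (R.comp (C (q₁ : ℝ) * X)).coeff j = (q₁ : ℝ) ^ j * R.coeff j := by
      intro j
      rw [comp_C_mul_X_coeff]; ring
    have hdesc := descend t P R q₁ q₂ a M Z (Z ^ G) hZ2 hM1 haM.le (by
        intro j hj1 hj2
        rw [hR, coeff_shift_split P₀ t hP₀d (a : ℝ) j hj2, hP₀c j hj2]
        congr 1
        refine sum_congr rfl fun i hi => ?_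
        rw [mem_Ioc] at hi
        rw [hP₀c i hi.2]) (by positivity) (by
        intro j hj1 hj2
        have h1 := hq₂3 j hj1 hj2
        rw [hcoef] at h1
        have h2 : (q₁ : ℝ) ^ (t - j) ≤ Z ^ (C₁ * t) := by
          calc (q₁ : ℝ) ^ (t - j) ≤ (Z ^ C₁) ^ (t - j) := by gcongr
            _ = Z ^ (C₁ * (t - j)) := by rw [← pow_mul]
            _ ≤ Z ^ (C₁ * t) := hmono _ _ (Nat.mul_le_mul_left _ (Nat.sub_le _ _))
        have h3 : (4 * Z) ^ C₂ / (L : ℝ) ^ j ≤ Z ^ (3 * C₂ + E * t) / (M : ℝ) ^ j := by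
          rw [div_le_div_iff₀ (by positivity) (by positivity)]
          calc (4 * Z) ^ C₂ * (M : ℝ) ^ j ≤ Z ^ (3 * C₂) * (Z ^ E * L) ^ j := by
                gcongr
                exact h4Z _
            _ = Z ^ (3 * C₂) * Z ^ (E * j) * (L : ℝ) ^ j := by rw [mul_pow, ← pow_mul]; ring
            _ ≤ Z ^ (3 * C₂) * Z ^ (E * t) * (L : ℝ) ^ j := by
                gcongr 2
                exact hmono _ _ (Nat.mul_le_mul_left _ hj2)
            _ = _ := by rw [← pow_add]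
        calc (q₁ : ℝ) ^ (t - j) * nd (q₂ * ((q₁ : ℝ) ^ j * R.coeff j)) ≤
            Z ^ (C₁ * t) * (Z ^ (3 * C₂ + E * t) / (M : ℝ) ^ j) :=
              mul_le_mul h2 (h1.trans h3) (nd_nonneg _) (by positivity)
          _ = Z ^ G / (M : ℝ) ^ j := by
              rw [← mul_div_assoc, ← pow_add, hG]
              congr 2; ring)
    refine ⟨q₂ * q₁ ^ t, Nat.mul_pos hq₂1 (pow_pos hq₁1 _), ?_, fun j hj1 hj2 => ?_⟩
    · push_cast
      calc (q₂ : ℝ) * (q₁ : ℝ) ^ t ≤ Z ^ (3 * C₂) * (Z ^ C₁) ^ t := by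
            gcongr
            exact hq₂2.trans (h4Z _)
        _ = Z ^ (3 * C₂ + C₁ * t) := by rw [← pow_mul, ← pow_add]
        _ ≤ Z ^ F := hmono _ _ (by rw [hF]; nlinarith)
    · rcases Nat.eq_or_lt_of_le hj2 with h | h
      · -- the top coefficient
        rw [h]
        have h1 : ((q₂ * q₁ ^ t : ℕ) : ℝ) * P.coeff (t + 1) =
            ((q₂ * q₁ ^ (t - 1) : ℕ) : ℝ) * ((q₁ : ℝ) * α) := by
          have : q₁ ^ t = q₁ ^ (t - 1) * q₁ := by rw [← pow_succ]; congr 1; omega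
          rw [this]; push_cast; ring
        rw [h1]
        refine (nd_nat_mul_le _ _).trans ?_
        push_cast
        calc (q₂ : ℝ) * (q₁ : ℝ) ^ (t - 1) * nd ((q₁ : ℝ) * α) ≤
            Z ^ (3 * C₂) * (Z ^ C₁) ^ (t - 1) * (Z ^ C₁ / (M : ℝ) ^ (t + 1)) := by
              gcongr
              · exact nd_nonneg _
              · exact hq₂2.trans (h4Z _)
          _ = Z ^ (3 * C₂ + C₁ * (t - 1) + C₁) / (M : ℝ) ^ (t + 1) := by
              rw [← pow_mul, pow_add, pow_add]; ring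
          _ ≤ Z ^ F / (M : ℝ) ^ (t + 1) := by
              gcongr 1
              refine hmono _ _ ?_
              have : C₁ * (t - 1) + C₁ ≤ C₁ * (t + 1) := by
                rw [← Nat.mul_succ]; exact Nat.mul_le_mul_left _ (by omega)
              rw [hF]; omega
      · refine (hdesc j hj1 (by omega)).trans ?_
        gcongr 1
        calc Z ^ G * (Z ^ (2 * t + 1)) ^ (t - j) = Z ^ (G + (2 * t + 1) * (t - j)) := by
              rw [← pow_mul, ← pow_add]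
          _ ≤ Z ^ F := by
              refine hmono _ _ ?_
              have : (2 * t + 1) * (t - j) ≤ (2 * t + 1) * t := Nat.mul_le_mul_left _ (Nat.sub_le _ _)
              rw [hF]; omega

end Pool.Agent.TU
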