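import Mathlib
import Pool.Agent.Lib.TU.Defs
import Pool.Agent.Lib.TU.WeylAll

/-!
# Theorem U, row H: rational coefficients, and the structured phases (helper31)
-/

set_option autoImplicit false
open Finset Polynomial

namespace Pool.Agent.TU.Hx

open Pool.Agent.Lib.MP_663568_nt Pool.Agent.Lib.MP_663568_nt.Katai
  Pool.Agent.Lib.MP_663568_nt.Nul

lemma nd_sum_le (s : Finset ℕ) (g : ℕ → ℝ) : nd (∑ i ∈ s, g i) ≤ ∑ i ∈ s, nd (g i) := by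
  classical
  induction s using Finset.induction_on with
  | empty => simp [show nd 0 = 0 by simpa using nd_int 0]
  | insert a s ha ih => rw [sum_insert ha, sum_insert ha]; exact (nd_add_le _ _).trans (by gcongr)

/-- The coefficients after a shift by at most `X`. -/
lemma shift_back (t : ℕ) (G : ℝ[X]) (hG : G.natDegree ≤ t) (j X Q : ℕ) (hX : 1 ≤ X) (hj : j ≤ X)
    (Y : ℝ) (hY : 0 ≤ Y)
    (h : ∀ i, 1 ≤ i → i ≤ t → nd ((Q : ℝ) * (G.comp (Polynomial.X + C (j : ℝ))).coeff i) ≤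
      Y / (X : ℝ) ^ i) (i : ℕ) (hi : 1 ≤ i) (hit : i ≤ t) :
    nd ((Q : ℝ) * G.coeff i) ≤ (t + 1) * 2 ^ t * Y / (X : ℝ) ^ i := by
  have hX0 : (0 : ℝ) < X := by exact_mod_cast hX
  set R := G.comp (Polynomial.X + C (j : ℝ)) with hR
  have hRd : R.natDegree ≤ t := by
    rw [hR, natDegree_comp, natDegree_X_add_C, mul_one]
    exact hG
  have hGR : G = R.comp (Polynomial.X + C (-(j : ℝ))) := by
    rw [hR, comp_assoc]
    simp
  have h1 := coeff_shift_split R t hRd (-(j : ℝ)) i hit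
  rw [← hGR] at h1
  have h2 : (Q : ℝ) * G.coeff i = (Q : ℝ) * R.coeff i + ∑ k ∈ Ioc i t,
      ((((-(j : ℤ)) ^ (k - i) * (k.choose i : ℤ) : ℤ) : ℝ) * ((Q : ℝ) * R.coeff k)) := by
    rw [h1, mul_add, mul_sum]
    congr 1
    refine sum_congr rfl fun k _ => ?_
    push_cast
    ring
  rw [h2]
  refine (nd_add_le _ _).trans ?_
  have h3 : ∀ k ∈ Ioc i t, nd ((((-(j : ℤ)) ^ (k - i) * (k.choose i : ℤ) : ℤ) : ℝ) *
      ((Q : ℝ) * R.coeff k)) ≤ 2 ^ t * Y / (X : ℝ) ^ i := by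
    intro k hk
    rw [mem_Ioc] at hk
    refine (nd_int_mul_le _ _).trans ?_
    have h4 : |(((-(j : ℤ)) ^ (k - i) * (k.choose i : ℤ) : ℤ) : ℝ)| ≤
        (X : ℝ) ^ (k - i) * 2 ^ t := by
      push_cast
      rw [abs_mul, abs_pow, abs_neg, Nat.abs_cast, Nat.abs_cast]
      have h7 : (k.choose i : ℝ) ≤ 2 ^ t := by
        have h8 : k.choose i ≤ 2 ^ t := (Nat.choose_le_two_pow k i).trans
          (Nat.pow_le_pow_right (by norm_num) hk.2)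
        exact_mod_cast h8
      have h9 : (j : ℝ) ^ (k - i) ≤ (X : ℝ) ^ (k - i) :=
        pow_le_pow_left₀ (Nat.cast_nonneg _) (by exact_mod_cast hj) _
      exact mul_le_mul h9 h7 (Nat.cast_nonneg _) (by positivity)
    have h5 := h k (by omega) hk.2
    calc _ ≤ ((X : ℝ) ^ (k - i) * 2 ^ t) * (Y / (X : ℝ) ^ k) := by
          gcongr
          exact nd_nonneg _
      _ = 2 ^ t * Y / (X : ℝ) ^ i := by
          have : (X : ℝ) ^ k = (X : ℝ) ^ (k - i) * (X : ℝ) ^ i := by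
            rw [← pow_add]; congr 1; omega
          rw [this]; field_simp
  refine (add_le_add (h i hi hit) ((nd_sum_le _ _).trans (sum_le_sum h3))).trans ?_
  rw [sum_const, Nat.card_Ioc, nsmul_eq_mul]
  have h6 : Y / (X : ℝ) ^ i ≤ 2 ^ t * Y / (X : ℝ) ^ i := by
    gcongr
    have : (1 : ℝ) ≤ 2 ^ t := one_le_pow₀ (by norm_num)
    nlinarith
  have h7 : ((t - i : ℕ) : ℝ) ≤ t := by exact_mod_cast Nat.sub_le _ _
  have h8 : 0 ≤ 2 ^ t * Y / (X : ℝ) ^ i := by positivity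
  calc Y / (X : ℝ) ^ i + ((t - i : ℕ) : ℝ) * (2 ^ t * Y / (X : ℝ) ^ i) ≤
      2 ^ t * Y / (X : ℝ) ^ i + (t : ℝ) * (2 ^ t * Y / (X : ℝ) ^ i) := by gcongr
    _ = _ := by ring

/-- Two dilates of the same polynomial phase correlate only if all coefficients are close to
rational numbers with bounded denominators. -/
lemma rat (hA : A_stmt) (t : ℕ) (ht : 1 ≤ t) (Z : ℕ) (η : ℝ) (hη : 0 < η) (hη1 : η ≤ 1 / 2) :
    ∃ (B : ℕ) (K : ℝ) (X₀ : ℕ), 0 ≤ K ∧ 1 ≤ X₀ ∧ ∀ X : ℕ, X₀ ≤ X → ∀ P : ℝ[X], P.natDegree ≤ t →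
      ∀ p q : ℕ, p ≠ q → p ≤ Z → q ≤ Z → ∀ j L : ℕ, j ≤ X → η * X ≤ L →
      η * L ≤ ‖∑ l ∈ Icc 1 L, ee (P.eval ((p * (j + l) : ℕ) : ℝ)) *
        (starRingEnd ℂ) (ee (P.eval ((q * (j + l) : ℕ) : ℝ)))‖ →
      ∃ b : ℕ, 1 ≤ b ∧ b ≤ B ∧ ∀ i, 1 ≤ i → i ≤ t →
        nd ((b : ℝ) * P.coeff i) ≤ K / (X : ℝ) ^ i := by
  obtain ⟨Cw, hCw1, hCw⟩ := hA t ht
  obtain ⟨Y, hY⟩ : ∃ Y : ℝ, Y = (1 / η) ^ Cw := ⟨_, rfl⟩
  have hη0 : (0 : ℝ) < 1 / η := by positivity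
  have hY0 : 0 < Y := by rw [hY]; positivity
  obtain ⟨K₁, hK₁⟩ : ∃ K₁ : ℝ, K₁ = Y * (1 / η) ^ t := ⟨_, rfl⟩
  have hK₁0 : 0 < K₁ := by rw [hK₁]; positivity
  refine ⟨⌊Y⌋₊ * (Z ^ t) ^ t, (Z ^ t : ℕ) ^ t * ((t + 1) * 2 ^ t * K₁), ⌈Y / η⌉₊ + 1,
    by positivity, by omega, ?_⟩
  intro X hX P hP p q hpq hp hq j L hj hL hS
  have hX0 : (0 : ℝ) < X := by exact_mod_cast (by omega : 0 < X)
  have hYX : Y / η ≤ X := (Nat.le_ceil _).trans (by exact_mod_cast (by omega : ⌈Y / η⌉₊ ≤ X))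
  have hYL : Y ≤ L := by
    rw [div_le_iff₀ hη] at hYX
    linarith [mul_comm η (X : ℝ)]
  have hL0 : (0 : ℝ) < L := lt_of_lt_of_le hY0 hYL
  set G : ℝ[X] := P.comp (C (p : ℝ) * Polynomial.X) - P.comp (C (q : ℝ) * Polynomial.X) with hG
  have hGd : G.natDegree ≤ t := by
    rw [hG]
    refine (natDegree_sub_le _ _).trans (max_le ?_ ?_)
    · refine natDegree_comp_le.trans ?_
      have : (C (p : ℝ) * Polynomial.X : ℝ[X]).natDegree ≤ 1 := (natDegree_C_mul_le _ _).trans natDegree_X_le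
      nlinarith
    · refine natDegree_comp_le.trans ?_
      have : (C (q : ℝ) * Polynomial.X : ℝ[X]).natDegree ≤ 1 := (natDegree_C_mul_le _ _).trans natDegree_X_le
      nlinarith
  have hGc : ∀ i, G.coeff i = ((p : ℝ) ^ i - (q : ℝ) ^ i) * P.coeff i := by
    intro i
    rw [hG, coeff_sub, comp_C_mul_X_coeff, comp_C_mul_X_coeff]
    ring
  have hRd : (G.comp (Polynomial.X + C (j : ℝ))).natDegree ≤ t := by
    rw [natDegree_comp, natDegree_X_add_C, mul_one]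
    exact hGd
  have hS2 : η * L ≤ ‖∑ l ∈ Icc 1 L, ee ((G.comp (Polynomial.X + C (j : ℝ))).eval (l : ℝ))‖ := by
    refine hS.trans (le_of_eq ?_)
    congr 1
    refine sum_congr rfl fun l _ => ?_
    rw [← ee_sub]
    congr 1
    rw [hG]
    simp only [eval_comp, eval_add, eval_sub, eval_mul, eval_X, eval_C]
    push_cast
    congr 2 <;> ring
  obtain ⟨Q, hQ1, hQ2, hQ3⟩ := hCw η L _ hη hη1 (by rw [← hY]; exact hYL) hRd hS2
  rw [← hY] at hQ2 hQ3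
  have hL2 : ∀ i, i ≤ t → Y / (L : ℝ) ^ i ≤ K₁ / (X : ℝ) ^ i := by
    intro i hi
    have h1 : (η * X) ^ i ≤ (L : ℝ) ^ i := pow_le_pow_left₀ (by positivity) hL _
    have h2 : (1 / η) ^ i ≤ (1 / η) ^ t := by
      refine pow_le_pow_right₀ ?_ hi
      rw [le_div_iff₀ hη]; linarith
    calc Y / (L : ℝ) ^ i ≤ Y / (η * X) ^ i := by gcongr
      _ = Y * (1 / η) ^ i / (X : ℝ) ^ i := by rw [mul_pow, one_div, inv_pow]; field_simp
      _ ≤ Y * (1 / η) ^ t / (X : ℝ) ^ i := by gcongr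
      _ = _ := by rw [hK₁]
  have hback := shift_back t G hGd j X Q (by omega) hj K₁ hK₁0.le
    (fun i hi hit => (hQ3 i hi hit).trans (hL2 i hit))
  -- the denominator
  obtain ⟨m, hm⟩ : ∃ m : ℕ → ℕ, m = fun i => ((p : ℤ) ^ i - (q : ℤ) ^ i).natAbs := ⟨_, rfl⟩
  have hm1 : ∀ i, 1 ≤ i → 1 ≤ m i := by
    intro i hi
    rw [hm]
    refine Nat.one_le_iff_ne_zero.2 ?_
    rw [Ne, Int.natAbs_eq_zero, sub_eq_zero]
    intro h
    have h' : p ^ i = q ^ i := by exact_mod_cast h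
    exact hpq (Nat.pow_left_injective (by omega : i ≠ 0) h')
  have hmZ : ∀ i ∈ Icc 1 t, m i ≤ Z ^ t := by
    intro i hi
    rw [mem_Icc] at hi
    rw [hm]
    have hZ : 1 ≤ Z := by
      rcases Nat.eq_zero_or_pos Z with h | h
      · omega
      · exact h
    have h1 : (p : ℤ) ^ i ≤ (Z : ℤ) ^ t := by
      have : p ^ i ≤ Z ^ t := (Nat.pow_le_pow_left hp i).trans (Nat.pow_le_pow_right hZ hi.2)
      exact_mod_cast this
    have h2 : (q : ℤ) ^ i ≤ (Z : ℤ) ^ t := by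
      have : q ^ i ≤ Z ^ t := (Nat.pow_le_pow_left hq i).trans (Nat.pow_le_pow_right hZ hi.2)
      exact_mod_cast this
    have h3 : (0 : ℤ) ≤ (p : ℤ) ^ i := by positivity
    have h4 : (0 : ℤ) ≤ (q : ℤ) ^ i := by positivity
    have h5 : |(p : ℤ) ^ i - (q : ℤ) ^ i| ≤ (Z : ℤ) ^ t := by
      rw [abs_le]; constructor <;> linarith
    have h6 : ((((p : ℤ) ^ i - (q : ℤ) ^ i).natAbs : ℕ) : ℤ) ≤ ((Z ^ t : ℕ) : ℤ) := by
      rw [Int.natCast_natAbs]; push_cast; exact h5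
    exact_mod_cast h6
  refine ⟨Q * ∏ i ∈ Icc 1 t, m i, ?_, ?_, ?_⟩
  · refine Nat.mul_pos hQ1 (prod_pos fun i hi => ?_)
    rw [mem_Icc] at hi
    exact hm1 i hi.1
  · refine Nat.mul_le_mul (Nat.le_floor hQ2) ?_
    calc ∏ i ∈ Icc 1 t, m i ≤ ∏ i ∈ Icc 1 t, Z ^ t := prod_le_prod' hmZ
      _ = (Z ^ t) ^ t := by simp
  · intro i hi hit
    have hit' : i ∈ Icc 1 t := mem_Icc.2 ⟨hi, hit⟩
    have h1 : ∏ i ∈ Icc 1 t, m i = m i * ∏ k ∈ (Icc 1 t).erase i, m k :=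
      (mul_prod_erase _ _ hit').symm
    have h2 : ∏ k ∈ (Icc 1 t).erase i, m k ≤ (Z ^ t) ^ t := by
      have hZ : 1 ≤ Z ^ t := (hm1 i hi).trans (hmZ i hit')
      calc ∏ k ∈ (Icc 1 t).erase i, m k ≤ ∏ k ∈ (Icc 1 t).erase i, Z ^ t :=
            prod_le_prod' fun k hk => hmZ k (mem_of_mem_erase hk)
        _ = (Z ^ t) ^ (#((Icc 1 t).erase i)) := by simp
        _ ≤ (Z ^ t) ^ t := by
            refine Nat.pow_le_pow_right hZ ?_
            refine (card_le_card (erase_subset _ _)).trans ?_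
            simp
    have h3 : nd ((m i : ℝ) * ((Q : ℝ) * P.coeff i)) ≤ (t + 1) * 2 ^ t * K₁ / (X : ℝ) ^ i := by
      have h4 := hback i hi hit
      rw [hGc i] at h4
      have h6 : (m i : ℝ) = |(p : ℝ) ^ i - (q : ℝ) ^ i| := by
        rw [hm]
        simp only [Nat.cast_natAbs]
        push_cast
        rfl
      rcases abs_choice ((p : ℝ) ^ i - (q : ℝ) ^ i) with h5 | h5
      · rw [h6, h5]
        refine le_trans (le_of_eq ?_) h4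
        congr 1; ring
      · rw [h6, h5]
        refine le_trans (le_of_eq ?_) h4
        rw [← nd_neg]
        congr 1; ring
    have h4 : (((Q * ∏ i ∈ Icc 1 t, m i : ℕ) : ℝ)) * P.coeff i =
        ((∏ k ∈ (Icc 1 t).erase i, m k : ℕ) : ℝ) * ((m i : ℝ) * ((Q : ℝ) * P.coeff i)) := by
      rw [h1]; push_cast; ring
    rw [h4]
    refine (nd_nat_mul_le _ _).trans ?_
    have h5 : ((∏ k ∈ (Icc 1 t).erase i, m k : ℕ) : ℝ) ≤ ((Z ^ t : ℕ) : ℝ) ^ t := by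
      exact_mod_cast h2
    calc _ ≤ ((Z ^ t : ℕ) : ℝ) ^ t * ((t + 1) * 2 ^ t * K₁ / (X : ℝ) ^ i) := by
          gcongr
          exact nd_nonneg _
      _ = _ := by ring

/-! ### Summation by parts -/

lemma by_parts (c w : ℕ → ℂ) (X : ℕ) : ∑ x ∈ Icc 1 X, c x * w x =
    (∑ x ∈ Icc 1 X, c x) * w (X + 1) -
      ∑ x ∈ Icc 1 X, (∑ y ∈ Icc 1 x, c y) * (w (x + 1) - w x) := by
  induction X with
  | zero => simp
  | succ X ih =>
    rw [sum_Icc_succ_top (by omega), sum_Icc_succ_top (by omega), ih, sum_Icc_succ_top (by omega)]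
    have h : ∑ y ∈ Icc 1 (X + 1), c y = ∑ y ∈ Icc 1 X, c y + c (X + 1) :=
      sum_Icc_succ_top (by omega) _
    rw [h]
    ring

lemma by_parts_le (c w : ℕ → ℂ) (hw : ∀ n, ‖w n‖ ≤ 1) (X : ℕ) (A V : ℝ) (hA : 0 ≤ A)
    (hc : ∀ Y ≤ X, ‖∑ x ∈ Icc 1 Y, c x‖ ≤ A)
    (hV : ∑ x ∈ Icc 1 X, ‖w (x + 1) - w x‖ ≤ V) :
    ‖∑ x ∈ Icc 1 X, c x * w x‖ ≤ A * (1 + V) := by
  rw [by_parts]
  refine (norm_sub_le _ _).trans ?_
  have h1 : ‖(∑ x ∈ Icc 1 X, c x) * w (X + 1)‖ ≤ A := by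
    rw [norm_mul]
    calc _ ≤ A * 1 := mul_le_mul (hc X le_rfl) (hw _) (norm_nonneg _) hA
      _ = A := mul_one _
  have h2 : ‖∑ x ∈ Icc 1 X, (∑ y ∈ Icc 1 x, c y) * (w (x + 1) - w x)‖ ≤ A * V := by
    refine (norm_sum_le _ _).trans ?_
    calc ∑ x ∈ Icc 1 X, ‖(∑ y ∈ Icc 1 x, c y) * (w (x + 1) - w x)‖ ≤
        ∑ x ∈ Icc 1 X, A * ‖w (x + 1) - w x‖ := by
          refine sum_le_sum fun x hx => ?_
          rw [mem_Icc] at hx
          rw [norm_mul]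
          exact mul_le_mul_of_nonneg_right (hc x hx.2) (norm_nonneg _)
      _ = A * ∑ x ∈ Icc 1 X, ‖w (x + 1) - w x‖ := by rw [mul_sum]
      _ ≤ A * V := by gcongr
  linarith

/-- The variation of a slowly varying polynomial phase. -/
lemma variation (t X : ℕ) (hX : 1 ≤ X) (θ : ℕ → ℝ) (θ₀ K : ℝ) (hK : 0 ≤ K)
    (hθ : ∀ i ∈ Icc 1 t, |θ i| ≤ K / (X : ℝ) ^ i) :
    ∑ x ∈ Icc 1 X, ‖ee (θ₀ + ∑ i ∈ Icc 1 t, θ i * ((x + 1 : ℕ) : ℝ) ^ i) -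
      ee (θ₀ + ∑ i ∈ Icc 1 t, θ i * (x : ℝ) ^ i)‖ ≤ 2 * Real.pi * (t * (K * 2 ^ t)) := by
  have hX0 : (0 : ℝ) < X := by exact_mod_cast hX
  have h1 : ∀ x ∈ Icc 1 X, ‖ee (θ₀ + ∑ i ∈ Icc 1 t, θ i * ((x + 1 : ℕ) : ℝ) ^ i) -
      ee (θ₀ + ∑ i ∈ Icc 1 t, θ i * (x : ℝ) ^ i)‖ ≤
      2 * Real.pi * ∑ i ∈ Icc 1 t, K / (X : ℝ) ^ i * (((x + 1 : ℕ) : ℝ) ^ i - (x : ℝ) ^ i) := by
    intro x _
    refine (Katai.norm_ee_sub_ee_le _ _).trans ?_
    refine mul_le_mul_of_nonneg_left ?_ (by positivity)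
    rw [add_sub_add_left_eq_sub, ← sum_sub_distrib]
    refine (abs_sum_le_sum_abs _ _).trans (sum_le_sum fun i hi => ?_)
    rw [← mul_sub, abs_mul]
    have h2 : (x : ℝ) ^ i ≤ ((x + 1 : ℕ) : ℝ) ^ i :=
      pow_le_pow_left₀ (Nat.cast_nonneg _) (by push_cast; linarith) _
    rw [abs_of_nonneg (sub_nonneg.2 h2)]
    exact mul_le_mul_of_nonneg_right (hθ i hi) (sub_nonneg.2 h2)
  refine (sum_le_sum h1).trans ?_
  rw [← mul_sum, sum_comm]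
  refine mul_le_mul_of_nonneg_left ?_ (by positivity)
  have h2 : ∀ i ∈ Icc 1 t, ∑ x ∈ Icc 1 X, K / (X : ℝ) ^ i * (((x + 1 : ℕ) : ℝ) ^ i - (x : ℝ) ^ i) ≤
      K * 2 ^ t := by
    intro i hi
    rw [mem_Icc] at hi
    rw [← mul_sum]
    have h3 : ∑ x ∈ Icc 1 X, (((x + 1 : ℕ) : ℝ) ^ i - (x : ℝ) ^ i) = ((X + 1 : ℕ) : ℝ) ^ i - 1 := by
      clear h1 hθ hX hX0
      induction X with
      | zero => simp
      | succ X ih => rw [sum_Icc_succ_top (by omega), ih]; ring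
    rw [h3]
    have h4 : ((X + 1 : ℕ) : ℝ) ^ i - 1 ≤ 2 ^ t * (X : ℝ) ^ i := by
      have h5 : ((X + 1 : ℕ) : ℝ) ≤ 2 * X := by
        have : (1 : ℝ) ≤ X := by exact_mod_cast hX
        push_cast; linarith
      have h6 : ((X + 1 : ℕ) : ℝ) ^ i ≤ (2 * X) ^ i := pow_le_pow_left₀ (Nat.cast_nonneg _) h5 _
      have h7 : (2 : ℝ) ^ i ≤ 2 ^ t := pow_le_pow_right₀ (by norm_num) hi.2
      have h8 : (2 * (X : ℝ)) ^ i ≤ 2 ^ t * (X : ℝ) ^ i := by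
        rw [mul_pow]; gcongr
      linarith
    calc K / (X : ℝ) ^ i * (((X + 1 : ℕ) : ℝ) ^ i - 1) ≤
        K / (X : ℝ) ^ i * (2 ^ t * (X : ℝ) ^ i) := by gcongr
      _ = _ := by field_simp
  refine (sum_le_sum h2).trans (le_of_eq ?_)
  rw [sum_const, Nat.card_Icc, nsmul_eq_mul]
  simp

end Pool.Agent.TU.Hx
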