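import Mathlib
import Pool.Agent.Lib.TU.HKat
import Pool.Agent.Lib.TU.HAp
import Pool.Agent.Lib.TU.HRat

/-!
# Theorem U, row H: Davenport and Hua (helper31)
-/

set_option autoImplicit false
open Finset Polynomial

namespace Pool.Agent.TU

open Pool.Agent.Lib.MP_663568_nt Pool.Agent.Lib.MP_663568_nt.Katai
  Pool.Agent.Lib.MP_663568_nt.Nul

namespace Hx

/-- A rational phase is periodic. -/
lemma rat_phase (t b : ℕ) (hb : 1 ≤ b) (a : ℕ → ℤ) (x : ℕ) :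
    ee (∑ i ∈ Icc 1 t, (a i : ℝ) / b * (x : ℝ) ^ i) =
      ee (∑ i ∈ Icc 1 t, (a i : ℝ) / b * ((x % b : ℕ) : ℝ) ^ i) := by
  have hb0 : (b : ℝ) ≠ 0 := by exact_mod_cast (by omega : b ≠ 0)
  have h1 : ∀ i : ℕ, ∃ z : ℤ, (x : ℤ) ^ i = ((x % b : ℕ) : ℤ) ^ i + b * z := by
    intro i
    have h2 : (x : ℤ) ≡ ((x % b : ℕ) : ℤ) [ZMOD b] := by
      rw [Int.natCast_mod]
      exact (Int.mod_modEq _ _).symm
    obtain ⟨z, hz⟩ := ((h2.pow i).symm).dvd
    exact ⟨z, by linarith⟩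
  choose z hz using h1
  have h3 : ∑ i ∈ Icc 1 t, (a i : ℝ) / b * (x : ℝ) ^ i =
      ∑ i ∈ Icc 1 t, (a i : ℝ) / b * ((x % b : ℕ) : ℝ) ^ i +
        ((∑ i ∈ Icc 1 t, a i * z i : ℤ) : ℝ) := by
    push_cast
    rw [← sum_add_distrib]
    refine sum_congr rfl fun i _ => ?_
    have h4 : (x : ℝ) ^ i = ((x % b : ℕ) : ℝ) ^ i + b * (z i : ℝ) := by
      have h5 : (((x : ℤ) ^ i : ℤ) : ℝ) = ((((x % b : ℕ) : ℤ) ^ i + b * z i : ℤ) : ℝ) := by
        rw [hz i]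
      push_cast at h5 ⊢
      exact h5
    rw [h4]
    field_simp
  rw [h3, ee_add, ee_int, mul_one]

/-- The structured phases do not correlate with the Moebius function. -/
lemma structured (t B : ℕ) (K ε : ℝ) (hK : 0 ≤ K) (hε : 0 < ε) : ∃ X₀ : ℕ, ∀ X : ℕ, X₀ ≤ X →
    ∀ P : ℝ[X], P.natDegree ≤ t → ∀ b : ℕ, 1 ≤ b → b ≤ B →
    (∀ i, 1 ≤ i → i ≤ t → nd ((b : ℝ) * P.coeff i) ≤ K / (X : ℝ) ^ i) →
    ‖∑ x ∈ Icc 1 X, muC x * ee (P.eval (x : ℝ))‖ ≤ ε * X := by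
  obtain ⟨V, hV⟩ : ∃ V : ℝ, V = 2 * Real.pi * (t * (K * 2 ^ t)) := ⟨_, rfl⟩
  have hV0 : 0 ≤ V := by rw [hV]; have := Real.pi_pos; positivity
  obtain ⟨X₀, hX₀⟩ := ap (ε / ((B + 1) * (1 + V))) (by positivity) B
  refine ⟨X₀ + 1, fun X hX P hP b hb hbB hnd => ?_⟩
  have hX0 : (0 : ℝ) < X := by exact_mod_cast (by omega : 0 < X)
  have hb0 : (1 : ℝ) ≤ b := by exact_mod_cast hb
  -- the rational approximations
  choose a ha using fun i : ℕ => nd_exists ((b : ℝ) * P.coeff i)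
  set θ : ℕ → ℝ := fun i => P.coeff i - (a i : ℝ) / b with hθ
  have hθ1 : ∀ i ∈ Icc 1 t, |θ i| ≤ K / (X : ℝ) ^ i := by
    intro i hi
    rw [mem_Icc] at hi
    have h1 := hnd i hi.1 hi.2
    rw [ha i] at h1
    have h2 : (b : ℝ) * P.coeff i - a i = b * θ i := by
      simp only [hθ]
      field_simp
    rw [h2, abs_mul, Nat.abs_cast] at h1
    have h3 : 1 * |θ i| ≤ b * |θ i| := mul_le_mul_of_nonneg_right hb0 (abs_nonneg _)
    linarith
  set g : ℕ → ℂ := fun x => ee (∑ i ∈ Icc 1 t, (a i : ℝ) / b * (x : ℝ) ^ i) with hg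
  set w : ℕ → ℂ := fun x => ee (P.coeff 0 + ∑ i ∈ Icc 1 t, θ i * (x : ℝ) ^ i) with hw
  have hsplit : ∀ x : ℕ, muC x * ee (P.eval (x : ℝ)) = (muC x * g x) * w x := by
    intro x
    rw [mul_assoc, hg, hw]
    simp only
    rw [← ee_add]
    congr 2
    rw [eval_eq_sum_range' (Nat.lt_succ_of_le hP), range_eq_Ico,
      sum_eq_sum_Ico_succ_bot (by omega : 0 < t + 1)]
    have e1 : Ico (0 + 1) (t + 1) = Icc 1 t := by ext; simp only [mem_Ico, mem_Icc]; omega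
    rw [e1, pow_zero, mul_one]
    have e2 : ∑ i ∈ Icc 1 t, P.coeff i * (x : ℝ) ^ i =
        ∑ i ∈ Icc 1 t, (a i : ℝ) / b * (x : ℝ) ^ i + ∑ i ∈ Icc 1 t, θ i * (x : ℝ) ^ i := by
      rw [← sum_add_distrib]
      refine sum_congr rfl fun i _ => ?_
      simp only [hθ]
      ring
    rw [e2]
    ring
  rw [sum_congr rfl fun x _ => hsplit x]
  have hvar : ∑ x ∈ Icc 1 X, ‖w (x + 1) - w x‖ ≤ V := by
    rw [hV]
    exact variation t X (by omega) θ (P.coeff 0) K hK hθ1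
  have hpart : ∀ Y ≤ X, ‖∑ x ∈ Icc 1 Y, muC x * g x‖ ≤ ε / (1 + V) * X := by
    intro Y hY
    have h1 : ∑ x ∈ Icc 1 Y, muC x * g x =
        ∑ r ∈ range b, g r * ∑ x ∈ Icc 1 Y, (if x % b = r then muC x else 0) := by
      have h2 : ∀ r ∈ range b, g r * ∑ x ∈ Icc 1 Y, (if x % b = r then muC x else 0) =
          ∑ x ∈ Icc 1 Y, (if x % b = r then muC x * g x else 0) := by
        intro r _
        rw [mul_sum]
        refine sum_congr rfl fun x _ => ?_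
        split_ifs with h
        · have : g x = g r := by
            simp only [hg]
            rw [rat_phase t b hb a x, h]
          rw [this, mul_comm]
        · simp
      rw [sum_congr rfl h2, sum_comm]
      refine sum_congr rfl fun x _ => ?_
      rw [sum_ite_eq, if_pos (mem_range.2 (Nat.mod_lt _ (by omega)))]
    rw [h1]
    refine (norm_sum_le _ _).trans ?_
    have h3 : ∀ r ∈ range b, ‖g r * ∑ x ∈ Icc 1 Y, (if x % b = r then muC x else 0)‖ ≤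
        ε / ((B + 1) * (1 + V)) * X := by
      intro r hr
      rw [norm_mul]
      have : ‖g r‖ = 1 := norm_ee _
      rw [this, one_mul]
      exact hX₀ X (by omega) b r hb hbB (mem_range.1 hr) Y hY
    refine (sum_le_sum h3).trans ?_
    rw [sum_const, card_range, nsmul_eq_mul]
    have h4 : (b : ℝ) ≤ B + 1 := by
      have : (b : ℝ) ≤ B := by exact_mod_cast hbB
      linarith
    calc (b : ℝ) * (ε / ((B + 1) * (1 + V)) * X) ≤ (B + 1) * (ε / ((B + 1) * (1 + V)) * X) := by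
          gcongr
      _ = _ := by field_simp
  have hfin := by_parts_le (fun x => muC x * g x) w (fun n => (norm_ee _).le) X
    (ε / (1 + V) * X) V (by positivity) hpart hvar
  refine hfin.trans (le_of_eq ?_)
  have : (1 + V) ≠ 0 := by positivity
  field_simp

end Hx

open Hx in
/-- **Row H: the theorem of Davenport and Hua.** -/
theorem rowH (hA : A_stmt) : H_stmt := by
  intro t ε hε
  -- we may assume that the degree is positive
  suffices h : ∀ t : ℕ, 1 ≤ t → ∃ X₀ : ℕ, ∀ X : ℕ, X₀ ≤ X → ∀ P : ℝ[X],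
      P.natDegree ≤ t → ‖∑ x ∈ Icc 1 X, muC x * ee (P.eval (x : ℝ))‖ ≤ ε * X by
    obtain ⟨X₀, hX₀⟩ := h (t + 1) (by omega)
    exact ⟨X₀, fun X hX P hP => hX₀ X hX P (by omega)⟩
  clear t
  intro t ht
  obtain ⟨Pr, hPr, η, hη, hη1, X₁, hX₁1, hX₁⟩ := katai ε hε
  obtain ⟨Z, hZ⟩ : ∃ Z : ℕ, ∀ p ∈ Pr, p ≤ Z := ⟨Pr.sup id, fun p hp => le_sup (f := id) hp⟩
  obtain ⟨B, K, X₂, hK, hX₂1, hX₂⟩ := rat hA t ht Z η hη hη1
  obtain ⟨X₃, hX₃⟩ := structured t B K ε hK hε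
  refine ⟨X₁ + X₂ + X₃, fun X hX P hP => ?_⟩
  by_contra hcon
  push Not at hcon
  obtain ⟨p, hp, q, hq, hpq, j, L, hj, hL, hS⟩ := hX₁ X (by omega)
    (fun x => ee (P.eval (x : ℝ))) (fun n => (norm_ee _).le) hcon
  obtain ⟨b, hb1, hbB, hb⟩ := hX₂ X (by omega) P hP p q hpq (hZ p hp) (hZ q hq) j L hj hL hS
  exact absurd (hX₃ X (by omega) P hP b hb1 hbB hb) (not_le.2 hcon)

end Pool.Agent.TU
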