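import Pool.Agent.Lib.TU.Defs
import Pool.Agent.Lib.TU.WeylAll

namespace Pool.Agent.TU

theorem rowA : A_stmt := weyl_all

end Pool.Agent.TU
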