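import Pool.Agent.Lib.TU.Defs
import Pool.Agent.Lib.MP_663568_nt.Log

/-!
# Theorem U: the final assembly (row Z)
-/

set_option autoImplicit false
open Finset Polynomial MeasureTheory

namespace Pool.Agent.TU

open Pool.Agent.Lib.MP_663568_nt Pool.Agent.Lib.MP_663568_nt.Katai
  Pool.Agent.Lib.MP_663568_nt.Nul

namespace ZZ

theorem sum_shift (f : ℕ → ℂ) (n H : ℕ) :
    ∑ h ∈ Icc 1 H, f (n + h) = ∑ x ∈ Icc 1 (n + H), f x - ∑ x ∈ Icc 1 n, f x := by
  induction H with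
  | zero => simp
  | succ H ih =>
    rw [Finset.sum_Icc_succ_top (by omega), ih, ← add_assoc, Finset.sum_Icc_succ_top (by omega)]
    ring

theorem norm_sum_le_card {g : ℕ → ℂ} (hg : ∀ y, ‖g y‖ ≤ 1) (k : ℕ) :
    ‖∑ h ∈ Icc 1 k, g h‖ ≤ k := by
  refine (norm_sum_le _ _).trans ?_
  refine (Finset.sum_le_sum fun h _ => hg _).trans ?_
  simp

/-- Moving a window by `k` changes the sum by at most `2 k`. -/
theorem shift_le {g : ℕ → ℂ} (hg : ∀ y, ‖g y‖ ≤ 1) (k H : ℕ) :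
    ‖∑ h ∈ Icc 1 H, g (k + h)‖ ≤ ‖∑ y ∈ Icc 1 H, g y‖ + 2 * k := by
  have e : ∑ h ∈ Icc 1 H, g (k + h) =
      ∑ y ∈ Icc 1 H, g y + ∑ h ∈ Icc 1 k, g (H + h) - ∑ y ∈ Icc 1 k, g y := by
    rw [sum_shift g k H, sum_shift g H k, add_comm k H]
    ring
  have h1 : ‖∑ h ∈ Icc 1 k, g (H + h)‖ ≤ k := norm_sum_le_card (fun y => hg (H + y)) k
  have h2 : ‖∑ h ∈ Icc 1 k, g h‖ ≤ k := norm_sum_le_card hg k
  rw [e]
  have h3 := norm_sub_le (∑ y ∈ Icc 1 H, g y + ∑ h ∈ Icc 1 k, g (H + h)) (∑ y ∈ Icc 1 k, g y)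
  have h4 := norm_add_le (∑ y ∈ Icc 1 H, g y) (∑ h ∈ Icc 1 k, g (H + h))
  linarith

/-- The polynomial `ph α (x - n)`. -/
noncomputable def shp {t : ℕ} (α : Fin t → ℝ) (n : ℝ) : ℝ[X] :=
  ∑ i : Fin t, C (α i) * (X - C n) ^ (i.val + 1)

theorem shp_eval {t : ℕ} (α : Fin t → ℝ) (n x : ℝ) : (shp α n).eval x = ph α (x - n) := by
  simp [shp, ph, eval_finsetSum]

theorem shp_natDegree {t : ℕ} (α : Fin t → ℝ) (n : ℝ) : (shp α n).natDegree ≤ t := by
  unfold shp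
  refine natDegree_sum_le_of_forall_le _ _ fun i _ => ?_
  refine (natDegree_C_mul_le _ _).trans ?_
  refine natDegree_pow_le.trans ?_
  rw [natDegree_X_sub_C, mul_one]
  exact i.2

/-- The supremum in the theorem. -/
noncomputable def F {t : ℕ} (B : Set (Fin t → ℝ)) (H n : ℕ) : ℝ :=
  ⨆ α : {α : Fin t → ℝ // α ∈ B},
    ‖∑ h ∈ Icc 1 H, muC (n + h) * ee (ph (α : Fin t → ℝ) (h : ℝ))‖

theorem norm_term_le (n : ℕ) (x : ℝ) : ‖muC n * ee x‖ ≤ 1 := by
  rw [norm_mul, norm_ee, mul_one]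
  exact norm_muC n

theorem F_le {t : ℕ} (B : Set (Fin t → ℝ)) (H n : ℕ) : F B H n ≤ H :=
  Real.iSup_le (fun α => norm_sum_le_card
    (g := fun h => muC (n + h) * ee (ph (α : Fin t → ℝ) (h : ℝ)))
    (fun _ => norm_term_le _ _) H) (Nat.cast_nonneg H)

theorem exists_of_lt {t : ℕ} {B : Set (Fin t → ℝ)} {H n : ℕ} {c : ℝ} (hc : 0 ≤ c)
    (h : c < F B H n) : ∃ α ∈ B, c < ‖∑ h ∈ Icc 1 H, muC (n + h) * ee (ph α (h : ℝ))‖ := by
  by_contra hne
  push Not at hne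
  exact absurd (Real.iSup_le (fun α : {α : Fin t → ℝ // α ∈ B} => hne α.1 α.2) hc) (not_le.2 h)

/-- The beginning of the sum. -/
theorem start (hH : H_stmt) (t : ℕ) {c : ℝ} (hc : 0 < c) : ∃ H₀ : ℕ, ∀ H : ℕ, H₀ ≤ H →
    ∀ n : ℕ, n ≤ 2 * H → ∀ α : Fin t → ℝ,
    ‖∑ h ∈ Icc 1 H, muC (n + h) * ee (ph α (h : ℝ))‖ ≤ c * H := by
  obtain ⟨X₀, hX⟩ := hH t (c / 6) (by positivity)
  refine ⟨max X₀ ⌈(X₀ : ℝ) / (c / 6)⌉₊, fun H hHH n hn α => ?_⟩
  have hHX : X₀ ≤ H := le_trans (le_max_left _ _) hHH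
  have hHc : (X₀ : ℝ) ≤ c / 6 * H := by
    have h1 : (X₀ : ℝ) / (c / 6) ≤ (H : ℝ) :=
      le_trans (Nat.le_ceil _) (by exact_mod_cast le_trans (le_max_right _ _) hHH)
    rw [div_le_iff₀ (by positivity)] at h1
    linarith
  have e : ∑ h ∈ Icc 1 H, muC (n + h) * ee (ph α (h : ℝ)) =
      ∑ x ∈ Icc 1 (n + H), muC x * ee ((shp α n).eval (x : ℝ)) -
        ∑ x ∈ Icc 1 n, muC x * ee ((shp α n).eval (x : ℝ)) := by
    rw [← sum_shift (fun x => muC x * ee ((shp α n).eval (x : ℝ))) n H]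
    refine Finset.sum_congr rfl fun h _ => ?_
    rw [shp_eval]
    push_cast
    rw [add_sub_cancel_left]
  have h1 := hX (n + H) (by omega) (shp α n) (shp_natDegree α n)
  have hn' : (n : ℝ) ≤ 2 * H := by exact_mod_cast hn
  have h2 : ‖∑ x ∈ Icc 1 n, muC x * ee ((shp α n).eval (x : ℝ))‖ ≤ c / 6 * H + c / 6 * (2 * H) := by
    by_cases hnX : X₀ ≤ n
    · have := hX n hnX (shp α n) (shp_natDegree α n)
      have h3 : c / 6 * (n : ℝ) ≤ c / 6 * (2 * H) := by gcongr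
      have h4 : 0 ≤ c / 6 * (H : ℝ) := by positivity
      linarith
    · have := norm_sum_le_card (g := fun x => muC x * ee ((shp α n).eval (x : ℝ)))
        (fun _ => norm_term_le _ _) n
      have h3 : (n : ℝ) ≤ X₀ := by exact_mod_cast (not_le.1 hnX).le
      have h4 : 0 ≤ c / 6 * (2 * (H : ℝ)) := by positivity
      linarith
  rw [e]
  refine (norm_sub_le _ _).trans ?_
  push_cast at h1
  have h5 : c / 6 * ((n : ℝ) + H) ≤ c / 6 * (2 * H + H) := by gcongr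
  nlinarith

/-- One window of length `M` with many good points is a cluster. -/
theorem cluster (hB2 : B2_stmt) {t : ℕ} (ht : 1 ≤ t) {c c₅ : ℝ} (hc : 0 < c) (hc1 : c ≤ 1)
    (hc5 : 0 < c₅) : ∃ (D : ℕ) (K c₄ : ℝ) (e : ℕ), 1 ≤ D ∧ 0 < K ∧ 0 < c₄ ∧ 1 ≤ e ∧
    ∃ H₀ : ℕ, ∀ H : ℕ, H₀ ≤ H → 1 ≤ H / e ∧ ∀ B : Set (Fin t → ℝ), ∀ m : ℕ, H ≤ m →
      ∀ G : Finset ℕ, G ⊆ Icc 1 (H / e) → (∀ k ∈ G, 2 * c * H < F B H (m + k)) →
      c₅ * (H / e : ℕ) < #G → Cl t t 1 (Sh D B) 1 c c₄ e K H m := by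
  obtain ⟨c₄, hc4, D, hD, K, hK, H₀, hmain⟩ := hB2 t ht c hc hc1
  set e : ℕ := ⌈2 / c⌉₊ + 1 with he
  have he1 : 1 ≤ e := by omega
  have he0 : (0 : ℝ) < e := by exact_mod_cast he1
  have hec : 2 / c ≤ (e : ℝ) := by
    rw [he]; push_cast
    linarith [Nat.le_ceil (2 / c)]
  refine ⟨D, K, c₄ * c₅ / (2 * e), e, hD, hK, by positivity, he1, max H₀ (2 * e), ?_⟩
  intro H hH
  have hH0 : H₀ ≤ H := le_trans (le_max_left _ _) hH
  have hHe : 2 * e ≤ H := le_trans (le_max_right _ _) hH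
  have hM1 : 1 ≤ H / e := (Nat.one_le_div_iff (by omega)).2 (by omega)
  have hMle : ((H / e : ℕ) : ℝ) * e ≤ H := by exact_mod_cast Nat.div_mul_le_self H e
  have hMge : (H : ℝ) / (2 * e) ≤ ((H / e : ℕ) : ℝ) := by
    have h1 : H < (H / e + 1) * e := by
      have := Nat.lt_div_mul_add (a := H) (b := e) (by omega)
      nlinarith
    have h2 : (H : ℝ) < (((H / e : ℕ) : ℝ) + 1) * e := by exact_mod_cast h1
    have h3 : (1 : ℝ) ≤ ((H / e : ℕ) : ℝ) := by exact_mod_cast hM1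
    rw [div_le_iff₀ (by positivity)]
    nlinarith
  refine ⟨hM1, fun B m hm G hG hF hcard => ?_⟩
  have hGne : G.Nonempty := by
    rw [← Finset.card_pos]
    have : (0 : ℝ) < #G := lt_of_le_of_lt (by positivity) hcard
    exact_mod_cast this
  choose! α hαB hα using fun k (hk : k ∈ G) =>
    exists_of_lt (B := B) (by positivity : (0 : ℝ) ≤ 2 * c * H) (hF k hk)
  have hwin : ∀ k ∈ G, c * H ≤ ‖∑ y ∈ Icc 1 H, muC (m + y) * ee (ph (α k) ((y : ℝ) - (k : ℝ)))‖ := by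
    intro k hk
    have hkM : k ≤ H / e := (Finset.mem_Icc.1 (hG hk)).2
    have hk2 : 2 * (k : ℝ) ≤ c * H := by
      have h1 : (k : ℝ) ≤ ((H / e : ℕ) : ℝ) := by exact_mod_cast hkM
      have h2 : (k : ℝ) * e ≤ H := by nlinarith
      have h3 : 2 ≤ c * e := by
        rw [div_le_iff₀ hc] at hec
        linarith
      have h4 : (0 : ℝ) ≤ k := Nat.cast_nonneg k
      nlinarith
    have h1 := shift_le (g := fun y => muC (m + y) * ee (ph (α k) ((y : ℝ) - (k : ℝ))))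
      (fun _ => norm_term_le _ _) k H
    have e1 : ∑ h ∈ Icc 1 H, muC (m + (k + h)) * ee (ph (α k) (((k + h : ℕ) : ℝ) - (k : ℝ))) =
        ∑ h ∈ Icc 1 H, muC (m + k + h) * ee (ph (α k) (h : ℝ)) := by
      refine Finset.sum_congr rfl fun h _ => ?_
      push_cast
      rw [add_sub_cancel_left, add_assoc]
    have h2 := hα k hk
    rw [← e1] at h2
    have h3 : ‖∑ h ∈ Icc 1 H, muC (m + (k + h)) * ee (ph (α k) (((k + h : ℕ) : ℝ) - (k : ℝ)))‖ ≤
      ‖∑ y ∈ Icc 1 H, muC (m + y) * ee (ph (α k) ((y : ℝ) - (k : ℝ)))‖ + 2 * k := h1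
    nlinarith
  obtain ⟨R, hR, hRc, G', hG', hG'c, hG'N⟩ := hmain H (H / e) hH0 (Nat.div_le_self H e) B
    (fun y => muC (m + y)) (fun _ => norm_muC _) G α hG hGne hαB hwin
  refine ⟨hm, R, hR, fun j h1 h2 => absurd h1 (not_lt.2 h2), hRc, ?_⟩
  have hcardG' : #G' ≤ Nat.card {k : ℕ // k ∈ Icc 1 (H / e) ∧ tv t R (k : ℝ) ∈ Nb (Sh D B) (K / H)} := by
    have hfin : Finite {k : ℕ // k ∈ Icc 1 (H / e) ∧ tv t R (k : ℝ) ∈ Nb (Sh D B) (K / H)} :=
      Finite.of_injective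
        (fun k => (⟨k.1, k.2.1⟩ : {k : ℕ // k ∈ Icc 1 (H / e)}))
        (fun a b h => Subtype.ext (congrArg (fun x => (x : {k : ℕ // k ∈ Icc 1 (H / e)}).1) h))
    have := Nat.card_le_card_of_injective
      (fun k : {k : ℕ // k ∈ G'} => (⟨k.1, hG (hG' k.2), hG'N k.1 k.2⟩ :
        {k : ℕ // k ∈ Icc 1 (H / e) ∧ tv t R (k : ℝ) ∈ Nb (Sh D B) (K / H)}))
      (fun a b h => Subtype.ext (congrArg (fun x => (x : {k : ℕ // k ∈ Icc 1 (H / e) ∧
        tv t R (k : ℝ) ∈ Nb (Sh D B) (K / H)}).1) h))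
    simpa using this
  have h5 : c₄ * c₅ / (2 * e) * H ≤ c₄ * (c₅ * ((H / e : ℕ) : ℝ)) := by
    have : c₄ * c₅ / (2 * e) * H = c₄ * (c₅ * (H / (2 * e))) := by ring
    rw [this]
    gcongr
  have h6 : c₄ * (c₅ * ((H / e : ℕ) : ℝ)) ≤ c₄ * #G := by gcongr
  have h7 : ((#G' : ℕ) : ℝ) ≤ Nat.card {k : ℕ // k ∈ Icc 1 (H / e) ∧
      tv t R (k : ℝ) ∈ Nb (Sh D B) (K / H)} := by exact_mod_cast hcardG'
  linarith

open Classical in
/-- Double counting. -/
theorem dcount (W : Finset ℕ) (N H M : ℕ) (hMH : M ≤ H) (hW : ∀ n ∈ W, 2 * H < n ∧ n ≤ N) :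
    (M : ℝ) * ∑ n ∈ W, (1 / (n : ℝ)) ≤
      ∑ m ∈ (Icc 1 N).filter (fun m => H ≤ m),
        (1 / (m : ℝ)) * #{k ∈ Icc 1 M | m + k ∈ W} := by
  have h1 : ∀ k ∈ Icc 1 M, ∑ n ∈ W, (1 / (n : ℝ)) ≤
      ∑ m ∈ (Icc 1 N).filter (fun m => H ≤ m), (if m + k ∈ W then 1 / (m : ℝ) else 0) := by
    intro k hk
    rw [Finset.mem_Icc] at hk
    calc ∑ n ∈ W, (1 / (n : ℝ)) ≤ ∑ n ∈ W, (1 / ((n - k : ℕ) : ℝ)) := by
          refine Finset.sum_le_sum fun n hn => ?_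
          have hn' := hW n hn
          have h2 : (0 : ℝ) < ((n - k : ℕ) : ℝ) := by
            have : 0 < n - k := by omega
            exact_mod_cast this
          apply one_div_le_one_div_of_le h2
          exact_mod_cast Nat.sub_le n k
      _ = ∑ m ∈ W.image (fun n => n - k), (1 / (m : ℝ)) := by
          rw [Finset.sum_image]
          intro a ha b hb hab
          have h3 := hW a ha
          have h4 := hW b hb
          simp only at hab
          omega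
      _ ≤ ∑ m ∈ ((Icc 1 N).filter (fun m => H ≤ m)).filter (fun m => m + k ∈ W),
            (1 / (m : ℝ)) := by
          refine Finset.sum_le_sum_of_subset_of_nonneg ?_ (fun _ _ _ => by positivity)
          intro m hm
          rw [Finset.mem_image] at hm
          obtain ⟨n, hn, rfl⟩ := hm
          have h3 := hW n hn
          simp only [Finset.mem_filter, Finset.mem_Icc]
          refine ⟨⟨⟨by omega, by omega⟩, by omega⟩, ?_⟩
          have : n - k + k = n := by omega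
          rw [this]
          exact hn
      _ = _ := by rw [Finset.sum_filter]
  calc (M : ℝ) * ∑ n ∈ W, (1 / (n : ℝ)) = ∑ k ∈ Icc 1 M, ∑ n ∈ W, (1 / (n : ℝ)) := by
        rw [Finset.sum_const, nsmul_eq_mul]; simp
    _ ≤ ∑ k ∈ Icc 1 M, ∑ m ∈ (Icc 1 N).filter (fun m => H ≤ m),
          (if m + k ∈ W then 1 / (m : ℝ) else 0) := Finset.sum_le_sum h1
    _ = ∑ m ∈ (Icc 1 N).filter (fun m => H ≤ m), ∑ k ∈ Icc 1 M,
          (if m + k ∈ W then 1 / (m : ℝ) else 0) := Finset.sum_comm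
    _ = _ := by
        refine Finset.sum_congr rfl fun m _ => ?_
        rw [← Finset.sum_filter, Finset.sum_const, nsmul_eq_mul, mul_comm]

end ZZ

open ZZ in
/-- Row Z. -/
theorem rowZ (hB2 : B2_stmt) (hB3 : B3_stmt) (hG : G_stmt) (hH : H_stmt) : U_stmt := by
  classical
  intro t ht B hB hP hN ε hε
  set ε₁ : ℝ := min ε 1 with hε1
  have hε1p : 0 < ε₁ := lt_min hε one_pos
  have hε1le : ε₁ ≤ ε := min_le_left _ _
  have hε11 : ε₁ ≤ 1 := min_le_right _ _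
  set c : ℝ := ε₁ / 16 with hcd
  have hc : 0 < c := by positivity
  have hc1 : c ≤ 1 := by rw [hcd]; linarith
  set c₅ : ℝ := ε₁ / 8 with hc5d
  have hc5 : 0 < c₅ := by positivity
  obtain ⟨D, K, c₄, e, hD, hK, hc4, he, H₁, hcl⟩ := cluster hB2 ht hc hc1 hc5
  obtain ⟨hShc, hShP, hShN⟩ := hB3 t D hD B hB hP hN
  obtain ⟨H₂, hG2⟩ := hG t (Sh D B) hShc hShP hShN c c₄ e K hc hc1 hc4 he hK t ht le_rfl 1 1
    (ε₁ / 8) le_rfl le_rfl (by positivity)
  obtain ⟨H₃, hst⟩ := start hH t (c := 2 * c) (by positivity)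
  refine ⟨max (max H₁ H₂) (max H₃ 3), fun H N hHH hHN => ?_⟩
  have hH1 : H₁ ≤ H := le_trans (le_trans (le_max_left _ _) (le_max_left _ _)) hHH
  have hH2 : H₂ ≤ H := le_trans (le_trans (le_max_right _ _) (le_max_left _ _)) hHH
  have hH3 : H₃ ≤ H := le_trans (le_trans (le_max_left _ _) (le_max_right _ _)) hHH
  have hH4 : 3 ≤ H := le_trans (le_trans (le_max_right _ _) (le_max_right _ _)) hHH
  obtain ⟨hM1, hcl'⟩ := hcl H hH1
  have hN3 : (3 : ℝ) ≤ N := by exact_mod_cast le_trans hH4 hHN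
  have hlog : 1 ≤ Real.log N := by
    rw [Real.le_log_iff_exp_le (by linarith)]
    linarith [Real.exp_one_lt_three]
  have hHp : (0 : ℝ) < H := by
    have : 0 < H := by omega
    exact_mod_cast this
  set W : Finset ℕ := (Icc 1 N).filter (fun n => 2 * c * H < F B H n) with hWd
  have hW : ∀ n ∈ W, 2 * H < n ∧ n ≤ N := by
    intro n hn
    rw [hWd, Finset.mem_filter, Finset.mem_Icc] at hn
    refine ⟨?_, hn.1.2⟩
    by_contra hle
    push Not at hle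
    obtain ⟨α, hα, hlt⟩ := exists_of_lt (by positivity) hn.2
    have := hst H hH3 n hle α
    linarith
  -- the density of `W`
  have hden : ∑ n ∈ W, (1 / (n : ℝ)) ≤ c₅ * (1 + Real.log N) + ε₁ / 8 * Real.log N := by
    have hMp : (0 : ℝ) < ((H / e : ℕ) : ℝ) := by exact_mod_cast hM1
    have h1 := dcount W N H (H / e) (Nat.div_le_self H e) hW
    have h2 : ∑ m ∈ (Icc 1 N).filter (fun m => H ≤ m),
        (1 / (m : ℝ)) * #{k ∈ Icc 1 (H / e) | m + k ∈ W} ≤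
        ∑ m ∈ Icc 1 N, (1 / (m : ℝ)) * (c₅ * ((H / e : ℕ) : ℝ)) +
        ∑ m ∈ Icc 1 N with Cl t t 1 (Sh D B) 1 c c₄ e K H m, (1 / (m : ℝ)) * ((H / e : ℕ) : ℝ) := by
      rw [Finset.sum_filter, Finset.sum_filter, ← Finset.sum_add_distrib]
      refine Finset.sum_le_sum fun m hm => ?_
      have hm0 : (0 : ℝ) ≤ 1 / (m : ℝ) := by positivity
      by_cases hHm : H ≤ m
      · rw [if_pos hHm]
        by_cases hbig : c₅ * ((H / e : ℕ) : ℝ) < #{k ∈ Icc 1 (H / e) | m + k ∈ W}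
        · have hC : Cl t t 1 (Sh D B) 1 c c₄ e K H m := by
            refine hcl' B m hHm _ (Finset.filter_subset _ _) (fun k hk => ?_) hbig
            have := (Finset.mem_filter.1 hk).2
            rw [hWd, Finset.mem_filter] at this
            exact this.2
          rw [if_pos hC]
          have hle : ((#{k ∈ Icc 1 (H / e) | m + k ∈ W} : ℕ) : ℝ) ≤ ((H / e : ℕ) : ℝ) := by
            have := Finset.card_filter_le (Icc 1 (H / e)) (fun k => m + k ∈ W)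
            rw [Nat.card_Icc, Nat.add_sub_cancel] at this
            exact_mod_cast this
          have h3 : 1 / (m : ℝ) * ((#{k ∈ Icc 1 (H / e) | m + k ∈ W} : ℕ) : ℝ) ≤
              1 / (m : ℝ) * ((H / e : ℕ) : ℝ) := by gcongr
          have h4 : 0 ≤ 1 / (m : ℝ) * (c₅ * ((H / e : ℕ) : ℝ)) := by positivity
          linarith
        · push Not at hbig
          have h3 : 1 / (m : ℝ) * ((#{k ∈ Icc 1 (H / e) | m + k ∈ W} : ℕ) : ℝ) ≤
              1 / (m : ℝ) * (c₅ * ((H / e : ℕ) : ℝ)) := by gcongr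
          have h4 : 0 ≤ (if Cl t t 1 (Sh D B) 1 c c₄ e K H m then
              1 / (m : ℝ) * ((H / e : ℕ) : ℝ) else 0) := by
            split_ifs
            · positivity
            · exact le_rfl
          linarith
      · rw [if_neg hHm]
        have h4 : 0 ≤ (if Cl t t 1 (Sh D B) 1 c c₄ e K H m then
              1 / (m : ℝ) * ((H / e : ℕ) : ℝ) else 0) := by
            split_ifs
            · positivity
            · exact le_rfl
        have h5 : 0 ≤ 1 / (m : ℝ) * (c₅ * ((H / e : ℕ) : ℝ)) := by positivity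
        linarith
    rw [← Finset.sum_mul, ← Finset.sum_mul] at h2
    have h3 := hG2 H N hH2 hHN
    have h4 := sum_inv_le_log N
    have h5 : ((H / e : ℕ) : ℝ) * ∑ n ∈ W, (1 / (n : ℝ)) ≤
        ((H / e : ℕ) : ℝ) * (c₅ * (1 + Real.log N) + ε₁ / 8 * Real.log N) := by
      refine (h1.trans h2).trans ?_
      have h6 : (∑ m ∈ Icc 1 N, (1 / (m : ℝ))) * (c₅ * ((H / e : ℕ) : ℝ)) ≤
          (1 + Real.log N) * (c₅ * ((H / e : ℕ) : ℝ)) := by gcongr
      have h7 : (∑ m ∈ Icc 1 N with Cl t t 1 (Sh D B) 1 c c₄ e K H m, (1 / (m : ℝ))) *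
          ((H / e : ℕ) : ℝ) ≤ (ε₁ / 8 * Real.log N) * ((H / e : ℕ) : ℝ) := by gcongr
      nlinarith
    exact le_of_mul_le_mul_left h5 hMp
  -- the whole sum
  have hsplit : ∑ n ∈ Icc 1 N, (1 / (n : ℝ)) * F B H n ≤
      ∑ n ∈ Icc 1 N, (1 / (n : ℝ)) * (2 * c * H) + ∑ n ∈ W, (1 / (n : ℝ)) * H := by
    rw [hWd, Finset.sum_filter, ← Finset.sum_add_distrib]
    refine Finset.sum_le_sum fun n _ => ?_
    have hn0 : (0 : ℝ) ≤ 1 / (n : ℝ) := by positivity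
    by_cases hb : 2 * c * H < F B H n
    · rw [if_pos hb]
      have h1 : 1 / (n : ℝ) * F B H n ≤ 1 / (n : ℝ) * H :=
        mul_le_mul_of_nonneg_left (F_le B H n) hn0
      have h2 : 0 ≤ 1 / (n : ℝ) * (2 * c * H) := by positivity
      linarith
    · rw [if_neg hb, add_zero]
      exact mul_le_mul_of_nonneg_left (not_lt.1 hb) hn0
  rw [← Finset.sum_mul, ← Finset.sum_mul] at hsplit
  have h4 := sum_inv_le_log N
  refine le_trans (show _ ≤ _ from hsplit) ?_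
  have h6 : (∑ n ∈ Icc 1 N, (1 / (n : ℝ))) * (2 * c * H) ≤ (1 + Real.log N) * (2 * c * H) := by
    gcongr
  have h7 : (∑ n ∈ W, (1 / (n : ℝ))) * H ≤
      (c₅ * (1 + Real.log N) + ε₁ / 8 * Real.log N) * H := by gcongr
  refine (add_le_add h6 h7).trans ?_
  have h8 : (1 + Real.log N) ≤ 2 * Real.log N := by linarith
  have h9 : (1 + Real.log N) * (2 * c * H) ≤ (2 * Real.log N) * (2 * c * H) := by gcongr
  have h10 : (c₅ * (1 + Real.log N) + ε₁ / 8 * Real.log N) * H ≤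
      (c₅ * (2 * Real.log N) + ε₁ / 8 * Real.log N) * H := by gcongr
  have h11 : ε₁ * H * Real.log N ≤ ε * H * Real.log N := by gcongr
  have h12 : (2 * Real.log N) * (2 * c * H) +
      (c₅ * (2 * Real.log N) + ε₁ / 8 * Real.log N) * H = 5 / 8 * (ε₁ * H * Real.log N) := by
    rw [hcd, hc5d]; ring
  have h13 : 0 ≤ ε₁ * H * Real.log N := by positivity
  linarith

end Pool.Agent.TU
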