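import Pool.Agent.Lib.TU.Defs2
import Pool.Agent.Lib.TU.WeylAll
import Pool.Agent.Lib.TU.Z
import Pool.Agent.Lib.WC86.FinS
import Pool.Agent.Lib.WC86.Short
import Pool.Agent.Lib.WC86.Major
import Pool.Agent.Lib.MP_663568_dch.Law

/-!
# Row V2: from a set of frequencies of positive outer measure to the whole circle

helper71.
-/

set_option autoImplicit false
open Finset Polynomial MeasureTheory

namespace Pool.Agent.TU

open Pool.Agent.Lib.MP_663568_nt Pool.Agent.Lib.MP_663568_nt.Katai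
  Pool.Agent.Lib.MP_663568_nt.Nul

namespace V2

lemma norm_eq1 (y : ℝ) (n l : ℕ) :
    ‖∑ h ∈ Icc 1 l, muC (n + h) * ee (y * (h : ℝ))‖ =
      ‖∑ h ∈ Icc 1 l, Complex.exp (2 * Real.pi * Complex.I * (((h + n : ℕ) : ℝ) * y : ℝ)) *
        ((ArithmeticFunction.moebius (n + h) : ℤ) : ℂ)‖ := by
  have h1 : ∀ h : ℕ, muC (n + h) * ee (y * (h : ℝ)) = ee (-(n * y)) *
      (Complex.exp (2 * Real.pi * Complex.I * (((h + n : ℕ) : ℝ) * y : ℝ)) *
        ((ArithmeticFunction.moebius (n + h) : ℤ) : ℂ)) := fun h => by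
    have h2 : y * (h : ℝ) = -(n * y) + ((h + n : ℕ) : ℝ) * y := by
      push_cast
      ring
    rw [h2, ee_add]
    have h3 : ee (((h + n : ℕ) : ℝ) * y) =
      Complex.exp (2 * Real.pi * Complex.I * (((h + n : ℕ) : ℝ) * y : ℝ)) := rfl
    rw [h3, muC]
    ring
  rw [sum_congr rfl fun h _ => h1 h, ← mul_sum, norm_mul, norm_ee, one_mul]

lemma ph_one (α : Fin 1 → ℝ) (x : ℝ) : ph α x = α 0 * x := by
  simp [ph]

lemma SB_eq (A : Set ℝ) (N H : ℕ) : SB {y : Fin 1 → ℝ | y 0 ∈ A} N H = WC86.Avg A N H := by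
  unfold SB WC86.Avg
  refine sum_congr rfl fun n _ => ?_
  congr 1
  let e : {α : Fin 1 → ℝ // α ∈ {y : Fin 1 → ℝ | y 0 ∈ A}} ≃ {y : ℝ // y ∈ A} :=
    { toFun := fun α => ⟨α.1 0, α.2⟩
      invFun := fun y => ⟨fun _ => y.1, y.2⟩
      left_inv := fun α => by
        apply Subtype.ext
        funext i
        rw [Subsingleton.elim i 0]
      right_inv := fun y => rfl }
  refine Equiv.iSup_congr e fun α => ?_
  rw [← norm_eq1]
  congr 1
  refine sum_congr rfl fun h _ => ?_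
  rw [ph_one]
  rfl

/-- One window, one frequency. -/
noncomputable def fy (y : ℝ) (l n : ℕ) : ℝ :=
  ‖∑ h ∈ Icc 1 l, muC (n + h) * ee (y * ((n + h : ℕ) : ℝ))‖

/-- The supremum over the frequencies of a set. -/
noncomputable def FF (A : Set ℝ) (l n : ℕ) : ℝ := ⨆ y : {y : ℝ // y ∈ A}, fy (y : ℝ) l n

/-- The average over the windows. -/
noncomputable def AV (A : Set ℝ) (N l : ℕ) : ℝ := ∑ n ∈ Icc 1 N, (1 / (n : ℝ)) * FF A l n

lemma AV_eq (A : Set ℝ) (N H : ℕ) : WC86.Avg A N H = AV A N H := by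
  unfold WC86.Avg AV FF fy
  refine sum_congr rfl fun n _ => ?_
  congr 1
  refine iSup_congr fun y => ?_
  congr 1
  refine sum_congr rfl fun h _ => ?_
  have h1 : (y : ℝ) * ((n + h : ℕ) : ℝ) = ((h + n : ℕ) : ℝ) * (y : ℝ) := by
    rw [mul_comm, add_comm]
  rw [h1, mul_comm, muC, ee]

lemma fy_eq (y : ℝ) (l n : ℕ) : fy y l n = ‖∑ h ∈ Icc 1 l, muC (n + h) * ee (y * (h : ℝ))‖ := by
  unfold fy
  have h1 : ∀ h : ℕ, muC (n + h) * ee (y * ((n + h : ℕ) : ℝ)) =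
      ee (y * n) * (muC (n + h) * ee (y * (h : ℝ))) := fun h => by
    have h2 : y * ((n + h : ℕ) : ℝ) = y * n + y * (h : ℝ) := by push_cast; ring
    rw [h2, ee_add]; ring
  rw [sum_congr rfl fun h _ => h1 h, ← mul_sum, norm_mul, norm_ee, one_mul]

lemma fy_le (y : ℝ) (l n : ℕ) : fy y l n ≤ l :=
  ZZ.norm_sum_le_card (g := fun h => muC (n + h) * ee (y * ((n + h : ℕ) : ℝ)))
    (fun _ => ZZ.norm_term_le _ _) l

lemma FF_nonneg (A : Set ℝ) (l n : ℕ) : 0 ≤ FF A l n := Real.iSup_nonneg fun _ => norm_nonneg _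

lemma le_FF {A : Set ℝ} {y : ℝ} (hy : y ∈ A) (l n : ℕ) : fy y l n ≤ FF A l n := by
  refine le_ciSup (f := fun y : {y : ℝ // y ∈ A} => fy (y : ℝ) l n) ⟨l, ?_⟩ ⟨y, hy⟩
  rintro _ ⟨z, rfl⟩
  exact fy_le _ _ _

lemma fy_avg (y : ℝ) (L l n : ℕ) (hl : 1 ≤ l) :
    fy y L n ≤ (1 / (l : ℝ)) * ∑ j ∈ range L, fy y l (n + j) + 2 * l := by
  obtain ⟨u, hu⟩ : ∃ u : ℕ → ℂ, ∀ m, u m = muC (n + m) * ee (y * ((n + m : ℕ) : ℝ)) :=
    ⟨_, fun _ => rfl⟩
  have hu1 : ∀ m, ‖u m‖ ≤ 1 := fun m => by rw [hu]; exact ZZ.norm_term_le _ _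
  have hl' : (1 : ℝ) ≤ l := by exact_mod_cast hl
  have h1 : ‖∑ i ∈ Icc 1 l, ∑ a ∈ range L, u (a + i) - l * ∑ m ∈ Icc 1 L, u m‖ ≤ 2 * l * l := by
    have e : (l : ℂ) * ∑ m ∈ Icc 1 L, u m = ∑ i ∈ Icc 1 l, ∑ m ∈ Icc 1 L, u m := by simp
    rw [e, ← sum_sub_distrib]
    refine (norm_sum_le _ _).trans ?_
    calc ∑ i ∈ Icc 1 l, ‖∑ a ∈ range L, u (a + i) - ∑ m ∈ Icc 1 L, u m‖ ≤
        ∑ i ∈ Icc 1 l, (2 * l : ℝ) := by
          refine sum_le_sum fun i hi => ?_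
          rw [mem_Icc] at hi
          refine (shift_sum u hu1 L i hi.1).trans ?_
          have : (i : ℝ) ≤ l := by exact_mod_cast hi.2
          linarith
      _ = 2 * l * l := by simp; ring
  rw [sum_comm] at h1
  have h2 : ‖∑ a ∈ range L, ∑ i ∈ Icc 1 l, u (a + i)‖ ≤ ∑ j ∈ range L, fy y l (n + j) := by
    refine (norm_sum_le _ _).trans (sum_le_sum fun a _ => le_of_eq ?_)
    unfold fy
    congr 1
    refine sum_congr rfl fun i _ => ?_
    rw [hu, add_assoc]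
  have h3 : fy y L n = ‖∑ m ∈ Icc 1 L, u m‖ := by
    unfold fy
    congr 1
    exact sum_congr rfl fun m _ => (hu m).symm
  have h4 : (l : ℝ) * fy y L n ≤ ∑ j ∈ range L, fy y l (n + j) + 2 * l * l := by
    have h5 : (l : ℝ) * fy y L n = ‖(l : ℂ) * ∑ m ∈ Icc 1 L, u m‖ := by
      rw [norm_mul, Complex.norm_natCast, h3]
    rw [h5]
    have h6 := norm_sub_norm_le ((l : ℂ) * ∑ m ∈ Icc 1 L, u m)
      (∑ a ∈ range L, ∑ i ∈ Icc 1 l, u (a + i))
    rw [norm_sub_rev] at h6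
    linarith
  have h7 : (l : ℝ) * fy y L n ≤
      l * ((1 / (l : ℝ)) * ∑ j ∈ range L, fy y l (n + j) + 2 * l) := by
    refine h4.trans (le_of_eq ?_)
    field_simp
  exact le_of_mul_le_mul_left h7 (by linarith)

lemma FF_avg (A : Set ℝ) (L l n : ℕ) (hl : 1 ≤ l) :
    FF A L n ≤ (1 / (l : ℝ)) * ∑ j ∈ range L, FF A l (n + j) + 2 * l := by
  refine Real.iSup_le (fun y => ?_) ?_
  · refine (fy_avg y L l n hl).trans ?_
    gcongr with j _
    exact le_FF y.2 l (n + j)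
  · have : 0 ≤ ∑ j ∈ range L, FF A l (n + j) := sum_nonneg fun _ _ => FF_nonneg _ _ _
    positivity

lemma FF_start (hH : H_stmt) (ε : ℝ) (hε : 0 < ε) : ∃ L₀ : ℕ, ∀ L : ℕ, L₀ ≤ L → ∀ n ≤ L,
    ∀ A : Set ℝ, FF A L n ≤ 3 * ε * L := by
  obtain ⟨X₀, hX₀⟩ := hH 1 ε hε
  refine ⟨max X₀ ⌈(X₀ : ℝ) / ε⌉₊, fun L hL n hn A => ?_⟩
  have hL1 : X₀ ≤ L := (le_max_left _ _).trans hL
  have hL2 : (X₀ : ℝ) ≤ ε * L := by
    have h1 : (X₀ : ℝ) / ε ≤ L := by
      refine (Nat.le_ceil _).trans ?_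
      exact_mod_cast (le_max_right _ _).trans hL
    rw [div_le_iff₀ hε] at h1
    linarith
  have hn' : (n : ℝ) ≤ L := by exact_mod_cast hn
  have hL0 : (0 : ℝ) ≤ L := by positivity
  refine Real.iSup_le (fun y => ?_) (by positivity)
  have hP : ∀ X : ℕ, X₀ ≤ X → ‖∑ x ∈ Icc 1 X, muC x * ee ((y : ℝ) * (x : ℝ))‖ ≤ ε * X := by
    intro X hX
    have h1 := hX₀ X hX (C (y : ℝ) * Polynomial.X) ((natDegree_C_mul_le _ _).trans natDegree_X_le)
    refine le_of_eq_of_le ?_ h1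
    congr 1
    refine sum_congr rfl fun x _ => ?_
    simp
  unfold fy
  rw [ZZ.sum_shift (fun m => muC m * ee ((y : ℝ) * (m : ℝ))) n L]
  refine (norm_sub_le _ _).trans ?_
  have h1 := hP (n + L) (by omega)
  push_cast at h1
  have h2 : ‖∑ x ∈ Icc 1 n, muC x * ee ((y : ℝ) * (x : ℝ))‖ ≤ ε * L := by
    by_cases hn0 : X₀ ≤ n
    · exact (hP n hn0).trans (mul_le_mul_of_nonneg_left hn' hε.le)
    · refine (ZZ.norm_sum_le_card (g := fun m => muC m * ee ((y : ℝ) * (m : ℝ)))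
        (fun _ => ZZ.norm_term_le _ _) n).trans ?_
      have : (n : ℝ) ≤ X₀ := by exact_mod_cast (not_le.1 hn0).le
      linarith
  have h3 : ε * ((n : ℝ) + L) ≤ ε * (L + L) := mul_le_mul_of_nonneg_left (by linarith) hε.le
  linarith

lemma AV_nonneg (A : Set ℝ) (N l : ℕ) : 0 ≤ AV A N l :=
  sum_nonneg fun n _ => mul_nonneg (by positivity) (FF_nonneg A l n)

/-- Long windows are averages of short ones. -/
lemma AV_long (hH : H_stmt) (ε : ℝ) (hε : 0 < ε) : ∃ L₀ : ℕ, ∀ L : ℕ, L₀ ≤ L → ∀ l : ℕ, 1 ≤ l →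
    ∀ N : ℕ, L ≤ N → ∀ A : Set ℝ,
    AV A N L ≤ (3 * ε * L + 2 * l) * (1 + Real.log N) + 2 * L / l * AV A (2 * N) l := by
  classical
  obtain ⟨L₀, hL₀⟩ := FF_start hH ε hε
  refine ⟨L₀, fun L hL l hl N hLN A => ?_⟩
  have hl' : (1 : ℝ) ≤ l := by exact_mod_cast hl
  obtain ⟨g, hg⟩ : ∃ g : ℕ → ℝ, ∀ m, g m = (1 / (m : ℝ)) * FF A l m := ⟨_, fun _ => rfl⟩
  have hg0 : ∀ m, 0 ≤ g m := fun m => by
    rw [hg]; exact mul_nonneg (by positivity) (FF_nonneg A l m)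
  have h1 : ∀ n ∈ Icc 1 N, (1 / (n : ℝ)) * FF A L n ≤
      (1 / (n : ℝ)) * (3 * ε * L + 2 * l) + (1 / (l : ℝ)) * ∑ j ∈ range L, 2 * g (n + j) := by
    intro n hn
    rw [mem_Icc] at hn
    have hn' : (1 : ℝ) ≤ n := by exact_mod_cast hn.1
    by_cases hnL : n ≤ L
    · have h2 := hL₀ L hL n hnL A
      have h3 : 0 ≤ (1 / (l : ℝ)) * ∑ j ∈ range L, 2 * g (n + j) :=
        mul_nonneg (by positivity) (sum_nonneg fun j _ => mul_nonneg (by norm_num) (hg0 _))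
      have h4 : (1 / (n : ℝ)) * FF A L n ≤ (1 / (n : ℝ)) * (3 * ε * L + 2 * l) :=
        mul_le_mul_of_nonneg_left (by linarith) (by positivity)
      linarith
    · push Not at hnL
      have h2 := mul_le_mul_of_nonneg_left (FF_avg A L l n hl)
        (by positivity : (0 : ℝ) ≤ 1 / (n : ℝ))
      refine h2.trans ?_
      have h3 : (1 / (n : ℝ)) * ∑ j ∈ range L, FF A l (n + j) ≤ ∑ j ∈ range L, 2 * g (n + j) := by
        rw [mul_sum]
        refine sum_le_sum fun j hj => ?_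
        rw [mem_range] at hj
        rw [hg, ← mul_assoc]
        refine mul_le_mul_of_nonneg_right ?_ (FF_nonneg _ _ _)
        have h4 : (j : ℝ) ≤ n := by exact_mod_cast (hj.trans hnL).le
        have h5 : (0 : ℝ) ≤ j := by positivity
        push_cast
        rw [mul_one_div, div_le_div_iff₀ (by linarith) (by linarith)]
        linarith
      have h6 : (1 / (n : ℝ)) * ((1 / (l : ℝ)) * ∑ j ∈ range L, FF A l (n + j) + 2 * l) =
          (1 / (n : ℝ)) * (2 * l) + (1 / (l : ℝ)) * ((1 / (n : ℝ)) *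
            ∑ j ∈ range L, FF A l (n + j)) := by ring
      rw [h6]
      have h7 : (1 / (n : ℝ)) * (2 * l) ≤ (1 / (n : ℝ)) * (3 * ε * L + 2 * l) := by
        refine mul_le_mul_of_nonneg_left ?_ (by positivity)
        have : (0 : ℝ) ≤ 3 * ε * L := by positivity
        linarith
      have h8 := mul_le_mul_of_nonneg_left h3 (by positivity : (0 : ℝ) ≤ 1 / (l : ℝ))
      linarith
  have h2 : ∀ j ∈ range L, ∑ n ∈ Icc 1 N, 2 * g (n + j) ≤ 2 * AV A (2 * N) l := by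
    intro j hj
    rw [mem_range] at hj
    rw [← mul_sum]
    refine mul_le_mul_of_nonneg_left ?_ (by norm_num)
    have h3 : ∑ n ∈ Icc 1 N, g (n + j) = ∑ m ∈ (Icc 1 N).image (fun n => n + j), g m := by
      rw [sum_image]
      intro a _ b _ hab
      exact Nat.add_right_cancel hab
    have h4 : AV A (2 * N) l = ∑ m ∈ Icc 1 (2 * N), g m := by
      unfold AV
      exact sum_congr rfl fun m _ => (hg m).symm
    rw [h3, h4]
    refine sum_le_sum_of_subset_of_nonneg ?_ fun m _ _ => hg0 m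
    intro m hm
    rw [mem_image] at hm
    obtain ⟨n, hn, rfl⟩ := hm
    rw [mem_Icc] at hn ⊢
    omega
  unfold AV
  refine (sum_le_sum h1).trans ?_
  rw [sum_add_distrib, ← sum_mul, ← mul_sum, sum_comm]
  have h3 := sum_le_sum h2
  rw [sum_const, card_range, nsmul_eq_mul] at h3
  have h4 := mul_le_mul_of_nonneg_left h3 (by positivity : (0 : ℝ) ≤ 1 / (l : ℝ))
  have h5 := mul_le_mul_of_nonneg_right (sum_inv_le_log N)
    (by positivity : (0 : ℝ) ≤ 3 * ε * L + 2 * l)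
  have h6 : (1 / (l : ℝ)) * (L * (2 * AV A (2 * N) l)) = 2 * L / l * AV A (2 * N) l := by ring
  rw [h6] at h4
  have h7 : ∑ n ∈ Icc 1 (2 * N), (1 / (n : ℝ)) * FF A l n = AV A (2 * N) l := rfl
  rw [h7]
  linarith

/-- The neighbourhood of a set. -/
def near (C : Set ℝ) (δ : ℝ) : Set ℝ := {y | ∃ c ∈ C, |y - c| ≤ δ}

lemma FF_near (C : Set ℝ) (δ : ℝ) (hδ : 0 ≤ δ) (l n : ℕ) :
    FF (near C δ) l n ≤ FF C l n + 2 * Real.pi * δ * l * l := by
  have hpi := Real.pi_pos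
  refine Real.iSup_le (fun y => ?_) (add_nonneg (FF_nonneg _ _ _) (by positivity))
  obtain ⟨c, hc, hyc⟩ := y.2
  have h1 : fy (y : ℝ) l n ≤ fy c l n + 2 * Real.pi * δ * l * l := by
    rw [fy_eq, fy_eq]
    have h2 : ∑ h ∈ Icc 1 l, muC (n + h) * ee ((y : ℝ) * (h : ℝ)) =
        ∑ h ∈ Icc 1 l, muC (n + h) * ee (c * (h : ℝ)) +
        ∑ h ∈ Icc 1 l, muC (n + h) * (ee (c * (h : ℝ)) * (ee (((y : ℝ) - c) * (h : ℝ)) - 1)) := by
      rw [← sum_add_distrib]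
      refine sum_congr rfl fun h _ => ?_
      have e : (y : ℝ) * (h : ℝ) = c * (h : ℝ) + ((y : ℝ) - c) * (h : ℝ) := by ring
      rw [e, ee_add]; ring
    rw [h2]
    refine (norm_add_le _ _).trans (add_le_add le_rfl ?_)
    refine (norm_sum_le _ _).trans ?_
    calc ∑ h ∈ Icc 1 l, ‖muC (n + h) * (ee (c * (h : ℝ)) * (ee (((y : ℝ) - c) * (h : ℝ)) - 1))‖ ≤
        ∑ h ∈ Icc 1 l, 2 * Real.pi * δ * l := by
          refine sum_le_sum fun h hh => ?_
          rw [mem_Icc] at hh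
          rw [norm_mul, norm_mul, norm_ee, one_mul]
          have h3 := norm_ee_sub_one_le (((y : ℝ) - c) * (h : ℝ))
          have h4 : |((y : ℝ) - c) * (h : ℝ)| ≤ δ * l := by
            rw [abs_mul, Nat.abs_cast]
            have : (h : ℝ) ≤ l := by exact_mod_cast hh.2
            gcongr
          have h5 := norm_muC (n + h)
          calc ‖muC (n + h)‖ * ‖ee (((y : ℝ) - c) * (h : ℝ)) - 1‖ ≤
              1 * (2 * Real.pi * |((y : ℝ) - c) * (h : ℝ)|) := by gcongr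
            _ ≤ 2 * Real.pi * (δ * l) := by rw [one_mul]; gcongr
            _ = 2 * Real.pi * δ * l := by ring
      _ = 2 * Real.pi * δ * l * l := by simp; ring
  exact h1.trans (add_le_add (le_FF hc l n) le_rfl)

lemma AV_near (C : Set ℝ) (δ : ℝ) (hδ : 0 ≤ δ) (M l : ℕ) :
    AV (near C δ) M l ≤ AV C M l + 2 * Real.pi * δ * l * l * (1 + Real.log M) := by
  have hpi := Real.pi_pos
  unfold AV
  calc ∑ n ∈ Icc 1 M, (1 / (n : ℝ)) * FF (near C δ) l n ≤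
      ∑ n ∈ Icc 1 M, ((1 / (n : ℝ)) * FF C l n + (1 / (n : ℝ)) * (2 * Real.pi * δ * l * l)) := by
        refine sum_le_sum fun n _ => ?_
        rw [← mul_add]
        exact mul_le_mul_of_nonneg_left (FF_near C δ hδ l n) (by positivity)
    _ = ∑ n ∈ Icc 1 M, (1 / (n : ℝ)) * FF C l n +
        (∑ n ∈ Icc 1 M, (1 / (n : ℝ))) * (2 * Real.pi * δ * l * l) := by
        rw [sum_add_distrib, sum_mul]
    _ ≤ _ := by
        have := mul_le_mul_of_nonneg_right (sum_inv_le_log M)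
          (by positivity : (0 : ℝ) ≤ 2 * Real.pi * δ * l * l)
        linarith

lemma inner_ge (C : Set ℝ) (hC : volume C ≠ 0) : ∃ w : ℝ, 0 < w ∧ ∀ δ R : ℝ, 0 < R → 1 / R ≤ δ →
    w ≤ WC86.inner (WC86.Sy (near C δ)) R := by
  obtain ⟨k, hk⟩ : ∃ k : ℤ, volume (C ∩ Set.Icc (k : ℝ) (k + 1)) ≠ 0 := by
    by_contra hcon
    push Not at hcon
    refine hC (le_antisymm ?_ bot_le)
    have h1 : C ⊆ ⋃ k : ℤ, C ∩ Set.Icc (k : ℝ) (k + 1) := by
      intro x hx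
      rw [Set.mem_iUnion]
      exact ⟨⌊x⌋, hx, Int.floor_le x, (Int.lt_floor_add_one x).le⟩
    refine (measure_mono h1).trans (le_of_eq ?_)
    rw [measure_iUnion_null_iff]
    exact hcon
  have hfin : volume (C ∩ Set.Icc (k : ℝ) (k + 1)) ≠ ⊤ := by
    refine ne_top_of_le_ne_top ?_ (measure_mono Set.inter_subset_right)
    rw [Real.volume_Icc]
    exact ENNReal.ofReal_ne_top
  refine ⟨(volume (C ∩ Set.Icc (k : ℝ) (k + 1))).toReal, ENNReal.toReal_pos hk hfin, ?_⟩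
  intro δ R hR hδ
  unfold WC86.inner
  have htop : volume {x : ℝ | x ∈ Set.Icc 0 1 ∧ ∀ z : ℝ, |z - x| ≤ 1 / R →
        ∃ b' : ℤ, z + b' ∈ WC86.Sy (near C δ)} ≠ ⊤ := by
    refine ne_top_of_le_ne_top ?_ (measure_mono (t := Set.Icc (0 : ℝ) 1) fun x hx => hx.1)
    rw [Real.volume_Icc]
    exact ENNReal.ofReal_ne_top
  refine ENNReal.toReal_mono htop ?_
  have h1 := measure_preimage_add_right volume (k : ℝ) (C ∩ Set.Icc (k : ℝ) (k + 1))
  rw [← h1]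
  refine measure_mono ?_
  rintro x ⟨hx, hx1, hx2⟩
  refine ⟨⟨by linarith, by linarith⟩, fun z hz => ⟨k, Or.inl ⟨x + k, hx, ?_⟩⟩⟩
  have e : z + (k : ℝ) - (x + k) = z - x := by ring
  rw [e]
  exact hz.trans hδ

end V2

open V2

theorem rowV2 (hH : H_stmt) : V2_stmt := by
  intro C hC hyp ε hε
  obtain ⟨w, hw, hinner⟩ := inner_ge C hC
  obtain ⟨ε₁, hε₁⟩ : ∃ ε₁ : ℝ, ε₁ = min (1 / 2) (ε * w / 100) := ⟨_, rfl⟩
  have hε₁0 : 0 < ε₁ := by rw [hε₁]; positivity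
  have hε₁1 : ε₁ ≤ 1 / 2 := by rw [hε₁]; exact min_le_left _ _
  have hε₁2 : ε₁ ≤ ε * w / 100 := by rw [hε₁]; exact min_le_right _ _
  obtain ⟨H₁, hH₁⟩ := hyp ε₁ hε₁0
  obtain ⟨l, hl⟩ : ∃ l : ℕ, l = max H₁ 1 := ⟨_, rfl⟩
  have hl1 : 1 ≤ l := by rw [hl]; exact le_max_right _ _
  have hlH : H₁ ≤ l := by rw [hl]; exact le_max_left _ _
  have hl' : (1 : ℝ) ≤ l := by exact_mod_cast hl1
  obtain ⟨R, hR⟩ : ∃ R : ℝ, R = max 1 (l / ε₁) := ⟨_, rfl⟩
  have hR1 : 1 ≤ R := by rw [hR]; exact le_max_left _ _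
  have hR2 : l / ε₁ ≤ R := by rw [hR]; exact le_max_right _ _
  have hR0 : 0 < R := by linarith
  have hRd : 1 / R ≤ ε₁ / l := by
    rw [div_le_div_iff₀ hR0 (by linarith), one_mul]
    rw [div_le_iff₀ hε₁0] at hR2
    linarith
  obtain ⟨H₀, hH₀⟩ := WC86.finalS Pool.Agent.Lib.MP_663568_dch.minorLaw
    (WC86.major WC86.muAP_top) ε₁ R hε₁0 hR1
  obtain ⟨L₀, hL₀⟩ := AV_long hH ε₁ hε₁0
  obtain ⟨L₁, hL₁⟩ : ∃ L₁ : ℕ, L₁ = max L₀ ⌈2 * (l : ℝ) / ε₁⌉₊ := ⟨_, rfl⟩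
  refine ⟨max (max H₀ 2) (L₁ ^ 2), fun H N hH hHN => ?_⟩
  have hHa : H₀ ≤ H := ((le_max_left _ _).trans (le_max_left _ _)).trans hH
  have hHb : 2 ≤ H := ((le_max_right _ _).trans (le_max_left _ _)).trans hH
  have hHc : L₁ ^ 2 ≤ H := (le_max_right _ _).trans hH
  have hH' : (1 : ℝ) ≤ H := by exact_mod_cast (by omega : 1 ≤ H)
  have hN2 : (2 : ℝ) ≤ N := by exact_mod_cast hHb.trans hHN
  have hlog2 : (1 / 2 : ℝ) ≤ Real.log 2 := by linarith [Real.log_two_gt_d9]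
  have hlogN : Real.log 2 ≤ Real.log N := Real.log_le_log (by norm_num) hN2
  have hlog : 0 < Real.log N := by linarith
  obtain ⟨L, hL1, hL2, hL3⟩ := (hH₀ H N hHa hHN (near C (ε₁ / l))).2
  have hL4 : L₁ ≤ L := by
    have h1 : (L₁ : ℝ) ≤ L := by
      refine le_trans ?_ hL1
      have h2 : ((L₁ : ℝ) ^ 2) ≤ H := by exact_mod_cast hHc
      calc (L₁ : ℝ) = ((L₁ : ℝ) ^ 2) ^ (1 / 2 : ℝ) := by
            rw [← Real.sqrt_eq_rpow, Real.sqrt_sq (by positivity)]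
        _ ≤ (H : ℝ) ^ (1 / 2 : ℝ) := Real.rpow_le_rpow (by positivity) h2 (by norm_num)
        _ ≤ (H : ℝ) ^ (1 - ε₁) := Real.rpow_le_rpow_of_exponent_le hH' (by linarith)
    exact_mod_cast h1
  have hL5 : L₀ ≤ L := le_trans (by rw [hL₁]; exact le_max_left _ _) hL4
  have hL6 : 2 * (l : ℝ) ≤ ε₁ * L := by
    have h2 : ⌈2 * (l : ℝ) / ε₁⌉₊ ≤ L := le_trans (by rw [hL₁]; exact le_max_right _ _) hL4
    have h1 : 2 * (l : ℝ) / ε₁ ≤ L := by
      refine (Nat.le_ceil _).trans ?_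
      exact_mod_cast h2
    rw [div_le_iff₀ hε₁0] at h1
    linarith
  have hL7 : (1 : ℝ) ≤ L := by
    refine le_trans ?_ hL1
    exact Real.one_le_rpow hH' (by linarith)
  -- the long windows
  have a1 := hL₀ L hL5 l hl1 N (hL2.trans hHN) (near C (ε₁ / l))
  have a2 := AV_near C (ε₁ / l) (by positivity) (2 * N) l
  have a3 := hH₁ l (2 * N) hlH (by
    have h1 : (l : ℝ) ≤ 2 * N := by
      have h2 : (L : ℝ) ≤ N := by exact_mod_cast hL2.trans hHN
      nlinarith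
    exact_mod_cast h1)
  have e1 : SB {y : Fin 1 → ℝ | y 0 ∈ C} (2 * N) l = AV C (2 * N) l := by
    rw [SB_eq C, AV_eq]
  rw [e1] at a3
  have hlog2N : Real.log ((2 * N : ℕ) : ℝ) ≤ 2 * Real.log N := by
    push_cast
    rw [Real.log_mul (by norm_num) (by linarith)]
    linarith
  have b1 : 1 + Real.log N ≤ 3 * Real.log N := by linarith
  have b2 : 1 + Real.log ((2 * N : ℕ) : ℝ) ≤ 4 * Real.log N := by linarith
  have a4 : AV C (2 * N) l ≤ 2 * ε₁ * l * Real.log N := by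
    refine a3.trans ?_
    have := mul_le_mul_of_nonneg_left hlog2N (by positivity : (0 : ℝ) ≤ ε₁ * l)
    linarith
  have hpi4 : Real.pi ≤ 4 := by linarith [Real.pi_lt_four]
  have a5 : AV (near C (ε₁ / l)) (2 * N) l ≤ 34 * ε₁ * l * Real.log N := by
    have h1 : 2 * Real.pi * (ε₁ / l) * l * l = 2 * Real.pi * ε₁ * l := by
      field_simp
    rw [h1] at a2
    have h2 : 2 * Real.pi * ε₁ * l * (1 + Real.log ((2 * N : ℕ) : ℝ)) ≤
        2 * 4 * ε₁ * l * (4 * Real.log N) := by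
      have hpi := Real.pi_pos
      have h0 : 0 ≤ 1 + Real.log ((2 * N : ℕ) : ℝ) := by
        have : (1 : ℝ) ≤ ((2 * N : ℕ) : ℝ) := by push_cast; linarith
        have := Real.log_nonneg this
        linarith
      gcongr
    linarith
  have a6 : 2 * (L : ℝ) / l * AV (near C (ε₁ / l)) (2 * N) l ≤ 68 * ε₁ * L * Real.log N := by
    have h1 : 2 * (L : ℝ) / l * AV (near C (ε₁ / l)) (2 * N) l ≤
        2 * (L : ℝ) / l * (34 * ε₁ * l * Real.log N) :=
      mul_le_mul_of_nonneg_left a5 (by positivity)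
    refine h1.trans (le_of_eq ?_)
    field_simp
    ring
  have a7 : (3 * ε₁ * L + 2 * l) * (1 + Real.log N) ≤ 12 * ε₁ * L * Real.log N := by
    have h1 : 3 * ε₁ * L + 2 * l ≤ 4 * ε₁ * L := by linarith
    calc (3 * ε₁ * L + 2 * l) * (1 + Real.log N) ≤ (4 * ε₁ * L) * (3 * Real.log N) := by
          gcongr
      _ = 12 * ε₁ * L * Real.log N := by ring
  have a8 : WC86.Avg (near C (ε₁ / l)) N L / L ≤ 80 * ε₁ * Real.log N := by
    rw [AV_eq, div_le_iff₀ (by linarith)]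
    linarith
  have a9 : w * WC86.Avg Set.univ N H / H ≤
      WC86.inner (WC86.Sy (near C (ε₁ / l))) R * WC86.Avg Set.univ N H / H := by
    have h1 := hinner (ε₁ / l) R hR0 hRd
    have h2 : 0 ≤ WC86.Avg Set.univ N H := by rw [AV_eq]; exact AV_nonneg _ _ _
    gcongr
  have a10 : w * WC86.Avg Set.univ N H / H ≤ ε * w * Real.log N := by
    have h1 : 81 * ε₁ * Real.log N ≤ ε * w * Real.log N := by
      refine mul_le_mul_of_nonneg_right ?_ hlog.le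
      have : 0 < ε * w := by positivity
      linarith
    linarith
  have e2 : SB (Set.univ : Set (Fin 1 → ℝ)) N H = WC86.Avg Set.univ N H := SB_eq Set.univ N H
  rw [e2]
  rw [div_le_iff₀ (by linarith)] at a10
  have a11 : w * WC86.Avg Set.univ N H ≤ w * (ε * H * Real.log N) := by
    refine a10.trans (le_of_eq ?_)
    ring
  exact le_of_mul_le_mul_left a11 hw

end Pool.Agent.TU
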