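import Pool.Agent.Lib.TU.Defs

/-!
# TU row F: subwindows of fixed length (helper1)
-/

set_option autoImplicit false
open Finset Polynomial MeasureTheory

namespace Pool.Agent.TU

open Pool.Agent.Lib.MP_663568_nt Pool.Agent.Lib.MP_663568_nt.Katai
  Pool.Agent.Lib.MP_663568_nt.Nul

namespace RF

theorem ee_nat_mul (n : ℕ) (x : ℝ) : ee ((n : ℝ) * x) = ee x ^ n := by
  induction n with
  | zero =>
    simp only [Nat.cast_zero, zero_mul, pow_zero]
    simpa using ee_int 0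
  | succ n ih =>
    rw [pow_succ, ← ih, ← ee_add]
    congr 1
    push_cast
    ring

/-- orthogonality -/
theorem orth (D : ℕ) (hD : 1 ≤ D) (x : ℤ) :
    ∑ b ∈ range D, ee ((b : ℝ) * ((x : ℝ) / D)) = if (D : ℤ) ∣ x then (D : ℂ) else 0 := by
  have hD0 : (D : ℝ) ≠ 0 := by positivity
  simp_rw [ee_nat_mul]
  split_ifs with h
  · obtain ⟨k, hk⟩ := h
    have : ee ((x : ℝ) / D) = 1 := by
      rw [ee_eq_one_iff]
      refine ⟨k, ?_⟩
      rw [hk]
      push_cast
      field_simp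
    rw [this]
    simp
  · have h1 : ee ((x : ℝ) / D) ≠ 1 := by
      intro h1
      rw [ee_eq_one_iff] at h1
      obtain ⟨n, hn⟩ := h1
      apply h
      refine ⟨n, ?_⟩
      have : (x : ℝ) = D * n := by
        rw [← hn]
        field_simp
      exact_mod_cast this
    rw [geom_sum_eq h1]
    have h2 : ee ((x : ℝ) / D) ^ D = 1 := by
      rw [← ee_nat_mul, ee_eq_one_iff]
      refine ⟨x, ?_⟩
      field_simp
    rw [h2, sub_self, zero_div]

/-- expansion of a periodic function in characters -/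
theorem per_expand (D : ℕ) (hD : 1 ≤ D) (f : ℕ → ℂ) (hf : ∀ h, f (h + D) = f h)
    (hf1 : ∀ h, ‖f h‖ ≤ 1) (g : ℕ → ℂ) (S : Finset ℕ) :
    ∃ b : ℕ, ‖∑ h ∈ S, g h * f h‖ ≤ D * ‖∑ h ∈ S, g h * ee ((b : ℝ) * ((h : ℝ) / D))‖ := by
  have hD0 : (D : ℂ) ≠ 0 := by
    have : D ≠ 0 := by omega
    exact_mod_cast this
  have hDr : (0 : ℝ) < D := by
    have : 0 < D := by omega
    exact_mod_cast this
  have hper : ∀ h m : ℕ, f (h + D * m) = f h := by
    intro h m
    induction m with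
    | zero => simp
    | succ m ih =>
      rw [show h + D * (m + 1) = h + D * m + D by ring, hf, ih]
  have hmod : ∀ h, f h = f (h % D) := by
    intro h
    conv_lhs => rw [← Nat.mod_add_div h D]
    rw [hper]
  -- the expansion
  have hexp : ∀ h : ℕ, f h = (D : ℂ)⁻¹ * ∑ b ∈ range D, (∑ k ∈ range D,
      f k * ee (-((b : ℝ) * ((k : ℝ) / D)))) * ee ((b : ℝ) * ((h : ℝ) / D)) := by
    intro h
    have e1 : ∑ b ∈ range D, (∑ k ∈ range D,
        f k * ee (-((b : ℝ) * ((k : ℝ) / D)))) * ee ((b : ℝ) * ((h : ℝ) / D)) =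
        ∑ k ∈ range D, f k * ∑ b ∈ range D, ee ((b : ℝ) * ((((h : ℤ) - (k : ℤ) : ℤ) : ℝ) / D)) := by
      simp_rw [sum_mul, mul_sum]
      rw [sum_comm]
      refine sum_congr rfl fun k _ => sum_congr rfl fun b _ => ?_
      rw [mul_assoc, ← ee_add]
      congr 2
      push_cast
      ring
    rw [e1]
    simp_rw [orth D hD]
    have e2 : ∀ k ∈ range D, f k * (if (D : ℤ) ∣ ((h : ℤ) - (k : ℤ)) then (D : ℂ) else 0) =
        if k = h % D then f k * D else 0 := by
      intro k hk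
      rw [mem_range] at hk
      have : (D : ℤ) ∣ ((h : ℤ) - (k : ℤ)) ↔ k = h % D := by
        constructor
        · intro hdvd
          have h1 : (k : ℤ) ≡ (h : ℤ) [ZMOD (D : ℤ)] := (Int.modEq_iff_dvd).2 hdvd
          have h2 : k ≡ h [MOD D] := (Int.natCast_modEq_iff).1 h1
          have h3 : k % D = h % D := h2
          rw [← h3, Nat.mod_eq_of_lt hk]
        · intro hk2
          have h2 : k ≡ h [MOD D] := by
            show k % D = h % D
            rw [hk2, Nat.mod_mod]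
          exact (Int.modEq_iff_dvd).1 ((Int.natCast_modEq_iff).2 h2)
      by_cases hc : k = h % D
      · rw [if_pos (this.2 hc), if_pos hc]
      · rw [if_neg (fun h' => hc (this.1 h')), if_neg hc, mul_zero]
    rw [sum_congr rfl e2, sum_ite_eq' (range D) (h % D)]
    rw [if_pos (mem_range.2 (Nat.mod_lt _ (by omega)))]
    rw [← hmod]
    field_simp
  -- the bound
  set c : ℕ → ℂ := fun b => ∑ k ∈ range D, f k * ee (-((b : ℝ) * ((k : ℝ) / D))) with hc
  have hcb : ∀ b, ‖c b‖ ≤ D := by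
    intro b
    calc ‖c b‖ ≤ ∑ k ∈ range D, ‖f k * ee (-((b : ℝ) * ((k : ℝ) / D)))‖ := norm_sum_le _ _
      _ ≤ ∑ k ∈ range D, (1 : ℝ) := by
          refine sum_le_sum fun k _ => ?_
          rw [norm_mul, norm_ee, mul_one]
          exact hf1 k
      _ = D := by simp
  have hsum : ∑ h ∈ S, g h * f h = (D : ℂ)⁻¹ * ∑ b ∈ range D, c b *
      ∑ h ∈ S, g h * ee ((b : ℝ) * ((h : ℝ) / D)) := by
    have e1 : ∀ h ∈ S, g h * f h = (D : ℂ)⁻¹ * ∑ b ∈ range D, c b *
        (g h * ee ((b : ℝ) * ((h : ℝ) / D))) := by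
      intro h _
      rw [hexp h, mul_left_comm, mul_sum]
      congr 1
      refine sum_congr rfl fun b _ => ?_
      ring
    rw [sum_congr rfl e1, ← mul_sum, sum_comm]
    congr 1
    refine sum_congr rfl fun b _ => ?_
    rw [mul_sum]
  have hle : ‖∑ h ∈ S, g h * f h‖ ≤ ∑ b ∈ range D, ‖∑ h ∈ S, g h * ee ((b : ℝ) * ((h : ℝ) / D))‖ := by
    rw [hsum, norm_mul, norm_inv, Complex.norm_natCast, inv_mul_le_iff₀ hDr]
    refine (norm_sum_le _ _).trans ?_
    rw [mul_sum]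
    refine sum_le_sum fun b _ => ?_
    rw [norm_mul]
    exact mul_le_mul_of_nonneg_right (hcb b) (norm_nonneg _)
  by_contra hcon
  push Not at hcon
  have h1 : ∑ b ∈ range D, (D : ℝ) * ‖∑ h ∈ S, g h * ee ((b : ℝ) * ((h : ℝ) / D))‖ <
      ∑ b ∈ range D, ‖∑ h ∈ S, g h * f h‖ :=
    sum_lt_sum_of_nonempty ⟨0, mem_range.2 (by omega)⟩ fun b _ => hcon b
  rw [← mul_sum, sum_const, card_range, nsmul_eq_mul] at h1
  have h2 := lt_of_mul_lt_mul_left h1 hDr.le
  linarith

/-- shifts -/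
theorem shift1 (u : ℕ → ℂ) (hu : ∀ n, ‖u n‖ ≤ 1) (H h : ℕ) :
    ‖∑ y ∈ Icc 1 H, u (y + h) - ∑ y ∈ Icc 1 H, u y‖ ≤ 2 * h := by
  have e0 : Icc 1 H = Ico 1 (H + 1) := by
    ext x
    simp only [mem_Icc, mem_Ico]
    omega
  rw [e0, sum_Ico_add' (fun x => u x) 1 (H + 1) h]
  have e3 : ∑ m ∈ Ico 1 (1 + h), u m + ∑ m ∈ Ico (1 + h) (H + 1 + h), u m =
      ∑ m ∈ Ico 1 (H + 1 + h), u m := sum_Ico_consecutive _ (by omega) (by omega)
  have e4 : ∑ m ∈ Ico 1 (H + 1), u m + ∑ m ∈ Ico (H + 1) (H + 1 + h), u m =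
      ∑ m ∈ Ico 1 (H + 1 + h), u m := sum_Ico_consecutive _ (by omega) (by omega)
  have e5 : ∑ m ∈ Ico (1 + h) (H + 1 + h), u m - ∑ m ∈ Ico 1 (H + 1), u m =
      ∑ m ∈ Ico (H + 1) (H + 1 + h), u m - ∑ m ∈ Ico 1 (1 + h), u m := by
    linear_combination e3 - e4
  rw [e5]
  have b : ∀ s : Finset ℕ, ‖∑ m ∈ s, u m‖ ≤ #s := fun s => by
    refine (norm_sum_le _ _).trans ?_
    refine (sum_le_sum fun m _ => hu m).trans ?_
    simp
  refine (norm_sub_le _ _).trans ?_
  have h1 := b (Ico (H + 1) (H + 1 + h))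
  have h2 := b (Ico 1 (1 + h))
  rw [Nat.card_Ico] at h1 h2
  have h3 : ((H + 1 + h - (H + 1) : ℕ) : ℝ) = h := by
    congr 1
    omega
  have h4 : ((1 + h - 1 : ℕ) : ℝ) = h := by
    congr 1
    omega
  rw [h3] at h1
  rw [h4] at h2
  linarith

/-- the double sum -/
theorem double (u : ℕ → ℂ) (hu : ∀ n, ‖u n‖ ≤ 1) (H l : ℕ) :
    l * ‖∑ y ∈ Icc 1 H, u y‖ - 2 * l ^ 2 ≤ ∑ y ∈ Icc 1 H, ‖∑ h ∈ Icc 1 l, u (y + h)‖ := by
  have e1 : ‖∑ y ∈ Icc 1 H, ∑ h ∈ Icc 1 l, u (y + h)‖ ≤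
      ∑ y ∈ Icc 1 H, ‖∑ h ∈ Icc 1 l, u (y + h)‖ := norm_sum_le _ _
  refine le_trans ?_ e1
  rw [sum_comm]
  have e2 : ‖∑ h ∈ Icc 1 l, ∑ y ∈ Icc 1 H, u (y + h) - ∑ h ∈ Icc 1 l, ∑ y ∈ Icc 1 H, u y‖ ≤
      2 * (l : ℝ) ^ 2 := by
    rw [← sum_sub_distrib]
    refine (norm_sum_le _ _).trans ?_
    calc ∑ h ∈ Icc 1 l, ‖∑ y ∈ Icc 1 H, u (y + h) - ∑ y ∈ Icc 1 H, u y‖
        ≤ ∑ h ∈ Icc 1 l, 2 * (l : ℝ) := by
          refine sum_le_sum fun h hh => (shift1 u hu H h).trans ?_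
          have : (h : ℝ) ≤ l := by exact_mod_cast (mem_Icc.1 hh).2
          linarith
      _ = 2 * (l : ℝ) ^ 2 := by
          rw [sum_const, Nat.card_Icc, nsmul_eq_mul, Nat.add_sub_cancel]
          ring
  have e3 : ‖∑ h ∈ Icc 1 l, ∑ y ∈ Icc 1 H, u y‖ = l * ‖∑ y ∈ Icc 1 H, u y‖ := by
    rw [sum_const, Nat.card_Icc, nsmul_eq_mul, norm_mul]
    simp
  have e4 := norm_sub_norm_le (∑ h ∈ Icc 1 l, ∑ y ∈ Icc 1 H, u y)
    (∑ h ∈ Icc 1 l, ∑ y ∈ Icc 1 H, u (y + h))
  rw [norm_sub_rev, e3] at e4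
  linarith

theorem nd_sum_le {ι : Type*} (S : Finset ι) (f : ι → ℝ) : nd (∑ i ∈ S, f i) ≤ ∑ i ∈ S, nd (f i) := by
  classical
  induction S using Finset.induction_on with
  | empty =>
    simp only [sum_empty]
    simpa using (nd_int 0).le
  | insert a S ha ih =>
    rw [sum_insert ha, sum_insert ha]
    exact (nd_add_le _ _).trans (add_le_add le_rfl ih)

/-- the Taylor coefficients of degree `> s` are close to `(1 / D) ℤ` -/
theorem nd_taylor {t s D : ℕ} {Q : ℝ} (hQ : 1 ≤ Q) {H : ℕ} (hH : 1 ≤ H) {R : ℝ[X]}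
    (hR : R.natDegree ≤ t) (hN : Near t s D Q H R) {y j : ℕ} (hy : y ≤ H) (hj : s < j) :
    nd ((D : ℝ) * (taylor (y : ℝ) R).coeff j) ≤ (t + 1) * 2 ^ t * Q / H := by
  have hHr : (1 : ℝ) ≤ H := by exact_mod_cast hH
  have hH0 : (0 : ℝ) < H := by linarith
  have e0 : (taylor (y : ℝ) R).coeff j =
      ∑ i ∈ range (t + 1), R.coeff i * ((y : ℝ) ^ (i - j) * (i.choose j : ℝ)) := by
    rw [taylor_apply]
    exact coeff_shift_aux R t hR (y : ℝ) j
  rw [e0, mul_sum]
  refine (nd_sum_le _ _).trans ?_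
  calc ∑ i ∈ range (t + 1), nd ((D : ℝ) * (R.coeff i * ((y : ℝ) ^ (i - j) * (i.choose j : ℝ))))
      ≤ ∑ i ∈ range (t + 1), 2 ^ t * Q / H := by
        refine sum_le_sum fun i hi => ?_
        rw [mem_range] at hi
        have hr : 0 ≤ 2 ^ t * Q / H := by positivity
        rcases lt_or_ge i j with hij | hij
        · rw [Nat.choose_eq_zero_of_lt hij]
          simp only [Nat.cast_zero, mul_zero]
          have : nd (0 : ℝ) = 0 := by simpa using nd_int 0
          rw [this]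
          exact hr
        · have e1 : (D : ℝ) * (R.coeff i * ((y : ℝ) ^ (i - j) * (i.choose j : ℝ))) =
              ((y ^ (i - j) * i.choose j : ℕ) : ℝ) * ((D : ℝ) * R.coeff i) := by
            push_cast
            ring
          rw [e1]
          refine (nd_nat_mul_le _ _).trans ?_
          have e2 := hN i (lt_of_lt_of_le hj hij) (by omega)
          have e3 : ((y ^ (i - j) * i.choose j : ℕ) : ℝ) ≤ (H : ℝ) ^ (i - j) * 2 ^ t := by
            push_cast
            refine mul_le_mul ?_ ?_ (by positivity) (by positivity)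
            · exact pow_le_pow_left₀ (by positivity) (by exact_mod_cast hy) _
            · have h1 : i.choose j ≤ 2 ^ i := Nat.choose_le_two_pow i j
              have h2 : 2 ^ i ≤ 2 ^ t := Nat.pow_le_pow_right (by norm_num) (by omega)
              exact_mod_cast h1.trans h2
          calc ((y ^ (i - j) * i.choose j : ℕ) : ℝ) * nd ((D : ℝ) * R.coeff i)
              ≤ ((H : ℝ) ^ (i - j) * 2 ^ t) * (Q / (H : ℝ) ^ (i - s)) :=
                mul_le_mul e3 e2 (nd_nonneg _) (by positivity)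
            _ = 2 ^ t * Q * ((H : ℝ) ^ (i - j) / (H : ℝ) ^ (i - s)) := by ring
            _ ≤ 2 ^ t * Q * (1 / H) := by
                refine mul_le_mul_of_nonneg_left ?_ (by positivity)
                have h4 : i - s = (i - j) + (j - s) := by omega
                rw [h4, pow_add, div_mul_eq_div_div, div_self (by positivity)]
                refine one_div_le_one_div_of_le hH0 ?_
                calc (H : ℝ) = (H : ℝ) ^ 1 := (pow_one _).symm
                  _ ≤ (H : ℝ) ^ (j - s) := pow_le_pow_right₀ hHr (by omega)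
            _ = 2 ^ t * Q / H := by ring
    _ = (t + 1) * 2 ^ t * Q / H := by
        rw [sum_const, card_range, nsmul_eq_mul]
        push_cast
        ring

/-- the polynomial of degree `≤ s` of one subwindow -/
theorem window (t s D l : ℕ) (hs : 1 ≤ s) (hD : 1 ≤ D) {Q : ℝ} (hQ : 1 ≤ Q)
    {H : ℕ} (hH : 1 ≤ H) {R : ℝ[X]} (hR : R.natDegree ≤ t) (hN : Near t s D Q H R) {y : ℕ}
    (hy : y ≤ H) (a : ℕ → ℂ) (ha : ∀ n, ‖a n‖ ≤ 1) :
    ∃ P : ℝ[X], (P.natDegree ≤ s ∧ ∃ z : ℤ, P.coeff s = (taylor (y : ℝ) R).coeff s + (z : ℝ) / D) ∧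
      ‖∑ h ∈ Icc 1 l, a (y + h) * ee (R.eval ((y + h : ℕ) : ℝ))‖ ≤
        D * ‖∑ h ∈ Icc 1 l, a (y + h) * ee (P.eval (h : ℝ))‖ +
          l * (2 * Real.pi * ((t + 1) * ((t + 1) * 2 ^ t * Q / H) * l ^ t)) := by
  have hDr : (1 : ℝ) ≤ D := by exact_mod_cast hD
  have hD0 : (D : ℝ) ≠ 0 := by positivity
  set T : ℝ[X] := taylor (y : ℝ) R with hT
  have hTd : T.natDegree ≤ t := by
    rw [hT, natDegree_taylor]
    exact hR
  -- the pieces
  set P0 : ℝ[X] := ∑ j ∈ (range (t + 1)).filter (· ≤ s), C (T.coeff j) * X ^ j with hP0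
  set β : ℕ → ℤ := fun j => round ((D : ℝ) * T.coeff j) with hβ
  set f : ℕ → ℂ := fun h => ee (∑ j ∈ (range (t + 1)).filter (s < ·), (β j : ℝ) / D * (h : ℝ) ^ j)
    with hf
  have hfper : ∀ h, f (h + D) = f h := by
    intro h
    simp only [hf]
    have : ∑ j ∈ (range (t + 1)).filter (s < ·), (β j : ℝ) / D * ((h + D : ℕ) : ℝ) ^ j =
        ∑ j ∈ (range (t + 1)).filter (s < ·), (β j : ℝ) / D * (h : ℝ) ^ j +
          ((∑ j ∈ (range (t + 1)).filter (s < ·), β j * ((((h : ℤ) + D) ^ j - (h : ℤ) ^ j) / D) : ℤ) : ℝ) := by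
      push_cast
      rw [← sum_add_distrib]
      refine sum_congr rfl fun j _ => ?_
      have hdvd : (D : ℤ) ∣ ((h : ℤ) + D) ^ j - (h : ℤ) ^ j := by
        have := sub_dvd_pow_sub_pow ((h : ℤ) + D) (h : ℤ) j
        rwa [add_sub_cancel_left] at this
      rw [Int.cast_div hdvd (by exact_mod_cast hD0)]
      push_cast
      field_simp
      ring
    rw [this, ee_add, ee_int, mul_one]
  have hf1 : ∀ h, ‖f h‖ ≤ 1 := fun h => (norm_ee _).le
  obtain ⟨b, hb⟩ := per_expand D hD f hfper hf1 (fun h => a (y + h) * ee (P0.eval (h : ℝ))) (Icc 1 l)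
  refine ⟨P0 + C ((b : ℝ) / D) * X, ⟨?_, ?_⟩, ?_⟩
  · refine (natDegree_add_le _ _).trans (max_le ?_ ?_)
    · refine natDegree_sum_le_of_forall_le _ _ fun j hj => ?_
      exact (natDegree_C_mul_X_pow_le _ _).trans (mem_filter.1 hj).2
    · have := natDegree_C_mul_X_pow_le ((b : ℝ) / D) 1
      rw [pow_one] at this
      exact this.trans hs
  · have e1 : P0.coeff s = T.coeff s := by
      rw [hP0, finsetSum_coeff]
      simp_rw [coeff_C_mul_X_pow]
      by_cases hst : s ≤ t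
      · rw [sum_eq_single s]
        · simp
        · intro j _ hjs
          rw [if_neg (Ne.symm hjs)]
        · intro hns
          exfalso
          apply hns
          rw [mem_filter, mem_range]
          exact ⟨by omega, le_rfl⟩
      · rw [sum_eq_zero]
        · rw [coeff_eq_zero_of_natDegree_lt (by omega)]
        · intro j hj
          rw [mem_filter, mem_range] at hj
          rw [if_neg (by omega)]
    rw [coeff_add, e1, coeff_C_mul, coeff_X]
    by_cases h1 : s = 1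
    · refine ⟨b, ?_⟩
      rw [if_pos h1.symm]
      push_cast
      ring
    · refine ⟨0, ?_⟩
      rw [if_neg (fun h => h1 h.symm)]
      simp
  · -- the approximation
    set E : ℝ := (t + 1) * 2 ^ t * Q / H with hE
    have hE0 : 0 ≤ E := by positivity
    have hTe : ∀ h : ℕ, R.eval ((y + h : ℕ) : ℝ) = P0.eval (h : ℝ) +
        ∑ j ∈ (range (t + 1)).filter (s < ·), T.coeff j * (h : ℝ) ^ j := by
      intro h
      have e1 : R.eval ((y + h : ℕ) : ℝ) = T.eval (h : ℝ) := by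
        rw [hT, taylor_eval]
        push_cast
        rw [add_comm]
      rw [e1, eval_eq_sum_range' (n := t + 1) (by omega), hP0, eval_finsetSum]
      simp only [eval_mul, eval_C, eval_pow, eval_X]
      rw [← sum_filter_add_sum_filter_not (range (t + 1)) (· ≤ s)]
      simp only [not_le]
    have hap : ∀ h ∈ Icc 1 l, ‖ee (R.eval ((y + h : ℕ) : ℝ)) - ee (P0.eval (h : ℝ)) * f h‖ ≤
        2 * Real.pi * ((t + 1) * E * l ^ t) := by
      intro h hh
      rw [mem_Icc] at hh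
      simp only [hf]
      rw [← ee_add, hTe]
      refine (norm_ee_sub_ee_le _ _).trans ?_
      refine mul_le_mul_of_nonneg_left ?_ (by positivity)
      rw [add_sub_add_left_eq_sub, ← sum_sub_distrib]
      refine (abs_sum_le_sum_abs _ _).trans ?_
      calc ∑ j ∈ (range (t + 1)).filter (s < ·), |T.coeff j * (h : ℝ) ^ j - (β j : ℝ) / D * (h : ℝ) ^ j|
          ≤ ∑ j ∈ (range (t + 1)).filter (s < ·), E * l ^ t := by
            refine sum_le_sum fun j hj => ?_
            rw [mem_filter, mem_range] at hj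
            rw [← sub_mul, abs_mul]
            refine mul_le_mul ?_ ?_ (abs_nonneg _) hE0
            · have e1 : T.coeff j - (β j : ℝ) / D = ((D : ℝ) * T.coeff j - β j) / D := by
                field_simp
              rw [e1, abs_div, abs_of_pos (by positivity : (0 : ℝ) < D)]
              have e2 : |(D : ℝ) * T.coeff j - β j| ≤ E := nd_taylor hQ hH hR hN hy hj.2
              calc |(D : ℝ) * T.coeff j - β j| / D ≤ E / D := by gcongr
                _ ≤ E := div_le_self hE0 hDr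
            · have hh1 : (1 : ℝ) ≤ h := by exact_mod_cast hh.1
              have hl1 : (1 : ℝ) ≤ l := by exact_mod_cast hh.1.trans hh.2
              rw [abs_of_nonneg (by positivity)]
              calc (h : ℝ) ^ j ≤ (l : ℝ) ^ j :=
                    pow_le_pow_left₀ (by positivity) (by exact_mod_cast hh.2) _
                _ ≤ (l : ℝ) ^ t := pow_le_pow_right₀ hl1 (by omega)
        _ = #((range (t + 1)).filter (s < ·)) * (E * l ^ t) := by rw [sum_const, nsmul_eq_mul]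
        _ ≤ (t + 1) * (E * l ^ t) := by
            refine mul_le_mul_of_nonneg_right ?_ (by positivity)
            have : #((range (t + 1)).filter (s < ·)) ≤ t + 1 :=
              (card_le_card (filter_subset _ _)).trans (by simp)
            exact_mod_cast this
        _ = (t + 1) * E * l ^ t := by ring
    have e1 : ‖∑ h ∈ Icc 1 l, a (y + h) * ee (R.eval ((y + h : ℕ) : ℝ)) -
        ∑ h ∈ Icc 1 l, a (y + h) * ee (P0.eval (h : ℝ)) * f h‖ ≤
          l * (2 * Real.pi * ((t + 1) * E * l ^ t)) := by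
      rw [← sum_sub_distrib]
      refine (norm_sum_le _ _).trans ?_
      calc ∑ h ∈ Icc 1 l, ‖a (y + h) * ee (R.eval ((y + h : ℕ) : ℝ)) -
            a (y + h) * ee (P0.eval (h : ℝ)) * f h‖
          ≤ ∑ h ∈ Icc 1 l, 2 * Real.pi * ((t + 1) * E * l ^ t) := by
            refine sum_le_sum fun h hh => ?_
            rw [mul_assoc, ← mul_sub, norm_mul]
            calc ‖a (y + h)‖ * ‖ee (R.eval ((y + h : ℕ) : ℝ)) - ee (P0.eval (h : ℝ)) * f h‖
                ≤ 1 * ‖ee (R.eval ((y + h : ℕ) : ℝ)) - ee (P0.eval (h : ℝ)) * f h‖ :=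
                  mul_le_mul_of_nonneg_right (ha _) (norm_nonneg _)
              _ ≤ _ := by rw [one_mul]; exact hap h hh
        _ = l * (2 * Real.pi * ((t + 1) * E * l ^ t)) := by
            rw [sum_const, Nat.card_Icc, nsmul_eq_mul]
            simp
    have e2 : ∀ h : ℕ, a (y + h) * ee (P0.eval (h : ℝ)) * ee ((b : ℝ) * ((h : ℝ) / D)) =
        a (y + h) * ee ((P0 + C ((b : ℝ) / D) * X).eval (h : ℝ)) := by
      intro h
      rw [mul_assoc, ← ee_add]
      congr 2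
      simp only [eval_add, eval_mul, eval_C, eval_X]
      ring
    simp_rw [e2] at hb
    have e3 := norm_sub_norm_le (∑ h ∈ Icc 1 l, a (y + h) * ee (R.eval ((y + h : ℕ) : ℝ)))
      (∑ h ∈ Icc 1 l, a (y + h) * ee (P0.eval (h : ℝ)) * f h)
    linarith

end RF

open RF in
theorem rowF : F_stmt := by
  intro t s D l hs hst hD hl Q c hQ hc hc1
  set E : ℝ := 2 * Real.pi * ((t + 1) * ((t + 1) * 2 ^ t * Q) * l ^ t) with hE
  have hE0 : 0 ≤ E := by positivity
  obtain ⟨H₀, hH₀⟩ := exists_nat_gt ((2 * l + E) * 2 / c)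
  refine ⟨max 1 H₀, fun H hH a ha R hR hN hcor => ?_⟩
  have hH1 : 1 ≤ H := le_trans (le_max_left _ _) hH
  have hHr : (0 : ℝ) < H := by exact_mod_cast hH1
  have hHb : (2 * l + E) * 2 / c < H :=
    hH₀.trans_le (by exact_mod_cast (le_trans (le_max_right _ _) hH))
  rw [div_lt_iff₀ hc] at hHb
  have key : ∀ y : ℕ, ∃ P : ℝ[X], (P.natDegree ≤ s ∧
      ∃ z : ℤ, P.coeff s = (taylor (y : ℝ) R).coeff s + (z : ℝ) / D) ∧
      (y ≤ H → ‖∑ h ∈ Icc 1 l, a (y + h) * ee (R.eval ((y + h : ℕ) : ℝ))‖ ≤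
        D * ‖∑ h ∈ Icc 1 l, a (y + h) * ee (P.eval (h : ℝ))‖ +
          l * (2 * Real.pi * ((t + 1) * ((t + 1) * 2 ^ t * Q / H) * l ^ t))) := by
    intro y
    by_cases hy : y ≤ H
    · obtain ⟨P, h1, h2⟩ := window t s D l hs hD hQ hH1 hR hN hy a ha
      exact ⟨P, h1, fun _ => h2⟩
    · refine ⟨C ((taylor (y : ℝ) R).coeff s) * X ^ s, ⟨natDegree_C_mul_X_pow_le _ _, 0, ?_⟩,
        fun h => absurd h hy⟩
      simp
  choose P hP1 hP2 using key
  refine ⟨P, hP1, ?_⟩
  have hlr : (1 : ℝ) ≤ l := by exact_mod_cast hl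
  have h1 := double (fun n => a n * ee (R.eval (n : ℝ))) (fun n => by
    rw [norm_mul, norm_ee, mul_one]; exact ha n) H l
  have h2 : ∑ y ∈ Icc 1 H, ‖∑ h ∈ Icc 1 l, a (y + h) * ee (R.eval ((y + h : ℕ) : ℝ))‖ ≤
      ∑ y ∈ Icc 1 H, (D * ‖∑ h ∈ Icc 1 l, a (y + h) * ee ((P y).eval (h : ℝ))‖ + l * (E / H)) := by
    refine sum_le_sum fun y hy => (hP2 y (mem_Icc.1 hy).2).trans (le_of_eq ?_)
    rw [hE]
    ring
  rw [sum_add_distrib, ← mul_sum, sum_const, Nat.card_Icc, nsmul_eq_mul] at h2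
  have h3 : ((H + 1 - 1 : ℕ) : ℝ) * (l * (E / H)) = l * E := by
    rw [Nat.add_sub_cancel]
    field_simp
  rw [h3] at h2
  have h4 : (l : ℝ) * (c * H) ≤ l * ‖∑ y ∈ Icc 1 H, a y * ee (R.eval (y : ℝ))‖ :=
    mul_le_mul_of_nonneg_left hcor (by positivity)
  have h5 : (l : ℝ) * ((2 * l + E) * 2) ≤ l * (H * c) := mul_le_mul_of_nonneg_left hHb.le (by positivity)
  nlinarith

end Pool.Agent.TU
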