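import Pool.Agent.Lib.TU.Defs2
import Pool.Agent.Lib.TU.F

/-!
# TU row V1: removal of the rational coefficients (helper1)
-/

set_option autoImplicit false
open Finset Polynomial MeasureTheory

namespace Pool.Agent.TU

open Pool.Agent.Lib.MP_663568_nt Pool.Agent.Lib.MP_663568_nt.Katai
  Pool.Agent.Lib.MP_663568_nt.Nul

namespace RV1

/-- sums over a full period of a periodic function -/
theorem period_sum (q : ℕ) (g : ℕ → ℂ) (hg : ∀ h, g (h + q) = g h) (h : ℕ) :
    ∑ k ∈ range q, g (h + k) = ∑ k ∈ range q, g k := by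
  induction h with
  | zero => simp
  | succ h ih =>
    rw [← ih]
    have e1 := sum_range_succ (fun k => g (h + k)) q
    have e2 := sum_range_succ' (fun k => g (h + k)) q
    have e3 : ∑ k ∈ range q, g (h + 1 + k) = ∑ k ∈ range q, g (h + (k + 1)) :=
      sum_congr rfl fun k _ => by rw [show h + 1 + k = h + (k + 1) by ring]
    rw [e3]
    have e4 := e1.symm.trans e2
    simp only [add_zero] at e4
    rw [hg] at e4
    exact (add_right_cancel e4).symm

/-- some Fourier coefficient does not vanish -/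
theorem exists_coeff (q : ℕ) (hq : 1 ≤ q) (f : ℕ → ℂ) (hf0 : f 0 ≠ 0) :
    ∃ b : ℕ, ∑ k ∈ range q, f k * ee (-((b : ℝ) * ((k : ℝ) / q))) ≠ 0 := by
  by_contra hcon
  push Not at hcon
  have h1 : ∑ b ∈ range q, ∑ k ∈ range q, f k * ee (-((b : ℝ) * ((k : ℝ) / q))) = 0 :=
    sum_eq_zero fun b _ => hcon b
  rw [sum_comm] at h1
  have h2 : ∀ k ∈ range q, ∑ b ∈ range q, f k * ee (-((b : ℝ) * ((k : ℝ) / q))) =
      if k = 0 then f 0 * (q : ℂ) else 0 := by
    intro k hk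
    rw [mem_range] at hk
    rw [← mul_sum]
    have e1 : ∑ b ∈ range q, ee (-((b : ℝ) * ((k : ℝ) / q))) =
        ∑ b ∈ range q, ee ((b : ℝ) * ((((-(k : ℤ)) : ℤ) : ℝ) / q)) := by
      refine sum_congr rfl fun b _ => ?_
      congr 1
      push_cast
      ring
    rw [e1, RF.orth q hq]
    by_cases hk0 : k = 0
    · subst hk0
      simp
    · rw [if_neg, if_neg hk0, mul_zero]
      rw [dvd_neg]
      intro h
      have := Int.le_of_dvd (by omega) h
      omega
  rw [sum_congr rfl h2, sum_ite_eq' (range q) 0 (fun _ => f 0 * (q : ℂ)),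
    if_pos (mem_range.2 (by omega))] at h1
  have hq0 : (q : ℂ) ≠ 0 := by
    have : q ≠ 0 := by omega
    exact_mod_cast this
  exact (mul_ne_zero hf0 hq0) h1

/-- one window -/
theorem key (q : ℕ) (ψ : ℕ → ℂ) (hψ : ∀ h, ψ (h + q) = ψ h)
    (hψ1 : ∀ h, ‖ψ h‖ ≤ 1) (hq : 1 ≤ q) (b : ℕ) (y : ℝ) (u : ℕ → ℂ) (hu : ∀ n, ‖u n‖ ≤ 1)
    (n H : ℕ) (hn : q ≤ n) :
    ‖∑ k ∈ range q, ψ k * ee (-((b : ℝ) * ((k : ℝ) / q)))‖ *
      ‖∑ h ∈ Icc 1 H, u (n + h) * ee ((y + b / q) * h)‖ ≤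
      ∑ k ∈ range q, (‖∑ h ∈ Icc 1 H, u (n - k + h) * (ψ h * ee (y * h))‖ + 2 * q) := by
  have hq0 : (q : ℝ) ≠ 0 := by
    have : q ≠ 0 := by omega
    exact_mod_cast this
  have hper : ∀ h : ℕ, ∑ k ∈ range q, ψ (h + k) * ee (-((b : ℝ) * (((h + k : ℕ) : ℝ) / q))) =
      ∑ k ∈ range q, ψ k * ee (-((b : ℝ) * ((k : ℝ) / q))) := by
    intro h
    refine period_sum q (fun k => ψ k * ee (-((b : ℝ) * ((k : ℝ) / q)))) (fun k => ?_) h
    rw [hψ]
    congr 1
    have e : -((b : ℝ) * (((k + q : ℕ) : ℝ) / q)) = -((b : ℝ) * ((k : ℝ) / q)) +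
        ((-(b : ℤ) : ℤ) : ℝ) := by
      push_cast
      field_simp
      ring
    rw [e, ee_add, ee_int, mul_one]
  have hmain : (∑ k ∈ range q, ψ k * ee (-((b : ℝ) * ((k : ℝ) / q)))) *
      ∑ h ∈ Icc 1 H, u (n + h) * ee ((y + b / q) * h) =
      ∑ k ∈ range q, ee (-((b : ℝ) * ((k : ℝ) / q)) - y * k) *
        ∑ h ∈ Icc 1 H, u (n - k + (h + k)) * (ψ (h + k) * ee (y * ((h + k : ℕ) : ℝ))) := by
    rw [mul_sum]
    simp_rw [mul_sum]
    rw [sum_comm]
    refine sum_congr rfl fun h _ => ?_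
    rw [← hper h, sum_mul]
    refine sum_congr rfl fun k hk => ?_
    rw [mem_range] at hk
    rw [show n - k + (h + k) = n + h by omega]
    have e : ee (-((b : ℝ) * (((h + k : ℕ) : ℝ) / q))) * ee ((y + b / q) * h) =
        ee (-((b : ℝ) * ((k : ℝ) / q)) - y * k) * ee (y * ((h + k : ℕ) : ℝ)) := by
      rw [← ee_add, ← ee_add]
      congr 1
      push_cast
      field_simp
      ring
    linear_combination (ψ (h + k) * u (n + h)) * e
  rw [← norm_mul, hmain]
  refine (norm_sum_le _ _).trans (sum_le_sum fun k hk => ?_)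
  rw [mem_range] at hk
  rw [norm_mul, norm_ee, one_mul]
  have h1 := RF.shift1 (fun m => u (n - k + m) * (ψ m * ee (y * (m : ℝ)))) (fun m => by
    rw [norm_mul, norm_mul, norm_ee, mul_one]
    exact mul_le_one₀ (hu _) (norm_nonneg _) (hψ1 _)) H k
  have h2 := norm_sub_norm_le (∑ h ∈ Icc 1 H, u (n - k + (h + k)) *
    (ψ (h + k) * ee (y * ((h + k : ℕ) : ℝ)))) (∑ h ∈ Icc 1 H, u (n - k + h) * (ψ h * ee (y * h)))
  have h3 : (k : ℝ) ≤ q := by exact_mod_cast hk.le
  linarith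

/-- the phase of the rational coefficients -/
noncomputable def psi {t : ℕ} (r : Fin t → ℚ) (h : ℕ) : ℂ :=
  ee (∑ i : Fin t, if i.val = 0 then 0 else ((r i : ℚ) : ℝ) * (h : ℝ) ^ (i.val + 1))

/-- a common denominator -/
def dn {t : ℕ} (r : Fin t → ℚ) : ℕ := ∏ i, (r i).den

theorem dn_pos {t : ℕ} (r : Fin t → ℚ) : 1 ≤ dn r :=
  Nat.one_le_iff_ne_zero.2 (prod_ne_zero_iff.2 fun i _ => (r i).den_ne_zero)

theorem psi_per {t : ℕ} (r : Fin t → ℚ) (h : ℕ) : psi r (h + dn r) = psi r h := by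
  unfold psi
  have hz : ∀ i : Fin t, ∃ z : ℤ, (if i.val = 0 then (0 : ℝ) else
      ((r i : ℚ) : ℝ) * ((h + dn r : ℕ) : ℝ) ^ (i.val + 1)) =
      (if i.val = 0 then 0 else ((r i : ℚ) : ℝ) * (h : ℝ) ^ (i.val + 1)) + (z : ℝ) := by
    intro i
    by_cases hi : i.val = 0
    · refine ⟨0, ?_⟩
      rw [if_pos hi, if_pos hi]
      simp
    · rw [if_neg hi, if_neg hi]
      have hdvd : ((dn r : ℕ) : ℤ) ∣ ((h : ℤ) + dn r) ^ (i.val + 1) - (h : ℤ) ^ (i.val + 1) := by
        have := sub_dvd_pow_sub_pow ((h : ℤ) + dn r) (h : ℤ) (i.val + 1)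
        rwa [add_sub_cancel_left] at this
      have hdi : (r i).den ∣ dn r := dvd_prod_of_mem _ (mem_univ i)
      have hdi' : ((r i).den : ℤ) ∣ ((dn r : ℕ) : ℤ) := by exact_mod_cast hdi
      obtain ⟨w, hw⟩ := hdi'.trans hdvd
      refine ⟨(r i).num * w, ?_⟩
      have hrd : ((r i : ℚ) : ℝ) * ((r i).den : ℝ) = ((r i).num : ℝ) := by
        have := Rat.mul_den_eq_num (r i)
        exact_mod_cast this
      have hw' : ((h : ℝ) + dn r) ^ (i.val + 1) - (h : ℝ) ^ (i.val + 1) = ((r i).den : ℝ) * w := by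
        exact_mod_cast hw
      push_cast
      rw [← hrd]
      linear_combination ((r i : ℚ) : ℝ) * hw'
  choose z hz using hz
  rw [sum_congr rfl fun i _ => hz i, sum_add_distrib]
  have : ∑ i : Fin t, ((z i : ℤ) : ℝ) = ((∑ i : Fin t, z i : ℤ) : ℝ) := by push_cast; rfl
  rw [this, ee_add, ee_int, mul_one]

theorem ph_glue {t : ℕ} (ht : 1 ≤ t) (r : Fin t → ℚ) (y : ℝ) (h : ℕ) :
    ee (ph (fun i : Fin t => if i.val = 0 then y else ((r i : ℚ) : ℝ)) (h : ℝ)) =
      psi r h * ee (y * h) := by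
  unfold psi
  rw [← ee_add]
  congr 1
  unfold ph
  have h1 : y * (h : ℝ) = ∑ i : Fin t, if i.val = 0 then y * (h : ℝ) else 0 := by
    rw [sum_eq_single (⟨0, by omega⟩ : Fin t)]
    · simp
    · intro i _ hi
      rw [if_neg]
      intro h0
      exact hi (Fin.ext h0)
    · intro h0
      exact absurd (mem_univ _) h0
  rw [h1, ← sum_add_distrib]
  refine sum_congr rfl fun i _ => ?_
  show (if i.val = 0 then y else ((r i : ℚ) : ℝ)) * (h : ℝ) ^ (i.val + 1) = _
  by_cases hi : i.val = 0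
  · rw [if_pos hi, if_pos hi, if_pos hi, hi]
    simp
  · rw [if_neg hi, if_neg hi, if_neg hi, add_zero]

/-- the supremum in one window -/
noncomputable def sp {t : ℕ} (B : Set (Fin t → ℝ)) (H n : ℕ) : ℝ :=
  ⨆ α : {α : Fin t → ℝ // α ∈ B}, ‖∑ h ∈ Icc 1 H, muC (n + h) * ee (ph (α : Fin t → ℝ) (h : ℝ))‖

theorem term_le {t : ℕ} (α : Fin t → ℝ) (H n : ℕ) :
    ‖∑ h ∈ Icc 1 H, muC (n + h) * ee (ph α (h : ℝ))‖ ≤ H := by
  refine (norm_sum_le _ _).trans ?_
  calc ∑ h ∈ Icc 1 H, ‖muC (n + h) * ee (ph α (h : ℝ))‖ ≤ ∑ h ∈ Icc 1 H, (1 : ℝ) := by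
        refine sum_le_sum fun h _ => ?_
        rw [norm_mul, norm_ee, mul_one]
        exact norm_muC _
    _ = H := by simp

theorem sp_nonneg {t : ℕ} (B : Set (Fin t → ℝ)) (H n : ℕ) : 0 ≤ sp B H n :=
  Real.iSup_nonneg fun _ => norm_nonneg _

theorem sp_le {t : ℕ} (B : Set (Fin t → ℝ)) (H n : ℕ) : sp B H n ≤ H :=
  Real.iSup_le (fun _ => term_le _ _ _) (Nat.cast_nonneg _)

theorem le_sp {t : ℕ} {B : Set (Fin t → ℝ)} {α : Fin t → ℝ} (hα : α ∈ B) (H n : ℕ) :
    ‖∑ h ∈ Icc 1 H, muC (n + h) * ee (ph α (h : ℝ))‖ ≤ sp B H n := by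
  have hb : BddAbove (Set.range fun α : {α : Fin t → ℝ // α ∈ B} =>
      ‖∑ h ∈ Icc 1 H, muC (n + h) * ee (ph (α : Fin t → ℝ) (h : ℝ))‖) := by
    refine ⟨H, ?_⟩
    rintro _ ⟨α, rfl⟩
    exact term_le _ _ _
  exact le_ciSup hb ⟨α, hα⟩

/-- shifts of a sum over the windows -/
theorem shift_sum (F : ℕ → ℝ) (hF : ∀ n, 0 ≤ F n) (k N : ℕ) :
    ∑ n ∈ Icc 1 N, (if k < n then F (n - k) else 0) ≤ ∑ n ∈ Icc 1 N, F n := by
  rw [← sum_filter]
  have h1 : ∑ n ∈ (Icc 1 N).filter (k < ·), F (n - k) =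
      ∑ m ∈ ((Icc 1 N).filter (k < ·)).image (fun n => n - k), F m := by
    rw [sum_image]
    intro x hx y hy hxy
    rw [mem_coe, mem_filter] at hx hy
    simp only at hxy
    omega
  rw [h1]
  refine sum_le_sum_of_subset_of_nonneg ?_ fun i _ _ => hF i
  intro m hm
  rw [mem_image] at hm
  obtain ⟨n, hn, rfl⟩ := hm
  rw [mem_filter, mem_Icc] at hn
  rw [mem_Icc]
  omega

theorem sum_inv (N : ℕ) : ∑ n ∈ Icc 1 N, (1 / (n : ℝ)) ≤ 1 + Real.log N := by
  have h := harmonic_le_one_add_log N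
  rw [harmonic_eq_sum_Icc] at h
  push_cast at h
  simpa [one_div] using h

end RV1

open RV1 in
/-- **V1**. -/
theorem rowV1 : V1_stmt := by
  intro t ht B C r hCB hSB
  set q : ℕ := dn r with hqd
  have hq : 1 ≤ q := dn_pos r
  have hψ0 : psi r 0 ≠ 0 := by
    intro h0
    have h1 : ‖psi r 0‖ = 1 := norm_ee _
    rw [h0, norm_zero] at h1
    exact zero_ne_one h1
  obtain ⟨b, hb⟩ := exists_coeff q hq (psi r) hψ0
  set c0 : ℝ := ‖∑ k ∈ range q, psi r k * ee (-((b : ℝ) * ((k : ℝ) / q)))‖ with hc0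
  have hc0p : 0 < c0 := norm_pos_iff.2 hb
  have hqr : (1 : ℝ) ≤ q := by exact_mod_cast hq
  refine ⟨(b : ℝ) / q, fun ε hε => ?_⟩
  obtain ⟨H1, hH1⟩ := hSB (ε * c0 / (3 * q)) (by positivity)
  refine ⟨max H1 (max 3 (max ⌈Real.exp (3 * q / ε)⌉₊ ⌈12 * q ^ 2 / (c0 * ε)⌉₊)),
    fun H N hH hN => ?_⟩
  have hHH1 : H1 ≤ H := le_trans (le_max_left _ _) hH
  have hH' := le_trans (le_max_right _ _) hH
  have hH3 : 3 ≤ H := le_trans (le_max_left _ _) hH'
  have hH'' := le_trans (le_max_right _ _) hH'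
  have hHe : Real.exp (3 * q / ε) ≤ H := (Nat.le_ceil _).trans
    (by exact_mod_cast le_trans (le_max_left _ _) hH'')
  have hHq : 12 * (q : ℝ) ^ 2 / (c0 * ε) ≤ H := (Nat.le_ceil _).trans
    (by exact_mod_cast le_trans (le_max_right _ _) hH'')
  have hNr : (H : ℝ) ≤ N := by exact_mod_cast hN
  have hHp : (0 : ℝ) < H := by
    have : 0 < H := by omega
    exact_mod_cast this
  have hNp : (0 : ℝ) < N := hHp.trans_le hNr
  have hl1 : 3 * q / ε ≤ Real.log N := by
    rw [Real.le_log_iff_exp_le hNp]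
    linarith
  have hl2 : 1 ≤ Real.log N := by
    rw [Real.le_log_iff_exp_le hNp]
    have h1 : (3 : ℝ) ≤ H := by exact_mod_cast hH3
    have h2 := Real.exp_one_lt_d9
    linarith
  -- the window bound
  set C' : Set (Fin 1 → ℝ) := {y : Fin 1 → ℝ | y 0 - (b : ℝ) / q ∈ C} with hC'
  have hwin : ∀ n : ℕ, q < n → sp C' H n ≤ 1 / c0 * ∑ k ∈ range q, (sp B H (n - k) + 2 * q) := by
    intro n hn
    refine Real.iSup_le (fun α => ?_) ?_
    · obtain ⟨α, hα⟩ := α
      simp only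
      have hα' : α 0 - (b : ℝ) / q ∈ C := hα
      have h1 := key q (psi r) (psi_per r) (fun h => (norm_ee _).le) hq b (α 0 - (b : ℝ) / q)
        muC norm_muC n H hn.le
      rw [← hc0] at h1
      have h2 : ∑ h ∈ Icc 1 H, muC (n + h) * ee (ph α (h : ℝ)) =
          ∑ h ∈ Icc 1 H, muC (n + h) * ee ((α 0 - (b : ℝ) / q + b / q) * h) := by
        refine sum_congr rfl fun h _ => ?_
        rw [sub_add_cancel]
        congr 2
        unfold ph
        simp
      rw [h2, one_div, le_inv_mul_iff₀ hc0p]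
      refine h1.trans (sum_le_sum fun k _ => ?_)
      refine add_le_add ?_ le_rfl
      have h3 := le_sp (hCB _ hα') H (n - k)
      refine le_trans (le_of_eq ?_) h3
      congr 1
      refine sum_congr rfl fun h _ => ?_
      rw [ph_glue ht]
    · refine mul_nonneg (by positivity) (sum_nonneg fun k _ => ?_)
      have := sp_nonneg B H (n - k)
      positivity
  -- all windows
  have hterm : ∀ n ∈ Icc 1 N, (1 / (n : ℝ)) * sp C' H n ≤ (if n ≤ q then (H : ℝ) else 0) +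
      1 / c0 * (∑ k ∈ range q, ((if k < n then (1 / ((n - k : ℕ) : ℝ)) * sp B H (n - k) else 0) +
        2 * q * (1 / (n : ℝ)))) := by
    intro n hn
    rw [mem_Icc] at hn
    have hnr : (1 : ℝ) ≤ n := by exact_mod_cast hn.1
    have hn0 : (0 : ℝ) < n := by linarith
    have hs : 0 ≤ 1 / c0 * (∑ k ∈ range q, ((if k < n then (1 / ((n - k : ℕ) : ℝ)) *
        sp B H (n - k) else 0) + 2 * q * (1 / (n : ℝ)))) := by
      refine mul_nonneg (by positivity) (sum_nonneg fun k _ => ?_)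
      have := sp_nonneg B H (n - k)
      split_ifs <;> positivity
    by_cases hnq : n ≤ q
    · rw [if_pos hnq]
      have h1 := sp_le C' H n
      have h2 : (1 / (n : ℝ)) * sp C' H n ≤ 1 * H :=
        mul_le_mul ((div_le_one hn0).2 hnr) h1 (sp_nonneg _ _ _) zero_le_one
      linarith
    · rw [if_neg hnq, zero_add]
      push Not at hnq
      have h1 := mul_le_mul_of_nonneg_left (hwin n hnq) (by positivity : 0 ≤ 1 / (n : ℝ))
      refine h1.trans ?_
      rw [mul_left_comm, mul_sum]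
      refine mul_le_mul_of_nonneg_left (sum_le_sum fun k hk => ?_) (by positivity)
      rw [mem_range] at hk
      rw [if_pos (by omega), mul_add]
      refine add_le_add ?_ (le_of_eq (by ring))
      refine mul_le_mul_of_nonneg_right ?_ (sp_nonneg _ _ _)
      have hkn : 0 < n - k := by omega
      have hkn' : (0 : ℝ) < ((n - k : ℕ) : ℝ) := by exact_mod_cast hkn
      refine one_div_le_one_div_of_le hkn' ?_
      exact_mod_cast Nat.sub_le n k
  have hSBC : SB C' N H = ∑ n ∈ Icc 1 N, (1 / (n : ℝ)) * sp C' H n := rfl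
  have hSBB : SB B N H = ∑ n ∈ Icc 1 N, (1 / (n : ℝ)) * sp B H n := rfl
  have hsum : SB C' N H ≤ q * H + 1 / c0 * (q * SB B N H + 2 * q ^ 2 * (1 + Real.log N)) := by
    rw [hSBC]
    refine (sum_le_sum hterm).trans ?_
    rw [sum_add_distrib, ← mul_sum, sum_comm]
    refine add_le_add ?_ (mul_le_mul_of_nonneg_left ?_ (by positivity))
    · rw [← sum_filter, sum_const, nsmul_eq_mul]
      refine mul_le_mul_of_nonneg_right ?_ hHp.le
      have h1 : ((Icc 1 N).filter (· ≤ q)) ⊆ Icc 1 q := by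
        intro x hx
        rw [mem_filter, mem_Icc] at hx
        rw [mem_Icc]
        omega
      have h2 := card_le_card h1
      rw [Nat.card_Icc, Nat.add_sub_cancel] at h2
      exact_mod_cast h2
    · calc ∑ k ∈ range q, ∑ n ∈ Icc 1 N, ((if k < n then (1 / ((n - k : ℕ) : ℝ)) *
            sp B H (n - k) else 0) + 2 * q * (1 / (n : ℝ)))
          ≤ ∑ k ∈ range q, (SB B N H + 2 * q * (1 + Real.log N)) := by
            refine sum_le_sum fun k _ => ?_
            rw [sum_add_distrib, ← mul_sum]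
            refine add_le_add ?_ (mul_le_mul_of_nonneg_left (sum_inv N) (by positivity))
            rw [hSBB]
            exact shift_sum (fun n => (1 / (n : ℝ)) * sp B H n) (fun n =>
              mul_nonneg (by positivity) (sp_nonneg _ _ _)) k N
        _ = q * SB B N H + 2 * q ^ 2 * (1 + Real.log N) := by
            rw [sum_const, card_range, nsmul_eq_mul]
            ring
  have hB1 := hH1 H N hHH1 hN
  have hlog0 : 0 < Real.log N := by linarith
  have p1 : (q : ℝ) * H ≤ ε / 3 * H * Real.log N := by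
    rw [div_le_iff₀ hε] at hl1
    nlinarith
  have p2 : 1 / c0 * (q * SB B N H) ≤ ε / 3 * H * Real.log N := by
    rw [one_div, inv_mul_le_iff₀ hc0p]
    calc (q : ℝ) * SB B N H ≤ q * (ε * c0 / (3 * q) * H * Real.log N) :=
          mul_le_mul_of_nonneg_left hB1 (by positivity)
      _ = c0 * (ε / 3 * H * Real.log N) := by
          field_simp
  have p3 : 1 / c0 * (2 * q ^ 2 * (1 + Real.log N)) ≤ ε / 3 * H * Real.log N := by
    rw [one_div, inv_mul_le_iff₀ hc0p]
    rw [div_le_iff₀ (by positivity)] at hHq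
    calc 2 * (q : ℝ) ^ 2 * (1 + Real.log N) ≤ 2 * (q : ℝ) ^ 2 * (2 * Real.log N) :=
          mul_le_mul_of_nonneg_left (by linarith) (by positivity)
      _ = (12 * (q : ℝ) ^ 2) * (Real.log N / 3) := by ring
      _ ≤ (H * (c0 * ε)) * (Real.log N / 3) := mul_le_mul_of_nonneg_right hHq (by positivity)
      _ = c0 * (ε / 3 * H * Real.log N) := by ring
  calc SB C' N H ≤ q * H + 1 / c0 * (q * SB B N H + 2 * q ^ 2 * (1 + Real.log N)) := hsum
    _ = q * H + 1 / c0 * (q * SB B N H) + 1 / c0 * (2 * q ^ 2 * (1 + Real.log N)) := by ring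
    _ ≤ ε / 3 * H * Real.log N + ε / 3 * H * Real.log N + ε / 3 * H * Real.log N :=
        add_le_add (add_le_add p1 p2) p3
    _ = ε * H * Real.log N := by ring

end Pool.Agent.TU
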