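import Pool.Agent.Lib.TU.Defs
import Pool.Agent.Lib.MP_663568_nul.Equi

/-!
# Theorem U, row C3 (helper85): a trigonometric majorant
-/

set_option autoImplicit false
open Finset Polynomial MeasureTheory

namespace Pool.Agent.TU

open Pool.Agent.Lib.MP_663568_nt Pool.Agent.Lib.MP_663568_nt.Katai
  Pool.Agent.Lib.MP_663568_nt.Nul

namespace C3aux

/-- The unit box. -/
def box (m : ℕ) : Set (Fin m → ℝ) := {z | ∀ i, z i ∈ Set.Icc (0 : ℝ) 1}

theorem box_eq (m : ℕ) : box m = Set.pi Set.univ fun _ => Set.Icc (0 : ℝ) 1 := by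
  ext z
  exact ⟨fun h i _ => h i, fun h i => h i (Set.mem_univ i)⟩

theorem measurableSet_box (m : ℕ) : MeasurableSet (box m) := by
  rw [box_eq]
  exact MeasurableSet.univ_pi fun _ => measurableSet_Icc

theorem isCompact_box (m : ℕ) : IsCompact (box m) := by
  rw [box_eq]
  exact isCompact_univ_pi fun _ => isCompact_Icc

theorem volume_box (m : ℕ) : volume (box m) = 1 := by
  rw [box_eq, volume_pi_pi]
  simp

theorem ee_sum {ι : Type*} (S : Finset ι) (f : ι → ℝ) : ee (∑ i ∈ S, f i) = ∏ i ∈ S, ee (f i) := by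
  classical
  induction S using Finset.induction_on with
  | empty => simpa using ee_int 0
  | insert i S hi ih => rw [sum_insert hi, prod_insert hi, ee_add, ih]

theorem continuous_ee : Continuous ee := by
  unfold ee
  fun_prop

theorem glue_sum {t m : ℕ} (hm : m ≤ t) (l : Fin t → ℤ) (z : Fin m → ℝ) (α : Fin t → ℝ) :
    ∑ i, (l i : ℝ) * glue m z α i = ∑ j : Fin m, (l (Fin.castLE hm j) : ℝ) * z j +
      ∑ i : Fin t, if i.val < m then 0 else (l i : ℝ) * α i := by
  have h1 : ∑ j : Fin m, (l (Fin.castLE hm j) : ℝ) * z j =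
      ∑ i : Fin t, if h : i.val < m then (l i : ℝ) * z ⟨i.val, h⟩ else 0 := by
    rw [← Finset.sum_subset (Finset.subset_univ (univ.map (Fin.castLEEmb hm)))]
    · rw [Finset.sum_map]
      refine sum_congr rfl fun j _ => ?_
      have h2 : (Fin.castLEEmb hm j).val < m := j.2
      rw [dif_pos h2]
      rfl
    · intro i _ hi
      rw [dif_neg]
      intro h
      exact hi (mem_map.2 ⟨⟨i.val, h⟩, mem_univ _, rfl⟩)
  rw [h1, ← sum_add_distrib]
  refine sum_congr rfl fun i _ => ?_
  unfold glue
  split_ifs <;> ring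

theorem integral_unit (l : ℤ) :
    ∫ x in Set.Icc (0 : ℝ) 1, ee ((l : ℝ) * x) = if l = 0 then 1 else 0 := by
  rw [integral_Icc_eq_integral_Ioc, ← intervalIntegral.integral_of_le zero_le_one]
  split_ifs with h
  · subst h
    have h1 : ∀ x : ℝ, ee (((0 : ℤ) : ℝ) * x) = 1 := fun x => by
      rw [Int.cast_zero, zero_mul]
      simpa using ee_int 0
    simp only [h1]
    simp
  · exact EqA.integral_ee l h

theorem integral_box {t m : ℕ} (hm : m ≤ t) (l : Fin t → ℤ) (α : Fin t → ℝ) :
    ∫ z in box m, ee (∑ i, (l i : ℝ) * glue m z α i) =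
      (∏ j : Fin m, if l (Fin.castLE hm j) = 0 then (1 : ℂ) else 0) *
        ee (∑ i : Fin t, if i.val < m then 0 else (l i : ℝ) * α i) := by
  have h1 : ∀ z : Fin m → ℝ, ee (∑ i, (l i : ℝ) * glue m z α i) =
      (∏ j : Fin m, ee ((l (Fin.castLE hm j) : ℝ) * z j)) *
        ee (∑ i : Fin t, if i.val < m then 0 else (l i : ℝ) * α i) := fun z => by
    rw [glue_sum hm, ee_add, ee_sum]
  simp only [h1]
  rw [integral_mul_const]
  congr 1
  rw [box_eq, volume_pi, Measure.restrict_pi_pi,
    integral_fintype_prod_eq_prod (𝕜 := ℂ) (fun (j : Fin m) (x : ℝ) =>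
      ee ((l (Fin.castLE hm j) : ℝ) * x))]
  exact prod_congr rfl fun j _ => integral_unit _

theorem continuous_glue {t : ℕ} (m : ℕ) (α : Fin t → ℝ) :
    Continuous fun z : Fin m → ℝ => glue m z α := by
  refine continuous_pi fun i => ?_
  unfold glue
  by_cases h : i.val < m
  · simp only [dif_pos h]
    exact continuous_apply _
  · simp only [dif_neg h]
    exact continuous_const

theorem continuous_TP {t : ℕ} (Λ : Finset (Fin t → ℤ)) (w : (Fin t → ℤ) → ℂ) :
    Continuous (TP Λ w) := by
  unfold TP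
  refine continuous_finsetSum _ fun l _ => continuous_const.mul (continuous_ee.comp ?_)
  fun_prop

open Classical in
theorem low_integral {t s : ℕ} (hs : 1 ≤ s) (hst : s ≤ t) (Λ : Finset (Fin t → ℤ))
    (w : (Fin t → ℤ) → ℂ) (α : Fin t → ℝ) :
    TP (Λ.filter fun l => Low s l) w α = ∫ z in box (s - 1), TP Λ w (glue (s - 1) z α) := by
  have hm : s - 1 ≤ t := by omega
  have h1 : ∫ z in box (s - 1), TP Λ w (glue (s - 1) z α) =
      ∑ l ∈ Λ, w l * ∫ z in box (s - 1), ee (∑ i, (l i : ℝ) * glue (s - 1) z α i) := by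
    unfold TP
    rw [integral_finsetSum]
    · exact sum_congr rfl fun l _ => integral_const_mul _ _
    · intro l _
      refine Integrable.const_mul ?_ _
      refine (Continuous.continuousOn ?_).integrableOn_compact (isCompact_box _)
      refine continuous_ee.comp ?_
      refine continuous_finsetSum _ fun i _ => continuous_const.mul ?_
      exact (continuous_apply i).comp (continuous_glue _ α)
  rw [h1, TP, sum_filter]
  refine sum_congr rfl fun l _ => ?_
  rw [integral_box hm]
  by_cases hl : Low s l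
  · rw [if_pos hl, prod_eq_one, one_mul]
    · congr 2
      refine sum_congr rfl fun i _ => ?_
      split_ifs with h
      · rw [hl i (by omega)]
        simp
      · rfl
    · intro j _
      rw [if_pos]
      exact hl _ (by
        have := j.2
        simp only [Fin.val_castLE]
        omega)
  · rw [if_neg hl]
    have h2 : ∃ i : Fin t, i.val + 1 < s ∧ l i ≠ 0 := by
      by_contra hcon
      push Not at hcon
      exact hl hcon
    obtain ⟨i, hi, hli⟩ := h2
    rw [prod_eq_zero (mem_univ (⟨i.val, by omega⟩ : Fin (s - 1))), zero_mul, mul_zero]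
    rw [if_neg]
    exact hli

/-- Trigonometric approximation of a continuous periodic function. -/
theorem approx {t : ℕ} (F : (Fin t → ℝ) → ℝ) (hF : Continuous F)
    (hper : ∀ (c : Fin t → ℝ) (z : Fin t → ℤ), F (c + fun i => (z i : ℝ)) = F c) {ε : ℝ}
    (hε : 0 < ε) : ∃ (Λ : Finset (Fin t → ℤ)) (w : (Fin t → ℤ) → ℂ),
      ∀ α, ‖(F α : ℂ) - TP Λ w α‖ ≤ ε := by
  classical
  obtain ⟨Q, hQ⟩ : ∃ Q : Set (Fin t → ℝ), Q = {c | ∀ i, c i ∈ Set.Ioc (0 : ℝ) 1} := ⟨_, rfl⟩
  have hQpi : Q = Set.pi Set.univ fun _ => Set.Ioc (0 : ℝ) 1 := by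
    ext z
    rw [hQ]
    exact ⟨fun h i _ => h i, fun h i => h i (Set.mem_univ i)⟩
  have hQv : volume Q = 1 := by
    rw [hQpi, volume_pi_pi]
    simp
  have hQb : Q ⊆ box t := fun z hz i => by
    rw [hQ] at hz
    exact ⟨(hz i).1.le, (hz i).2⟩
  have hint : IntegrableOn (fun c => (F c : ℂ)) Q := by
    have h1 : IntegrableOn (fun c => (F c : ℂ)) (box t) :=
      (Continuous.continuousOn (by fun_prop)).integrableOn_compact (isCompact_box t)
    exact h1.mono_set hQb
  obtain ⟨m, hm⟩ : ∃ m : ℂ, m = ∫ c in Q, (F c : ℂ) := ⟨_, rfl⟩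
  have hmean : ∫ c in {c : Fin t → ℝ | ∀ i, c i ∈ Set.Ioc (0 : ℝ) 1}, ((F c : ℂ) - m) = 0 := by
    rw [← hQ, integral_sub hint]
    · rw [← hm, integral_const]
      simp [Measure.real, hQv]
    · rw [integrable_const_iff]
      right
      rw [isFiniteMeasure_restrict, hQv]
      exact ENNReal.one_ne_top
  obtain ⟨S, a, hS, h⟩ := periodic_approx (fun c => (F c : ℂ) - m) (by fun_prop)
    (fun c z => by rw [hper]) hmean ε hε
  refine ⟨insert 0 S, fun l => if l = 0 then m else a l, fun α => ?_⟩
  have h1 : TP (insert 0 S) (fun l => if l = 0 then m else a l) α =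
      m + ∑ κ ∈ S, a κ * ee (∑ i, (κ i : ℝ) * α i) := by
    rw [TP, sum_insert hS]
    congr 1
    · have h2 : ee (∑ i : Fin t, (((0 : Fin t → ℤ) i : ℤ) : ℝ) * α i) = 1 := by
        simpa using ee_int 0
      rw [if_pos rfl, h2, mul_one]
    · refine sum_congr rfl fun κ hκ => ?_
      have hκ0 : κ ≠ 0 := fun e => hS (e ▸ hκ)
      rw [if_neg hκ0]
  rw [h1, ← sub_sub]
  exact h α

theorem infDist_add_int {t : ℕ} {B : Set (Fin t → ℝ)} (hne : B.Nonempty) (hP : Per B)
    (c : Fin t → ℝ) (z : Fin t → ℤ) :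
    Metric.infDist (c + fun i => (z i : ℝ)) B = Metric.infDist c B := by
  have h1 : ∀ (c : Fin t → ℝ) (z : Fin t → ℤ),
      Metric.infDist (c + fun i => (z i : ℝ)) B ≤ Metric.infDist c B := by
    intro c z
    refine (Metric.le_infDist hne).2 fun b hb => ?_
    have h2 := Metric.infDist_le_dist_of_mem (x := c + fun i => (z i : ℝ)) (hP b hb z)
    have h3 : (fun i => b i + (z i : ℝ)) = b + fun i => (z i : ℝ) := rfl
    rwa [h3, dist_add_right] at h2
  refine le_antisymm (h1 c z) ?_
  have h4 := h1 (c + fun i => (z i : ℝ)) (-z)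
  have h5 : (c + fun i => (z i : ℝ)) + (fun i => (((-z) i : ℤ) : ℝ)) = c := by
    funext i
    simp
  rwa [h5] at h4

end C3aux

open C3aux

/-- Row C3. -/
theorem rowC3 : C3_stmt := by
  classical
  intro t B hBc hBp s hs hst ρ η hρ hη
  rcases B.eq_empty_or_nonempty with rfl | hne
  · refine ⟨∅, 0, fun α => by simp [TP], fun α hα => ?_, fun α => ?_⟩
    · obtain ⟨β, hβ, -⟩ := hα
      exact absurd hβ (Set.notMem_empty β)
    · have h1 : TP ((∅ : Finset (Fin t → ℤ)).filter fun l => Low s l) 0 α = 0 := by simp [TP]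
      rw [h1, Complex.zero_re]
      positivity
  obtain ⟨F, hFdef⟩ : ∃ F : (Fin t → ℝ) → ℝ,
      ∀ α, F α = max 0 (min 1 (2 - Metric.infDist α B / ρ)) := ⟨_, fun _ => rfl⟩
  have hFc : Continuous F := by
    have h1 : F = fun α => max 0 (min 1 (2 - Metric.infDist α B / ρ)) := funext hFdef
    rw [h1]
    have := Metric.continuous_infDist_pt B
    fun_prop
  have hF0 : ∀ α, 0 ≤ F α := fun α => by
    rw [hFdef]
    exact le_max_left _ _
  have hF1 : ∀ α, F α ≤ 1 := fun α => by
    rw [hFdef]
    exact max_le zero_le_one (min_le_left _ _)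
  have hFB : ∀ α ∈ Nb B ρ, F α = 1 := fun α hα => by
    obtain ⟨β, hβ, h1⟩ := hα
    have h2 : Metric.infDist α B ≤ ρ := (Metric.infDist_le_dist_of_mem hβ).trans
      ((dist_pi_le_iff hρ.le).2 fun i => by rw [Real.dist_eq]; exact h1 i)
    have h3 : Metric.infDist α B / ρ ≤ 1 := (div_le_one hρ).2 h2
    rw [hFdef, min_eq_left (by linarith), max_eq_right zero_le_one]
  have hFn : ∀ α, F α ≠ 0 → α ∈ Nb B (2 * ρ) := fun α hα => by
    have h1 : Metric.infDist α B < 2 * ρ := by
      by_contra hcon
      push Not at hcon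
      apply hα
      have h2 : 2 ≤ Metric.infDist α B / ρ := (le_div_iff₀ hρ).2 hcon
      rw [hFdef, max_eq_left]
      exact (min_le_right _ _).trans (by linarith)
    obtain ⟨β, hβ, h2⟩ := (Metric.infDist_lt_iff hne).1 h1
    refine ⟨β, hβ, fun i => ?_⟩
    have h3 := (dist_le_pi_dist α β i).trans h2.le
    rwa [Real.dist_eq] at h3
  obtain ⟨Λ₀, w₀, happ⟩ := approx F hFc (fun c z => by
    rw [hFdef, hFdef, infDist_add_int hne hBp]) (half_pos hη)
  -- add the constant `η / 2`
  obtain ⟨w, hw⟩ : ∃ w : (Fin t → ℤ) → ℂ, w = fun l =>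
      (if l ∈ Λ₀ then w₀ l else 0) + if l = 0 then ((η / 2 : ℝ) : ℂ) else 0 := ⟨_, rfl⟩
  have hTP : ∀ α, TP (insert 0 Λ₀) w α = TP Λ₀ w₀ α + ((η / 2 : ℝ) : ℂ) := by
    intro α
    have h0 : ee (∑ i : Fin t, (((0 : Fin t → ℤ) i : ℤ) : ℝ) * α i) = 1 := by
      simpa using ee_int 0
    have h1 : TP (insert 0 Λ₀) w α =
        ∑ l ∈ insert 0 Λ₀, (if l ∈ Λ₀ then w₀ l else 0) * ee (∑ i, (l i : ℝ) * α i) +
          ∑ l ∈ insert 0 Λ₀, (if l = 0 then ((η / 2 : ℝ) : ℂ) else 0) *
            ee (∑ i, (l i : ℝ) * α i) := by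
      rw [TP, ← sum_add_distrib]
      refine sum_congr rfl fun l _ => ?_
      rw [hw]
      ring
    rw [h1]
    congr 1
    · rw [TP, ← sum_subset (subset_insert 0 Λ₀)]
      · exact sum_congr rfl fun l hl => by rw [if_pos hl]
      · intro l _ hl
        rw [if_neg hl, zero_mul]
    · rw [sum_eq_single 0]
      · rw [if_pos rfl, h0, mul_one]
      · intro l _ hl
        rw [if_neg hl, zero_mul]
      · exact fun h => absurd (mem_insert_self _ _) h
  have hre : ∀ α, |(TP Λ₀ w₀ α).re - F α| ≤ η / 2 := fun α => by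
    have h1 := (Complex.abs_re_le_norm _).trans (happ α)
    rw [Complex.sub_re, Complex.ofReal_re] at h1
    rwa [abs_sub_comm]
  have hlow : ∀ α, F α ≤ (TP (insert 0 Λ₀) w α).re := fun α => by
    rw [hTP, Complex.add_re, Complex.ofReal_re]
    have := (abs_le.1 (hre α)).1
    linarith
  have hup : ∀ α, (TP (insert 0 Λ₀) w α).re ≤ F α + η := fun α => by
    rw [hTP, Complex.add_re, Complex.ofReal_re]
    have := (abs_le.1 (hre α)).2
    linarith
  refine ⟨insert 0 Λ₀, w, fun α => (hF0 α).trans (hlow α), fun α hα => ?_, fun α => ?_⟩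
  · rw [← hFB α hα]
    exact hlow α
  · have hcg := continuous_glue (t := t) (s - 1) α
    have hint1 : IntegrableOn (fun z => TP (insert 0 Λ₀) w (glue (s - 1) z α)) (box (s - 1)) :=
      ((continuous_TP _ _).comp hcg).continuousOn.integrableOn_compact (isCompact_box _)
    have hint2 : IntegrableOn (fun z => F (glue (s - 1) z α)) (box (s - 1)) :=
      (hFc.comp hcg).continuousOn.integrableOn_compact (isCompact_box _)
    have hfin : volume (box (s - 1)) ≠ ⊤ := by
      rw [volume_box]
      exact ENNReal.one_ne_top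
    have hS : MeasurableSet {z : Fin (s - 1) → ℝ | F (glue (s - 1) z α) ≠ 0} :=
      (isOpen_ne_fun (hFc.comp hcg) continuous_const).measurableSet
    have hre2 : (∫ z in box (s - 1), TP (insert 0 Λ₀) w (glue (s - 1) z α)).re =
        ∫ z in box (s - 1), (TP (insert 0 Λ₀) w (glue (s - 1) z α)).re := by
      have := integral_re (𝕜 := ℂ) hint1
      exact this.symm
    rw [low_integral hs hst, hre2]
    calc ∫ z in box (s - 1), (TP (insert 0 Λ₀) w (glue (s - 1) z α)).re
        ≤ ∫ z in box (s - 1), (F (glue (s - 1) z α) + η) := by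
          refine setIntegral_mono hint1.re ?_ fun z => hup _
          refine hint2.add ?_
          exact (continuous_const.continuousOn).integrableOn_compact (isCompact_box _)
      _ = (∫ z in box (s - 1), F (glue (s - 1) z α)) + η := by
          rw [integral_add hint2
            ((continuous_const.continuousOn).integrableOn_compact (isCompact_box _)),
            integral_const]
          simp [Measure.real, volume_box]
      _ ≤ (fib s (Nb B (2 * ρ)) α).toReal + η := by
          refine add_le_add ?_ le_rfl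
          calc ∫ z in box (s - 1), F (glue (s - 1) z α)
              ≤ ∫ z in box (s - 1), Set.indicator
                  {z : Fin (s - 1) → ℝ | F (glue (s - 1) z α) ≠ 0} (fun _ => (1 : ℝ)) z := by
                refine setIntegral_mono hint2 ?_ fun z => ?_
                · refine Integrable.indicator ?_ hS
                  exact (continuous_const.continuousOn).integrableOn_compact (isCompact_box _)
                · by_cases hz : F (glue (s - 1) z α) = 0
                  · simp [hz]
                  · rw [Set.indicator_of_mem (show z ∈ {z : Fin (s - 1) → ℝ |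
                      F (glue (s - 1) z α) ≠ 0} from hz)]
                    exact hF1 _
            _ = (volume ({z : Fin (s - 1) → ℝ | F (glue (s - 1) z α) ≠ 0} ∩
                  box (s - 1))).toReal := by
                rw [integral_indicator hS, integral_const, smul_eq_mul, mul_one,
                  Measure.restrict_restrict hS]
                simp [Measure.real]
            _ ≤ (fib s (Nb B (2 * ρ)) α).toReal := by
                refine ENNReal.toReal_mono ?_ ?_
                · refine ne_top_of_le_ne_top hfin (measure_mono fun z hz => hz.1)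
                · refine measure_mono ?_
                  rintro z ⟨hz1, hz2⟩
                  exact ⟨hz2, hFn _ hz1⟩

end Pool.Agent.TU
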