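import Pool.Agent.Lib.TU.Defs
import Pool.Agent.Lib.TU.SS

/-!
# TU, row S, degree at least two (helper87)
-/

set_option autoImplicit false
open Finset Polynomial MeasureTheory

namespace Pool.Agent.TU.S2x

open Pool.Agent.Lib.MP_663568_nt Pool.Agent.Lib.MP_663568_nt.Katai
  Pool.Agent.Lib.MP_663568_nt.Nul Pool.Agent.TU

/-- small neighbourhoods of a closed null set are small -/
theorem null_nbhd (T : Set ℝ) (hc : IsClosed T) (h0 : volume T = 0) (v : ℝ) (hv : 0 < v) :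
    ∃ R : ℝ, 1 ≤ R ∧ volume {y : ℝ | y ∈ Set.Icc 0 1 ∧ ∃ x ∈ T, |x - y| ≤ 1 / R} ≤
      ENNReal.ofReal v := by
  have hT : IsCompact (T ∩ Set.Icc (-1 : ℝ) 2) := isCompact_Icc.inter_left hc
  have h1 : volume (T ∩ Set.Icc (-1 : ℝ) 2) = 0 :=
    measure_mono_null Set.inter_subset_left h0
  have h2 := tendsto_measure_cthickening_of_isCompact (μ := (volume : Measure ℝ)) hT
  rw [h1] at h2
  have h3 : ∀ᶠ r in nhds (0 : ℝ), volume (Metric.cthickening r (T ∩ Set.Icc (-1 : ℝ) 2)) <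
      ENNReal.ofReal v := h2.eventually_lt_const (by simpa using hv)
  have h4 : ∀ᶠ r in nhdsWithin (0 : ℝ) (Set.Ioi 0),
      volume (Metric.cthickening r (T ∩ Set.Icc (-1 : ℝ) 2)) < ENNReal.ofReal v ∧ r < 1 :=
    (h3.filter_mono nhdsWithin_le_nhds).and ((eventually_lt_nhds zero_lt_one).filter_mono
      nhdsWithin_le_nhds)
  obtain ⟨r, ⟨hr1, hr2⟩, hr0⟩ := (h4.and self_mem_nhdsWithin).exists
  have hr0' : (0 : ℝ) < r := hr0
  refine ⟨1 / r, ?_, ?_⟩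
  · rw [le_div_iff₀ hr0']; linarith
  · refine le_trans (measure_mono ?_) hr1.le
    rintro y ⟨hy, x, hx, hxy⟩
    rw [one_div_one_div] at hxy
    refine Metric.mem_cthickening_of_dist_le y x r _ ⟨hx, ?_⟩ ?_
    · rw [abs_le] at hxy
      constructor <;> linarith [hy.1, hy.2, hxy.1, hxy.2]
    · rw [Real.dist_eq, abs_sub_comm]
      exact hxy

/-- a closed periodic set without rational points is far from the rationals of bounded
denominator -/
theorem far_rat (T : Set ℝ) (hc : IsClosed T) (hp : ∀ x ∈ T, ∀ z : ℤ, x + (z : ℝ) ∈ T)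
    (hi : ∀ x ∈ T, Irrational x) (Q : ℕ) :
    ∃ d : ℝ, 0 < d ∧ ∀ q : ℕ, 1 ≤ q → q ≤ Q → ∀ b : ℤ, ∀ x ∈ T, d ≤ |x - (b : ℝ) / q| := by
  set F : Set ℝ := (fun p : ℕ × ℕ => (p.1 : ℝ) / p.2) ''
    ((Finset.range (Q + 1) ×ˢ Finset.range (Q + 1) : Finset (ℕ × ℕ)) : Set (ℕ × ℕ)) with hF
  have hFc : IsCompact F := ((Finset.finite_toSet _).image _).isCompact
  have hdis : Disjoint F T := by
    rw [Set.disjoint_left]
    rintro _ ⟨⟨a, b⟩, _, rfl⟩ hx
    have := hi _ hx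
    exact this ⟨(a : ℚ) / b, by push_cast; rfl⟩
  obtain ⟨d, hd, hdd⟩ := hdis.exists_thickenings hFc hc
  refine ⟨d, hd, fun q hq1 hq2 b x hx => ?_⟩
  by_contra hcon
  push Not at hcon
  have hq0 : (q : ℝ) ≠ 0 := by
    have : 0 < q := hq1
    exact_mod_cast this.ne'
  have hqz : (0 : ℤ) < q := by exact_mod_cast hq1
  have h1 : (b : ℝ) = q * (b / (q : ℤ) : ℤ) + (b % (q : ℤ) : ℤ) := by
    exact_mod_cast (Int.mul_ediv_add_emod b q).symm
  obtain ⟨r, hr⟩ : ∃ r : ℕ, (r : ℤ) = b % (q : ℤ) :=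
    ⟨(b % (q : ℤ)).toNat, Int.toNat_of_nonneg (Int.emod_nonneg _ hqz.ne')⟩
  have hrq : r < q := by
    have := Int.emod_lt_of_pos b hqz
    omega
  have h2 : x + ((-(b / (q : ℤ)) : ℤ) : ℝ) ∈ T := hp x hx _
  have h3 : (r : ℝ) / q ∈ F := ⟨(r, q), by
    simp only [Finset.coe_product, Finset.coe_range, Set.mem_prod, Set.mem_Iio]
    omega, rfl⟩
  have h4 : |(x + ((-(b / (q : ℤ)) : ℤ) : ℝ)) - (r : ℝ) / q| < d := by
    have h5 : (x + ((-(b / (q : ℤ)) : ℤ) : ℝ)) - (r : ℝ) / q = x - (b : ℝ) / q := by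
      have h6 : ((b % (q : ℤ) : ℤ) : ℝ) = (r : ℝ) := by rw [← hr]; push_cast; rfl
      rw [h6] at h1
      rw [h1]
      push_cast
      field_simp
      ring
    rw [h5]
    exact hcon
  have h5 : x + ((-(b / (q : ℤ)) : ℤ) : ℝ) ∈ Metric.thickening d F :=
    Metric.mem_thickening_iff.2 ⟨_, h3, by rw [Real.dist_eq]; exact h4⟩
  exact (Set.disjoint_left.1 hdd) h5 (Metric.self_subset_thickening hd T h2)


/-- the shifted polynomial -/
theorem shift_coeff (P : ℝ[X]) (s : ℕ) (hP : P.natDegree ≤ s) (r : ℝ) :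
    (taylor r P).coeff s = P.coeff s := by
  rcases hP.lt_or_eq with h | h
  · rw [coeff_eq_zero_of_natDegree_lt h, coeff_eq_zero_of_natDegree_lt]
    rw [natDegree_taylor]; exact h
  · rw [← h, coeff_taylor_natDegree, leadingCoeff]

theorem s2 (s : ℕ) (hs : 2 ≤ s) (T : Set ℝ) (hc : IsClosed T) (h0 : volume T = 0)
    (hp : ∀ x ∈ T, ∀ z : ℤ, x + (z : ℝ) ∈ T) (hi : ∀ x ∈ T, Irrational x) (ε : ℝ) (hε : 0 < ε) :
    ∃ ρ : ℝ, 0 < ρ ∧ ∃ l₀ : ℕ, ∀ l N : ℕ, l₀ ≤ l → l ≤ N →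
    ∑ n ∈ Icc 1 N, (1 / (n : ℝ)) * ⨆ P : {P : ℝ[X] // P.natDegree ≤ s ∧
      ∃ x ∈ T, |P.coeff s - x| ≤ ρ},
    ‖∑ h ∈ Icc 1 l, muC (n + h) * ee ((P : ℝ[X]).eval (h : ℝ))‖ ≤ ε * l * Real.log N := by
  obtain ⟨v, c, hv, hcc, C, H₀, hmain⟩ := SS.smallSets PUnit s (by omega) (fun _ => ⊤)
    antitone_const (fun _ _ => le_top) rfl (Subsingleton.elim _ _) ⊤ isClosed_univ
    (fun _ => ⟨Set.univ, isCompact_univ, fun _ _ => Subgroup.mem_top _,
      fun x _ => ⟨x, Set.mem_univ _, 1, Subgroup.mem_top _, Subsingleton.elim _ _⟩⟩)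
    (fun _ => 1) continuous_const ε hε
  obtain ⟨R1, hR1, hvol⟩ := null_nbhd T hc h0 v hv
  obtain ⟨R, hR⟩ : ∃ R : ℝ, R = 2 * R1 := ⟨_, rfl⟩
  have hR1' : 0 < R1 := by linarith
  have hRp : 0 < R := by rw [hR]; linarith
  obtain ⟨d, hd, hfar⟩ := far_rat T hc hp hi ⌊(C : ℝ) * R ^ C⌋₊
  obtain ⟨δ, hδ⟩ : ∃ δ : ℝ, δ = min (d / 2) 1 := ⟨_, rfl⟩
  have hδ0 : 0 < δ := by rw [hδ]; exact lt_min (by linarith) one_pos
  obtain ⟨H₁, hH₁⟩ : ∃ H₁ : ℕ, ∀ H : ℕ, H₁ ≤ H → R / δ ≤ (H : ℝ) ^ c := by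
    have := (tendsto_rpow_atTop hcc).comp tendsto_natCast_atTop_atTop (α := ℕ)
    exact Filter.eventually_atTop.1 (this.eventually_ge_atTop (R / δ))
  refine ⟨min (1 / R) (d / 2), lt_min (by positivity) (by linarith), max H₀ H₁,
    fun l N hl hlN => ?_⟩
  set ρ := min (1 / R) (d / 2) with hρ
  have key := hmain muC norm_muC (fun p k hp hk => muC_mul p hp k hk) N l
    ((le_max_left _ _).trans hl) hlN R δ (by rw [hR]; linarith) hδ0
    (by rw [hδ]; exact min_le_right _ _) (hH₁ l ((le_max_right _ _).trans hl))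
    (fun _ => {α | ∃ x ∈ T, |α - x| ≤ ρ}) (fun _ => by
      refine le_trans (measure_mono ?_) hvol
      rintro y ⟨hy, α, ⟨x, hx, hxα⟩, b, hb⟩
      refine ⟨hy, x + ((-b : ℤ) : ℝ), hp x hx _, ?_⟩
      have h1 : |α - x| ≤ 1 / R := hxα.trans (min_le_left _ _)
      have h2 : 1 / R1 = 1 / R + 1 / R := by rw [hR]; field_simp; norm_num
      rw [h2]
      push_cast
      calc |x + -(b : ℝ) - y| = |-(α - x) + (α - y - b)| := by ring_nf
        _ ≤ |-(α - x)| + |α - y - b| := abs_add_le _ _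
        _ ≤ _ := by rw [abs_neg]; linarith)
  refine le_trans (sum_le_sum fun n hn => mul_le_mul_of_nonneg_left ?_ (by positivity)) key
  refine Real.iSup_le ?_ (Real.iSup_nonneg fun _ => norm_nonneg _)
  rintro ⟨P, hP, x, hx, hxP⟩
  have hmem : (((1 : PUnit), (1 : PUnit), taylor (-(n : ℝ)) P) : PUnit × PUnit × ℝ[X]) ∈
      SS.Index PUnit s {α | ∃ x ∈ T, |α - x| ≤ ρ} (C * R ^ C) δ := by
    refine ⟨?_, ⟨P.coeff s, ⟨x, hx, hxP⟩, 0, ?_⟩, ?_⟩
    · rw [natDegree_taylor]; exact hP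
    · rw [shift_coeff P s hP]; simp
    · intro q hq1 hq2 b
      simp only [shift_coeff P s hP]
      have h1 := hfar q hq1 (Nat.le_floor hq2) b x hx
      have h2 : |P.coeff s - x| ≤ d / 2 := hxP.trans (min_le_right _ _)
      have hq : (1 : ℝ) ≤ q := by exact_mod_cast hq1
      have h3 : d / 2 ≤ |P.coeff s - (b : ℝ) / q| := by
        have := abs_sub_abs_le_abs_sub (x - (b : ℝ) / q) (x - P.coeff s)
        have e1 : x - (b : ℝ) / q - (x - P.coeff s) = P.coeff s - (b : ℝ) / q := by ring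
        rw [e1, abs_sub_comm x (P.coeff s)] at this
        linarith
      have h4 : (q : ℝ) * P.coeff s - b = q * (P.coeff s - (b : ℝ) / q) := by
        field_simp
      rw [h4, abs_mul, abs_of_pos (by linarith : (0 : ℝ) < q)]
      calc δ ≤ d / 2 := by rw [hδ]; exact min_le_left _ _
        _ ≤ |P.coeff s - (b : ℝ) / q| := h3
        _ ≤ _ := le_mul_of_one_le_left (abs_nonneg _) hq
  have hbdd : BddAbove (Set.range fun i : {i : PUnit × PUnit × ℝ[X] //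
      i ∈ SS.Index PUnit s {α | ∃ x ∈ T, |α - x| ≤ ρ} (C * R ^ C) δ} =>
        ‖∑ h ∈ Finset.Icc 1 l, (1 : ℂ) *
          Complex.exp (2 * Real.pi * Complex.I * ((i.1.2.2.eval ((n + h : ℕ) : ℝ) : ℝ) : ℂ)) *
              muC (n + h)‖) := by
    refine ⟨l, ?_⟩
    rintro _ ⟨i, rfl⟩
    refine (norm_sum_le _ _).trans ?_
    refine (sum_le_card_nsmul _ _ 1 fun h _ => ?_).trans (by simp)
    rw [one_mul, norm_mul]
    refine mul_le_one₀ (norm_ee _).le (norm_nonneg _) (norm_muC _)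
  refine le_trans (le_of_eq ?_) (le_ciSup hbdd ⟨_, hmem⟩)
  congr 1
  refine sum_congr rfl fun h _ => ?_
  simp only [taylor_eval]
  rw [one_mul, mul_comm]
  congr 1
  rw [ee]
  congr 3
  push_cast
  ring_nf

end Pool.Agent.TU.S2x
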