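import Pool.Agent.Lib.TU.Defs

/-!
# Row B2: one polynomial for many windows

helper71.
-/

set_option autoImplicit false
open Finset Polynomial

namespace Pool.Agent.TU

open Pool.Agent.Lib.MP_663568_nt Pool.Agent.Lib.MP_663568_nt.Katai
  Pool.Agent.Lib.MP_663568_nt.Nul

namespace B2

/-- The polynomial of the phase. -/
noncomputable def phP {t : ℕ} (α : Fin t → ℝ) : ℝ[X] := ∑ i : Fin t, C (α i) * X ^ (i.val + 1)

lemma phP_eval {t : ℕ} (α : Fin t → ℝ) (x : ℝ) : (phP α).eval x = ph α x := by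
  simp [phP, ph, eval_finsetSum]

lemma phP_natDegree {t : ℕ} (α : Fin t → ℝ) : (phP α).natDegree ≤ t := by
  refine natDegree_sum_le_of_forall_le _ _ fun i _ => ?_
  refine (natDegree_C_mul_X_pow_le _ _).trans ?_
  omega

lemma phP_coeff {t : ℕ} (α : Fin t → ℝ) (i : Fin t) : (phP α).coeff (i.val + 1) = α i := by
  classical
  simp only [phP, finsetSum_coeff, coeff_C_mul, coeff_X_pow]
  rw [Finset.sum_eq_single i]
  · simp
  · intro j _ hj
    rw [if_neg, mul_zero]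
    intro h
    exact hj (Fin.ext (by omega))
  · simp

lemma choose_le_fact {n k t : ℕ} (h : n ≤ t) : n.choose k ≤ t.factorial := by
  by_cases hk : k ≤ n
  · refine le_trans ?_ (Nat.factorial_le h)
    refine Nat.le_of_dvd (Nat.factorial_pos n) ?_
    rw [← Nat.choose_mul_factorial_mul_factorial hk, mul_assoc]
    exact Dvd.intro _ rfl
  · rw [Nat.choose_eq_zero_of_lt (by omega)]
    exact Nat.zero_le _

/-- Taylor coefficients of a polynomial with almost rational coefficients. -/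
lemma taylor_near {t : ℕ} (P : ℝ[X]) (hP : P.natDegree ≤ t) (D : ℕ) (hD : 1 ≤ D) (K₁ : ℝ)
    (hK₁ : 0 ≤ K₁) (H k : ℕ) (hH : 1 ≤ H) (hk : k ≤ H)
    (h : ∀ j, 1 ≤ j → j ≤ t → nd ((D : ℝ) * P.coeff j) ≤ K₁ / (H : ℝ) ^ j) (j : ℕ) (hj : 1 ≤ j) :
    ∃ Z : ℤ, |(taylor (k : ℝ) P).coeff j - (Z : ℝ) / D| ≤ (t + 1) * (t.factorial * K₁) / H := by
  classical
  have hD' : (1 : ℝ) ≤ D := by exact_mod_cast hD
  have hH' : (1 : ℝ) ≤ H := by exact_mod_cast hH
  obtain ⟨z, hz⟩ : ∃ z : ℕ → ℤ, ∀ i, nd ((D : ℝ) * P.coeff i) = |(D : ℝ) * P.coeff i - z i| :=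
    ⟨fun i => round ((D : ℝ) * P.coeff i), fun i => rfl⟩
  have e1 : (taylor (k : ℝ) P).coeff j =
      ∑ i ∈ range (t + 1), P.coeff i * ((k : ℝ) ^ (i - j) * (i.choose j : ℝ)) := by
    rw [taylor_apply]
    exact coeff_shift_aux P t hP k j
  refine ⟨∑ i ∈ range (t + 1), z i * ((k : ℤ) ^ (i - j) * (i.choose j : ℤ)), ?_⟩
  rw [e1]
  have e2 : ((∑ i ∈ range (t + 1), z i * ((k : ℤ) ^ (i - j) * (i.choose j : ℤ)) : ℤ) : ℝ) / D =
      ∑ i ∈ range (t + 1), ((z i : ℝ) / D) * ((k : ℝ) ^ (i - j) * (i.choose j : ℝ)) := by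
    push_cast
    rw [sum_div]
    exact sum_congr rfl fun i _ => by ring
  rw [e2, ← sum_sub_distrib]
  refine (abs_sum_le_sum_abs _ _).trans ?_
  have e3 : (t + 1) * (t.factorial * K₁) / (H : ℝ) =
      ∑ i ∈ range (t + 1), (t.factorial * K₁) / (H : ℝ) := by
    rw [sum_const, card_range, nsmul_eq_mul]; push_cast; ring
  rw [e3]
  refine sum_le_sum fun i hi => ?_
  rw [mem_range] at hi
  rw [← sub_mul, abs_mul]
  by_cases hij : i < j
  · rw [Nat.choose_eq_zero_of_lt hij]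
    simp only [Nat.cast_zero, mul_zero, abs_zero]
    positivity
  have h1 : |P.coeff i - (z i : ℝ) / D| ≤ K₁ / (H : ℝ) ^ i := by
    have e : P.coeff i - (z i : ℝ) / D = ((D : ℝ) * P.coeff i - z i) / D := by
      field_simp
    rw [e, abs_div, abs_of_pos (by linarith : (0 : ℝ) < D), ← hz]
    refine (div_le_self (nd_nonneg _) hD').trans (h i (by omega) (by omega))
  have h2 : |(k : ℝ) ^ (i - j) * (i.choose j : ℝ)| ≤ (H : ℝ) ^ (i - j) * t.factorial := by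
    rw [abs_of_nonneg (by positivity)]
    gcongr
    exact choose_le_fact (by omega)
  calc |P.coeff i - (z i : ℝ) / D| * |(k : ℝ) ^ (i - j) * (i.choose j : ℝ)| ≤
      K₁ / (H : ℝ) ^ i * ((H : ℝ) ^ (i - j) * t.factorial) := by gcongr
    _ = (t.factorial * K₁) / (H : ℝ) ^ j := by
        have e : (H : ℝ) ^ i = (H : ℝ) ^ (i - j) * (H : ℝ) ^ j := by
          rw [← pow_add]; congr 1; omega
        rw [e]
        field_simp
    _ ≤ (t.factorial * K₁) / (H : ℝ) := by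
        gcongr
        calc (H : ℝ) = (H : ℝ) ^ 1 := by ring
          _ ≤ (H : ℝ) ^ j := pow_le_pow_right₀ hH' hj

end B2

open B2

theorem rowB2 (hA : A_stmt) (hB1 : B1_stmt) : B2_stmt := by
  classical
  intro t ht c hc hc1
  obtain ⟨ρ, hρ⟩ : ∃ ρ : ℝ, ρ = c ^ 2 / 2 := ⟨_, rfl⟩
  have hρ0 : 0 < ρ := by rw [hρ]; positivity
  have hρ1 : ρ ≤ 1 / 2 := by rw [hρ]; nlinarith
  obtain ⟨Aq, hC1, hC⟩ := hA t ht
  obtain ⟨N, hN⟩ : ∃ N : ℕ, N = ⌈(1 / ρ) ^ Aq⌉₊ := ⟨_, rfl⟩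
  have hN1 : (1 / ρ) ^ Aq ≤ N := by rw [hN]; exact Nat.le_ceil _
  have hone : 1 ≤ 1 / ρ := by
    rw [le_div_iff₀ hρ0]; linarith
  have hone' : (1 : ℝ) ≤ (1 / ρ) ^ Aq := one_le_pow₀ hone
  have hNpos : 1 ≤ N := by exact_mod_cast hone'.trans hN1
  have hNf : (1 : ℝ) ≤ (N.factorial : ℝ) := by exact_mod_cast Nat.factorial_pos N
  obtain ⟨K₁, hK₁⟩ : ∃ K₁ : ℝ, K₁ = N.factorial * (1 / ρ) ^ Aq := ⟨_, rfl⟩
  have hK₁0 : 0 < K₁ := by rw [hK₁]; positivity
  refine ⟨ρ, hρ0, N.factorial, Nat.factorial_pos N, (t + 1) * (t.factorial * K₁), by positivity,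
    N, ?_⟩
  intro H M hH hMH B a ha G α hGM hG hαB hcorr
  have hH1 : 1 ≤ H := hNpos.trans hH
  have hH' : (1 : ℝ) ≤ H := by exact_mod_cast hH1
  obtain ⟨k₀, hk₀, hcard⟩ := hB1 H a G (fun k y => ee (ph (α k) ((y : ℝ) - (k : ℝ)))) c hc hc1 ha
    (fun n y => (norm_ee _).le) hG hcorr
  have hcomp : ∀ k y : ℕ, ((phP (α k)).comp (X - C (k : ℝ))).eval (y : ℝ) =
      ph (α k) ((y : ℝ) - (k : ℝ)) := fun k y => by
    rw [eval_comp, phP_eval]; simp
  have hdeg : ∀ k : ℕ, ((phP (α k)).comp (X - C (k : ℝ))).natDegree ≤ t := fun k => by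
    refine (natDegree_comp_le).trans ?_
    rw [natDegree_X_sub_C, mul_one]
    exact phP_natDegree _
  have htay : ∀ k : ℕ, taylor (k : ℝ) ((phP (α k)).comp (X - C (k : ℝ))) = phP (α k) := fun k => by
    rw [taylor_apply, comp_assoc]
    simp
  refine ⟨(phP (α k₀)).comp (X - C (k₀ : ℝ)), hdeg k₀, ?_, G.filter _, filter_subset _ _,
    hρ ▸ hcard, ?_⟩
  · refine le_of_le_of_eq (hcorr k₀ hk₀) ?_
    congr 1
    exact sum_congr rfl fun y _ => by rw [hcomp]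
  intro k hk
  rw [mem_filter] at hk
  obtain ⟨hkG, hks⟩ := hk
  have hkH : k ≤ H := (mem_Icc.1 (hGM hkG)).2.trans hMH
  obtain ⟨P, hP⟩ : ∃ P : ℝ[X], P = (phP (α k)).comp (X - C (k : ℝ)) -
      (phP (α k₀)).comp (X - C (k₀ : ℝ)) := ⟨_, rfl⟩
  have hPd : P.natDegree ≤ t := by
    rw [hP]
    exact (natDegree_sub_le _ _).trans (max_le (hdeg k) (hdeg k₀))
  have hPs : ρ * H ≤ ‖∑ m ∈ Icc 1 H, ee (P.eval (m : ℝ))‖ := by
    refine le_of_le_of_eq hks ?_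
    congr 1
    refine sum_congr rfl fun y _ => ?_
    rw [hP, eval_sub, hcomp, hcomp, ee_sub]
  obtain ⟨q, hq1, hq2, hq3⟩ := hC ρ H P hρ0 hρ1 (hN1.trans (by exact_mod_cast hH)) hPd hPs
  have hqN : q ≤ N := by exact_mod_cast hq2.trans hN1
  obtain ⟨k', hk'⟩ := Nat.dvd_factorial (by omega : 0 < q) hqN
  have hkN : (k' : ℝ) ≤ N.factorial := by
    have : k' ≤ N.factorial := by
      rw [hk']; exact Nat.le_mul_of_pos_left _ (by omega)
    exact_mod_cast this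
  have hnd : ∀ j, 1 ≤ j → j ≤ t →
      nd (((N.factorial : ℕ) : ℝ) * P.coeff j) ≤ K₁ / (H : ℝ) ^ j := fun j hj1 hj2 => by
    have e : ((N.factorial : ℕ) : ℝ) * P.coeff j = (k' : ℝ) * ((q : ℝ) * P.coeff j) := by
      rw [hk']; push_cast; ring
    rw [e]
    refine (nd_nat_mul_le _ _).trans ?_
    refine (mul_le_mul hkN (hq3 j hj1 hj2) (nd_nonneg _) (by positivity)).trans (le_of_eq ?_)
    rw [hK₁]; ring
  have hT := fun i : Fin t => taylor_near P hPd N.factorial (Nat.factorial_pos N) K₁ hK₁0.le H k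
    hH1 hkH hnd (i.val + 1) (by omega)
  choose Z hZ using hT
  refine ⟨fun i => α k i + ((-(Z i) : ℤ) : ℝ) / N.factorial, ⟨α k, hαB k hkG, fun i => -(Z i),
    fun i => rfl⟩, fun i => ?_⟩
  have e : tv t ((phP (α k₀)).comp (X - C (k₀ : ℝ))) k i = α k i -
      (taylor (k : ℝ) P).coeff (i.val + 1) := by
    have e1 : (phP (α k₀)).comp (X - C (k₀ : ℝ)) = (phP (α k)).comp (X - C (k : ℝ)) - P := by
      rw [hP]; ring
    rw [tv, e1, map_sub, htay, coeff_sub, phP_coeff]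
  rw [e]
  have e2 : α k i - (taylor (k : ℝ) P).coeff (i.val + 1) -
      (α k i + ((-(Z i) : ℤ) : ℝ) / N.factorial) =
      -((taylor (k : ℝ) P).coeff (i.val + 1) - (Z i : ℝ) / N.factorial) := by
    push_cast; ring
  rw [e2, abs_neg]
  exact hZ i

end Pool.Agent.TU
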