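import Pool.Agent.Lib.TU.Defs2
import Pool.Agent.Lib.TU.Z

/-!
# Theorem U for the neighbourhoods of a set (row U2)
-/

set_option autoImplicit false
open Finset Polynomial MeasureTheory

namespace Pool.Agent.TU

open Pool.Agent.Lib.MP_663568_nt Pool.Agent.Lib.MP_663568_nt.Katai
  Pool.Agent.Lib.MP_663568_nt.Nul

namespace U2x

open Pointwise in
theorem nb_closed {t : ℕ} {B : Set (Fin t → ℝ)} (hB : IsClosed B) {ρ : ℝ} (hρ : 0 ≤ ρ) :
    IsClosed (Nb B ρ) := by
  have e : Nb B ρ = B + Metric.closedBall (0 : Fin t → ℝ) ρ := by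
    ext α
    rw [Set.mem_add]
    constructor
    · rintro ⟨β, hβ, h⟩
      refine ⟨β, hβ, α - β, ?_, by simp⟩
      rw [mem_closedBall_zero_iff, pi_norm_le_iff_of_nonneg hρ]
      intro i
      rw [Real.norm_eq_abs]
      exact h i
    · rintro ⟨β, hβ, γ, hγ, rfl⟩
      refine ⟨β, hβ, fun i => ?_⟩
      rw [mem_closedBall_zero_iff, pi_norm_le_iff_of_nonneg hρ] at hγ
      have := hγ i
      rw [Real.norm_eq_abs] at this
      simpa using this
  rw [e]
  exact hB.add_right_of_isCompact (isCompact_closedBall _ _)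

/-- A translate of the lattice. -/
def Lat {t : ℕ} (a : Fin t → ℝ) : Set (Fin t → ℝ) := {x | ∃ z : Fin t → ℤ, ∀ i, x i = a i + z i}

theorem lat_closed {t : ℕ} (a : Fin t → ℝ) : IsClosed (Lat a) := by
  have e : Lat a = ⋂ i, (fun x : Fin t → ℝ => x i - a i) ⁻¹' (Set.range ((↑) : ℤ → ℝ)) := by
    ext x
    simp only [Lat, Set.mem_ofPred_eq, Set.mem_iInter, Set.mem_preimage, Set.mem_range]
    constructor
    · rintro ⟨z, hz⟩ i
      exact ⟨z i, by rw [hz i]; ring⟩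
    · intro h
      choose z hz using h
      exact ⟨z, fun i => by rw [hz i]; ring⟩
  rw [e]
  refine isClosed_iInter fun i => ?_
  exact Int.isClosedEmbedding_coe_real.isClosed_range.preimage
    ((continuous_apply i).sub continuous_const)

theorem lat_add {t : ℕ} {a x : Fin t → ℝ} (hx : x ∈ Lat a) (z : Fin t → ℤ) :
    (fun i => x i + (z i : ℝ)) ∈ Lat a := by
  obtain ⟨w, hw⟩ := hx
  refine ⟨fun i => w i + z i, fun i => ?_⟩
  simp only
  rw [hw i]
  push_cast
  ring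

theorem lat_null {s t : ℕ} (hs : 1 ≤ s) (hst : s ≤ t) (r a : Fin t → ℝ) :
    volume {y : Fin s → ℝ | glue s y r ∈ Lat a} = 0 := by
  have hsub : {y : Fin s → ℝ | glue s y r ∈ Lat a} ⊆
      ⋃ z : ℤ, {y : Fin s → ℝ | y ⟨0, hs⟩ = a ⟨0, by omega⟩ + z} := by
    intro y hy
    obtain ⟨z, hz⟩ := hy
    rw [Set.mem_iUnion]
    refine ⟨z ⟨0, by omega⟩, ?_⟩
    have h1 := hz ⟨0, by omega⟩
    have h2 : glue s y r ⟨0, by omega⟩ = y ⟨0, hs⟩ := by
      unfold glue
      rw [dif_pos (by exact hs)]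
    rw [h2] at h1
    exact h1
  refine measure_mono_null hsub (measure_iUnion_null fun z => ?_)
  rw [volume_pi]
  exact Measure.pi_hyperplane _ _ _

theorem nb_mono {t : ℕ} {B : Set (Fin t → ℝ)} {ρ ρ' : ℝ} (h : ρ ≤ ρ') : Nb B ρ ⊆ Nb B ρ' :=
  fun _ ⟨β, hβ, hb⟩ => ⟨β, hβ, fun i => (hb i).trans h⟩

theorem nb_self {t : ℕ} {B : Set (Fin t → ℝ)} {ρ : ℝ} (h : 0 ≤ ρ) : B ⊆ Nb B ρ :=
  fun β hβ => ⟨β, hβ, fun i => by simpa using h⟩

theorem nb_per {t : ℕ} {B : Set (Fin t → ℝ)} (hB : Per B) (ρ : ℝ) : Per (Nb B ρ) := by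
  rintro α ⟨β, hβ, hb⟩ z
  refine ⟨_, hB β hβ z, fun i => ?_⟩
  have : α i + (z i : ℝ) - (β i + (z i : ℝ)) = α i - β i := by ring
  simp only
  rw [this]
  exact hb i

theorem mem_of_all {t : ℕ} {B : Set (Fin t → ℝ)} (hB : IsClosed B) {x : Fin t → ℝ}
    (h : ∀ j : ℕ, x ∈ Nb B (1 / ((j : ℝ) + 1))) : x ∈ B := by
  rw [← hB.closure_eq, Metric.mem_closure_iff]
  intro ε hε
  obtain ⟨j, hj⟩ := exists_nat_one_div_lt hε
  obtain ⟨β, hβ, hb⟩ := h j
  refine ⟨β, hβ, lt_of_le_of_lt ?_ hj⟩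
  rw [dist_pi_le_iff (by positivity)]
  intro i
  rw [Real.dist_eq]
  exact hb i

end U2x

open U2x ZZ in
theorem rowU2 (hU : U_stmt) : U2_stmt := by
  intro t ht B hB hP hN ε hε
  by_contra hcon
  push Not at hcon
  -- the bad scales
  have hbad : ∀ j : ℕ, ∃ H N : ℕ, j + 3 ≤ H ∧ H ≤ N ∧
      ε * H * Real.log N < SB (Nb B (1 / ((j : ℝ) + 1))) N H := by
    intro j
    obtain ⟨H, N, h1, h2, h3⟩ := hcon (1 / ((j : ℝ) + 1)) (by positivity) (j + 3)
    exact ⟨H, N, h1, h2, h3⟩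
  choose Hj Nj hH hN2 hlt using hbad
  have hHpos : ∀ j, (0 : ℝ) < Hj j := fun j => by
    have : 0 < Hj j := by have := hH j; omega
    exact_mod_cast this
  have hlogpos : ∀ j, 1 ≤ Real.log (Nj j) := by
    intro j
    have h3 : (3 : ℝ) ≤ Nj j := by
      have : 3 ≤ Nj j := by have := hH j; have := hN2 j; omega
      exact_mod_cast this
    rw [Real.le_log_iff_exp_le (by linarith)]
    linarith [Real.exp_one_lt_three]
  have hne : ∀ j : ℕ, (Nb B (1 / ((j : ℝ) + 1))).Nonempty := by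
    intro j
    by_contra hemp
    rw [Set.not_nonempty_iff_eq_empty] at hemp
    have h0 : SB (Nb B (1 / ((j : ℝ) + 1))) (Nj j) (Hj j) = 0 := by
      unfold SB
      refine Finset.sum_eq_zero fun n _ => ?_
      have : IsEmpty {α : Fin t → ℝ // α ∈ Nb B (1 / ((j : ℝ) + 1))} := by
        rw [hemp]
        exact ⟨fun x => x.2⟩
      rw [Real.iSup_of_isEmpty, mul_zero]
    have := hlt j
    rw [h0] at this
    have h1 := hHpos j
    have h2 := hlogpos j
    have h3 : 0 ≤ ε * Hj j * Real.log (Nj j) := by positivity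
    linarith
  -- almost maximal phases
  have hα : ∀ j n : ℕ, ∃ α ∈ Nb B (1 / ((j : ℝ) + 1)),
      F (Nb B (1 / ((j : ℝ) + 1))) (Hj j) n - ε / 8 * Hj j ≤
        ‖∑ h ∈ Icc 1 (Hj j), muC (n + h) * ee (ph α (h : ℝ))‖ := by
    intro j n
    have h1 := hHpos j
    have h2 : 0 < ε / 8 * Hj j := by positivity
    by_cases hc : 0 ≤ F (Nb B (1 / ((j : ℝ) + 1))) (Hj j) n - ε / 8 * Hj j
    · obtain ⟨α, hαm, hαl⟩ := exists_of_lt (B := Nb B (1 / ((j : ℝ) + 1))) (H := Hj j) (n := n)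
        hc (by linarith)
      exact ⟨α, hαm, hαl.le⟩
    · obtain ⟨α, hαm⟩ := hne j
      exact ⟨α, hαm, (not_le.1 hc).le.trans (norm_nonneg _)⟩
  choose α hαm hαl using hα
  set A : ℕ → Set (Fin t → ℝ) := fun J => ⋃ j ∈ Finset.range J, ⋃ n ∈ Icc 1 (Nj j), Lat (α j n)
    with hA
  set B1 : Set (Fin t → ℝ) := B ∪ ⋃ J, A J with hB1
  have hmemA : ∀ J x, x ∈ A J ↔ ∃ j < J, ∃ n, 1 ≤ n ∧ n ≤ Nj j ∧ x ∈ Lat (α j n) := by
    intro J x
    simp only [hA, Set.mem_iUnion, Finset.mem_range, Finset.mem_Icc, exists_prop]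
    constructor
    · rintro ⟨j, hj, n, ⟨h1, h2⟩, hx⟩
      exact ⟨j, hj, n, h1, h2, hx⟩
    · rintro ⟨j, hj, n, h1, h2, hx⟩
      exact ⟨j, hj, n, ⟨h1, h2⟩, hx⟩
  have hAc : ∀ J, IsClosed (A J) := by
    intro J
    refine Set.Finite.isClosed_biUnion (Finset.finite_toSet _) fun j _ => ?_
    exact Set.Finite.isClosed_biUnion (Finset.finite_toSet _) fun n _ => lat_closed _
  have hLat : ∀ j n, Lat (α j n) ⊆ Nb B (1 / ((j : ℝ) + 1)) := by
    rintro j n x ⟨z, hz⟩
    have := nb_per hP (1 / ((j : ℝ) + 1)) (α j n) (hαm j n) z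
    have e : x = fun i => α j n i + (z i : ℝ) := funext hz
    rw [e]
    exact this
  have hclosed : IsClosed B1 := by
    have e : B1 = ⋂ J : ℕ, (Nb B (1 / ((J : ℝ) + 1)) ∪ A J) := by
      apply Set.eq_of_subset_of_subset
      · intro x hx
        rw [Set.mem_iInter]
        intro J
        rcases hx with hx | hx
        · exact Or.inl (nb_self (by positivity) hx)
        · rw [Set.mem_iUnion] at hx
          obtain ⟨J', hx⟩ := hx
          rw [hmemA] at hx
          obtain ⟨j, hj, n, h1, h2, hx⟩ := hx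
          by_cases hjJ : j < J
          · right
            rw [hmemA]
            exact ⟨j, hjJ, n, h1, h2, hx⟩
          · left
            refine nb_mono ?_ (hLat j n hx)
            have : (J : ℝ) ≤ j := by exact_mod_cast not_lt.1 hjJ
            apply one_div_le_one_div_of_le (by positivity)
            linarith
      · intro x hx
        rw [Set.mem_iInter] at hx
        by_cases h : ∃ J, x ∈ A J
        · obtain ⟨J, hJ⟩ := h
          exact Or.inr (Set.mem_iUnion.2 ⟨J, hJ⟩)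
        · push Not at h
          left
          exact mem_of_all hB fun j => (hx j).resolve_right (h j)
    rw [e]
    exact isClosed_iInter fun J => (nb_closed hB (by positivity)).union (hAc J)
  have hper : Per B1 := by
    rintro x (hx | hx) z
    · exact Or.inl (hP x hx z)
    · right
      rw [Set.mem_iUnion] at hx ⊢
      obtain ⟨J, hx⟩ := hx
      refine ⟨J, ?_⟩
      rw [hmemA] at hx ⊢
      obtain ⟨j, hj, n, h1, h2, hx⟩ := hx
      exact ⟨j, hj, n, h1, h2, lat_add hx z⟩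
  have hnull : NullSec B1 := by
    intro s hs hst r
    have e : {y : Fin s → ℝ | glue s y (fun i => ((r i : ℚ) : ℝ)) ∈ B1} ⊆
        {y : Fin s → ℝ | glue s y (fun i => ((r i : ℚ) : ℝ)) ∈ B} ∪
          ⋃ j : ℕ, ⋃ n : ℕ, {y : Fin s → ℝ | glue s y (fun i => ((r i : ℚ) : ℝ)) ∈
            Lat (α j n)} := by
      intro y hy
      rcases hy with hy | hy
      · exact Or.inl hy
      · right
        rw [Set.mem_iUnion] at hy
        obtain ⟨J, hy⟩ := hy
        rw [hmemA] at hy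
        obtain ⟨j, hj, n, h1, h2, hx⟩ := hy
        rw [Set.mem_iUnion]
        exact ⟨j, Set.mem_iUnion.2 ⟨n, hx⟩⟩
    refine measure_mono_null e (measure_union_null (hN s hs hst r) ?_)
    exact measure_iUnion_null fun j => measure_iUnion_null fun n => lat_null hs hst _ _
  obtain ⟨H₀, hH0⟩ := hU t ht B1 hclosed hper hnull (ε / 2) (by positivity)
  have hfin := hH0 (Hj H₀) (Nj H₀) (by have := hH H₀; omega) (hN2 H₀)
  set j := H₀ with hj
  have hle : ∀ n ∈ Icc 1 (Nj j), F (Nb B (1 / ((j : ℝ) + 1))) (Hj j) n - ε / 8 * Hj j ≤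
      F B1 (Hj j) n := by
    intro n hn
    rw [Finset.mem_Icc] at hn
    refine (hαl j n).trans ?_
    have hmem : α j n ∈ B1 := by
      right
      rw [Set.mem_iUnion]
      refine ⟨j + 1, ?_⟩
      rw [hmemA]
      exact ⟨j, Nat.lt_succ_self j, n, hn.1, hn.2, ⟨fun _ => 0, fun i => by simp⟩⟩
    exact le_ciSup (f := fun β : {β : Fin t → ℝ // β ∈ B1} =>
      ‖∑ h ∈ Icc 1 (Hj j), muC (n + h) * ee (ph (β : Fin t → ℝ) (h : ℝ))‖)
      ⟨(Hj j : ℝ), by
        rintro _ ⟨β, rfl⟩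
        exact norm_sum_le_card
          (g := fun h => muC (n + h) * ee (ph (β : Fin t → ℝ) (h : ℝ)))
          (fun _ => norm_term_le _ _) (Hj j)⟩ ⟨α j n, hmem⟩
  have hsum : SB (Nb B (1 / ((j : ℝ) + 1))) (Nj j) (Hj j) ≤
      ∑ n ∈ Icc 1 (Nj j), (1 / (n : ℝ)) * F B1 (Hj j) n +
        (∑ n ∈ Icc 1 (Nj j), (1 / (n : ℝ))) * (ε / 8 * Hj j) := by
    rw [Finset.sum_mul, ← Finset.sum_add_distrib]
    unfold SB
    refine Finset.sum_le_sum fun n hn => ?_
    rw [← mul_add]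
    refine mul_le_mul_of_nonneg_left ?_ (by positivity)
    have := hle n hn
    have h2 : F (Nb B (1 / ((j : ℝ) + 1))) (Hj j) n ≤ F B1 (Hj j) n + ε / 8 * Hj j := by linarith
    exact h2
  have h5 : ∑ n ∈ Icc 1 (Nj j), (1 / (n : ℝ)) * F B1 (Hj j) n ≤
      ε / 2 * Hj j * Real.log (Nj j) := hfin
  have h6 := sum_inv_le_log (Nj j)
  have h7 := hHpos j
  have h8 := hlogpos j
  have h9 : (∑ n ∈ Icc 1 (Nj j), (1 / (n : ℝ))) * (ε / 8 * Hj j) ≤
      (2 * Real.log (Nj j)) * (ε / 8 * Hj j) := by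
    refine mul_le_mul_of_nonneg_right (by linarith) (by positivity)
  have h10 := hlt j
  have h11 : 0 < ε * Hj j * Real.log (Nj j) := by positivity
  nlinarith

end Pool.Agent.TU
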