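import Mathlib
import Pool.Agent.Lib.TU.Defs

/-!
# Theorem U (MP_663568_nt): neighbourhoods and the converse
-/

set_option autoImplicit false
open Finset Polynomial MeasureTheory

namespace Pool.Agent.TU

open Pool.Agent.Lib.MP_663568_nt Pool.Agent.Lib.MP_663568_nt.Katai
  Pool.Agent.Lib.MP_663568_nt.Nul

/-- The average over the windows of the supremum over the phases of `B`. -/
noncomputable def SB {t : ℕ} (B : Set (Fin t → ℝ)) (N H : ℕ) : ℝ :=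
  ∑ n ∈ Icc 1 N, (1 / (n : ℝ)) * ⨆ α : {α : Fin t → ℝ // α ∈ B},
      ‖∑ h ∈ Icc 1 H, muC (n + h) * ee (ph (α : Fin t → ℝ) (h : ℝ))‖

/-- Row U2: Theorem U for the neighbourhoods of `B`. -/
def U2_stmt : Prop := ∀ (t : ℕ), 1 ≤ t → ∀ B : Set (Fin t → ℝ), IsClosed B → Per B → NullSec B →
  ∀ ε : ℝ, 0 < ε → ∃ ρ : ℝ, 0 < ρ ∧ ∃ H₀ : ℕ, ∀ H N : ℕ, H₀ ≤ H → H ≤ N →
    SB (Nb B ρ) N H ≤ ε * H * Real.log N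

/-- Row V1: removal of the rational coefficients. -/
def V1_stmt : Prop := ∀ (t : ℕ), 1 ≤ t → ∀ (B : Set (Fin t → ℝ)) (C : Set ℝ) (r : Fin t → ℚ),
  (∀ y ∈ C, (fun i : Fin t => if i.val = 0 then y else ((r i : ℚ) : ℝ)) ∈ B) →
  (∀ ε : ℝ, 0 < ε → ∃ H₀ : ℕ, ∀ H N : ℕ, H₀ ≤ H → H ≤ N → SB B N H ≤ ε * H * Real.log N) →
  ∃ b : ℝ, ∀ ε : ℝ, 0 < ε → ∃ H₀ : ℕ, ∀ H N : ℕ, H₀ ≤ H → H ≤ N →
    SB {y : Fin 1 → ℝ | y 0 - b ∈ C} N H ≤ ε * H * Real.log N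

/-- Row V2: from a set of positive measure to the whole circle (WholeCircle (ii)). -/
def V2_stmt : Prop := ∀ C : Set ℝ, volume C ≠ 0 →
  (∀ ε : ℝ, 0 < ε → ∃ H₀ : ℕ, ∀ H N : ℕ, H₀ ≤ H → H ≤ N →
    SB {y : Fin 1 → ℝ | y 0 ∈ C} N H ≤ ε * H * Real.log N) →
  ∀ ε : ℝ, 0 < ε → ∃ H₀ : ℕ, ∀ H N : ℕ, H₀ ≤ H → H ≤ N →
    SB (Set.univ : Set (Fin 1 → ℝ)) N H ≤ ε * H * Real.log N

/-- Row V: the converse for rational sections of dimension one of positive measure. -/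
def V_stmt : Prop := ∀ (t : ℕ), 1 ≤ t → ∀ (B : Set (Fin t → ℝ)) (r : Fin t → ℚ),
  volume {y : Fin 1 → ℝ | glue 1 y (fun i => ((r i : ℚ) : ℝ)) ∈ B} ≠ 0 →
  (∀ ε : ℝ, 0 < ε → ∃ H₀ : ℕ, ∀ H N : ℕ, H₀ ≤ H → H ≤ N → SB B N H ≤ ε * H * Real.log N) →
  ∀ ε : ℝ, 0 < ε → ∃ H₀ : ℕ, ∀ H N : ℕ, H₀ ≤ H → H ≤ N →
    SB (Set.univ : Set (Fin 1 → ℝ)) N H ≤ ε * H * Real.log N

end Pool.Agent.TU
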