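import Mathlib
import Pool.Agent.Lib.TU.Defs2

/-!
# Theorem U (MP_663568_nt), row V: assembly of the converse
-/

set_option autoImplicit false
open Finset Polynomial MeasureTheory

namespace Pool.Agent.TU

/-- **Row V.** -/
theorem rowV (hV1 : V1_stmt) (hV2 : V2_stmt) : V_stmt := by
  intro t ht B r hvol hB
  obtain ⟨C, hC⟩ : ∃ C : Set ℝ, C = {y : ℝ |
      (fun i : Fin t => if i.val = 0 then y else ((r i : ℚ) : ℝ)) ∈ B} := ⟨_, rfl⟩
  obtain ⟨b, hb⟩ := hV1 t ht B C r (fun y hy => by rw [hC] at hy; exact hy) hB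
  have hs : {y : Fin 1 → ℝ | glue 1 y (fun i => ((r i : ℚ) : ℝ)) ∈ B} =
      (MeasurableEquiv.funUnique (Fin 1) ℝ) ⁻¹' C := by
    ext y
    rw [hC, Set.mem_preimage, Set.mem_setOf_eq, Set.mem_setOf_eq]
    have : glue 1 y (fun i => ((r i : ℚ) : ℝ)) = fun i : Fin t =>
        if i.val = 0 then (MeasurableEquiv.funUnique (Fin 1) ℝ) y else ((r i : ℚ) : ℝ) := by
      funext i
      unfold glue
      by_cases hi : i.val = 0
      · simp [hi]
      · have : ¬ i.val < 1 := by omega
        simp [hi, this]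
    rw [this]
  have hvC : volume C ≠ 0 := by
    have h := (volume_preserving_funUnique (Fin 1) ℝ).measure_preimage_equiv C
    intro h0
    apply hvol
    rw [hs]
    exact h.trans h0
  have hvC' : volume {x : ℝ | x - b ∈ C} ≠ 0 := by
    have : {x : ℝ | x - b ∈ C} = (fun x => x + (-b)) ⁻¹' C := by
      ext x; simp [sub_eq_add_neg]
    rw [this, measure_preimage_add_right]
    exact hvC
  exact hV2 {x : ℝ | x - b ∈ C} hvC' hb

end Pool.Agent.TU
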