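import Mathlib
import Pool.Agent.Lib.TU.Defs

/-!
# Theorem U (MP_663568_nt): the row C from its parts
-/

set_option autoImplicit false
open Finset Polynomial MeasureTheory

namespace Pool.Agent.TU

open Pool.Agent.Lib.MP_663568_nt Pool.Agent.Lib.MP_663568_nt.Katai
  Pool.Agent.Lib.MP_663568_nt.Nul

lemma fib_le_one {t : ℕ} (s : ℕ) (B : Set (Fin t → ℝ)) (α : Fin t → ℝ) : fib s B α ≤ 1 := by
  unfold fib
  calc volume {z : Fin (s - 1) → ℝ | (∀ i, z i ∈ Set.Icc (0 : ℝ) 1) ∧ glue (s - 1) z α ∈ B}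
      ≤ volume (Set.Icc (0 : Fin (s - 1) → ℝ) 1) := by
        apply measure_mono
        intro z hz
        exact ⟨fun i => (hz.1 i).1, fun i => (hz.1 i).2⟩
    _ = 1 := by
        rw [Real.volume_Icc_pi]
        simp

/-- The row C. -/
theorem C_of (h1 : C1_stmt) (h2 : C2_stmt) (h3 : C3_stmt) : C_stmt := by
  intro t B hB hP hN s hs hst D hD κ hκ hκ1
  obtain ⟨hc, hv, hinv, hirr⟩ := h1 t B hB hP hN s hs hst D hD (κ / 2) (by positivity)
  refine ⟨Tb s D B (κ / 2), hc, hv, hinv, hirr, fun ρ hρ => ?_⟩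
  obtain ⟨ρ', hρ', h⟩ := h2 t B hB hP s hs hst D hD (κ / 2) (by positivity) ρ hρ
  obtain ⟨Λ, w, h0, hN1, hl⟩ := h3 t B hB hP s hs hst ρ' (κ / 2) hρ' (by positivity)
  refine ⟨ρ', hρ', Λ, w, h0, hN1, fun α => ?_, fun α hα hα2 => ?_⟩
  · have h4 : (fib s (Nb B (2 * ρ')) α).toReal ≤ 1 := by
      have := ENNReal.toReal_mono ENNReal.one_ne_top (fib_le_one s (Nb B (2 * ρ')) α)
      simpa using this
    have := hl α
    linarith
  · have h4 := ENNReal.toReal_lt_of_lt_ofReal (h α hα hα2)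
    have := hl α
    linarith

end Pool.Agent.TU
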