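import Pool.Agent.Lib.TU.Defs

/-!
# TU row B1: a bounded sequence which correlates with many functions (helper1)
-/

set_option autoImplicit false
open Finset Polynomial MeasureTheory

namespace Pool.Agent.TU

open Pool.Agent.Lib.MP_663568_nt Pool.Agent.Lib.MP_663568_nt.Katai
  Pool.Agent.Lib.MP_663568_nt.Nul

namespace B1

/-- a unimodular factor -/
theorem exists_unit (S : ℂ) : ∃ u : ℂ, ‖u‖ ≤ 1 ∧ u * S = (‖S‖ : ℂ) := by
  by_cases h : S = 0
  · exact ⟨0, by simp, by simp [h]⟩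
  · have hn : ‖S‖ ≠ 0 := norm_ne_zero_iff.2 h
    have hn' : (‖S‖ : ℂ) ≠ 0 := by exact_mod_cast hn
    refine ⟨(starRingEnd ℂ) S / ‖S‖, ?_, ?_⟩
    · rw [norm_div, RCLike.norm_conj, Complex.norm_real, norm_norm, div_self hn]
    · rw [div_mul_eq_mul_div, mul_comm, Complex.mul_conj, Complex.normSq_eq_norm_sq]
      push_cast
      field_simp

end B1

open B1

theorem rowB1 : B1_stmt := by
  intro H a G φ c hc hc1 ha hφ hG hcor
  classical
  set g : ℝ := (#G : ℝ) with hg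
  have hg0 : 0 < g := by
    rw [hg]
    exact_mod_cast hG.card_pos
  -- the inner products
  set q : ℕ → ℕ → ℂ := fun n n' => ∑ y ∈ Icc 1 H, φ n y * (starRingEnd ℂ) (φ n' y) with hq
  have hqb : ∀ n n', ‖q n n'‖ ≤ H := by
    intro n n'
    calc ‖q n n'‖ ≤ ∑ y ∈ Icc 1 H, ‖φ n y * (starRingEnd ℂ) (φ n' y)‖ := norm_sum_le _ _
      _ ≤ ∑ y ∈ Icc 1 H, (1 : ℝ) := by
          refine sum_le_sum fun y _ => ?_
          rw [norm_mul, RCLike.norm_conj]
          exact mul_le_one₀ (hφ n y) (norm_nonneg _) (hφ n' y)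
      _ = H := by simp
  -- the main inequality
  have hmain : c ^ 2 * H * g ^ 2 ≤ ∑ n' ∈ G, ∑ n ∈ G, ‖q n n'‖ := by
    rcases Nat.eq_zero_or_pos H with h0 | hHpos
    · subst h0
      simp only [Nat.cast_zero, mul_zero, zero_mul]
      exact sum_nonneg fun _ _ => sum_nonneg fun _ _ => norm_nonneg _
    have hHr : (0 : ℝ) < H := by exact_mod_cast hHpos
    choose u hu1 hu2 using fun n => B1.exists_unit (∑ y ∈ Icc 1 H, a y * φ n y)
    set b : ℕ → ℂ := fun y => ∑ n ∈ G, u n * φ n y with hb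
    have e1 : ∑ n ∈ G, (‖∑ y ∈ Icc 1 H, a y * φ n y‖ : ℂ) = ∑ y ∈ Icc 1 H, a y * b y := by
      calc ∑ n ∈ G, (‖∑ y ∈ Icc 1 H, a y * φ n y‖ : ℂ)
          = ∑ n ∈ G, u n * ∑ y ∈ Icc 1 H, a y * φ n y :=
            sum_congr rfl fun n _ => (hu2 n).symm
        _ = ∑ n ∈ G, ∑ y ∈ Icc 1 H, a y * (u n * φ n y) := by
            refine sum_congr rfl fun n _ => ?_
            rw [mul_sum]
            refine sum_congr rfl fun y _ => ?_
            ring
        _ = ∑ y ∈ Icc 1 H, ∑ n ∈ G, a y * (u n * φ n y) := sum_comm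
        _ = ∑ y ∈ Icc 1 H, a y * b y := by
            refine sum_congr rfl fun y _ => ?_
            rw [hb, mul_sum]
    have e2 : c * H * g ≤ ∑ y ∈ Icc 1 H, ‖b y‖ := by
      have h1 : c * H * g ≤ ∑ n ∈ G, ‖∑ y ∈ Icc 1 H, a y * φ n y‖ := by
        have := sum_le_sum hcor
        rw [sum_const, nsmul_eq_mul] at this
        linarith
      have h2 : ∑ n ∈ G, ‖∑ y ∈ Icc 1 H, a y * φ n y‖ = ‖∑ y ∈ Icc 1 H, a y * b y‖ := by
        rw [← e1]
        have h3 : ∑ n ∈ G, (‖∑ y ∈ Icc 1 H, a y * φ n y‖ : ℂ) =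
            ((∑ n ∈ G, ‖∑ y ∈ Icc 1 H, a y * φ n y‖ : ℝ) : ℂ) := by push_cast; rfl
        rw [h3, Complex.norm_real, Real.norm_eq_abs, abs_of_nonneg]
        exact sum_nonneg fun _ _ => norm_nonneg _
      rw [h2] at h1
      refine h1.trans ((norm_sum_le _ _).trans (sum_le_sum fun y _ => ?_))
      rw [norm_mul]
      calc ‖a y‖ * ‖b y‖ ≤ 1 * ‖b y‖ := mul_le_mul_of_nonneg_right (ha y) (norm_nonneg _)
        _ = ‖b y‖ := one_mul _
    have e3 : (∑ y ∈ Icc 1 H, ‖b y‖) ^ 2 ≤ H * ∑ y ∈ Icc 1 H, ‖b y‖ ^ 2 := by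
      have := sq_sum_le_card_mul_sum_sq (s := Icc 1 H) (f := fun y => ‖b y‖)
      simpa using this
    have e4 : ∑ y ∈ Icc 1 H, ‖b y‖ ^ 2 ≤ ∑ n' ∈ G, ∑ n ∈ G, ‖q n n'‖ := by
      have h1 : ((∑ y ∈ Icc 1 H, ‖b y‖ ^ 2 : ℝ) : ℂ) =
          ∑ n' ∈ G, ∑ n ∈ G, u n * (starRingEnd ℂ) (u n') * q n n' := by
        push_cast
        have h2 : ∀ y, ((‖b y‖ : ℂ)) ^ 2 =
            ∑ n' ∈ G, ∑ n ∈ G, u n * (starRingEnd ℂ) (u n') *
              (φ n y * (starRingEnd ℂ) (φ n' y)) := by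
          intro y
          rw [← Complex.mul_conj', hb]
          simp only [map_sum, map_mul]
          rw [mul_sum]
          refine sum_congr rfl fun n' _ => ?_
          rw [sum_mul]
          refine sum_congr rfl fun n _ => ?_
          ring
        simp_rw [h2]
        rw [sum_comm]
        refine sum_congr rfl fun n' _ => ?_
        rw [sum_comm]
        refine sum_congr rfl fun n _ => ?_
        rw [hq, mul_sum]
      have h3 : ∑ y ∈ Icc 1 H, ‖b y‖ ^ 2 = ‖((∑ y ∈ Icc 1 H, ‖b y‖ ^ 2 : ℝ) : ℂ)‖ := by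
        rw [Complex.norm_real, Real.norm_eq_abs, abs_of_nonneg]
        exact sum_nonneg fun _ _ => sq_nonneg _
      rw [h3, h1]
      refine (norm_sum_le _ _).trans (sum_le_sum fun n' _ => (norm_sum_le _ _).trans
        (sum_le_sum fun n _ => ?_))
      rw [norm_mul, norm_mul, RCLike.norm_conj]
      calc ‖u n‖ * ‖u n'‖ * ‖q n n'‖ ≤ 1 * ‖q n n'‖ :=
            mul_le_mul_of_nonneg_right (mul_le_one₀ (hu1 n) (norm_nonneg _) (hu1 n'))
              (norm_nonneg _)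
        _ = ‖q n n'‖ := one_mul _
    have e5 : (c * H * g) ^ 2 ≤ H * ∑ n' ∈ G, ∑ n ∈ G, ‖q n n'‖ := by
      refine (pow_le_pow_left₀ (by positivity) e2 2).trans (e3.trans ?_)
      exact mul_le_mul_of_nonneg_left e4 hHr.le
    have e6 : (H : ℝ) * (c ^ 2 * H * g ^ 2) ≤ H * ∑ n' ∈ G, ∑ n ∈ G, ‖q n n'‖ := by
      refine le_trans (le_of_eq ?_) e5
      ring
    exact le_of_mul_le_mul_left e6 hHr
  -- the best `n₀`
  obtain ⟨n₀, hn₀, hbest⟩ : ∃ n₀ ∈ G, c ^ 2 * H * g ≤ ∑ n ∈ G, ‖q n n₀‖ := by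
    by_contra hcon
    push Not at hcon
    have h1 : ∑ n' ∈ G, ∑ n ∈ G, ‖q n n'‖ < ∑ n' ∈ G, c ^ 2 * H * g :=
      sum_lt_sum_of_nonempty hG hcon
    rw [sum_const, nsmul_eq_mul] at h1
    have h2 : (#G : ℝ) * (c ^ 2 * H * g) = c ^ 2 * H * g ^ 2 := by rw [← hg]; ring
    rw [h2] at h1
    linarith
  refine ⟨n₀, hn₀, ?_⟩
  rcases Nat.eq_zero_or_pos H with h0 | hHpos
  · subst h0
    have : (G.filter fun n => c ^ 2 / 2 * ((0 : ℕ) : ℝ) ≤
        ‖∑ y ∈ Icc 1 0, φ n y * (starRingEnd ℂ) (φ n₀ y)‖) = G := by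
      refine filter_true_of_mem fun n _ => ?_
      simp
    rw [this]
    have : c ^ 2 / 2 ≤ 1 := by nlinarith
    rw [← hg]
    nlinarith
  have hHr : (0 : ℝ) < H := by exact_mod_cast hHpos
  set S : Finset ℕ := G.filter fun n => c ^ 2 / 2 * H ≤ ‖q n n₀‖ with hS
  have hsplit : ∑ n ∈ G, ‖q n n₀‖ ≤ H * (#S : ℝ) + c ^ 2 / 2 * H * g := by
    rw [← sum_filter_add_sum_filter_not G (fun n => c ^ 2 / 2 * H ≤ ‖q n n₀‖)]
    refine add_le_add ?_ ?_
    · calc ∑ n ∈ S, ‖q n n₀‖ ≤ ∑ n ∈ S, (H : ℝ) := sum_le_sum fun n _ => hqb n n₀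
        _ = H * (#S : ℝ) := by rw [sum_const, nsmul_eq_mul, mul_comm]
    · calc ∑ n ∈ G with ¬ c ^ 2 / 2 * H ≤ ‖q n n₀‖, ‖q n n₀‖
          ≤ ∑ n ∈ G with ¬ c ^ 2 / 2 * H ≤ ‖q n n₀‖, c ^ 2 / 2 * H := by
            refine sum_le_sum fun n hn => ?_
            exact (not_le.1 (mem_filter.1 hn).2).le
        _ = (#(G.filter fun n => ¬ c ^ 2 / 2 * H ≤ ‖q n n₀‖) : ℝ) * (c ^ 2 / 2 * H) := by
            rw [sum_const, nsmul_eq_mul]
        _ ≤ g * (c ^ 2 / 2 * H) := by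
            refine mul_le_mul_of_nonneg_right ?_ (by positivity)
            rw [hg]
            exact_mod_cast card_le_card (filter_subset _ _)
        _ = c ^ 2 / 2 * H * g := by ring
  have h1 : c ^ 2 / 2 * g * H ≤ (#S : ℝ) * H := by nlinarith
  exact le_of_mul_le_mul_right h1 hHr

end Pool.Agent.TU
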