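import Pool.Agent.Lib.TU.Defs

/-!
# Row C1: the bad set (MP_663568_nt, Theorem U; helper18)
-/

set_option autoImplicit false
open Finset Polynomial MeasureTheory Filter Topology

namespace Pool.Agent.TU

/-- Reverse Fatou for sets. -/
theorem le_measure_limsup {X : Type*} [MeasurableSpace X] (μ : Measure X) (A : ℕ → Set X)
    (hA : ∀ n, MeasurableSet (A n)) (S : Set X) (hS : μ S ≠ ⊤) (hsub : ∀ n, A n ⊆ S)
    (c : ENNReal) (hc : ∀ n, c ≤ μ (A n)) (L : Set X)
    (hL : ∀ x, (∃ᶠ n in atTop, x ∈ A n) → x ∈ L) : c ≤ μ L := by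
  set Bs : ℕ → Set X := fun M => ⋃ N ∈ Set.Ici M, A N with hBs
  have hBm : ∀ M, MeasurableSet (Bs M) := fun M =>
    MeasurableSet.biUnion (Set.to_countable _) fun N _ => hA N
  have hBanti : Antitone Bs := by
    intro M M' h
    exact Set.biUnion_subset_biUnion_left (Set.Ici_subset_Ici.2 h)
  have hBle : ∀ M, c ≤ μ (Bs M) := fun M =>
    (hc M).trans (measure_mono (Set.subset_biUnion_of_mem (u := A) (x := M) Set.self_mem_Ici))
  have hBfin : ∀ M, μ (Bs M) ≠ ⊤ := fun M =>
    ne_top_of_le_ne_top hS (measure_mono (Set.iUnion₂_subset fun N _ => hsub N))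
  have h1 := tendsto_measure_iInter_atTop (μ := μ) (s := Bs)
    (fun M => (hBm M).nullMeasurableSet) hBanti ⟨0, hBfin 0⟩
  refine (ge_of_tendsto' h1 hBle).trans (measure_mono fun x hx => hL x ?_)
  rw [frequently_atTop]
  intro M
  have := Set.mem_iInter.1 hx M
  simp only [hBs, Set.mem_iUnion, exists_prop, Set.mem_Ici] at this
  obtain ⟨N, hN, hN'⟩ := this
  exact ⟨N, hN, hN'⟩

namespace C1x

theorem glue_congr {t : ℕ} (s : ℕ) (z : Fin s → ℝ) (α β : Fin t → ℝ)
    (h : ∀ i : Fin t, s ≤ i.val → α i = β i) : glue s z α = glue s z β := by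
  funext i
  unfold glue
  by_cases hi : i.val < s
  · rw [dif_pos hi, dif_pos hi]
  · rw [dif_neg hi, dif_neg hi, h i (not_lt.1 hi)]

theorem fib_congr {t : ℕ} (s : ℕ) (B : Set (Fin t → ℝ)) (α β : Fin t → ℝ)
    (h : ∀ i : Fin t, s - 1 ≤ i.val → α i = β i) : fib s B α = fib s B β := by
  unfold fib
  congr 1
  ext z
  simp only [Set.mem_ofPred_eq, glue_congr (s - 1) z α β h]

theorem fib_int {t : ℕ} (s : ℕ) (B : Set (Fin t → ℝ)) (hB : Per B) (α : Fin t → ℝ)
    (m : Fin t → ℤ) : fib s B (fun i => α i + (m i : ℝ)) = fib s B α := by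
  have aux : ∀ (α : Fin t → ℝ) (m : Fin t → ℤ) (z : Fin (s - 1) → ℝ), glue (s - 1) z α ∈ B →
      glue (s - 1) z (fun i => α i + (m i : ℝ)) ∈ B := by
    intro α m z h
    have h1 := hB _ h (fun i => if i.val < s - 1 then 0 else m i)
    convert h1 using 1
    funext i
    unfold glue
    by_cases hi : i.val < s - 1
    · simp [hi]
    · simp [hi]
  unfold fib
  congr 1
  ext z
  simp only [Set.mem_ofPred_eq]
  constructor
  · rintro ⟨h1, h2⟩
    refine ⟨h1, ?_⟩
    have := aux _ (fun i => -m i) z h2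
    convert this using 2
    funext i
    push_cast
    ring
  · rintro ⟨h1, h2⟩
    exact ⟨h1, aux _ m z h2⟩

/-- The points over `y`. -/
noncomputable def al {t : ℕ} (s' D : ℕ) (y : ℝ) (a : ℤ) (zz : Fin t → ℤ) : Fin t → ℝ :=
  fun i => if i.val = s' then y + (a : ℝ) / D else (zz i : ℝ) / D

theorem al_mod {t : ℕ} (s' D : ℕ) (hD : 1 ≤ D) (y : ℝ) (a : ℤ) (zz : Fin t → ℤ) :
    al s' D y a zz = fun i => al s' D y (a % D) (fun i => zz i % D) i +
      (((if i.val = s' then a / D else zz i / D) : ℤ) : ℝ) := by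
  have hD' : (D : ℝ) ≠ 0 := by
    have : 0 < D := hD
    positivity
  have key : ∀ b : ℤ, (b : ℝ) / D = ((b % D : ℤ) : ℝ) / D + ((b / D : ℤ) : ℝ) := by
    intro b
    have h1 : (b : ℝ) = ((b % D : ℤ) : ℝ) + (D : ℝ) * ((b / D : ℤ) : ℝ) := by
      have := Int.emod_add_mul_ediv b D
      exact_mod_cast this.symm
    field_simp
    linarith
  funext i
  unfold al
  by_cases hi : i.val = s'
  · simp only [hi, if_true]
    rw [key a]
    ring
  · simp only [hi, if_false]
    exact key (zz i)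

theorem Tb_eq {t : ℕ} (s' D : ℕ) (hs : s' + 1 ≤ t) (hD : 1 ≤ D) (B : Set (Fin t → ℝ))
    (hB : Per B) (κ : ℝ) : Tb (s' + 1) D B κ = ⋃ p : Fin D × (Fin t → Fin D),
      {y | ENNReal.ofReal κ ≤ fib (s' + 1) B
        (al s' D y ((p.1 : ℕ) : ℤ) (fun i => ((p.2 i : ℕ) : ℤ)))} := by
  have hDz : (0 : ℤ) < D := by exact_mod_cast hD
  ext y
  simp only [Set.mem_iUnion, Set.mem_ofPred_eq]
  constructor
  · rintro ⟨α, h1, h2, h3⟩
    obtain ⟨a, ha⟩ := h1 ⟨s', by omega⟩ rfl
    have h2' : ∀ i : Fin t, ∃ z : ℤ, s' + 1 ≤ i.val → α i = (z : ℝ) / D := by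
      intro i
      by_cases hi : s' + 1 ≤ i.val
      · obtain ⟨z, hz⟩ := h2 i hi
        exact ⟨z, fun _ => hz⟩
      · exact ⟨0, fun h => absurd h hi⟩
    choose zz hzz using h2'
    have h4 : fib (s' + 1) B α = fib (s' + 1) B (al s' D y a zz) := by
      refine fib_congr _ _ _ _ fun i hi => ?_
      rw [Nat.add_sub_cancel] at hi
      unfold al
      by_cases hi' : i.val = s'
      · rw [if_pos hi']
        have : i = ⟨s', by omega⟩ := Fin.ext hi'
        rw [this, ha]
      · rw [if_neg hi']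
        exact hzz i (by omega)
    have hmod : ∀ b : ℤ, ∃ r : Fin D, ((r : ℕ) : ℤ) = b % D := by
      intro b
      have e1 := Int.emod_nonneg b hDz.ne'
      have e2 := Int.emod_lt_of_pos b hDz
      refine ⟨⟨(b % D).toNat, by omega⟩, ?_⟩
      simp only
      omega
    obtain ⟨r, hr⟩ := hmod a
    choose rr hrr using fun i => hmod (zz i)
    refine ⟨(r, rr), ?_⟩
    simp only [hr, hrr]
    rw [h4, al_mod s' D hD, fib_int _ _ hB] at h3
    exact h3
  · rintro ⟨p, hp⟩
    refine ⟨_, ?_, ?_, hp⟩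
    · intro i hi
      refine ⟨((p.1 : ℕ) : ℤ), ?_⟩
      unfold al
      rw [if_pos (by omega)]
    · intro i hi
      refine ⟨((p.2 i : ℕ) : ℤ), ?_⟩
      unfold al
      rw [if_neg (by omega)]

theorem continuous_glue {t : ℕ} (s : ℕ) (α : Fin t → ℝ) :
    Continuous fun z : Fin s → ℝ => glue s z α := by
  refine continuous_pi fun i => ?_
  unfold glue
  by_cases hi : i.val < s
  · simp only [dif_pos hi]
    exact continuous_apply _
  · simp only [dif_neg hi]
    exact continuous_const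

theorem isClosed_level {t : ℕ} (s' D : ℕ) (B : Set (Fin t → ℝ)) (hB : IsClosed B) (κ : ℝ)
    (a : ℤ) (zz : Fin t → ℤ) :
    IsClosed {y | ENNReal.ofReal κ ≤ fib (s' + 1) B (al s' D y a zz)} := by
  refine IsSeqClosed.isClosed fun u y hu hy => ?_
  simp only [Set.mem_ofPred_eq] at hu ⊢
  have hcube : {z : Fin (s' + 1 - 1) → ℝ | ∀ i, z i ∈ Set.Icc (0 : ℝ) 1} =
      Set.Icc (fun _ => (0 : ℝ)) (fun _ => (1 : ℝ)) := by
    ext z
    simp only [Set.mem_ofPred_eq, Set.mem_Icc, Pi.le_def]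
    exact forall_and
  have hcl : IsClosed {z : Fin (s' + 1 - 1) → ℝ | ∀ i, z i ∈ Set.Icc (0 : ℝ) 1} := by
    rw [hcube]; exact isClosed_Icc
  refine le_measure_limsup volume
    (fun n => {z : Fin (s' + 1 - 1) → ℝ | (∀ i, z i ∈ Set.Icc (0 : ℝ) 1) ∧
      glue (s' + 1 - 1) z (al s' D (u n) a zz) ∈ B}) (fun n => ?_)
    {z : Fin (s' + 1 - 1) → ℝ | ∀ i, z i ∈ Set.Icc (0 : ℝ) 1} ?_ (fun n z hz => hz.1) _
    (fun n => hu n) _ ?_
  · exact (hcl.inter (hB.preimage (continuous_glue _ _))).measurableSet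
  · rw [hcube]
    exact isCompact_Icc.measure_lt_top.ne
  · intro z hz
    have h1 : Tendsto (fun n => glue (s' + 1 - 1) z (al s' D (u n) a zz)) atTop
        (𝓝 (glue (s' + 1 - 1) z (al s' D y a zz))) := by
      refine tendsto_pi_nhds.2 fun i => ?_
      unfold glue
      by_cases hi : i.val < s' + 1 - 1
      · simp only [dif_pos hi]
        exact tendsto_const_nhds
      · simp only [dif_neg hi]
        unfold al
        by_cases hi' : i.val = s'
        · simp only [if_pos hi']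
          exact hy.add tendsto_const_nhds
        · simp only [if_neg hi']
          exact tendsto_const_nhds
    refine ⟨?_, ?_⟩
    · obtain ⟨n, hn⟩ := hz.exists
      exact hn.1
    · exact hB.mem_of_frequently_of_tendsto (hz.mono fun n hn => hn.2) h1

theorem null_level {t : ℕ} (s' D : ℕ) (hs : s' + 1 ≤ t) (B : Set (Fin t → ℝ))
    (hcl : IsClosed B) (hB : NullSec B) (κ : ℝ) (hκ : 0 < κ) (a : ℤ) (zz : Fin t → ℤ) :
    volume {y | ENNReal.ofReal κ ≤ fib (s' + 1) B (al s' D y a zz)} = 0 := by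
  set r : Fin t → ℚ := fun i => (zz i : ℚ) / D with hr
  set N : Set (Fin (s' + 1) → ℝ) := {y | glue (s' + 1) y (fun i => ((r i : ℚ) : ℝ)) ∈ B} with hN
  have hN0 : volume N = 0 := hB (s' + 1) (by omega) hs r
  -- product decomposition
  have hmp := volume_preserving_piFinSuccAbove (fun _ : Fin (s' + 1) => ℝ) (Fin.last s')
  have hNm : MeasurableSet N := (hcl.preimage (continuous_glue _ _)).measurableSet
  have h1 : (volume : Measure (ℝ × (Fin s' → ℝ)))
      ((MeasurableEquiv.piFinSuccAbove (fun _ : Fin (s' + 1) => ℝ) (Fin.last s')).symm ⁻¹' N)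
        = 0 := by
    rw [(hmp.symm _).measure_preimage hNm.nullMeasurableSet, hN0]
  have h2 : ∀ᵐ x : ℝ, volume {z : Fin s' → ℝ | (x, z) ∈
      (MeasurableEquiv.piFinSuccAbove (fun _ : Fin (s' + 1) => ℝ) (Fin.last s')).symm ⁻¹' N}
        = 0 := by
    rw [Measure.volume_eq_prod] at h1
    have := Measure.measure_ae_null_of_prod_null h1
    filter_upwards [this] with x hx
    exact hx
  -- translate
  have h3 : ∀ᵐ y : ℝ, volume {z : Fin s' → ℝ | (y + (a : ℝ) / D, z) ∈
      (MeasurableEquiv.piFinSuccAbove (fun _ : Fin (s' + 1) => ℝ) (Fin.last s')).symm ⁻¹' N}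
        = 0 :=
    (measurePreserving_add_right volume ((a : ℝ) / D)).quasiMeasurePreserving.ae h2
  have h4 : {y | ENNReal.ofReal κ ≤ fib (s' + 1) B (al s' D y a zz)} ⊆
      {y | ¬ volume {z : Fin s' → ℝ | (y + (a : ℝ) / D, z) ∈
      (MeasurableEquiv.piFinSuccAbove (fun _ : Fin (s' + 1) => ℝ) (Fin.last s')).symm ⁻¹' N}
        = 0} := by
    intro y hy h0
    simp only [Set.mem_ofPred_eq] at hy
    have h5 : fib (s' + 1) B (al s' D y a zz) = 0 := by
      refine measure_mono_null ?_ h0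
      rintro z ⟨-, hz⟩
      change glue (s' + 1) ((MeasurableEquiv.piFinSuccAbove (fun _ : Fin (s' + 1) => ℝ)
          (Fin.last s')).symm (y + (a : ℝ) / D, z)) (fun i => ((r i : ℚ) : ℝ)) ∈ B
      have h6 : glue (s' + 1) ((MeasurableEquiv.piFinSuccAbove (fun _ : Fin (s' + 1) => ℝ)
          (Fin.last s')).symm (y + (a : ℝ) / D, z)) (fun i => ((r i : ℚ) : ℝ)) =
          glue (s' + 1 - 1) z (al s' D y a zz) := by
        funext i
        unfold glue al
        rcases lt_trichotomy i.val s' with hi | hi | hi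
        · rw [dif_pos (by omega), dif_pos (by omega)]
          have h7 : (⟨i.val, by omega⟩ : Fin (s' + 1)) =
              (Fin.last s').succAbove ⟨i.val, hi⟩ := by
            rw [Fin.succAbove_last]; rfl
          simp only [MeasurableEquiv.piFinSuccAbove_symm_apply, Fin.insertNthEquiv_apply]
          rw [h7, Fin.insertNth_apply_succAbove]
        · rw [dif_pos (by omega), dif_neg (by omega), if_pos hi]
          have h7 : (⟨i.val, by omega⟩ : Fin (s' + 1)) = Fin.last s' := Fin.ext hi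
          simp only [MeasurableEquiv.piFinSuccAbove_symm_apply, Fin.insertNthEquiv_apply]
          rw [h7, Fin.insertNth_apply_same]
        · rw [dif_neg (by omega), dif_neg (by omega), if_neg (by omega)]
          simp only [hr]
          push_cast
          rfl
      rw [h6]
      exact hz
    rw [h5] at hy
    have h8 : 0 < ENNReal.ofReal κ := ENNReal.ofReal_pos.2 hκ
    exact absurd hy (not_le.2 h8)
  exact measure_mono_null h4 (ae_iff.1 h3)

end C1x

open C1x in
/-- Row C1. -/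
theorem rowC1 : C1_stmt := by
  intro t B hcl hper hnull s hs hst D hD κ hκ
  obtain ⟨s', rfl⟩ : ∃ s', s = s' + 1 := ⟨s - 1, by omega⟩
  refine ⟨?_, ?_, ?_, ?_⟩
  · rw [Tb_eq s' D hst hD B hper κ]
    exact isClosed_iUnion_of_finite fun p => isClosed_level s' D B hcl κ _ _
  · rw [Tb_eq s' D hst hD B hper κ]
    exact measure_iUnion_null fun p => null_level s' D hst B hcl hnull κ hκ _ _
  · rintro x ⟨α, h1, h2, h3⟩ z
    refine ⟨α, ?_, h2, h3⟩
    intro i hi
    obtain ⟨a, ha⟩ := h1 i hi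
    refine ⟨a - z, ?_⟩
    rw [ha]
    push_cast
    ring
  · rintro h2s x ⟨α, h1, h2, h3⟩
    rw [irrational_iff_ne_rational]
    intro p q hq hx
    obtain ⟨a, ha⟩ := h1 ⟨s', by omega⟩ rfl
    have h2' : ∀ i : Fin t, ∃ z : ℤ, s' + 1 ≤ i.val → α i = (z : ℝ) / D := by
      intro i
      by_cases hi : s' + 1 ≤ i.val
      · obtain ⟨z, hz⟩ := h2 i hi
        exact ⟨z, fun _ => hz⟩
      · exact ⟨0, fun h => absurd h hi⟩
    choose zz hzz using h2'
    set r : Fin t → ℚ := fun i => if i.val = s' then (p : ℚ) / q + (a : ℚ) / D else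
      (zz i : ℚ) / D with hr
    have h4 := hnull s' (by omega) (by omega) r
    have h5 : fib (s' + 1) B α = 0 := by
      refine measure_mono_null ?_ h4
      rintro z ⟨-, hz⟩
      change glue s' z (fun i => ((r i : ℚ) : ℝ)) ∈ B
      have h6 : glue s' z (fun i => ((r i : ℚ) : ℝ)) = glue (s' + 1 - 1) z α := by
        refine glue_congr s' z _ _ fun i hi => ?_
        by_cases hi' : i.val = s'
        · have : i = ⟨s', by omega⟩ := Fin.ext hi'
          simp only [hr, if_pos hi']
          rw [this, ha, hx]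
          push_cast
          rfl
        · simp only [hr, if_neg hi']
          rw [hzz i (by omega)]
          push_cast
          rfl
      rw [h6]
      exact hz
    rw [h5] at h3
    have h8 : 0 < ENNReal.ofReal κ := ENNReal.ofReal_pos.2 hκ
    exact absurd h3 (not_le.2 h8)

end Pool.Agent.TU
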