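import Mathlib
import Pool.Agent.Lib.TU.Defs

/-!
# Theorem U (MP_663568_nt), row G, part 1: Taylor coefficients of polynomials with `Near`
-/

set_option autoImplicit false
open Finset Polynomial MeasureTheory

namespace Pool.Agent.TU

open Pool.Agent.Lib.MP_663568_nt Pool.Agent.Lib.MP_663568_nt.Katai
  Pool.Agent.Lib.MP_663568_nt.Nul

lemma taylor_coeff_sum (t j : ℕ) (R : ℝ[X]) (hR : R.natDegree ≤ t) (k : ℝ) :
    (taylor k R).coeff j = ∑ n ∈ range (t + 1), ((n + j).choose j : ℝ) * R.coeff (n + j) * k ^ n := by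
  rw [taylor_coeff]
  rw [eval_eq_sum_range' (n := t + 1)]
  · refine sum_congr rfl fun n _ => ?_
    rw [hasseDeriv_coeff]
  · refine lt_of_le_of_lt (natDegree_hasseDeriv_le R j) ?_
    omega

/-- The part of the coefficient which is not rational. -/
noncomputable def th (D : ℕ) (R : ℝ[X]) (j : ℕ) : ℝ := R.coeff j - (round ((D : ℝ) * R.coeff j) : ℝ) / D

lemma abs_th_le {t s D : ℕ} (hD : 1 ≤ D) {Q : ℝ} (hQ : 0 ≤ Q) {H : ℕ} {R : ℝ[X]} (hN : Near t s D Q H R)
    (hR : R.natDegree ≤ t) {j : ℕ} (hj : s < j) : |th D R j| ≤ Q / (H : ℝ) ^ (j - s) := by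
  have hD0 : (0 : ℝ) < D := by exact_mod_cast hD
  have hD1 : (1 : ℝ) ≤ D := by exact_mod_cast hD
  rcases Nat.lt_or_ge t j with h | h
  · have h1 : R.coeff j = 0 := coeff_eq_zero_of_natDegree_lt (by omega)
    unfold th
    rw [h1]
    simp
    positivity
  · have h1 := hN j hj h
    have h2 : th D R j = ((D : ℝ) * R.coeff j - round ((D : ℝ) * R.coeff j)) / D := by
      unfold th
      field_simp
    rw [h2, abs_div, abs_of_pos hD0]
    calc |(D : ℝ) * R.coeff j - round ((D : ℝ) * R.coeff j)| / D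
        ≤ |(D : ℝ) * R.coeff j - round ((D : ℝ) * R.coeff j)| := div_le_self (abs_nonneg _) hD1
      _ ≤ _ := h1

lemma coeff_eq_th (D : ℕ) (R : ℝ[X]) (j : ℕ) :
    R.coeff j = th D R j + (round ((D : ℝ) * R.coeff j) : ℝ) / D := by
  unfold th; ring

/-- The coefficients of degree `> s` of the Taylor expansion are close to rationals. -/
lemma upper_near {t s D : ℕ} (hD : 1 ≤ D) {Q : ℝ} (hQ : 0 ≤ Q) {H : ℕ} (hH : 1 ≤ H) {R : ℝ[X]}
    (hN : Near t s D Q H R) (hR : R.natDegree ≤ t) {j : ℕ} (hj : s < j) (hjt : j ≤ t) {k : ℕ}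
    (hk : k ≤ H) : ∃ z : ℤ, |(taylor (k : ℝ) R).coeff j - (z : ℝ) / D| ≤
      (t + 1) * 2 ^ (2 * t) * Q / H := by
  have hD0 : (0 : ℝ) < D := by exact_mod_cast hD
  have hH0 : (0 : ℝ) < H := by exact_mod_cast hH
  refine ⟨∑ n ∈ range (t + 1), (((n + j).choose j : ℕ) : ℤ) * round ((D : ℝ) * R.coeff (n + j)) *
    (k : ℤ) ^ n, ?_⟩
  have h1 : (taylor (k : ℝ) R).coeff j - ((∑ n ∈ range (t + 1), (((n + j).choose j : ℕ) : ℤ) *
      round ((D : ℝ) * R.coeff (n + j)) * (k : ℤ) ^ n : ℤ) : ℝ) / D =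
      ∑ n ∈ range (t + 1), ((n + j).choose j : ℝ) * th D R (n + j) * (k : ℝ) ^ n := by
    rw [taylor_coeff_sum t j R hR]
    push_cast
    rw [Finset.sum_div, ← Finset.sum_sub_distrib]
    refine sum_congr rfl fun n _ => ?_
    rw [show th D R (n + j) = R.coeff (n + j) - (round ((D : ℝ) * R.coeff (n + j)) : ℝ) / D from rfl]
    ring
  rw [h1]
  calc |∑ n ∈ range (t + 1), ((n + j).choose j : ℝ) * th D R (n + j) * (k : ℝ) ^ n|
      ≤ ∑ n ∈ range (t + 1), |((n + j).choose j : ℝ) * th D R (n + j) * (k : ℝ) ^ n| :=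
        abs_sum_le_sum_abs _ _
    _ ≤ ∑ n ∈ range (t + 1), 2 ^ (2 * t) * Q / H := by
        refine sum_le_sum fun n hn => ?_
        rw [mem_range] at hn
        rw [abs_mul, abs_mul, abs_of_nonneg (by positivity : (0 : ℝ) ≤ ((n + j).choose j : ℝ)),
          abs_of_nonneg (by positivity : (0 : ℝ) ≤ (k : ℝ) ^ n)]
        have h2 : ((n + j).choose j : ℝ) ≤ 2 ^ (2 * t) := by
          have h3 : (n + j).choose j ≤ 2 ^ (n + j) := Nat.choose_le_two_pow _ _
          have h4 : 2 ^ (n + j) ≤ 2 ^ (2 * t) := Nat.pow_le_pow_right (by norm_num) (by omega)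
          exact_mod_cast h3.trans h4
        have h3 := abs_th_le hD hQ hN hR (show s < n + j by omega)
        have h4 : (k : ℝ) ^ n ≤ (H : ℝ) ^ n := by gcongr; 
        have hH1 : (1 : ℝ) ≤ H := by exact_mod_cast hH
        have h5 : |th D R (n + j)| * (k : ℝ) ^ n ≤ Q / H := by
          calc |th D R (n + j)| * (k : ℝ) ^ n ≤ Q / (H : ℝ) ^ (n + j - s) * (H : ℝ) ^ n := by gcongr
            _ = Q / (H : ℝ) ^ (j - s) := by
                rw [show n + j - s = (j - s) + n by omega, pow_add]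
                field_simp
            _ ≤ Q / (H : ℝ) ^ 1 := by
                apply div_le_div_of_nonneg_left hQ (by positivity)
                exact pow_le_pow_right₀ hH1 (by omega)
            _ = Q / H := by rw [pow_one]
        calc ((n + j).choose j : ℝ) * |th D R (n + j)| * (k : ℝ) ^ n
            = ((n + j).choose j : ℝ) * (|th D R (n + j)| * (k : ℝ) ^ n) := by ring
          _ ≤ 2 ^ (2 * t) * (Q / H) := by gcongr
          _ = _ := by ring
    _ = (t + 1) * 2 ^ (2 * t) * Q / H := by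
        rw [sum_const, card_range, nsmul_eq_mul]
        push_cast
        ring

/-- The slow part of the `s`-th Taylor coefficient. -/
noncomputable def slow (t s D : ℕ) (R : ℝ[X]) : ℝ[X] :=
  C (R.coeff s) + ∑ n ∈ Icc 1 t, C (((n + s).choose s : ℝ) * th D R (n + s)) * X ^ n

lemma slow_coeff (t s D : ℕ) (R : ℝ[X]) (j : ℕ) (hj : 1 ≤ j) :
    (slow t s D R).coeff j = if j ≤ t then ((j + s).choose s : ℝ) * th D R (j + s) else 0 := by
  unfold slow
  rw [coeff_add, coeff_C, if_neg (by omega), zero_add, finsetSum_coeff]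
  simp only [coeff_C_mul, coeff_X_pow, mul_ite, mul_one, mul_zero]
  rw [Finset.sum_ite_eq (Icc 1 t) j]
  simp only [mem_Icc]
  congr 1
  simp [hj]

lemma slow_natDegree (t s D : ℕ) (R : ℝ[X]) : (slow t s D R).natDegree ≤ t := by
  rw [natDegree_le_iff_coeff_eq_zero]
  intro j hj
  rw [slow_coeff t s D R j (by omega), if_neg (by omega)]

lemma slow_bound {t s D : ℕ} (hD : 1 ≤ D) {Q : ℝ} (hQ : 0 ≤ Q) {H M : ℕ} (hM : 1 ≤ M) (hMH : M ≤ H)
    {R : ℝ[X]} (hN : Near t s D Q H R) (hR : R.natDegree ≤ t) (hs : s ≤ t) (j : ℕ) (hj : 1 ≤ j) :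
    |(slow t s D R).coeff j| * (M : ℝ) ^ j ≤ 2 ^ (2 * t) * Q := by
  have hM0 : (0 : ℝ) < M := by exact_mod_cast hM
  have hMHr : (M : ℝ) ≤ H := by exact_mod_cast hMH
  have hHr : (0 : ℝ) < H := lt_of_lt_of_le hM0 hMHr
  rw [slow_coeff t s D R j hj]
  split_ifs with h
  · have h2 : ((j + s).choose s : ℝ) ≤ 2 ^ (2 * t) := by
      have h3 : (j + s).choose s ≤ 2 ^ (j + s) := Nat.choose_le_two_pow _ _
      have h4 : 2 ^ (j + s) ≤ 2 ^ (2 * t) := Nat.pow_le_pow_right (by norm_num) (by omega)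
      exact_mod_cast h3.trans h4
    have h3 := abs_th_le hD hQ hN hR (show s < j + s by omega)
    rw [show j + s - s = j by omega] at h3
    have hH0 : (0 : ℝ) < (H : ℝ) ^ j := by positivity
    rw [abs_mul, abs_of_nonneg (by positivity : (0 : ℝ) ≤ ((j + s).choose s : ℝ)), mul_assoc]
    have h5 : |th D R (j + s)| * (M : ℝ) ^ j ≤ Q := by
      calc |th D R (j + s)| * (M : ℝ) ^ j ≤ Q / (H : ℝ) ^ j * (H : ℝ) ^ j := by gcongr
        _ = Q := by field_simp
    gcongr
  · simp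
    positivity

/-- The `s`-th Taylor coefficient is the slow part modulo `(1 / D) ℤ`. -/
lemma slow_eval {t s D : ℕ} {R : ℝ[X]} (hR : R.natDegree ≤ t) (k : ℕ) :
    ∃ z : ℤ, (taylor (k : ℝ) R).coeff s = (slow t s D R).eval (k : ℝ) + (z : ℝ) / D := by
  refine ⟨∑ n ∈ Icc 1 t, (((n + s).choose s : ℕ) : ℤ) * round ((D : ℝ) * R.coeff (n + s)) *
    (k : ℤ) ^ n, ?_⟩
  rw [taylor_coeff_sum t s R hR]
  unfold slow
  rw [eval_add, eval_C, eval_finsetSum]
  have h1 : ∑ n ∈ range (t + 1), ((n + s).choose s : ℝ) * R.coeff (n + s) * (k : ℝ) ^ n =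
      R.coeff s + ∑ n ∈ Icc 1 t, ((n + s).choose s : ℝ) * R.coeff (n + s) * (k : ℝ) ^ n := by
    rw [Finset.range_eq_Ico, Finset.sum_eq_sum_Ico_succ_bot (by omega)]
    congr 1
    simp
  rw [h1, add_assoc]
  congr 1
  push_cast
  rw [Finset.sum_div, ← Finset.sum_add_distrib]
  refine sum_congr rfl fun n _ => ?_
  simp only [eval_mul, eval_C, eval_pow, eval_X]
  rw [show th D R (n + s) = R.coeff (n + s) - (round ((D : ℝ) * R.coeff (n + s)) : ℝ) / D from rfl]
  ring

end Pool.Agent.TU
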