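import Mathlib
import Pool.Agent.Lib.TU.G1

/-!
# Theorem U (MP_663568_nt), row G, part 2: the equidistribution step
-/

set_option autoImplicit false
open Finset Polynomial MeasureTheory

namespace Pool.Agent.TU

open Pool.Agent.Lib.MP_663568_nt Pool.Agent.Lib.MP_663568_nt.Katai
  Pool.Agent.Lib.MP_663568_nt.Nul

open Classical in
lemma TP_split {t : ℕ} (s : ℕ) (Λ : Finset (Fin t → ℤ)) (w : (Fin t → ℤ) → ℂ) (α : Fin t → ℝ) :
    TP Λ w α = TP (Λ.filter fun l => Low s l) w α + TP (Λ.filter fun l => ¬ Low s l) w α := by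
  unfold TP
  rw [Finset.sum_filter_add_sum_filter_not]

open Classical in
lemma equi_step {t s D : ℕ} (B : Set (Fin t → ℝ)) (Λ : Finset (Fin t → ℤ)) (w : (Fin t → ℤ) → ℂ)
    (ρ' ρ κ δ : ℝ) (T : Set ℝ) (hκ : 0 ≤ κ) (h0 : ∀ α, 0 ≤ (TP Λ w α).re)
    (h1 : ∀ α ∈ Nb B ρ', 1 ≤ (TP Λ w α).re)
    (h2 : ∀ α, (TP (Λ.filter fun l => Low s l) w α).re ≤ 2)
    (h3 : ∀ α : Fin t → ℝ, (∀ i : Fin t, s ≤ i.val → ∃ z : ℤ, |α i - (z : ℝ) / D| ≤ ρ') →
        (∀ i : Fin t, i.val + 1 = s → ∀ x ∈ T, ρ < |α i - x|) →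
        (TP (Λ.filter fun l => Low s l) w α).re ≤ κ)
    (M : ℕ) (c : ℕ → Fin t → ℝ)
    (hup : ∀ k ∈ Icc 1 M, ∀ i : Fin t, s ≤ i.val → ∃ z : ℤ, |c k i - (z : ℝ) / D| ≤ ρ')
    (hexp : ∀ l ∈ Λ, ¬ Low s l → ‖∑ k ∈ Icc 1 M, ee (∑ i, (l i : ℝ) * c k i)‖ ≤ δ * M)
    (hδ0 : 0 ≤ δ) (hδ : (∑ l ∈ Λ, ‖w l‖) * δ ≤ κ) :
    (#{k ∈ Icc 1 M | c k ∈ Nb B ρ'} : ℝ) ≤
      2 * #{k ∈ Icc 1 M | ∃ i : Fin t, i.val + 1 = s ∧ ∃ x ∈ T, |c k i - x| ≤ ρ} + 2 * κ * M := by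
  have hM0 : (0 : ℝ) ≤ M := by positivity
  -- lower bound
  have e1 : (#{k ∈ Icc 1 M | c k ∈ Nb B ρ'} : ℝ) ≤ ∑ k ∈ Icc 1 M, (TP Λ w (c k)).re := by
    calc (#{k ∈ Icc 1 M | c k ∈ Nb B ρ'} : ℝ) = ∑ k ∈ Icc 1 M with c k ∈ Nb B ρ', (1 : ℝ) := by
          simp
      _ ≤ ∑ k ∈ Icc 1 M with c k ∈ Nb B ρ', (TP Λ w (c k)).re := by
          refine sum_le_sum fun k hk => ?_
          rw [mem_filter] at hk
          exact h1 _ hk.2
      _ ≤ ∑ k ∈ Icc 1 M, (TP Λ w (c k)).re :=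
          sum_le_sum_of_subset_of_nonneg (filter_subset _ _) fun k _ _ => h0 _
  -- splitting
  have e2 : ∑ k ∈ Icc 1 M, (TP Λ w (c k)).re =
      ∑ k ∈ Icc 1 M, (TP (Λ.filter fun l => Low s l) w (c k)).re +
        (∑ l ∈ Λ.filter (fun l => ¬ Low s l), w l *
          ∑ k ∈ Icc 1 M, ee (∑ i, (l i : ℝ) * c k i)).re := by
    have e3 : ∀ k, (TP Λ w (c k)).re = (TP (Λ.filter fun l => Low s l) w (c k)).re +
        (TP (Λ.filter fun l => ¬ Low s l) w (c k)).re := fun k => by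
      rw [TP_split s Λ w (c k), Complex.add_re]
    rw [sum_congr rfl fun k _ => e3 k, sum_add_distrib]
    congr 1
    rw [← Complex.re_sum]
    congr 1
    unfold TP
    rw [sum_comm]
    refine sum_congr rfl fun l _ => ?_
    rw [mul_sum]
  -- the other frequencies
  have e4 : (∑ l ∈ Λ.filter (fun l => ¬ Low s l), w l *
      ∑ k ∈ Icc 1 M, ee (∑ i, (l i : ℝ) * c k i)).re ≤ κ * M := by
    refine (Complex.re_le_norm _).trans ((norm_sum_le _ _).trans ?_)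
    calc ∑ l ∈ Λ.filter (fun l => ¬ Low s l), ‖w l *
          ∑ k ∈ Icc 1 M, ee (∑ i, (l i : ℝ) * c k i)‖
        ≤ ∑ l ∈ Λ.filter (fun l => ¬ Low s l), ‖w l‖ * (δ * M) := by
          refine sum_le_sum fun l hl => ?_
          rw [mem_filter] at hl
          rw [norm_mul]
          exact mul_le_mul_of_nonneg_left (hexp l hl.1 hl.2) (norm_nonneg _)
      _ ≤ ∑ l ∈ Λ, ‖w l‖ * (δ * M) :=
          sum_le_sum_of_subset_of_nonneg (filter_subset _ _) fun l _ _ => by positivity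
      _ = (∑ l ∈ Λ, ‖w l‖) * δ * M := by rw [← sum_mul]; ring
      _ ≤ κ * M := by gcongr
  -- the low frequencies
  have e5 : ∑ k ∈ Icc 1 M, (TP (Λ.filter fun l => Low s l) w (c k)).re ≤
      2 * #{k ∈ Icc 1 M | ∃ i : Fin t, i.val + 1 = s ∧ ∃ x ∈ T, |c k i - x| ≤ ρ} + κ * M := by
    rw [← sum_filter_add_sum_filter_not (Icc 1 M) fun k =>
      ∃ i : Fin t, i.val + 1 = s ∧ ∃ x ∈ T, |c k i - x| ≤ ρ]
    apply add_le_add
    · calc ∑ k ∈ (Icc 1 M).filter (fun k => ∃ i : Fin t, i.val + 1 = s ∧ ∃ x ∈ T, |c k i - x| ≤ ρ),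
            (TP (Λ.filter fun l => Low s l) w (c k)).re
          ≤ ∑ k ∈ (Icc 1 M).filter (fun k => ∃ i : Fin t, i.val + 1 = s ∧ ∃ x ∈ T,
              |c k i - x| ≤ ρ), (2 : ℝ) := sum_le_sum fun k _ => h2 _
        _ = _ := by
            rw [sum_const, nsmul_eq_mul]; ring
    · calc ∑ k ∈ (Icc 1 M).filter (fun k => ¬ ∃ i : Fin t, i.val + 1 = s ∧ ∃ x ∈ T,
            |c k i - x| ≤ ρ), (TP (Λ.filter fun l => Low s l) w (c k)).re
          ≤ ∑ k ∈ (Icc 1 M).filter (fun k => ¬ ∃ i : Fin t, i.val + 1 = s ∧ ∃ x ∈ T,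
              |c k i - x| ≤ ρ), κ := by
            refine sum_le_sum fun k hk => ?_
            rw [mem_filter] at hk
            refine h3 _ (hup k hk.1) fun i hi x hx => ?_
            by_contra hcon
            rw [not_lt] at hcon
            exact hk.2 ⟨i, hi, x, hx, hcon⟩
        _ ≤ ∑ k ∈ Icc 1 M, κ :=
            sum_le_sum_of_subset_of_nonneg (filter_subset _ _) fun k _ _ => hκ
        _ = κ * M := by
            rw [sum_const, nsmul_eq_mul, Nat.card_Icc, Nat.add_sub_cancel]; ring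
  rw [e2] at e1
  linarith

end Pool.Agent.TU
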