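import Mathlib
import Pool.Agent.Lib.TU.G2

/-!
# Theorem U (MP_663568_nt), row G, part 3: the terminal case
-/

set_option autoImplicit false
open Finset Polynomial MeasureTheory

namespace Pool.Agent.TU

open Pool.Agent.Lib.MP_663568_nt Pool.Agent.Lib.MP_663568_nt.Katai
  Pool.Agent.Lib.MP_663568_nt.Nul

/-- The family of polynomials of degree at most `s` whose `s`-th coefficient is near `T`. -/
def Fam (s : ℕ) (T : Set ℝ) (ρ : ℝ) (P : ℝ[X]) : Prop :=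
  P.natDegree ≤ s ∧ ∃ x ∈ T, |P.coeff s - x| ≤ ρ

/-- The supremum over the family. -/
noncomputable def FF (s : ℕ) (T : Set ℝ) (ρ : ℝ) (l n : ℕ) : ℝ :=
  ⨆ P : {P : ℝ[X] // P.natDegree ≤ s ∧ ∃ x ∈ T, |P.coeff s - x| ≤ ρ},
    ‖∑ h ∈ Icc 1 l, muC (n + h) * ee ((P : ℝ[X]).eval (h : ℝ))‖

lemma norm_sum_muC_le (l n : ℕ) (f : ℕ → ℝ) : ‖∑ h ∈ Icc 1 l, muC (n + h) * ee (f h)‖ ≤ l := by
  refine (norm_sum_le _ _).trans ?_
  calc ∑ h ∈ Icc 1 l, ‖muC (n + h) * ee (f h)‖ ≤ ∑ h ∈ Icc 1 l, (1 : ℝ) := by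
        refine sum_le_sum fun h _ => ?_
        rw [norm_mul, norm_ee, mul_one]
        exact norm_muC _
    _ = l := by simp

lemma le_FF (s : ℕ) (T : Set ℝ) (ρ : ℝ) (l n : ℕ) (P : ℝ[X]) (hP : Fam s T ρ P) :
    ‖∑ h ∈ Icc 1 l, muC (n + h) * ee (P.eval (h : ℝ))‖ ≤ FF s T ρ l n := by
  unfold FF
  have hb : BddAbove (Set.range fun P : {P : ℝ[X] // P.natDegree ≤ s ∧
      ∃ x ∈ T, |P.coeff s - x| ≤ ρ} =>
      ‖∑ h ∈ Icc 1 l, muC (n + h) * ee ((P : ℝ[X]).eval (h : ℝ))‖) := by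
    refine ⟨l, ?_⟩
    rintro _ ⟨P, rfl⟩
    exact norm_sum_muC_le l n fun h => (P : ℝ[X]).eval (h : ℝ)
  exact le_ciSup hb ⟨P, hP⟩

lemma FF_nonneg (s : ℕ) (T : Set ℝ) (ρ : ℝ) (l n : ℕ) : 0 ≤ FF s T ρ l n :=
  Real.iSup_nonneg fun _ => norm_nonneg _

/-- A polynomial with small nonconstant coefficients at scale `M` is almost constant on
`[0, H]`. -/
lemma osc_le {t e : ℕ} {H M : ℕ} (hM : 1 ≤ M) (hHM : H ≤ 2 * e * M) {g : ℝ[X]}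
    (hg : g.natDegree ≤ t) {ρ₃ : ℝ} (hρ₃ : 0 ≤ ρ₃) (he : 1 ≤ e)
    (hc : ∀ j, 1 ≤ j → |g.coeff j| * (M : ℝ) ^ j ≤ ρ₃) {y k : ℕ} (hy : y ≤ H) (hk : k ≤ H) :
    |g.eval (y : ℝ) - g.eval (k : ℝ)| ≤ (t + 1) * (2 * e) ^ t * ρ₃ := by
  have hM0 : (0 : ℝ) < M := by exact_mod_cast hM
  have hHM' : (H : ℝ) ≤ 2 * e * M := by exact_mod_cast hHM
  have he1 : (1 : ℝ) ≤ 2 * e := by
    have : (1 : ℝ) ≤ e := by exact_mod_cast he
    linarith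
  rw [eval_eq_sum_range' (n := t + 1) (by omega), eval_eq_sum_range' (n := t + 1) (by omega),
    ← sum_sub_distrib]
  calc |∑ j ∈ range (t + 1), (g.coeff j * (y : ℝ) ^ j - g.coeff j * (k : ℝ) ^ j)|
      ≤ ∑ j ∈ range (t + 1), |g.coeff j * (y : ℝ) ^ j - g.coeff j * (k : ℝ) ^ j| :=
        abs_sum_le_sum_abs _ _
    _ ≤ ∑ j ∈ range (t + 1), (2 * e) ^ t * ρ₃ := by
        refine sum_le_sum fun j hj => ?_
        rw [mem_range] at hj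
        rcases Nat.eq_zero_or_pos j with rfl | hj0
        · simp
          positivity
        · rw [← mul_sub, abs_mul]
          have h1 : |(y : ℝ) ^ j - (k : ℝ) ^ j| ≤ (H : ℝ) ^ j := by
            have hy' : (y : ℝ) ^ j ≤ (H : ℝ) ^ j := by gcongr
            have hk' : (k : ℝ) ^ j ≤ (H : ℝ) ^ j := by gcongr
            have hy0 : 0 ≤ (y : ℝ) ^ j := by positivity
            have hk0 : 0 ≤ (k : ℝ) ^ j := by positivity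
            rw [abs_le]
            constructor <;> linarith
          calc |g.coeff j| * |(y : ℝ) ^ j - (k : ℝ) ^ j| ≤ |g.coeff j| * (H : ℝ) ^ j := by gcongr
            _ ≤ |g.coeff j| * (2 * e * M) ^ j := by gcongr
            _ = (2 * e) ^ j * (|g.coeff j| * (M : ℝ) ^ j) := by rw [mul_pow]; ring
            _ ≤ (2 * e) ^ j * ρ₃ := by gcongr; exact hc j hj0
            _ ≤ (2 * e) ^ t * ρ₃ := by
                gcongr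
                omega
    _ = (t + 1) * (2 * e) ^ t * ρ₃ := by
        rw [sum_const, card_range, nsmul_eq_mul]
        push_cast
        ring

open Classical in
/-- The terminal case. -/
lemma terminal {t s D e l : ℕ} (hst : s ≤ t) (hD : 1 ≤ D) (he : 1 ≤ e)
    {T : Set ℝ} (hT : ∀ x ∈ T, ∀ z : ℤ, x + (z : ℝ) / D ∈ T) {Q c c₅ ρ₃ ρ ρ₄ : ℝ}
    (hQ : 0 ≤ Q) (hρ₃ : 0 ≤ ρ₃) (hρρ : ρ + (t + 1) * (2 * e) ^ t * ρ₃ ≤ ρ₄)
    {H M : ℕ} (hM : 1 ≤ M) (hMH : M ≤ H) (hHM : H ≤ 2 * e * M)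
    (hE : ∀ g : ℝ[X], g.natDegree ≤ t →
      (∀ j, 1 ≤ j → |g.coeff j| * (M : ℝ) ^ j ≤ 2 ^ (2 * t) * Q) →
      c₅ * M ≤ #{k ∈ Icc 1 M | ∃ x ∈ T, |g.eval ((k : ℕ) : ℝ) - x| ≤ ρ} →
      ∀ j, 1 ≤ j → |g.coeff j| * (M : ℝ) ^ j ≤ ρ₃) (hc₅ : 0 < c₅)
    (hF : ∀ a : ℕ → ℂ, (∀ n, ‖a n‖ ≤ 1) →
      ∀ R : ℝ[X], R.natDegree ≤ t → Near t s D Q H R →
      c * H ≤ ‖∑ y ∈ Icc 1 H, a y * ee (R.eval (y : ℝ))‖ →
      ∃ P : ℕ → ℝ[X], (∀ y, (P y).natDegree ≤ s ∧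
          ∃ z : ℤ, (P y).coeff s = (taylor (y : ℝ) R).coeff s + (z : ℝ) / D) ∧
        c / 2 * H * l ≤ D * ∑ y ∈ Icc 1 H, ‖∑ h ∈ Icc 1 l, a (y + h) * ee ((P y).eval (h : ℝ))‖)
    {m : ℕ} {R : ℝ[X]} (hR : R.natDegree ≤ t) (hN : Near t s D Q H R)
    (hcor : c * H ≤ ‖∑ y ∈ Icc 1 H, muC (m + y) * ee (R.eval (y : ℝ))‖)
    (hmany : c₅ * M ≤ #{k ∈ Icc 1 M | ∃ i : Fin t, i.val + 1 = s ∧
      ∃ x ∈ T, |tv t R ((k : ℕ) : ℝ) i - x| ≤ ρ}) :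
    c / 2 * H * l ≤ D * ∑ y ∈ Icc 1 H, FF s T ρ₄ l (m + y) := by
  have hM0 : (0 : ℝ) < M := by exact_mod_cast hM
  set g := slow t s D R with hg
  -- the slow part is close to `T` as often
  have hT' : ∀ x ∈ T, ∀ z : ℤ, x - (z : ℝ) / D ∈ T := by
    intro x hx z
    have := hT x hx (-z)
    push_cast at this
    rw [sub_eq_add_neg, ← neg_div]
    exact this
  have hsub : {k ∈ Icc 1 M | ∃ i : Fin t, i.val + 1 = s ∧ ∃ x ∈ T, |tv t R ((k : ℕ) : ℝ) i - x| ≤ ρ} ⊆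
      {k ∈ Icc 1 M | ∃ x ∈ T, |g.eval ((k : ℕ) : ℝ) - x| ≤ ρ} := by
    intro k hk
    rw [mem_filter] at hk ⊢
    refine ⟨hk.1, ?_⟩
    obtain ⟨i, hi, x, hx, hxk⟩ := hk.2
    obtain ⟨z, hz⟩ := slow_eval (s := s) (D := D) hR k
    refine ⟨x - (z : ℝ) / D, hT' x hx z, ?_⟩
    unfold tv at hxk
    rw [hi, hz] at hxk
    rw [show g.eval ((k : ℕ) : ℝ) - (x - (z : ℝ) / D) = g.eval ((k : ℕ) : ℝ) + (z : ℝ) / D - x by ring]
    exact hxk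
  have hcard : c₅ * M ≤ #{k ∈ Icc 1 M | ∃ x ∈ T, |g.eval ((k : ℕ) : ℝ) - x| ≤ ρ} :=
    hmany.trans (by exact_mod_cast card_le_card hsub)
  have hsmall := hE g (slow_natDegree t s D R)
    (fun j hj => slow_bound hD hQ hM hMH hN hR hst j hj) hcard
  -- one point
  obtain ⟨k₀, hk₀⟩ : {k ∈ Icc 1 M | ∃ x ∈ T, |g.eval ((k : ℕ) : ℝ) - x| ≤ ρ}.Nonempty := by
    rw [← card_pos]
    have : (0 : ℝ) < #{k ∈ Icc 1 M | ∃ x ∈ T, |g.eval ((k : ℕ) : ℝ) - x| ≤ ρ} :=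
      lt_of_lt_of_le (by positivity) hcard
    exact_mod_cast this
  rw [mem_filter, mem_Icc] at hk₀
  obtain ⟨⟨-, hk₀M⟩, x₀, hx₀, hx₀k⟩ := hk₀
  -- all points
  have hall : ∀ y ≤ H, ∀ w : ℤ, ∃ x ∈ T,
      |(taylor ((y : ℕ) : ℝ) R).coeff s + (w : ℝ) / D - x| ≤ ρ₄ := by
    intro y hy w
    obtain ⟨z, hz⟩ := slow_eval (s := s) (D := D) hR y
    have h1 := osc_le hM hHM (slow_natDegree t s D R) hρ₃ he hsmall hy (hk₀M.trans hMH)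
    refine ⟨x₀ + ((z + w : ℤ) : ℝ) / D, hT x₀ hx₀ _, ?_⟩
    rw [hz]
    push_cast
    rw [show (slow t s D R).eval (y : ℝ) + (z : ℝ) / D + (w : ℝ) / D - (x₀ + ((z : ℝ) + w) / D) =
      ((slow t s D R).eval (y : ℝ) - (slow t s D R).eval (k₀ : ℝ)) +
        ((slow t s D R).eval (k₀ : ℝ) - x₀) by ring]
    calc _ ≤ |(slow t s D R).eval (y : ℝ) - (slow t s D R).eval (k₀ : ℝ)| +
          |(slow t s D R).eval (k₀ : ℝ) - x₀| := abs_add_le _ _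
      _ ≤ (t + 1) * (2 * e) ^ t * ρ₃ + ρ := add_le_add h1 hx₀k
      _ ≤ ρ₄ := by linarith
  -- the windows
  obtain ⟨P, hP, hsum⟩ := hF (fun y => muC (m + y)) (fun _ => norm_muC _) R hR hN hcor
  refine hsum.trans ?_
  gcongr with y hy
  rw [mem_Icc] at hy
  have h2 : Fam s T ρ₄ (P y) := by
    obtain ⟨w, hw⟩ := (hP y).2
    refine ⟨(hP y).1, ?_⟩
    rw [hw]
    exact hall y hy.2 w
  have h3 := le_FF s T ρ₄ l (m + y) (P y) h2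
  simpa only [add_assoc] using h3

end Pool.Agent.TU
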