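import Mathlib
import Pool.Agent.Lib.TU.G3

/-!
# Theorem U (MP_663568_nt), row G, part 4: the density of the terminal clusters
-/

set_option autoImplicit false
open Finset Polynomial MeasureTheory

namespace Pool.Agent.TU

open Pool.Agent.Lib.MP_663568_nt Pool.Agent.Lib.MP_663568_nt.Katai
  Pool.Agent.Lib.MP_663568_nt.Nul

lemma shift_sum_real (f : ℕ → ℝ) (hf : ∀ n, 0 ≤ f n) (H N y : ℕ) (hy : y ≤ H) (hHN : H ≤ N) :
    ∑ m ∈ Icc H N, (1 / (m : ℝ)) * f (m + y) ≤ 2 * ∑ n ∈ Icc 1 (2 * N), (1 / (n : ℝ)) * f n ∨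
      H = 0 := by
  rcases Nat.eq_zero_or_pos H with h | hH
  · right; exact h
  left
  have h1 : ∑ m ∈ Icc H N, (1 / (m : ℝ)) * f (m + y) ≤
      ∑ m ∈ Icc H N, 2 * ((1 / ((m + y : ℕ) : ℝ)) * f (m + y)) := by
    refine sum_le_sum fun m hm => ?_
    rw [mem_Icc] at hm
    have hm0 : (0 : ℝ) < m := by
      have : 0 < m := by omega
      exact_mod_cast this
    have h2 : (1 / (m : ℝ)) ≤ 2 * (1 / ((m + y : ℕ) : ℝ)) := by
      rw [mul_one_div, div_le_div_iff₀ hm0 (by push_cast; positivity)]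
      have : ((m + y : ℕ) : ℝ) ≤ 2 * m := by
        have : m + y ≤ 2 * m := by omega
        exact_mod_cast this
      linarith
    calc (1 / (m : ℝ)) * f (m + y) ≤ 2 * (1 / ((m + y : ℕ) : ℝ)) * f (m + y) :=
          mul_le_mul_of_nonneg_right h2 (hf _)
      _ = _ := by ring
  refine h1.trans ?_
  rw [← mul_sum]
  gcongr
  have h3 : ∑ m ∈ Icc H N, (1 / ((m + y : ℕ) : ℝ)) * f (m + y) =
      ∑ n ∈ (Icc H N).image (fun m => m + y), (1 / (n : ℝ)) * f n := by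
    rw [sum_image (fun a _ b _ h => by simpa using h)]
  rw [h3]
  apply sum_le_sum_of_subset_of_nonneg
  · intro n hn
    rw [mem_image] at hn
    obtain ⟨m, hm, rfl⟩ := hn
    rw [mem_Icc] at hm ⊢
    omega
  · intro n _ _
    have := hf n
    positivity

open Classical in
lemma term_density {D l H N : ℕ} (hH : 1 ≤ H) (hHN : H ≤ N) (hN2 : 2 ≤ N) (hl : 1 ≤ l)
    (f : ℕ → ℝ) (hf : ∀ n, 0 ≤ f n) {c ε₂ : ℝ} (hc : 0 < c) (hε₂ : 0 ≤ ε₂)
    (hS : ∑ n ∈ Icc 1 (2 * N), (1 / (n : ℝ)) * f n ≤ ε₂ * l * Real.log ((2 * N : ℕ) : ℝ)) :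
    ∑ m ∈ Icc 1 N with (H ≤ m ∧ c / 2 * H * l ≤ D * ∑ y ∈ Icc 1 H, f (m + y)), (1 / (m : ℝ)) ≤
      8 * D / c * ε₂ * Real.log N := by
  have hH0 : (0 : ℝ) < H := by exact_mod_cast hH
  have hl0 : (0 : ℝ) < l := by exact_mod_cast hl
  have hlog : Real.log ((2 * N : ℕ) : ℝ) ≤ 2 * Real.log N := by
    have hN0 : (0 : ℝ) < N := by
      have : 0 < N := by omega
      exact_mod_cast this
    push_cast
    rw [Real.log_mul (by norm_num) hN0.ne']
    have : Real.log 2 ≤ Real.log N := Real.log_le_log (by norm_num) (by exact_mod_cast hN2)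
    linarith
  have h1 : (∑ m ∈ Icc 1 N with (H ≤ m ∧ c / 2 * H * l ≤ D * ∑ y ∈ Icc 1 H, f (m + y)),
      (1 / (m : ℝ))) * (c / 2 * H * l) ≤
      D * ∑ y ∈ Icc 1 H, ∑ m ∈ Icc H N, (1 / (m : ℝ)) * f (m + y) := by
    rw [sum_mul]
    calc ∑ m ∈ Icc 1 N with (H ≤ m ∧ c / 2 * H * l ≤ D * ∑ y ∈ Icc 1 H, f (m + y)),
          (1 / (m : ℝ)) * (c / 2 * H * l)
        ≤ ∑ m ∈ Icc 1 N with (H ≤ m ∧ c / 2 * H * l ≤ D * ∑ y ∈ Icc 1 H, f (m + y)),
          (1 / (m : ℝ)) * (D * ∑ y ∈ Icc 1 H, f (m + y)) := by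
          refine sum_le_sum fun m hm => ?_
          rw [mem_filter] at hm
          exact mul_le_mul_of_nonneg_left hm.2.2 (by positivity)
      _ ≤ ∑ m ∈ Icc H N, (1 / (m : ℝ)) * (D * ∑ y ∈ Icc 1 H, f (m + y)) := by
          apply sum_le_sum_of_subset_of_nonneg
          · intro m hm
            rw [mem_filter, mem_Icc] at hm
            rw [mem_Icc]
            exact ⟨hm.2.1, hm.1.2⟩
          · intro m _ _
            have : 0 ≤ ∑ y ∈ Icc 1 H, f (m + y) := sum_nonneg fun y _ => hf _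
            positivity
      _ = D * ∑ y ∈ Icc 1 H, ∑ m ∈ Icc H N, (1 / (m : ℝ)) * f (m + y) := by
          rw [sum_comm, mul_sum]
          refine sum_congr rfl fun m _ => ?_
          rw [← mul_sum]
          ring
  have h2 : ∑ y ∈ Icc 1 H, ∑ m ∈ Icc H N, (1 / (m : ℝ)) * f (m + y) ≤
      H * (2 * (ε₂ * l * (2 * Real.log N))) := by
    calc ∑ y ∈ Icc 1 H, ∑ m ∈ Icc H N, (1 / (m : ℝ)) * f (m + y)
        ≤ ∑ y ∈ Icc 1 H, 2 * (ε₂ * l * (2 * Real.log N)) := by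
          refine sum_le_sum fun y hy => ?_
          rw [mem_Icc] at hy
          rcases shift_sum_real f hf H N y hy.2 hHN with h | h
          · refine h.trans ?_
            gcongr
            refine hS.trans ?_
            gcongr
          · omega
      _ = _ := by rw [sum_const, Nat.card_Icc, Nat.add_sub_cancel, nsmul_eq_mul]
  have h3 : (∑ m ∈ Icc 1 N with (H ≤ m ∧ c / 2 * H * l ≤ D * ∑ y ∈ Icc 1 H, f (m + y)),
      (1 / (m : ℝ))) * (c / 2 * H * l) ≤ D * (H * (2 * (ε₂ * l * (2 * Real.log N)))) :=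
    h1.trans (by gcongr)
  have h4 : D * (H * (2 * (ε₂ * l * (2 * Real.log N)))) =
      (8 * D / c * ε₂ * Real.log N) * (c / 2 * H * l) := by
    field_simp
    ring
  rw [h4] at h3
  exact le_of_mul_le_mul_right h3 (by positivity)

end Pool.Agent.TU
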