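import Mathlib
import Pool.Agent.Lib.TU.G4

/-!
# Theorem U (MP_663568_nt), row G: the clusters have small density
-/

set_option autoImplicit false
open Finset Polynomial MeasureTheory

namespace Pool.Agent.TU

open Pool.Agent.Lib.MP_663568_nt Pool.Agent.Lib.MP_663568_nt.Katai
  Pool.Agent.Lib.MP_663568_nt.Nul

lemma near_scale {t s D : ℕ} {Q : ℝ} {M H e : ℕ} {R : ℝ[X]} (hM : 1 ≤ M) (he : 1 ≤ e)
    (hHM : H ≤ 2 * e * M) (hH : 1 ≤ H) (hQ : 0 ≤ Q) (h : Near t s D Q M R) :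
    Near t s D (Q * (2 * e) ^ t) H R := by
  intro j hj hjt
  have hM0 : (0 : ℝ) < M := by exact_mod_cast hM
  have hH0 : (0 : ℝ) < H := by exact_mod_cast hH
  have he1 : (1 : ℝ) ≤ 2 * e := by
    have : (1 : ℝ) ≤ e := by exact_mod_cast he
    linarith
  have hHM' : (H : ℝ) ≤ 2 * e * M := by exact_mod_cast hHM
  refine (h j hj hjt).trans ?_
  rw [div_le_div_iff₀ (by positivity) (by positivity)]
  calc Q * (H : ℝ) ^ (j - s) ≤ Q * (2 * e * M) ^ (j - s) := by gcongr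
    _ = Q * (2 * e) ^ (j - s) * (M : ℝ) ^ (j - s) := by rw [mul_pow]; ring
    _ ≤ Q * (2 * e) ^ t * (M : ℝ) ^ (j - s) := by
        gcongr
        omega

lemma exists_bound {t : ℕ} (Λ : Finset (Fin t → ℤ)) : ∃ L : ℕ, ∀ l ∈ Λ, ∀ i, |l i| ≤ (L : ℤ) := by
  refine ⟨∑ l ∈ Λ, ∑ i, (l i).natAbs, fun l hl i => ?_⟩
  rw [Int.abs_eq_natAbs]
  have h1 : (l i).natAbs ≤ ∑ i, (l i).natAbs :=
    single_le_sum (f := fun i => (l i).natAbs) (fun _ _ => Nat.zero_le _) (mem_univ i)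
  have h2 : ∑ i, (l i).natAbs ≤ ∑ l ∈ Λ, ∑ i, (l i).natAbs :=
    single_le_sum (f := fun l : Fin t → ℤ => ∑ i, (l i).natAbs) (fun _ _ => Nat.zero_le _) hl
  exact_mod_cast h1.trans h2

/-- **Row G.** -/
theorem rowG (hC : C_stmt) (hD : D_stmt) (hE : E_stmt) (hF : F_stmt) (hS : S_stmt) : G_stmt := by
  classical
  intro t B hB hP hNS c c₄ e K hc hc1 hc₄ he hK s
  induction s with
  | zero => intro h; omega
  | succ s ih =>
    intro hs1 hst D Q ε hD1 hQ1 hε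
    have hDr : (1 : ℝ) ≤ D := by exact_mod_cast hD1
    have hD0 : (0 : ℝ) < D := by linarith
    have her : (1 : ℝ) ≤ e := by exact_mod_cast he
    have hQ0 : (0 : ℝ) ≤ Q := by linarith
    obtain ⟨κ, hκ⟩ : ∃ κ : ℝ, κ = min 1 (c₄ / 4) := ⟨_, rfl⟩
    have hκ0 : 0 < κ := by rw [hκ]; positivity
    have hκ1 : κ ≤ 1 := by rw [hκ]; exact min_le_left _ _
    have hκc : κ ≤ c₄ / 4 := by rw [hκ]; exact min_le_right _ _
    obtain ⟨T, hTc, hTv, hTinv, hTirr, hmaj⟩ := hC t B hB hP hNS (s + 1) hs1 hst D hD1 κ hκ0 hκ1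
    have hTint : ∀ x ∈ T, ∀ z : ℤ, x + (z : ℝ) ∈ T := by
      intro x hx z
      have := hTinv x hx (z * D)
      push_cast at this
      rwa [mul_div_assoc, div_self hD0.ne', mul_one] at this
    obtain ⟨ε₂, hε₂⟩ : ∃ ε₂ : ℝ, ε₂ = c * ε / (16 * D) := ⟨_, rfl⟩
    have hε₂0 : 0 < ε₂ := by rw [hε₂]; positivity
    obtain ⟨ρ₄, hρ₄, l₀, hSl⟩ := hS (s + 1) hs1 T hTc hTv hTint hTirr ε₂ hε₂0
    obtain ⟨l, hl⟩ : ∃ l : ℕ, l = max l₀ 1 := ⟨_, rfl⟩
    have hl1 : 1 ≤ l := by omega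
    have hll : l₀ ≤ l := by omega
    obtain ⟨U, hU⟩ : ∃ U : ℝ, U = (t + 1) * (2 * e) ^ t := ⟨_, rfl⟩
    have hU0 : 0 < U := by rw [hU]; positivity
    obtain ⟨ρ₃, hρ₃⟩ : ∃ ρ₃ : ℝ, ρ₃ = ρ₄ / (2 * U) := ⟨_, rfl⟩
    have hρ₃0 : 0 < ρ₃ := by rw [hρ₃]; positivity
    obtain ⟨ρE, hρE, ME, hEE⟩ := hE T hTc hTv hTint t (2 ^ (2 * t) * Q) (c₄ / 4) ρ₃
      (by positivity) (by positivity) hρ₃0
    obtain ⟨ρ, hρ⟩ : ∃ ρ : ℝ, ρ = min ρE (ρ₄ / 2) := ⟨_, rfl⟩
    have hρ0 : 0 < ρ := by rw [hρ]; positivity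
    have hρρE : ρ ≤ ρE := by rw [hρ]; exact min_le_left _ _
    have hρρ₄ : ρ ≤ ρ₄ / 2 := by rw [hρ]; exact min_le_right _ _
    have hρρ : ρ + (t + 1) * (2 * e) ^ t * ρ₃ ≤ ρ₄ := by
      have : (t + 1) * (2 * (e : ℝ)) ^ t * ρ₃ = ρ₄ / 2 := by
        rw [← hU, hρ₃]; field_simp
      rw [this]; linarith
    obtain ⟨ρ', hρ', Λ, w, h0, h1, h2, h3⟩ := hmaj ρ hρ0
    obtain ⟨W, hW⟩ : ∃ W : ℝ, W = ∑ l ∈ Λ, ‖w l‖ := ⟨_, rfl⟩
    have hW0 : 0 ≤ W := by rw [hW]; exact sum_nonneg fun _ _ => norm_nonneg _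
    obtain ⟨δ, hδ⟩ : ∃ δ : ℝ, δ = κ / (W + 1) := ⟨_, rfl⟩
    have hδ0 : 0 < δ := by rw [hδ]; positivity
    have hWδ : (∑ l ∈ Λ, ‖w l‖) * δ ≤ κ := by
      rw [← hW, hδ, mul_div_assoc', div_le_iff₀ (by positivity)]
      nlinarith
    obtain ⟨L, hL⟩ := exists_bound Λ
    -- the triangular lemma
    obtain ⟨D', hD'1, Q', hQ'1, MD, hDD⟩ : ∃ D' : ℕ, 1 ≤ D' ∧ ∃ Q' : ℝ, 1 ≤ Q' ∧ ∃ MD : ℕ,
        ∀ M : ℕ, MD ≤ M → ∀ R : ℝ[X], R.natDegree ≤ t →
        ∀ l : Fin t → ℤ, (∀ i, |l i| ≤ (L : ℤ)) → ¬ Low (s + 1) l →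
        δ * M ≤ ‖∑ k ∈ Icc 1 M, ee (∑ i, (l i : ℝ) * tv t R (k : ℝ) i)‖ →
        1 ≤ s ∧ Near t s D' Q' M R := by
      rcases Nat.eq_zero_or_pos s with rfl | hs
      · refine ⟨1, le_rfl, 1, le_rfl, 0, fun M _ R _ l _ hlow _ => ?_⟩
        exact absurd (fun i hi => absurd hi (by omega)) hlow
      · obtain ⟨D', hD'1, Q', hQ'1, MD, h⟩ := hD t (s + 1) L (by omega) hst δ hδ0
        refine ⟨D', hD'1, Q', hQ'1, MD, fun M hM R hR l hl1 hl2 hl3 => ⟨hs, ?_⟩⟩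
        have := h M hM R hR l hl1 hl2 hl3
        rwa [Nat.add_sub_cancel] at this
    obtain ⟨Q'', hQ''⟩ : ∃ Q'' : ℝ, Q'' = Q' * (2 * e) ^ t := ⟨_, rfl⟩
    have hQ''1 : 1 ≤ Q'' := by
      rw [hQ'']
      have : (1 : ℝ) ≤ (2 * e) ^ t := one_le_pow₀ (by linarith)
      nlinarith
    -- the induction hypothesis
    obtain ⟨HI, hHI⟩ : ∃ HI : ℕ, 1 ≤ s → ∀ H N : ℕ, HI ≤ H → H ≤ N →
        ∑ m ∈ Icc 1 N with Cl t s D' B Q'' c c₄ e K H m, (1 / (m : ℝ)) ≤ ε / 2 * Real.log N := by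
      rcases Nat.eq_zero_or_pos s with rfl | hs
      · exact ⟨0, fun h => absurd h (by omega)⟩
      · obtain ⟨HI, hHI⟩ := ih hs (by omega) D' Q'' (ε / 2) hD'1 hQ''1 (by positivity)
        exact ⟨HI, fun _ H N h1 h2 => by
          have := hHI H N h1 h2
          convert this⟩
    obtain ⟨HF, hFF⟩ := hF t (s + 1) D l hs1 hst hD1 hl1 Q c hQ1 hc hc1
    obtain ⟨Y, hY⟩ : ∃ Y : ℝ, Y = (t + 1) * 2 ^ (2 * t) * Q := ⟨_, rfl⟩
    have hY0 : 0 ≤ Y := by rw [hY]; positivity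
    refine ⟨HI + HF + e * (ME + MD + 1) + l + 2 + ⌈K / ρ'⌉₊ + ⌈Y / ρ'⌉₊, fun H N hH hHN => ?_⟩
    obtain ⟨M, hM⟩ : ∃ M : ℕ, M = H / e := ⟨_, rfl⟩
    have hMe : ME + MD + 1 ≤ M := by
      rw [hM, Nat.le_div_iff_mul_le (by omega)]
      calc (ME + MD + 1) * e = e * (ME + MD + 1) := by ring
        _ ≤ H := by omega
    have hMH : M ≤ H := by rw [hM]; exact Nat.div_le_self _ _
    have hHM : H ≤ 2 * e * M := by
      have h4 : H < e * (H / e) + e := by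
        have := Nat.lt_mul_div_succ H (show 0 < e by omega)
        rw [mul_add, mul_one] at this
        exact this
      rw [← hM] at h4
      have h5 : e ≤ e * M := Nat.le_mul_of_pos_right _ (by omega)
      calc H ≤ e * M + e := h4.le
        _ ≤ e * M + e * M := by omega
        _ = 2 * e * M := by ring
    have hH1 : 1 ≤ H := by omega
    have hH0 : (0 : ℝ) < H := by exact_mod_cast hH1
    have hM0 : (0 : ℝ) < M := by
      have : 0 < M := by omega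
      exact_mod_cast this
    have hMHr : (M : ℝ) ≤ H := by exact_mod_cast hMH
    have hKH : K / H ≤ ρ' := by
      rw [div_le_iff₀ hH0]
      have h4 : K / ρ' ≤ H := (Nat.le_ceil _).trans (by exact_mod_cast (by omega : ⌈K / ρ'⌉₊ ≤ H))
      rw [div_le_iff₀ hρ'] at h4
      linarith
    have hYH : Y / H ≤ ρ' := by
      rw [div_le_iff₀ hH0]
      have h4 : Y / ρ' ≤ H := (Nat.le_ceil _).trans (by exact_mod_cast (by omega : ⌈Y / ρ'⌉₊ ≤ H))
      rw [div_le_iff₀ hρ'] at h4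
      linarith
    -- the cases
    have hcases : ∀ m, Cl t (s + 1) D B Q c c₄ e K H m →
        (1 ≤ s ∧ Cl t s D' B Q'' c c₄ e K H m) ∨
        (H ≤ m ∧ c / 2 * H * l ≤ D * ∑ y ∈ Icc 1 H, FF (s + 1) T ρ₄ l (m + y)) := by
      rintro m ⟨hHm, R, hR, hNear, hcor, hcard⟩
      by_cases hex : ∃ l ∈ Λ, ¬ Low (s + 1) l ∧
          δ * M ≤ ‖∑ k ∈ Icc 1 M, ee (∑ i, (l i : ℝ) * tv t R (k : ℝ) i)‖
      · obtain ⟨l', hl'Λ, hl'low, hl'⟩ := hex
        obtain ⟨hs, hnear⟩ := hDD M (by omega) R hR l' (hL l' hl'Λ) hl'low hl'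
        left
        refine ⟨hs, hHm, R, hR, ?_, hcor, hcard⟩
        rw [hQ'']
        exact near_scale (by omega) he hHM hH1 (by linarith) hnear
      · right
        push Not at hex
        refine ⟨hHm, ?_⟩
        have hup : ∀ k ∈ Icc 1 M, ∀ i : Fin t, s + 1 ≤ i.val →
            ∃ z : ℤ, |tv t R ((k : ℕ) : ℝ) i - (z : ℝ) / D| ≤ ρ' := by
          intro k hk i hi
          rw [mem_Icc] at hk
          have hi2 := i.isLt
          obtain ⟨z, hz⟩ := upper_near (k := k) hD1 hQ0 hH1 hNear hR (j := i.val + 1) (by omega)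
            (by omega) (hk.2.trans hMH)
          refine ⟨z, hz.trans ?_⟩
          rw [← hY]
          exact hYH
        have heq := equi_step B Λ w ρ' ρ κ δ T hκ0.le h0 h1 h2 h3 M
          (fun k => tv t R ((k : ℕ) : ℝ)) hup (fun l' hl' hlow => (hex l' hl' hlow).le) hδ0.le hWδ
        -- the number of good points
        have hcard2 : c₄ * H ≤ #{k ∈ Icc 1 M | tv t R ((k : ℕ) : ℝ) ∈ Nb B ρ'} := by
          refine hcard.trans ?_
          have h4 : Nat.card {k : ℕ // k ∈ Icc 1 (H / e) ∧ tv t R (k : ℝ) ∈ Nb B (K / H)} =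
              #{k ∈ Icc 1 M | tv t R ((k : ℕ) : ℝ) ∈ Nb B (K / H)} := by
            rw [← hM]
            have h40 : (fun k : ℕ => k ∈ Icc 1 M ∧ tv t R (k : ℝ) ∈ Nb B (K / H)) =
                fun k : ℕ => k ∈ {k ∈ Icc 1 M | tv t R ((k : ℕ) : ℝ) ∈ Nb B (K / H)} := by
              funext k
              rw [mem_filter]
            rw [show {k : ℕ // k ∈ Icc 1 M ∧ tv t R (k : ℝ) ∈ Nb B (K / H)} =
              {k : ℕ // k ∈ {k ∈ Icc 1 M | tv t R ((k : ℕ) : ℝ) ∈ Nb B (K / H)}} from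
                congrArg Subtype h40, Nat.card_eq_fintype_card, Fintype.card_coe]
          rw [h4]
          have h5 : {k ∈ Icc 1 M | tv t R ((k : ℕ) : ℝ) ∈ Nb B (K / H)} ⊆
              {k ∈ Icc 1 M | tv t R ((k : ℕ) : ℝ) ∈ Nb B ρ'} := by
            intro k hk
            rw [mem_filter] at hk ⊢
            refine ⟨hk.1, ?_⟩
            obtain ⟨β, hβ, hk2⟩ := hk.2
            exact ⟨β, hβ, fun i => (hk2 i).trans hKH⟩
          exact_mod_cast card_le_card h5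
        have hmany : c₄ / 4 * M ≤ #{k ∈ Icc 1 M | ∃ i : Fin t, i.val + 1 = s + 1 ∧
            ∃ x ∈ T, |tv t R ((k : ℕ) : ℝ) i - x| ≤ ρ} := by
          have h6 := hcard2.trans heq
          have h7 : 2 * κ * M ≤ 2 * (c₄ / 4) * H := by gcongr
          have h8 : c₄ / 4 * M ≤ c₄ / 4 * H := by gcongr
          linarith
        exact terminal hst hD1 he hTinv hQ0 hρ₃0.le hρρ (by omega) hMH hHM
          (fun g hg1 hg2 hg3 => hEE M (by omega) g hg1 hg2 (hg3.trans (by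
            have : {k ∈ Icc 1 M | ∃ x ∈ T, |g.eval ((k : ℕ) : ℝ) - x| ≤ ρ} ⊆
                {k ∈ Icc 1 M | ∃ x ∈ T, |g.eval ((k : ℕ) : ℝ) - x| ≤ ρE} := by
              intro k hk
              rw [mem_filter] at hk ⊢
              obtain ⟨hk1, x, hx, hxk⟩ := hk
              exact ⟨hk1, x, hx, hxk.trans hρρE⟩
            exact_mod_cast card_le_card this)))
          (by positivity) (hFF H (by omega)) hR hNear hcor hmany
    -- the sum
    have hterm := term_density (D := D) (l := l) hH1 hHN (by omega) hl1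
      (fun n => FF (s + 1) T ρ₄ l n) (fun n => FF_nonneg _ _ _ _ _) hc hε₂0.le
      (hSl l (2 * N) hll (by omega))
    have hε₂' : 8 * D / c * ε₂ = ε / 2 := by
      rw [hε₂]; field_simp; ring
    rw [hε₂'] at hterm
    have hlogN : 0 ≤ Real.log N := Real.log_natCast_nonneg _
    calc ∑ m ∈ Icc 1 N with Cl t (s + 1) D B Q c c₄ e K H m, (1 / (m : ℝ))
        ≤ ∑ m ∈ ((Icc 1 N).filter fun m => 1 ≤ s ∧ Cl t s D' B Q'' c c₄ e K H m) ∪
            (Icc 1 N).filter (fun m => H ≤ m ∧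
              c / 2 * H * l ≤ D * ∑ y ∈ Icc 1 H, FF (s + 1) T ρ₄ l (m + y)), (1 / (m : ℝ)) := by
          apply sum_le_sum_of_subset_of_nonneg
          · intro m hm
            rw [mem_filter] at hm
            rw [mem_union, mem_filter, mem_filter]
            rcases hcases m hm.2 with h | h
            · left; exact ⟨hm.1, h⟩
            · right; exact ⟨hm.1, h⟩
          · intro m _ _
            positivity
      _ ≤ ∑ m ∈ (Icc 1 N).filter (fun m => 1 ≤ s ∧ Cl t s D' B Q'' c c₄ e K H m), (1 / (m : ℝ)) +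
          ∑ m ∈ (Icc 1 N).filter (fun m => H ≤ m ∧
              c / 2 * H * l ≤ D * ∑ y ∈ Icc 1 H, FF (s + 1) T ρ₄ l (m + y)), (1 / (m : ℝ)) := by
          rw [← sum_union_inter]
          have : 0 ≤ ∑ m ∈ ((Icc 1 N).filter fun m => 1 ≤ s ∧ Cl t s D' B Q'' c c₄ e K H m) ∩
            (Icc 1 N).filter (fun m => H ≤ m ∧
              c / 2 * H * l ≤ D * ∑ y ∈ Icc 1 H, FF (s + 1) T ρ₄ l (m + y)), (1 / (m : ℝ)) :=
            sum_nonneg fun m _ => by positivity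
          linarith
      _ ≤ ε / 2 * Real.log N + ε / 2 * Real.log N := by
          apply add_le_add _ hterm
          rcases Nat.eq_zero_or_pos s with hs0 | hs
          · have : (Icc 1 N).filter (fun m => 1 ≤ s ∧ Cl t s D' B Q'' c c₄ e K H m) = ∅ := by
              apply filter_eq_empty_iff.2
              intro m _ h
              omega
            rw [this, sum_empty]
            positivity
          · have h9 := hHI hs H N (by omega) hHN
            refine le_trans (le_of_eq ?_) h9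
            congr 1
            apply filter_congr
            intro m _
            constructor
            · exact fun h => h.2
            · exact fun h => ⟨hs, h⟩
      _ = ε * Real.log N := by ring

end Pool.Agent.TU
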