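import Pool.Agent.Lib.TU.Defs

/-!
# Row B3: the hypothesis passes to the rational translates (helper62)
-/

set_option autoImplicit false

open Finset Polynomial MeasureTheory

namespace Pool.Agent.TU

namespace B3

variable {t : ℕ}

/-- one translate -/
def Tr (D : ℕ) (B : Set (Fin t → ℝ)) (r : Fin t → Fin D) : Set (Fin t → ℝ) :=
  {α | (fun i => α i - ((r i : ℕ) : ℝ) / D) ∈ B}

theorem sh_eq {D : ℕ} (hD : 1 ≤ D) {B : Set (Fin t → ℝ)} (hP : Per B) :
    Sh D B = ⋃ r : Fin t → Fin D, Tr D B r := by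
  have hD0 : (D : ℝ) ≠ 0 := by
    have : (0 : ℝ) < D := by exact_mod_cast hD
    exact this.ne'
  ext α
  simp only [Set.mem_iUnion, Sh, Tr, Set.mem_ofPred_eq]
  constructor
  · rintro ⟨β, hβ, z, hz⟩
    have hDz : (0 : ℤ) < D := by exact_mod_cast hD
    refine ⟨fun i => ⟨(z i % D).toNat, ?_⟩, ?_⟩
    · have h1 := Int.emod_nonneg (z i) hDz.ne'
      have h2 := Int.emod_lt_of_pos (z i) hDz
      omega
    · have h := hP β hβ fun i => z i / D
      convert h using 1
      funext i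
      rw [hz i]
      have h1 := Int.emod_nonneg (z i) hDz.ne'
      have h2 : (((z i % D).toNat : ℕ) : ℝ) = ((z i % D : ℤ) : ℝ) := by
        have : (((z i % D).toNat : ℕ) : ℤ) = z i % D := Int.toNat_of_nonneg h1
        exact_mod_cast congrArg (fun x : ℤ => (x : ℝ)) this
      have h3 : ((z i : ℤ) : ℝ) = (D : ℝ) * ((z i / D : ℤ) : ℝ) + ((z i % D : ℤ) : ℝ) := by
        have := Int.mul_ediv_add_emod (z i) D
        exact_mod_cast congrArg (fun x : ℤ => (x : ℝ)) this.symm
      simp only []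
      rw [h2, h3]
      field_simp
      ring
  · rintro ⟨r, hr⟩
    refine ⟨_, hr, fun i => ((r i : ℕ) : ℤ), fun i => ?_⟩
    push_cast
    ring

end B3

open B3

theorem rowB3 : B3_stmt := by
  intro t D hD B hC hP hN
  have hD0 : (D : ℝ) ≠ 0 := by
    have : (0 : ℝ) < D := by exact_mod_cast hD
    exact this.ne'
  refine ⟨?_, ?_, ?_⟩
  · rw [sh_eq hD hP]
    refine isClosed_iUnion_of_finite fun r => ?_
    exact hC.preimage (by fun_prop)
  · rintro α ⟨β, hβ, z, hz⟩ m
    refine ⟨_, hP β hβ m, z, fun i => ?_⟩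
    simp only []
    rw [hz i]
    ring
  · intro s hs1 hst r
    rw [sh_eq hD hP]
    have e : {y : Fin s → ℝ | glue s y (fun i => ((r i : ℚ) : ℝ)) ∈ ⋃ ρ : Fin t → Fin D, Tr D B ρ} =
        ⋃ ρ : Fin t → Fin D, {y : Fin s → ℝ | glue s y (fun i => ((r i : ℚ) : ℝ)) ∈ Tr D B ρ} := by
      ext y
      simp
    rw [e]
    refine measure_iUnion_null fun ρ => ?_
    have h := hN s hs1 hst fun i => r i - ((ρ i : ℕ) : ℚ) / D
    have h2 := measure_preimage_add_right (volume : Measure (Fin s → ℝ))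
      (fun i : Fin s => -(((ρ ⟨i.val, lt_of_lt_of_le i.isLt hst⟩ : Fin D) : ℕ) : ℝ) / D)
      {y : Fin s → ℝ | glue s y (fun i => ((r i - ((ρ i : ℕ) : ℚ) / D : ℚ) : ℝ)) ∈ B}
    rw [h] at h2
    refine le_antisymm ((le_of_eq ?_).trans h2.le) bot_le
    congr 1
    ext y
    simp only [Tr, Set.mem_ofPred_eq, Set.mem_preimage]
    have : (fun i => glue s y (fun i => ((r i : ℚ) : ℝ)) i - (((ρ i : Fin D) : ℕ) : ℝ) / D) =
        glue s (y + fun i : Fin s => -(((ρ ⟨i.val, lt_of_lt_of_le i.isLt hst⟩ : Fin D) : ℕ) : ℝ) / D)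
          (fun i => ((r i - ((ρ i : ℕ) : ℚ) / D : ℚ) : ℝ)) := by
      funext i
      unfold glue
      split_ifs with hi
      · simp only [Pi.add_apply]
        ring
      · push_cast
        ring
    rw [this]

end Pool.Agent.TU
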