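import Pool.Agent.Lib.TU.Defs

/-!
# Project TU, row C2: compactness (helper6)
-/

set_option autoImplicit false
open Finset Polynomial MeasureTheory Topology

namespace Pool.Agent.TU

namespace C2x

variable {t : ℕ}

theorem glue_continuous (s : ℕ) : Continuous fun p : (Fin s → ℝ) × (Fin t → ℝ) =>
    glue s p.1 p.2 := by
  refine continuous_pi fun i => ?_
  unfold glue
  by_cases h : i.val < s
  · simp only [dif_pos h]
    exact (continuous_apply _).comp continuous_fst
  · simp only [dif_neg h]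
    exact (continuous_apply _).comp continuous_snd

/-- coordinatewise distance of glued vectors -/
theorem glue_sub_le (s : ℕ) (y : Fin s → ℝ) (r r' : Fin t → ℝ) {δ : ℝ} (hδ : 0 ≤ δ)
    (h : ∀ i, |r i - r' i| ≤ δ) (i : Fin t) : |glue s y r i - glue s y r' i| ≤ δ := by
  unfold glue
  by_cases hi : i.val < s
  · simp only [dif_pos hi, sub_self, abs_zero]
    exact hδ
  · simp only [dif_neg hi]
    exact h i

theorem Nb_mono (B : Set (Fin t → ℝ)) {ρ ρ' : ℝ} (h : ρ ≤ ρ') : Nb B ρ ⊆ Nb B ρ' :=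
  fun _ ⟨β, hβ, h1⟩ => ⟨β, hβ, fun i => (h1 i).trans h⟩

theorem Nb_sub_cthickening (B : Set (Fin t → ℝ)) {ρ : ℝ} (hρ : 0 ≤ ρ) :
    Nb B ρ ⊆ Metric.cthickening ρ B := by
  rintro α ⟨β, hβ, h⟩
  refine Metric.mem_cthickening_of_dist_le α β ρ B hβ ?_
  rw [dist_pi_le_iff hρ]
  exact fun i => by rw [Real.dist_eq]; exact h i

/-- the neighbourhoods of a periodic set are periodic -/
theorem Per_Nb {B : Set (Fin t → ℝ)} (hB : Per B) (ρ : ℝ) : Per (Nb B ρ) := by
  rintro α ⟨β, hβ, h⟩ z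
  refine ⟨fun i => β i + (z i : ℝ), hB β hβ z, fun i => ?_⟩
  have : α i + (z i : ℝ) - (β i + (z i : ℝ)) = α i - β i := by ring
  rw [this]
  exact h i

/-- the fibre measure does not change under integral translations -/
theorem fib_fract {B : Set (Fin t → ℝ)} (hB : Per B) (s : ℕ) (α : Fin t → ℝ) :
    fib s B (fun i => Int.fract (α i)) = fib s B α := by
  unfold fib
  congr 1
  ext z
  refine and_congr_right fun _ => ?_
  have key : ∀ (a b : Fin t → ℝ) (w : Fin t → ℤ), (∀ i, b i = a i + (w i : ℝ)) →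
      glue (s - 1) z a ∈ B → glue (s - 1) z b ∈ B := by
    intro a b w hw ha
    have h1 := hB _ ha (fun i => if i.val < s - 1 then 0 else w i)
    convert h1 using 1
    funext i
    unfold glue
    by_cases hi : i.val < s - 1
    · simp only [dif_pos hi, if_pos hi, Int.cast_zero, add_zero]
    · simp only [dif_neg hi, if_neg hi]
      exact hw i
  constructor
  · refine key _ _ (fun i => ⌊α i⌋) fun i => ?_
    rw [add_comm]; exact (Int.floor_add_fract (α i)).symm
  · refine key _ _ (fun i => -⌊α i⌋) fun i => ?_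
    have := Int.floor_add_fract (α i)
    push_cast
    linarith

/-- the bad set is periodic -/
theorem Tb_int {B : Set (Fin t → ℝ)} {s D : ℕ} (hD : 1 ≤ D) {κ x : ℝ} (hx : x ∈ Tb s D B κ)
    (m : ℤ) : x + (m : ℝ) ∈ Tb s D B κ := by
  obtain ⟨α, h1, h2, h3⟩ := hx
  refine ⟨α, fun i hi => ?_, h2, h3⟩
  obtain ⟨a, ha⟩ := h1 i hi
  refine ⟨a - D * m, ?_⟩
  have hD' : (D : ℝ) ≠ 0 := by positivity
  rw [ha]
  push_cast
  field_simp
  ring

end C2x

open C2x

/-- **Row C2** -/
theorem rowC2 : C2_stmt := by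
  intro t B hBc hBp s hs hst D hD κ hκ ρ hρ
  by_contra hcon
  push Not at hcon
  have hD' : (0 : ℝ) < D := by exact_mod_cast hD
  -- the sequence, reduced modulo one
  have hseq : ∀ n : ℕ, ∃ α : Fin t → ℝ, (∀ i, α i ∈ Set.Icc (0 : ℝ) 1) ∧
      (∀ i : Fin t, s ≤ i.val → ∃ z : ℤ, |α i - (z : ℝ) / D| ≤ 1 / ((n : ℝ) + 1)) ∧
      (∀ i : Fin t, i.val + 1 = s → ∀ x ∈ Tb s D B κ, ρ < |α i - x|) ∧
      ENNReal.ofReal κ ≤ fib s (Nb B (2 * (1 / ((n : ℝ) + 1)))) α := by
    intro n
    obtain ⟨α, h1, h2, h3⟩ := hcon (1 / ((n : ℝ) + 1)) (by positivity)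
    refine ⟨fun i => Int.fract (α i), fun i => ⟨Int.fract_nonneg _, (Int.fract_lt_one _).le⟩,
      fun i hi => ?_, fun i hi x hx => ?_, ?_⟩
    · obtain ⟨z, hz⟩ := h1 i hi
      refine ⟨z - D * ⌊α i⌋, ?_⟩
      have e : Int.fract (α i) - ((z - D * ⌊α i⌋ : ℤ) : ℝ) / D = α i - (z : ℝ) / D := by
        have := Int.floor_add_fract (α i)
        push_cast
        field_simp
        linear_combination (D : ℝ) * this
      rw [e]
      exact hz
    · have h4 := h2 i hi _ (Tb_int hD hx ⌊α i⌋)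
      have e : α i - (x + (⌊α i⌋ : ℝ)) = Int.fract (α i) - x := by
        have := Int.floor_add_fract (α i)
        linear_combination -this
      rw [e] at h4
      exact h4
    · rw [fib_fract (Per_Nb hBp _)]
      exact h3
  choose α hα1 hα2 hα3 hα4 using hseq
  obtain ⟨β, -, φ, hφ, hlim⟩ := (isCompact_univ_pi fun _ : Fin t => isCompact_Icc
    (a := (0 : ℝ)) (b := 1)).tendsto_subseq (x := α) fun n i _ => hα1 n i
  have hlim' : ∀ i, Filter.Tendsto (fun n => α (φ n) i) Filter.atTop (𝓝 (β i)) :=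
    fun i => (tendsto_pi_nhds.1 hlim) i
  have hinv : Filter.Tendsto (fun n : ℕ => 1 / ((φ n : ℝ) + 1)) Filter.atTop (𝓝 0) := by
    exact tendsto_one_div_add_atTop_nhds_zero_nat.comp hφ.tendsto_atTop
  -- the limit is rational above `s`
  have hβ1 : ∀ i : Fin t, s ≤ i.val → ∃ z : ℤ, β i = (z : ℝ) / D := by
    intro i hi
    have hcl : IsClosed (Set.range fun z : ℤ => (z : ℝ)) := by
      have := Int.isClosedEmbedding_coe_real.isClosed_range
      exact this
    have hmem : (D : ℝ) * β i ∈ Set.range fun z : ℤ => (z : ℝ) := by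
      rw [← hcl.closure_eq, Metric.mem_closure_iff]
      intro ε hε
      have h1 : ∀ᶠ n in Filter.atTop, |α (φ n) i - β i| < ε / (2 * D) := by
        have := (Metric.tendsto_nhds.1 (hlim' i)) (ε / (2 * D)) (by positivity)
        simpa [Real.dist_eq] using this
      have h2 : ∀ᶠ n in Filter.atTop, |1 / ((φ n : ℝ) + 1)| < ε / (2 * D) := by
        have := (Metric.tendsto_nhds.1 hinv) (ε / (2 * D)) (by positivity)
        simpa [Real.dist_eq] using this
      obtain ⟨n, hn1, hn2⟩ := (h1.and h2).exists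
      obtain ⟨z, hz⟩ := hα2 (φ n) i hi
      refine ⟨(z : ℝ), ⟨z, rfl⟩, ?_⟩
      rw [Real.dist_eq]
      have e : (D : ℝ) * β i - z = D * ((β i - α (φ n) i) + (α (φ n) i - z / D)) := by
        field_simp
        ring
      rw [e, abs_mul, abs_of_pos hD']
      have h3 : |(β i - α (φ n) i) + (α (φ n) i - z / D)| < ε / (2 * D) + ε / (2 * D) := by
        refine (abs_add_le _ _).trans_lt (add_lt_add ?_ ?_)
        · rw [abs_sub_comm]; exact hn1
        · exact hz.trans_lt ((le_abs_self _).trans_lt hn2)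
      calc (D : ℝ) * |(β i - α (φ n) i) + (α (φ n) i - z / D)| <
          D * (ε / (2 * D) + ε / (2 * D)) := mul_lt_mul_of_pos_left h3 hD'
        _ = ε := by field_simp; ring
    obtain ⟨z, hz⟩ := hmem
    refine ⟨z, ?_⟩
    simp only at hz
    rw [hz]
    field_simp
  -- the fibre measure of the limit
  set F : ℕ → Set (Fin (s - 1) → ℝ) := fun m =>
    {z | (∀ i, z i ∈ Set.Icc (0 : ℝ) 1) ∧
      glue (s - 1) z β ∈ Metric.cthickening (1 / ((m : ℝ) + 1)) B} with hF
  have hcube : IsCompact {z : Fin (s - 1) → ℝ | ∀ i, z i ∈ Set.Icc (0 : ℝ) 1} := by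
    have := isCompact_univ_pi fun _ : Fin (s - 1) => isCompact_Icc (a := (0 : ℝ)) (b := 1)
    convert this using 1
    ext z
    rw [Set.mem_univ_pi]
    rfl
  have hFc : ∀ m, IsClosed (F m) := by
    intro m
    refine hcube.isClosed.inter ?_
    exact Metric.isClosed_cthickening.preimage
      ((glue_continuous (s - 1)).comp (Continuous.prodMk continuous_id continuous_const))
  have hFa : Antitone F := by
    intro m m' hmm z hz
    refine ⟨hz.1, Metric.cthickening_mono ?_ _ hz.2⟩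
    exact one_div_le_one_div_of_le (by positivity) (by
      have : (m : ℝ) ≤ m' := by exact_mod_cast hmm
      linarith)
  have hFk : ∀ m, ENNReal.ofReal κ ≤ volume (F m) := by
    intro m
    have hδ : 0 < 1 / ((m : ℝ) + 1) := by positivity
    have h1 : ∀ᶠ n in Filter.atTop, ∀ i, |α (φ n) i - β i| < 1 / ((m : ℝ) + 1) / 2 := by
      rw [Filter.eventually_all]
      intro i
      have := (Metric.tendsto_nhds.1 (hlim' i)) (1 / ((m : ℝ) + 1) / 2) (by positivity)
      simpa [Real.dist_eq] using this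
    have h2 : ∀ᶠ n in Filter.atTop, |1 / ((φ n : ℝ) + 1)| < 1 / ((m : ℝ) + 1) / 4 := by
      have := (Metric.tendsto_nhds.1 hinv) (1 / ((m : ℝ) + 1) / 4) (by positivity)
      simpa [Real.dist_eq] using this
    obtain ⟨n, hn1, hn2⟩ := (h1.and h2).exists
    refine (hα4 (φ n)).trans (measure_mono ?_)
    rintro z ⟨hz1, γ, hγ, hz2⟩
    refine ⟨hz1, Nb_sub_cthickening B hδ.le ⟨γ, hγ, fun i => ?_⟩⟩
    have h3 := glue_sub_le (s - 1) z β (α (φ n)) (δ := 1 / ((m : ℝ) + 1) / 2) (by positivity)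
      (fun i => by rw [abs_sub_comm]; exact (hn1 i).le) i
    have h4 := hz2 i
    have h5 : 1 / ((φ n : ℝ) + 1) < 1 / ((m : ℝ) + 1) / 4 := (le_abs_self _).trans_lt hn2
    calc |glue (s - 1) z β i - γ i| =
        |(glue (s - 1) z β i - glue (s - 1) z (α (φ n)) i) +
          (glue (s - 1) z (α (φ n)) i - γ i)| := by ring_nf
      _ ≤ _ := abs_add_le _ _
      _ ≤ 1 / ((m : ℝ) + 1) / 2 + 2 * (1 / ((φ n : ℝ) + 1)) := add_le_add h3 h4
      _ ≤ 1 / ((m : ℝ) + 1) := by linarith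
  have hFi : (⋂ m, F m) ⊆ {z : Fin (s - 1) → ℝ | (∀ i, z i ∈ Set.Icc (0 : ℝ) 1) ∧
      glue (s - 1) z β ∈ B} := by
    intro z hz
    rw [Set.mem_iInter] at hz
    refine ⟨(hz 0).1, ?_⟩
    rw [← hBc.closure_eq, Metric.closure_eq_iInter_cthickening, Set.mem_iInter₂]
    intro ε hε
    obtain ⟨m, hm⟩ := exists_nat_one_div_lt hε
    exact Metric.cthickening_mono hm.le _ (hz m).2
  have hfib : ENNReal.ofReal κ ≤ fib s B β := by
    unfold fib
    refine le_trans ?_ (measure_mono hFi)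
    have hfin : ∃ m, volume (F m) ≠ ⊤ := by
      refine ⟨0, ne_top_of_le_ne_top hcube.measure_lt_top.ne (measure_mono fun z hz => hz.1)⟩
    rw [hFa.measure_iInter (fun m => (hFc m).measurableSet.nullMeasurableSet) hfin]
    exact le_iInf hFk
  -- contradiction
  have hi0 : s - 1 < t := by omega
  have hT : β ⟨s - 1, hi0⟩ ∈ Tb s D B κ := by
    refine ⟨β, fun i hi => ⟨0, ?_⟩, hβ1, hfib⟩
    have : i = ⟨s - 1, hi0⟩ := Fin.ext (by simp only; omega)
    rw [this]
    simp
  have h1 : ∀ᶠ n in Filter.atTop, |α (φ n) ⟨s - 1, hi0⟩ - β ⟨s - 1, hi0⟩| < ρ := by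
    have := (Metric.tendsto_nhds.1 (hlim' ⟨s - 1, hi0⟩)) ρ hρ
    simpa [Real.dist_eq] using this
  obtain ⟨n, hn⟩ := h1.exists
  have := hα3 (φ n) ⟨s - 1, hi0⟩ (by simp only; omega) _ hT
  linarith

end Pool.Agent.TU
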