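import Pool.Agent.Lib.TU.Defs

/-!
# Row D: a large exponential sum of the Taylor coefficients gives one more rational coefficient

helper71.
-/

set_option autoImplicit false
open Finset Polynomial

namespace Pool.Agent.TU

open Pool.Agent.Lib.MP_663568_nt Pool.Agent.Lib.MP_663568_nt.Katai
  Pool.Agent.Lib.MP_663568_nt.Nul

/-- The polynomial `∑ l_i R^{(i+1)} / (i+1)!`. -/
noncomputable def comb {t : ℕ} (l : Fin t → ℤ) (R : ℝ[X]) : ℝ[X] :=
  ∑ i : Fin t, C (l i : ℝ) * hasseDeriv (i.val + 1) R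

lemma comb_eval {t : ℕ} (l : Fin t → ℤ) (R : ℝ[X]) (k : ℝ) :
    (comb l R).eval k = ∑ i, (l i : ℝ) * tv t R k i := by
  simp only [comb, eval_finsetSum, tv, taylor_coeff, eval_mul, eval_C]

lemma comb_natDegree {t : ℕ} (l : Fin t → ℤ) (R : ℝ[X]) (hR : R.natDegree ≤ t) :
    (comb l R).natDegree ≤ t := by
  refine natDegree_sum_le_of_forall_le _ _ fun i _ => ?_
  refine (natDegree_C_mul_le _ _).trans ?_
  refine (natDegree_hasseDeriv_le R (i.val + 1)).trans ?_
  omega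

lemma comb_coeff {t : ℕ} (l : Fin t → ℤ) (R : ℝ[X]) (a : ℕ) :
    (comb l R).coeff a = ∑ i : Fin t, ((l i : ℝ) *
      ((((a + (i.val + 1)).choose (i.val + 1) : ℕ) : ℝ) * R.coeff (a + (i.val + 1)))) := by
  simp only [comb, finsetSum_coeff, coeff_C_mul, hasseDeriv_coeff]

lemma nd_zero : nd 0 = 0 := by
  have := nd_int 0
  simpa using this

lemma nd_sum_le {ι : Type*} (s : Finset ι) (f : ι → ℝ) : nd (∑ i ∈ s, f i) ≤ ∑ i ∈ s, nd (f i) := by
  classical
  induction s using Finset.induction_on with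
  | empty => simp [nd_zero]
  | insert a s ha ih =>
    rw [sum_insert ha, sum_insert ha]
    exact (nd_add_le _ _).trans (by linarith)

lemma choose_le_fact {n k t : ℕ} (h : n ≤ t) : n.choose k ≤ t.factorial := by
  by_cases hk : k ≤ n
  · refine le_trans ?_ (Nat.factorial_le h)
    refine Nat.le_of_dvd (Nat.factorial_pos n) ?_
    rw [← Nat.choose_mul_factorial_mul_factorial hk, mul_assoc]
    exact Dvd.intro _ rfl
  · rw [Nat.choose_eq_zero_of_lt (by omega)]
    exact Nat.zero_le _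

/-- One step of the descent. -/
lemma tri_core {t : ℕ} (L : ℕ) (R : ℝ[X]) (hR : R.natDegree ≤ t) (l : Fin t → ℤ)
    (hl : ∀ i, |l i| ≤ (L : ℤ)) (v : Fin t) (hv : l v ≠ 0) (hv' : ∀ i, i < v → l i = 0)
    (a : ℕ) (ha : a + (v.val + 1) ≤ t) (q : ℕ) (B₁ B₂ : ℝ) (hB₂ : 0 ≤ B₂)
    (h1 : nd ((q : ℝ) * (comb l R).coeff a) ≤ B₁)
    (h2 : ∀ i, v < i → nd ((q : ℝ) * R.coeff (a + (i.val + 1))) ≤ B₂) (E : ℕ)
    (hE : E = L.factorial * t.factorial) :
    nd (((q * E : ℕ) : ℝ) * R.coeff (a + (v.val + 1))) ≤ E * (B₁ + t * (E * B₂)) := by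
  classical
  have hdv : (l v * (((a + (v.val + 1)).choose (v.val + 1) : ℕ) : ℤ)) ∣ (E : ℤ) := by
    rw [hE]
    push_cast
    refine mul_dvd_mul ?_ ?_
    · rw [← Int.natAbs_dvd_natAbs, Int.natAbs_natCast]
      have h3 := hl v
      rw [Int.abs_eq_natAbs] at h3
      have h4 : (l v).natAbs ≤ L := by exact_mod_cast h3
      exact Nat.dvd_factorial (Int.natAbs_pos.2 hv) h4
    · rw [Int.natCast_dvd_natCast]
      refine dvd_trans ?_ (Nat.factorial_dvd_factorial ha)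
      rw [← Nat.choose_mul_factorial_mul_factorial (Nat.le_add_left (v.val + 1) a), mul_assoc]
      exact Dvd.intro _ rfl
  obtain ⟨k, hk⟩ := hdv
  have hEpos : 0 < E := by rw [hE]; positivity
  have hkE : |(k : ℝ)| ≤ E := by
    have h3 : (k : ℤ) ∣ (E : ℤ) := by
      rw [hk]
      exact Dvd.intro_left _ rfl
    have h4 : |k| ≤ (E : ℤ) := by
      have := Int.le_of_dvd (by exact_mod_cast hEpos) ((abs_dvd k (E : ℤ)).2 h3)
      exact this
    exact_mod_cast h4
  have hco := comb_coeff l R a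
  rw [← add_sum_erase _ _ (mem_univ v)] at hco
  have e1 : ((q * E : ℕ) : ℝ) * R.coeff (a + (v.val + 1)) =
      (k : ℝ) * ((q : ℝ) * (comb l R).coeff a - ∑ i ∈ univ.erase v,
        ((l i * (((a + (i.val + 1)).choose (i.val + 1) : ℕ) : ℤ) : ℤ) : ℝ) *
          ((q : ℝ) * R.coeff (a + (i.val + 1)))) := by
    have h5 : ∑ i ∈ univ.erase v,
        ((l i * (((a + (i.val + 1)).choose (i.val + 1) : ℕ) : ℤ) : ℤ) : ℝ) *
          ((q : ℝ) * R.coeff (a + (i.val + 1))) = (q : ℝ) * ∑ i ∈ univ.erase v, ((l i : ℝ) *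
      ((((a + (i.val + 1)).choose (i.val + 1) : ℕ) : ℝ) * R.coeff (a + (i.val + 1)))) := by
      rw [mul_sum]
      refine sum_congr rfl fun i _ => ?_
      push_cast
      ring
    rw [h5, hco]
    have h6 : (E : ℝ) = (l v : ℝ) * (((a + (v.val + 1)).choose (v.val + 1) : ℕ) : ℝ) * (k : ℝ) := by
      exact_mod_cast hk
    push_cast
    rw [h6]
    push_cast
    ring
  rw [e1]
  refine (nd_int_mul_le _ _).trans ?_
  refine mul_le_mul hkE ?_ (nd_nonneg _) (by positivity)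
  refine (nd_sub_le _ _).trans (add_le_add h1 ?_)
  refine (nd_sum_le _ _).trans ?_
  calc ∑ i ∈ univ.erase v, nd (((l i * (((a + (i.val + 1)).choose (i.val + 1) : ℕ) : ℤ) : ℤ) : ℝ) *
          ((q : ℝ) * R.coeff (a + (i.val + 1)))) ≤ ∑ i ∈ univ.erase v, E * B₂ := by
        refine sum_le_sum fun i hi => ?_
        rcases lt_or_ge i v with h7 | h7
        · rw [hv' i h7]
          simp only [zero_mul, Int.cast_zero, nd_zero]
          positivity
        have h8 : v < i := lt_of_le_of_ne h7 (Ne.symm (ne_of_mem_erase hi))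
        by_cases h9 : a + (i.val + 1) ≤ t
        · refine (nd_int_mul_le _ _).trans (mul_le_mul ?_ (h2 i h8) (nd_nonneg _) (by positivity))
          have h10 : |l i * (((a + (i.val + 1)).choose (i.val + 1) : ℕ) : ℤ)| ≤ (E : ℤ) := by
            rw [abs_mul, Nat.abs_cast, hE]
            push_cast
            refine mul_le_mul ((hl i).trans ?_) ?_ (by positivity) (by positivity)
            · exact_mod_cast Nat.self_le_factorial L
            · exact_mod_cast choose_le_fact h9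
          exact_mod_cast h10
        · rw [coeff_eq_zero_of_natDegree_lt (by omega)]
          simp only [mul_zero, nd_zero]
          positivity
    _ ≤ t * (E * B₂) := by
        rw [sum_const, nsmul_eq_mul]
        refine mul_le_mul_of_nonneg_right ?_ (by positivity)
        have : #(univ.erase v) ≤ t := by
          refine (card_le_card (erase_subset _ _)).trans ?_
          simp
        exact_mod_cast this

lemma tri {t : ℕ} (L : ℕ) (R : ℝ[X]) (hR : R.natDegree ≤ t) (l : Fin t → ℤ)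
    (hl : ∀ i, |l i| ≤ (L : ℤ)) (v : Fin t) (hv : l v ≠ 0) (hv' : ∀ i, i < v → l i = 0)
    (M : ℕ) (hM : 1 ≤ M) (q : ℕ) (Q : ℝ) (hQ : 0 ≤ Q)
    (h : ∀ a, 1 ≤ a → a ≤ t → nd ((q : ℝ) * (comb l R).coeff a) ≤ Q / (M : ℝ) ^ a) (E : ℕ)
    (hE : E = L.factorial * t.factorial) :
    ∀ n a : ℕ, 1 ≤ a → a + (v.val + 1) ≤ t → t ≤ a + (v.val + 1) + n →
      nd (((q * E ^ (n + 1) : ℕ) : ℝ) * R.coeff (a + (v.val + 1))) ≤
        Q * ((t + 1) * (E : ℝ) ^ 2) ^ (n + 1) / (M : ℝ) ^ a := by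
  have hEpos : 0 < E := by rw [hE]; positivity
  have hE1 : (1 : ℝ) ≤ E := by exact_mod_cast hEpos
  have hM' : (1 : ℝ) ≤ M := by exact_mod_cast hM
  intro n
  induction n with
  | zero =>
    intro a ha1 ha2 ha3
    have h1 := tri_core L R hR l hl v hv hv' a ha2 q (Q / (M : ℝ) ^ a) 0 le_rfl
      (h a ha1 (by omega)) (fun i hi => by
        have : v.val < i.val := hi
        rw [coeff_eq_zero_of_natDegree_lt (by omega), mul_zero, nd_zero]) E hE
    rw [zero_add, pow_one, pow_one]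
    refine h1.trans ?_
    rw [mul_zero, mul_zero, add_zero, mul_div_assoc', mul_comm (E : ℝ) Q]
    gcongr
    nlinarith [(Nat.cast_nonneg t : (0 : ℝ) ≤ t)]
  | succ n ih =>
    intro a ha1 ha2 ha3
    obtain ⟨F, hF⟩ : ∃ F : ℝ, F = (t + 1) * (E : ℝ) ^ 2 := ⟨_, rfl⟩
    rw [← hF] at ih ⊢
    have hF1 : (E : ℝ) ≤ F := by
      rw [hF]
      nlinarith [(Nat.cast_nonneg t : (0 : ℝ) ≤ t)]
    have hMa : (0 : ℝ) < (M : ℝ) ^ a := by positivity
    have hb1 : nd (((q * E ^ (n + 1) : ℕ) : ℝ) * (comb l R).coeff a) ≤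
        F ^ (n + 1) * (Q / (M : ℝ) ^ a) := by
      have e : ((q * E ^ (n + 1) : ℕ) : ℝ) * (comb l R).coeff a =
          ((E ^ (n + 1) : ℕ) : ℝ) * ((q : ℝ) * (comb l R).coeff a) := by
        push_cast; ring
      rw [e]
      refine (nd_nat_mul_le _ _).trans (mul_le_mul ?_ (h a ha1 (by omega)) (nd_nonneg _) ?_)
      · push_cast
        gcongr
      · have : (0 : ℝ) ≤ F := by linarith
        positivity
    have hb2 : ∀ i, v < i → nd (((q * E ^ (n + 1) : ℕ) : ℝ) * R.coeff (a + (i.val + 1))) ≤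
        Q * F ^ (n + 1) / (M : ℝ) ^ a := by
      intro i hi
      have hF0 : (0 : ℝ) ≤ F := by linarith
      have hvi : v.val < i.val := hi
      by_cases h9 : a + (i.val + 1) ≤ t
      · have h3 := ih (a + (i.val - v.val)) (by omega) (by omega) (by omega)
        have e : a + (i.val - v.val) + (v.val + 1) = a + (i.val + 1) := by omega
        rw [e] at h3
        refine h3.trans ?_
        gcongr
        omega
      · rw [coeff_eq_zero_of_natDegree_lt (by omega), mul_zero, nd_zero]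
        positivity
    have hF0 : (0 : ℝ) ≤ F := by linarith
    have h1 := tri_core L R hR l hl v hv hv' a ha2 (q * E ^ (n + 1)) _ _
      (by positivity) hb1 hb2 E hE
    have e2 : q * E ^ (n + 1 + 1) = q * E ^ (n + 1) * E := by ring
    rw [e2]
    refine h1.trans ?_
    have e3 : E * (F ^ (n + 1) * (Q / (M : ℝ) ^ a) + t * (E * (Q * F ^ (n + 1) / (M : ℝ) ^ a))) =
        (Q * F ^ (n + 1) / (M : ℝ) ^ a) * (E + t * E ^ 2) := by ring
    have e4 : Q * F ^ (n + 1 + 1) / (M : ℝ) ^ a = (Q * F ^ (n + 1) / (M : ℝ) ^ a) * F := by ring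
    rw [e3, e4]
    refine mul_le_mul_of_nonneg_left ?_ (by positivity)
    rw [hF]
    nlinarith [(Nat.cast_nonneg t : (0 : ℝ) ≤ t)]

theorem rowD (hA : A_stmt) : D_stmt := by
  classical
  intro t s L hs hst δ hδ
  obtain ⟨ρ, hρ⟩ : ∃ ρ : ℝ, ρ = min δ (1 / 2) := ⟨_, rfl⟩
  have hρ0 : 0 < ρ := by rw [hρ]; positivity
  have hρ1 : ρ ≤ 1 / 2 := by rw [hρ]; exact min_le_right _ _
  have hρ2 : ρ ≤ δ := by rw [hρ]; exact min_le_left _ _
  obtain ⟨C, hC1, hC⟩ := hA t (by omega)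
  obtain ⟨N, hN⟩ : ∃ N : ℕ, N = ⌈(1 / ρ) ^ C⌉₊ := ⟨_, rfl⟩
  have hN1 : (1 / ρ) ^ C ≤ N := by rw [hN]; exact Nat.le_ceil _
  have hone : 1 ≤ 1 / ρ := by
    rw [le_div_iff₀ hρ0]; linarith
  have hone' : (1 : ℝ) ≤ (1 / ρ) ^ C := one_le_pow₀ hone
  have hNpos : 1 ≤ N := by exact_mod_cast hone'.trans hN1
  obtain ⟨E, hE⟩ : ∃ E : ℕ, E = L.factorial * t.factorial := ⟨_, rfl⟩
  have hEpos : 0 < E := by rw [hE]; positivity
  have hE1 : (1 : ℝ) ≤ E := by exact_mod_cast hEpos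
  obtain ⟨F, hF⟩ : ∃ F : ℝ, F = (t + 1) * (E : ℝ) ^ 2 := ⟨_, rfl⟩
  have hF1 : (1 : ℝ) ≤ F := by
    rw [hF]
    nlinarith [(Nat.cast_nonneg t : (0 : ℝ) ≤ t)]
  have hNf : (1 : ℝ) ≤ (N.factorial : ℝ) := by exact_mod_cast Nat.factorial_pos N
  refine ⟨N.factorial * E ^ (t + 1), Nat.mul_pos (Nat.factorial_pos N) (by positivity),
    N.factorial * ((1 / ρ) ^ C * F ^ (t + 1)), ?_, N, ?_⟩
  · have h3 : (1 : ℝ) ≤ F ^ (t + 1) := one_le_pow₀ hF1
    nlinarith [mul_le_mul hone' h3 (by positivity) (by positivity)]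
  intro M hM R hR l hl hlow hsum
  have hM1 : 1 ≤ M := hNpos.trans hM
  have hM' : (1 : ℝ) ≤ M := by exact_mod_cast hM1
  -- the least index
  obtain ⟨v, hvs, hv, hv'⟩ : ∃ v : Fin t, v.val + 1 < s ∧ l v ≠ 0 ∧ ∀ i, i < v → l i = 0 := by
    have h3 : ∃ i : Fin t, i.val + 1 < s ∧ l i ≠ 0 := by
      rw [Low] at hlow
      push Not at hlow
      exact hlow
    obtain ⟨i₀, hi₀, hi₀'⟩ := h3
    have hne : (univ.filter fun i : Fin t => l i ≠ 0).Nonempty := ⟨i₀, by simp [hi₀']⟩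
    refine ⟨(univ.filter fun i : Fin t => l i ≠ 0).min' hne, ?_, ?_, ?_⟩
    · have h4 := min'_le (univ.filter fun i : Fin t => l i ≠ 0) i₀ (by simp [hi₀'])
      have h5 : ((univ.filter fun i : Fin t => l i ≠ 0).min' hne).val ≤ i₀.val := h4
      omega
    · have h4 := min'_mem _ hne
      rw [mem_filter] at h4
      exact h4.2
    · intro i hi
      by_contra h4
      have h5 := min'_le (univ.filter fun i : Fin t => l i ≠ 0) i (by simp [h4])
      exact absurd hi (not_lt.2 h5)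
  have hsum' : ρ * M ≤ ‖∑ m ∈ Icc 1 M, ee ((comb l R).eval (m : ℝ))‖ := by
    refine le_trans ?_ (le_of_le_of_eq hsum ?_)
    · gcongr
    · congr 1
      exact sum_congr rfl fun k _ => by rw [comb_eval]
  obtain ⟨q, hq1, hq2, hq3⟩ := hC ρ M (comb l R) hρ0 hρ1 (hN1.trans (by exact_mod_cast hM))
    (comb_natDegree l R hR) hsum'
  have hqN : q ≤ N := by exact_mod_cast hq2.trans hN1
  obtain ⟨k, hk⟩ := Nat.dvd_factorial (by omega : 0 < q) hqN
  have hkN : (k : ℝ) ≤ N.factorial := by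
    have : k ≤ N.factorial := by
      rw [hk]; exact Nat.le_mul_of_pos_left _ (by omega)
    exact_mod_cast this
  intro j hj1 hj2
  obtain ⟨a, ha⟩ : ∃ a, j = a + (v.val + 1) := ⟨j - (v.val + 1), by omega⟩
  have h3 := tri L R hR l hl v hv hv' M hM1 q ((1 / ρ) ^ C) (by positivity) hq3 E hE t a
    (by omega) (by omega) (by omega)
  rw [← ha, ← hF] at h3
  have e : ((N.factorial * E ^ (t + 1) : ℕ) : ℝ) * R.coeff j =
      (k : ℝ) * (((q * E ^ (t + 1) : ℕ) : ℝ) * R.coeff j) := by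
    rw [hk]; push_cast; ring
  rw [e]
  refine (nd_nat_mul_le _ _).trans ?_
  have hF0 : (0 : ℝ) ≤ F := by linarith
  calc (k : ℝ) * nd (((q * E ^ (t + 1) : ℕ) : ℝ) * R.coeff j) ≤
      N.factorial * ((1 / ρ) ^ C * F ^ (t + 1) / (M : ℝ) ^ a) := by
        exact mul_le_mul hkN h3 (nd_nonneg _) (by positivity)
    _ = N.factorial * ((1 / ρ) ^ C * F ^ (t + 1)) / (M : ℝ) ^ a := by ring
    _ ≤ N.factorial * ((1 / ρ) ^ C * F ^ (t + 1)) / (M : ℝ) ^ (j - (s - 1)) := by
        gcongr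
        omega

end Pool.Agent.TU
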