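import Pool.Agent.Lib.TU.Defs

/-! # Theorem U, row E: the drift lemma.  helper26. -/

set_option autoImplicit false

open Finset Polynomial MeasureTheory Filter Topology

namespace Pool.Agent.TU

namespace RowE

/-- one piece of the preimage of a null set. -/
theorem null_piece (P : ℝ[X]) {T : Set ℝ} (h0 : volume T = 0) {s : Set ℝ} (hs : MeasurableSet s)
    (hsT : ∀ x ∈ s, P.eval x ∈ T) (hinj : Set.InjOn (fun x => P.eval x) s)
    (hd : ∀ x ∈ s, P.derivative.eval x ≠ 0) : volume s = 0 := by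
  have h := lintegral_image_eq_lintegral_abs_deriv_mul hs (f' := fun x => P.derivative.eval x)
    (fun x _ => (P.hasDerivAt x).hasDerivWithinAt) hinj (fun _ => 1)
  have h1 : ∫⁻ _ in (fun x => P.eval x) '' s, (1 : ENNReal) = 0 := by
    rw [setLIntegral_one]
    refine measure_mono_null ?_ h0
    rintro _ ⟨x, hx, rfl⟩
    exact hsT x hx
  rw [h1] at h
  by_contra hne
  have hm : Measurable fun x => ENNReal.ofReal |P.derivative.eval x| * (1 : ENNReal) := by
    refine Measurable.mul_const ?_ _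
    exact (P.derivative.continuous.abs.measurable).ennreal_ofReal
  have h2 := (setLIntegral_pos_iff hm (s := s) (μ := volume)).2 (by
    have : Function.support (fun x => ENNReal.ofReal |P.derivative.eval x| * (1 : ENNReal)) ∩ s
        = s := by
      refine Set.inter_eq_right.2 fun x hx => ?_
      rw [Function.mem_support, mul_one]
      exact (ENNReal.ofReal_pos.2 (abs_pos.2 (hd x hx))).ne'
    rw [this]
    exact pos_iff_ne_zero.2 hne)
  exact h2.ne h

/-- the preimage of a closed null set under a polynomial which is not constant. -/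
theorem null_pre (P : ℝ[X]) (hP : P.derivative ≠ 0) {T : Set ℝ} (hT : IsClosed T)
    (h0 : volume T = 0) : volume {x : ℝ | P.eval x ∈ T} = 0 := by
  have hsub : {x : ℝ | P.eval x ∈ T} ⊆ {x | P.derivative.IsRoot x} ∪
      {x | P.eval x ∈ T ∧ P.derivative.eval x ≠ 0} := by
    intro x hx
    by_cases h : P.derivative.eval x = 0
    · exact Or.inl h
    · exact Or.inr ⟨hx, h⟩
  refine measure_mono_null hsub (measure_union_null ?_ ?_)
  · exact (P.derivative.finite_setOf_isRoot hP).measure_zero volume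
  · refine measure_null_of_locally_null _ fun x₀ hx₀ => ?_
    have hTm : MeasurableSet {x : ℝ | P.eval x ∈ T} := (hT.preimage P.continuous).measurableSet
    rcases lt_or_gt_of_ne hx₀.2 with hneg | hpos
    · have hev := (P.derivative.continuous.tendsto x₀).eventually (gt_mem_nhds hneg)
      obtain ⟨r, hr, hball⟩ := Metric.eventually_nhds_iff_ball.1 hev
      refine ⟨Metric.ball x₀ r ∩ {x | P.eval x ∈ T}, ?_, ?_⟩
      · rw [mem_nhdsWithin]
        exact ⟨Metric.ball x₀ r, Metric.isOpen_ball, Metric.mem_ball_self hr,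
          fun x hx => ⟨hx.1, hx.2.1⟩⟩
      · refine null_piece P h0 (Metric.isOpen_ball.measurableSet.inter hTm) (fun x hx => hx.2) ?_
          fun x hx => (hball x hx.1).ne
        refine Set.InjOn.mono Set.inter_subset_left (StrictAntiOn.injOn ?_)
        refine strictAntiOn_of_deriv_neg (convex_ball x₀ r) P.continuous.continuousOn fun x hx => ?_
        rw [P.deriv]
        exact hball x (interior_subset hx)
    · have hev := (P.derivative.continuous.tendsto x₀).eventually (lt_mem_nhds hpos)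
      obtain ⟨r, hr, hball⟩ := Metric.eventually_nhds_iff_ball.1 hev
      refine ⟨Metric.ball x₀ r ∩ {x | P.eval x ∈ T}, ?_, ?_⟩
      · rw [mem_nhdsWithin]
        exact ⟨Metric.ball x₀ r, Metric.isOpen_ball, Metric.mem_ball_self hr,
          fun x hx => ⟨hx.1, hx.2.1⟩⟩
      · refine null_piece P h0 (Metric.isOpen_ball.measurableSet.inter hTm) (fun x hx => hx.2) ?_
          fun x hx => (hball x hx.1).ne'
        refine Set.InjOn.mono Set.inter_subset_left (StrictMonoOn.injOn ?_)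
        refine strictMonoOn_of_deriv_pos (convex_ball x₀ r) P.continuous.continuousOn fun x hx => ?_
        rw [P.deriv]
        exact hball x (interior_subset hx)

variable {d : ℕ}

/-- the polynomial with given coefficients. -/
noncomputable def G (a : Fin (d + 1) → ℝ) : ℝ[X] := ∑ i : Fin (d + 1), C (a i) * X ^ (i : ℕ)

theorem G_eval (a : Fin (d + 1) → ℝ) (u : ℝ) : (G a).eval u = ∑ i, a i * u ^ (i : ℕ) := by
  unfold G
  rw [eval_finset_sum]
  refine Finset.sum_congr rfl fun i _ => ?_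
  rw [eval_mul, eval_C, eval_pow, eval_X]

theorem G_coeff (a : Fin (d + 1) → ℝ) (i : Fin (d + 1)) : (G a).coeff i = a i := by
  unfold G
  rw [finset_sum_coeff, Finset.sum_eq_single i]
  · rw [coeff_C_mul, coeff_X_pow, if_pos rfl, mul_one]
  · intro j _ hj
    rw [coeff_C_mul, coeff_X_pow, if_neg, mul_zero]
    exact fun h => hj (Fin.ext h.symm)
  · intro h
    exact absurd (Finset.mem_univ i) h

theorem G_deriv (a : Fin (d + 1) → ℝ) (i : Fin (d + 1)) (hi : 1 ≤ i.val) (ha : a i ≠ 0) :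
    (G a).derivative ≠ 0 := by
  intro h
  have h1 := natDegree_eq_zero_of_derivative_eq_zero h
  refine ha ?_
  rw [← G_coeff a i]
  refine coeff_eq_zero_of_natDegree_lt ?_
  omega

theorem G_close (a b : Fin (d + 1) → ℝ) {r : ℝ} (h : ∀ i, |a i - b i| ≤ r) {u : ℝ}
    (hu : u ∈ Set.Icc (0 : ℝ) 1) : dist ((G a).eval u) ((G b).eval u) ≤ (d + 1) * r := by
  rw [Real.dist_eq, G_eval, G_eval, ← Finset.sum_sub_distrib]
  refine (Finset.abs_sum_le_sum_abs _ _).trans ?_
  have e : ((d : ℝ) + 1) * r = ∑ _i : Fin (d + 1), r := by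
    rw [Finset.sum_const, Finset.card_univ, Fintype.card_fin, nsmul_eq_mul]
    push_cast
    ring
  rw [e]
  refine Finset.sum_le_sum fun i _ => ?_
  rw [← sub_mul, abs_mul, abs_of_nonneg (pow_nonneg hu.1 _)]
  have h1 : u ^ (i : ℕ) ≤ 1 := pow_le_one₀ hu.1 hu.2
  calc |a i - b i| * u ^ (i : ℕ) ≤ |a i - b i| * 1 :=
        mul_le_mul_of_nonneg_left h1 (abs_nonneg _)
    _ ≤ r := by
        rw [mul_one]
        exact h i

theorem pow_lip (i : ℕ) {u v : ℝ} (hu : u ∈ Set.Icc (0 : ℝ) 1) (hv : v ∈ Set.Icc (0 : ℝ) 1) :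
    |u ^ i - v ^ i| ≤ i * |u - v| := by
  induction i with
  | zero => simp
  | succ i ih =>
    have e : u ^ (i + 1) - v ^ (i + 1) = u * (u ^ i - v ^ i) + (u - v) * v ^ i := by ring
    rw [e]
    refine (abs_add_le _ _).trans ?_
    rw [abs_mul, abs_mul, abs_of_nonneg hu.1, abs_of_nonneg (pow_nonneg hv.1 i)]
    have h1 : u * |u ^ i - v ^ i| ≤ 1 * (i * |u - v|) :=
      mul_le_mul hu.2 ih (abs_nonneg _) zero_le_one
    have h2 : |u - v| * v ^ i ≤ |u - v| * 1 :=
      mul_le_mul_of_nonneg_left (pow_le_one₀ hv.1 hv.2) (abs_nonneg _)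
    push_cast
    linarith

theorem G_lip (a : Fin (d + 1) → ℝ) {K : ℝ} (hK : 0 ≤ K) (h : ∀ i, |a i| ≤ K) {u v : ℝ}
    (hu : u ∈ Set.Icc (0 : ℝ) 1) (hv : v ∈ Set.Icc (0 : ℝ) 1) :
    |(G a).eval u - (G a).eval v| ≤ (d + 1) * (K * (d * |u - v|)) := by
  rw [G_eval, G_eval, ← Finset.sum_sub_distrib]
  refine (Finset.abs_sum_le_sum_abs _ _).trans ?_
  have e : ((d : ℝ) + 1) * (K * (d * |u - v|)) = ∑ _i : Fin (d + 1), (K * (d * |u - v|)) := by
    rw [Finset.sum_const, Finset.card_univ, Fintype.card_fin, nsmul_eq_mul]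
    push_cast
    ring
  rw [e]
  refine Finset.sum_le_sum fun i _ => ?_
  rw [← mul_sub, abs_mul]
  have hi : ((i : ℕ) : ℝ) ≤ d := by exact_mod_cast Nat.lt_succ_iff.1 i.isLt
  refine mul_le_mul (h i) ((pow_lip i hu hv).trans ?_) (abs_nonneg _) hK
  exact mul_le_mul_of_nonneg_right hi (abs_nonneg _)

/-- the parameters. -/
def A (d : ℕ) (K ρ₃ : ℝ) : Set (Fin (d + 1) → ℝ) :=
  (Set.univ.pi fun _ => Set.Icc (-(K + 1)) (K + 1)) ∩
    ⋃ i : {i : Fin (d + 1) // 1 ≤ i.val}, {a | ρ₃ ≤ |a i|}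

theorem A_compact (K ρ₃ : ℝ) : IsCompact (A d K ρ₃) := by
  refine (isCompact_univ_pi fun _ => isCompact_Icc).inter_right ?_
  refine isClosed_iUnion_of_finite fun i => ?_
  exact isClosed_le continuous_const (continuous_apply _).abs

/-- the set of the `u` where `G a u` is near `T`. -/
def W (a : Fin (d + 1) → ℝ) (T : Set ℝ) (δ : ℝ) : Set ℝ :=
  Set.Icc (0 : ℝ) 1 ∩ {u | (G a).eval u ∈ Metric.cthickening δ T}

theorem W_mono (a : Fin (d + 1) → ℝ) (T : Set ℝ) {δ ε : ℝ} (h : δ ≤ ε) : W a T δ ⊆ W a T ε :=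
  fun _ hu => ⟨hu.1, Metric.cthickening_mono h T hu.2⟩

theorem one_point (a : Fin (d + 1) → ℝ) {T : Set ℝ} (hT : IsClosed T) (h0 : volume T = 0)
    (ha : (G a).derivative ≠ 0) {c : ENNReal} (hc : 0 < c) :
    ∃ δ : ℝ, 0 < δ ∧ volume (W a T δ) < c := by
  set μ : Measure ℝ := (volume.restrict (Set.Icc (0 : ℝ) 1)).map fun u => (G a).eval u with hμ
  have hm : Measurable fun u => (G a).eval u := (G a).continuous.measurable
  have hfin : IsFiniteMeasure μ := by
    rw [hμ]
    infer_instance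
  have hlim := tendsto_measure_cthickening_of_isClosed (μ := μ)
    ⟨1, one_pos, measure_ne_top _ _⟩ hT
  have hμT : μ T = 0 := by
    rw [hμ, Measure.map_apply hm hT.measurableSet]
    refine le_antisymm ((Measure.restrict_apply_le _ _).trans ?_) (by exact bot_le)
    exact (null_pre (G a) ha hT h0).le
  rw [hμT] at hlim
  obtain ⟨ε, hε, h⟩ := Metric.eventually_nhds_iff.1 (hlim.eventually (gt_mem_nhds hc))
  refine ⟨ε / 2, half_pos hε, ?_⟩
  have h1 : μ (Metric.cthickening (ε / 2) T) < c := by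
    refine h ?_
    rw [Real.dist_eq, sub_zero, abs_of_pos (half_pos hε)]
    exact half_lt_self hε
  rw [hμ, Measure.map_apply hm Metric.isClosed_cthickening.measurableSet,
    Measure.restrict_apply (hm Metric.isClosed_cthickening.measurableSet), Set.inter_comm] at h1
  exact h1

theorem uniform {T : Set ℝ} (hT : IsClosed T) (h0 : volume T = 0) {K ρ₃ : ℝ} (hρ : 0 < ρ₃)
    {c : ENNReal} (hc : 0 < c) :
    ∃ δ : ℝ, 0 < δ ∧ ∀ a ∈ A d K ρ₃, volume (W a T δ) < c := by
  refine (A_compact (d := d) K ρ₃).induction_on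
    (p := fun S => ∃ δ : ℝ, 0 < δ ∧ ∀ a ∈ S, volume (W a T δ) < c) ?_ ?_ ?_ ?_
  · exact ⟨1, one_pos, fun a ha => absurd ha (Set.notMem_empty a)⟩
  · rintro s t hst ⟨δ, hδ, h⟩
    exact ⟨δ, hδ, fun a ha => h a (hst ha)⟩
  · rintro s t ⟨δ, hδ, h⟩ ⟨ε, hε, h'⟩
    refine ⟨min δ ε, lt_min hδ hε, ?_⟩
    rintro a (ha | ha)
    · exact (measure_mono (W_mono a T (min_le_left _ _))).trans_lt (h a ha)
    · exact (measure_mono (W_mono a T (min_le_right _ _))).trans_lt (h' a ha)
  · intro a ha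
    obtain ⟨i, hi⟩ := Set.mem_iUnion.1 ha.2
    have hai : a i ≠ 0 := by
      intro h
      have hi' : ρ₃ ≤ |a i| := hi
      rw [h, abs_zero] at hi'
      linarith
    obtain ⟨δ, hδ, h⟩ := one_point a hT h0 (G_deriv a i i.2 hai) hc
    have hd : (0 : ℝ) < d + 1 := by positivity
    refine ⟨Metric.ball a (δ / 2 / (d + 1)), mem_nhdsWithin_of_mem_nhds
      (Metric.ball_mem_nhds a (by positivity)), δ / 2, half_pos hδ, fun b hb => ?_⟩
    refine (measure_mono ?_).trans_lt h
    rintro u ⟨hu1, hu2⟩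
    refine ⟨hu1, ?_⟩
    have hclose : dist ((G a).eval u) ((G b).eval u) ≤ δ / 2 := by
      have h1 : ∀ i, |a i - b i| ≤ δ / 2 / (d + 1) := by
        intro i
        rw [← Real.dist_eq]
        refine (dist_le_pi_dist a b i).trans ?_
        rw [dist_comm]
        exact (Metric.mem_ball.1 hb).le
      refine (G_close a b h1 hu1).trans (le_of_eq ?_)
      field_simp
    have h2 : (G a).eval u ∈ Metric.cthickening (δ / 2) (Metric.cthickening (δ / 2) T) :=
      Metric.mem_cthickening_of_dist_le _ _ _ _ hu2 hclose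
    have h3 := Metric.cthickening_cthickening_subset (half_pos hδ).le (half_pos hδ).le T h2
    rwa [add_halves] at h3

theorem count {M : ℕ} (hM : 0 < M) (S : Finset ℕ) {W : Set ℝ}
    (h : ∀ k ∈ S, Set.Ioc (((k : ℝ) - 1) / M) ((k : ℝ) / M) ⊆ W) :
    ENNReal.ofReal ((#S : ℝ) / M) ≤ volume W := by
  have hM' : (0 : ℝ) < M := by exact_mod_cast hM
  have hd : (S : Set ℕ).PairwiseDisjoint
      fun k : ℕ => Set.Ioc (((k : ℝ) - 1) / M) ((k : ℝ) / M) := by
    intro k _ l _ hkl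
    rw [Function.onFun, Set.disjoint_left]
    rintro u ⟨h1, h2⟩ ⟨h3, h4⟩
    rw [div_lt_iff₀ hM'] at h1 h3
    rw [le_div_iff₀ hM'] at h2 h4
    have h5 : (k : ℝ) < l + 1 := by linarith
    have h6 : (l : ℝ) < k + 1 := by linarith
    have h7 : k < l + 1 := by exact_mod_cast h5
    have h8 : l < k + 1 := by exact_mod_cast h6
    exact hkl (by omega)
  calc ENNReal.ofReal ((#S : ℝ) / M)
      = ∑ k ∈ S, volume (Set.Ioc (((k : ℝ) - 1) / M) ((k : ℝ) / M)) := by
        have e : ∀ k ∈ S, volume (Set.Ioc (((k : ℝ) - 1) / M) ((k : ℝ) / M)) =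
            ENNReal.ofReal (1 / M) := by
          intro k _
          rw [Real.volume_Ioc]
          congr 1
          ring
        rw [Finset.sum_congr rfl e, Finset.sum_const, nsmul_eq_mul, ← ENNReal.ofReal_natCast,
          ← ENNReal.ofReal_mul (Nat.cast_nonneg _)]
        congr 1
        ring
    _ = volume (⋃ k ∈ S, Set.Ioc (((k : ℝ) - 1) / M) ((k : ℝ) / M)) :=
        (measure_biUnion_finset hd fun _ _ => measurableSet_Ioc).symm
    _ ≤ volume W := measure_mono (Set.iUnion₂_subset h)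

end RowE

open RowE in
open Classical in
/-- Row E. -/
theorem rowE : E_stmt := by
  intro T hT h0 hper d K c ρ₃ hK hc hρ₃
  obtain ⟨δ, hδ, hunif⟩ := uniform (d := d) hT h0 (K := K) hρ₃ (ENNReal.ofReal_pos.2 hc)
  have hL : 0 ≤ ((d : ℝ) + 1) * ((K + 1) * d) := by positivity
  obtain ⟨M₀, hM₀⟩ := exists_nat_ge (((d : ℝ) + 1) * ((K + 1) * d) / (δ / 2) + 1)
  refine ⟨δ / 2, half_pos hδ, M₀, fun M hM g hg hgK hcount => ?_⟩
  have hMr : ((d : ℝ) + 1) * ((K + 1) * d) / (δ / 2) + 1 ≤ M :=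
    hM₀.trans (by exact_mod_cast hM)
  have hM1 : (1 : ℝ) ≤ M := by
    have : 0 ≤ ((d : ℝ) + 1) * ((K + 1) * d) / (δ / 2) := by positivity
    linarith
  have hMpos : (0 : ℝ) < M := by linarith
  have hMnat : 0 < M := by exact_mod_cast hMpos
  have hLM : ((d : ℝ) + 1) * ((K + 1) * d) / M ≤ δ / 2 := by
    rw [div_le_iff₀ hMpos]
    have h1 : ((d : ℝ) + 1) * ((K + 1) * d) / (δ / 2) ≤ M := by linarith
    rw [div_le_iff₀ (half_pos hδ)] at h1
    linarith
  by_contra hcon
  push Not at hcon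
  obtain ⟨j, hj1, hj⟩ := hcon
  have hjd : j ≤ d := by
    by_contra h
    have h1 : g.coeff j = 0 := coeff_eq_zero_of_natDegree_lt (by omega)
    rw [h1, abs_zero, zero_mul] at hj
    linarith
  set a : Fin (d + 1) → ℝ := fun i => if i.val = 0 then Int.fract (g.coeff 0)
    else g.coeff i * (M : ℝ) ^ (i : ℕ) with ha
  have haK : ∀ i, |a i| ≤ K + 1 := by
    intro i
    by_cases hi : i.val = 0
    · have e : a i = Int.fract (g.coeff 0) := if_pos hi
      rw [e, abs_of_nonneg (Int.fract_nonneg _)]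
      have := (Int.fract_lt_one (g.coeff 0)).le
      linarith
    · have e : a i = g.coeff i * (M : ℝ) ^ (i : ℕ) := if_neg hi
      rw [e, abs_mul, abs_of_pos (pow_pos hMpos _)]
      have := hgK i (Nat.one_le_iff_ne_zero.2 hi)
      linarith
  have haA : a ∈ A d K ρ₃ := by
    refine ⟨fun i _ => abs_le.1 (haK i), Set.mem_iUnion.2 ⟨⟨⟨j, by omega⟩, hj1⟩, ?_⟩⟩
    show ρ₃ ≤ |a ⟨j, by omega⟩|
    have e : a ⟨j, by omega⟩ = g.coeff j * (M : ℝ) ^ j := if_neg (by
      show ¬ j = 0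
      omega)
    rw [e, abs_mul, abs_of_pos (pow_pos hMpos _)]
    exact hj.le
  have hGg : ∀ k : ℕ, g.eval (k : ℝ) = (G a).eval ((k : ℝ) / M) + (⌊g.coeff 0⌋ : ℝ) := by
    intro k
    rw [eval_eq_sum_range' (Nat.lt_succ_of_le hg), G_eval, Finset.sum_range, Fin.sum_univ_succ,
      Fin.sum_univ_succ]
    have e0 : a 0 = Int.fract (g.coeff 0) := if_pos rfl
    have e1 : g.coeff 0 = Int.fract (g.coeff 0) + ⌊g.coeff 0⌋ := (Int.fract_add_floor _).symm
    have e2 : ∑ i : Fin d, a i.succ * ((k : ℝ) / M) ^ ((i.succ : Fin (d + 1)) : ℕ) =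
        ∑ i : Fin d, g.coeff ((i.succ : Fin (d + 1)) : ℕ) *
          (k : ℝ) ^ ((i.succ : Fin (d + 1)) : ℕ) := by
      refine Finset.sum_congr rfl fun i _ => ?_
      have e : a i.succ = g.coeff ((i.succ : Fin (d + 1)) : ℕ) *
          (M : ℝ) ^ ((i.succ : Fin (d + 1)) : ℕ) := if_neg (by simp)
      rw [e, div_pow]
      have : (M : ℝ) ^ ((i.succ : Fin (d + 1)) : ℕ) ≠ 0 := (pow_pos hMpos _).ne'
      field_simp
    rw [e2, e0]
    simp only [Fin.val_zero, pow_zero, mul_one]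
    linarith
  have hsub : ∀ k ∈ {k ∈ Icc 1 M | ∃ x ∈ T, |g.eval ((k : ℕ) : ℝ) - x| ≤ δ / 2},
      Set.Ioc (((k : ℝ) - 1) / M) ((k : ℝ) / M) ⊆ W a T δ := by
    intro k hk u hu
    obtain ⟨hkM, x, hx, hxk⟩ := Finset.mem_filter.1 hk
    obtain ⟨hk1, hk2⟩ := Finset.mem_Icc.1 hkM
    have hk1' : (1 : ℝ) ≤ k := by exact_mod_cast hk1
    have hk2' : (k : ℝ) ≤ M := by exact_mod_cast hk2
    have hku : (k : ℝ) / M ∈ Set.Icc (0 : ℝ) 1 :=
      ⟨by positivity, (div_le_one hMpos).2 hk2'⟩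
    have hu0 : u ∈ Set.Icc (0 : ℝ) 1 := by
      refine ⟨?_, hu.2.trans hku.2⟩
      have : 0 ≤ ((k : ℝ) - 1) / M := div_nonneg (by linarith) hMpos.le
      exact this.trans hu.1.le
    refine ⟨hu0, ?_⟩
    have hTx : x + ((-⌊g.coeff 0⌋ : ℤ) : ℝ) ∈ T := hper x hx _
    refine Metric.mem_cthickening_of_dist_le _ _ _ _ hTx ?_
    rw [Real.dist_eq]
    have h1 : |(G a).eval u - (G a).eval ((k : ℝ) / M)| ≤ δ / 2 := by
      refine (G_lip a (by linarith) haK hu0 hku).trans ?_
      have h2 : |u - (k : ℝ) / M| ≤ 1 / M := by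
        rw [abs_le]
        have h3 := hu.1
        have h4 := hu.2
        rw [sub_div] at h3
        constructor <;> linarith
      calc ((d : ℝ) + 1) * ((K + 1) * (d * |u - (k : ℝ) / M|))
          ≤ ((d : ℝ) + 1) * ((K + 1) * (d * (1 / M))) := by gcongr
        _ = ((d : ℝ) + 1) * ((K + 1) * d) / M := by ring
        _ ≤ δ / 2 := hLM
    rw [hGg k] at hxk
    push_cast
    have e : (G a).eval u - (x + -(⌊g.coeff 0⌋ : ℝ)) =
        ((G a).eval u - (G a).eval ((k : ℝ) / M)) +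
          ((G a).eval ((k : ℝ) / M) + (⌊g.coeff 0⌋ : ℝ) - x) := by ring
    rw [e]
    refine (abs_add_le _ _).trans ?_
    linarith
  have hle := count hMnat _ hsub
  have hcM : c ≤ (#{k ∈ Icc 1 M | ∃ x ∈ T, |g.eval ((k : ℕ) : ℝ) - x| ≤ δ / 2} : ℝ) / M := by
    rw [le_div_iff₀ hMpos]
    exact hcount
  exact absurd ((ENNReal.ofReal_le_ofReal hcM).trans hle) (not_le.2 (hunif a haA))

end Pool.Agent.TU
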