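import Pool.Agent.Lib.TU.S1
import Pool.Agent.Lib.TU.S2

set_option autoImplicit false

namespace Pool.Agent.TU

theorem rowS : S_stmt := by
  intro s hs T hc h0 hp hi ε hε
  rcases Nat.lt_or_ge s 2 with h | h
  · obtain rfl : s = 1 := by omega
    exact rowS1 T hc h0 hp ε hε
  · exact S2x.s2 s h T hc h0 hp (hi h) ε hε

end Pool.Agent.TU
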