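import Mathlib
import Pool.Agent.Lib.TU.Defs2
import Pool.Agent.Lib.TU.Asm
import Pool.Agent.Lib.TU.RowA
import Pool.Agent.Lib.TU.B1
import Pool.Agent.Lib.TU.RowB2
import Pool.Agent.Lib.TU.RowB3
import Pool.Agent.Lib.TU.C1
import Pool.Agent.Lib.TU.RowC2
import Pool.Agent.Lib.TU.C3
import Pool.Agent.Lib.TU.RowD
import Pool.Agent.Lib.TU.RowE
import Pool.Agent.Lib.TU.F
import Pool.Agent.Lib.TU.G
import Pool.Agent.Lib.TU.H
import Pool.Agent.Lib.TU.S
import Pool.Agent.Lib.TU.Z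

/-!
# Theorem U (MP_663568_nt): assembly
-/

set_option autoImplicit false

namespace Pool.Agent.TU

/-- **Theorem U.** -/
theorem theoremU : U_stmt :=
  rowZ (rowB2 rowA rowB1) rowB3 (rowG (C_of rowC1 rowC2 rowC3) (rowD rowA) rowE rowF rowS)
    (rowH rowA)

end Pool.Agent.TU
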