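import Pool.Agent.Lib.TU.Defs
import Pool.Agent.Lib.WC86.FinS
import Pool.Agent.Lib.WC86.Short
import Pool.Agent.Lib.WC86.Major
import Pool.Agent.Lib.MP_663568_dch.Law

/-!
# Row S for `s = 1`: frequencies near a closed null set

helper71.
-/

set_option autoImplicit false
open Finset Polynomial MeasureTheory Filter Topology

namespace Pool.Agent.TU

open Pool.Agent.Lib.MP_663568_nt Pool.Agent.Lib.MP_663568_nt.Katai
  Pool.Agent.Lib.MP_663568_nt.Nul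

namespace S1

lemma null_nbhd (T : Set ℝ) (hT : IsClosed T) (h0 : volume T = 0) (v : ℝ) (hv : 0 < v) :
    ∃ δ : ℝ, 0 < δ ∧
      volume {y : ℝ | y ∈ Set.Icc (0 : ℝ) 1 ∧ ∃ x ∈ T, |x - y| ≤ δ} ≤ ENNReal.ofReal v := by
  have h1 : Tendsto (fun r => (volume.restrict (Set.Icc (0 : ℝ) 1)) (Metric.cthickening r T))
      (𝓝 0) (𝓝 ((volume.restrict (Set.Icc (0 : ℝ) 1)) T)) :=
    tendsto_measure_cthickening_of_isClosed ⟨1, one_pos, measure_ne_top _ _⟩ hT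
  have h2 : (volume.restrict (Set.Icc (0 : ℝ) 1)) T = 0 := by
    refine le_antisymm ?_ bot_le
    exact (Measure.restrict_apply_le _ _).trans h0.le
  rw [h2] at h1
  have h3 := (ENNReal.tendsto_nhds_zero.1 h1) (ENNReal.ofReal v) (ENNReal.ofReal_pos.2 hv)
  obtain ⟨δ, hδ, h4⟩ := Metric.eventually_nhds_iff.1 h3
  refine ⟨δ / 2, by positivity, ?_⟩
  have h5 : dist (δ / 2) 0 < δ := by
    rw [Real.dist_eq, sub_zero, abs_of_pos (by positivity)]
    linarith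
  have h6 := h4 h5
  rw [Measure.restrict_apply Metric.isClosed_cthickening.measurableSet] at h6
  refine (measure_mono ?_).trans h6
  rintro y ⟨hy, x, hx, hxy⟩
  refine ⟨Metric.mem_cthickening_of_dist_le y x _ _ hx ?_, hy⟩
  rw [Real.dist_eq, abs_sub_comm]
  exact hxy

/-- The set of frequencies near `T`. -/
def near (T : Set ℝ) (ρ : ℝ) : Set ℝ := {y | ∃ x ∈ T, |y - x| ≤ ρ}

lemma outer_near (T : Set ℝ) (hT : IsClosed T) (h0 : volume T = 0)
    (hP : ∀ x ∈ T, ∀ z : ℤ, x + (z : ℝ) ∈ T) (v : ℝ) (hv : 0 < v) :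
    ∃ R : ℝ, 1 ≤ R ∧ WC86.outer (WC86.Sy (near T (1 / R))) R ≤ v := by
  have hneg : IsClosed {x : ℝ | -x ∈ T} := hT.preimage continuous_neg
  have hneg0 : volume {x : ℝ | -x ∈ T} = 0 := by
    have : {x : ℝ | -x ∈ T} = Neg.neg ⁻¹' T := rfl
    rw [this, Measure.measure_preimage_neg]
    exact h0
  have hu : IsClosed (T ∪ {x : ℝ | -x ∈ T}) := hT.union hneg
  have hu0 : volume (T ∪ {x : ℝ | -x ∈ T}) = 0 := by
    rw [measure_union_null_iff]
    exact ⟨h0, hneg0⟩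
  obtain ⟨δ, hδ, hvol⟩ := null_nbhd _ hu hu0 v hv
  obtain ⟨R, hR⟩ : ∃ R : ℝ, R = max 1 (2 / δ) := ⟨_, rfl⟩
  have hR1 : 1 ≤ R := by rw [hR]; exact le_max_left _ _
  have hR2 : 2 / δ ≤ R := by rw [hR]; exact le_max_right _ _
  have hR0 : 0 < R := by linarith
  have hR3 : 2 / R ≤ δ := by
    rw [div_le_iff₀ hR0]
    rw [div_le_iff₀ hδ] at hR2
    linarith
  have hR4 : 1 / R + 1 / R = 2 / R := by ring
  refine ⟨R, hR1, ?_⟩
  unfold WC86.outer
  refine ENNReal.toReal_le_of_le_ofReal hv.le ((measure_mono ?_).trans hvol)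
  rintro y ⟨hy, α, hα, b, hb⟩
  refine ⟨hy, ?_⟩
  rcases hα with ⟨x, hx, hx'⟩ | ⟨x, hx, hx'⟩
  · refine ⟨x + ((-b : ℤ) : ℝ), Or.inl (hP x hx (-b)), ?_⟩
    push_cast
    have e : x + -(b : ℝ) - y = (α - y - b) - (α - x) := by ring
    rw [e]
    calc |(α - y - b) - (α - x)| ≤ |α - y - b| + |α - x| := abs_sub _ _
      _ ≤ 1 / R + 1 / R := add_le_add hb hx'
      _ ≤ δ := by rw [hR4]; exact hR3
  · refine ⟨-x - b, Or.inr ?_, ?_⟩
    · change -(-x - (b : ℝ)) ∈ T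
      have e : -(-x - (b : ℝ)) = x + (b : ℝ) := by ring
      rw [e]
      exact hP x hx b
    · have e : -x - (b : ℝ) - y = (α - y - b) + (-α - x) := by ring
      rw [e]
      calc |(α - y - b) + (-α - x)| ≤ |α - y - b| + |-α - x| := abs_add_le _ _
        _ ≤ 1 / R + 1 / R := add_le_add hb hx'
        _ ≤ δ := by rw [hR4]; exact hR3

lemma muC_norm (n : ℕ) : ‖muC n‖ ≤ 1 := by
  unfold muC
  rw [Complex.norm_intCast]
  exact_mod_cast ArithmeticFunction.abs_moebius_le_one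

lemma norm_eq (P : ℝ[X]) (hP : P.natDegree ≤ 1) (n l : ℕ) :
    ‖∑ h ∈ Icc 1 l, muC (n + h) * ee (P.eval (h : ℝ))‖ =
      ‖∑ h ∈ Icc 1 l, Complex.exp (2 * Real.pi * Complex.I * (((h + n : ℕ) : ℝ) * P.coeff 1 : ℝ)) *
        ((ArithmeticFunction.moebius (n + h) : ℤ) : ℂ)‖ := by
  have h1 : ∀ h : ℕ, muC (n + h) * ee (P.eval (h : ℝ)) = ee (P.coeff 0 - n * P.coeff 1) *
      (Complex.exp (2 * Real.pi * Complex.I * (((h + n : ℕ) : ℝ) * P.coeff 1 : ℝ)) *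
        ((ArithmeticFunction.moebius (n + h) : ℤ) : ℂ)) := fun h => by
    have h2 : P.eval (h : ℝ) = (P.coeff 0 - n * P.coeff 1) + ((h + n : ℕ) : ℝ) * P.coeff 1 := by
      rw [eval_eq_sum_range' (n := 2) (by omega), sum_range_succ, sum_range_one]
      push_cast
      ring
    rw [h2, ee_add]
    have h3 : ee (((h + n : ℕ) : ℝ) * P.coeff 1) =
      Complex.exp (2 * Real.pi * Complex.I * (((h + n : ℕ) : ℝ) * P.coeff 1 : ℝ)) := rfl
    rw [h3, muC]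
    ring
  rw [sum_congr rfl fun h _ => h1 h, ← mul_sum, norm_mul, norm_ee, one_mul]

lemma bdd (A : Set ℝ) (n l : ℕ) : BddAbove (Set.range fun y : {y : ℝ // y ∈ A} =>
    ‖∑ h ∈ Icc 1 l, Complex.exp (2 * Real.pi * Complex.I * (((h + n : ℕ) : ℝ) * (y : ℝ) : ℝ)) *
        ((ArithmeticFunction.moebius (n + h) : ℤ) : ℂ)‖) := by
  refine ⟨l, ?_⟩
  rintro _ ⟨y, rfl⟩
  refine (norm_sum_le _ _).trans ?_
  calc ∑ h ∈ Icc 1 l, ‖Complex.exp (2 * Real.pi * Complex.I * (((h + n : ℕ) : ℝ) * (y : ℝ) : ℝ)) *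
        ((ArithmeticFunction.moebius (n + h) : ℤ) : ℂ)‖ ≤ ∑ h ∈ Icc 1 l, (1 : ℝ) := by
        refine sum_le_sum fun h _ => ?_
        rw [norm_mul]
        have h1 := norm_ee (((h + n : ℕ) : ℝ) * (y : ℝ))
        rw [ee] at h1
        rw [h1, one_mul]
        exact muC_norm _
    _ = l := by simp

end S1

open S1

theorem rowS1 : ∀ T : Set ℝ, IsClosed T → volume T = 0 → (∀ x ∈ T, ∀ z : ℤ, x + (z : ℝ) ∈ T) →
    ∀ ε : ℝ, 0 < ε → ∃ ρ : ℝ, 0 < ρ ∧ ∃ l₀ : ℕ, ∀ l N : ℕ, l₀ ≤ l → l ≤ N →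
    ∑ n ∈ Icc 1 N, (1 / (n : ℝ)) * ⨆ P : {P : ℝ[X] // P.natDegree ≤ 1 ∧
        ∃ x ∈ T, |P.coeff 1 - x| ≤ ρ},
      ‖∑ h ∈ Icc 1 l, muC (n + h) * ee ((P : ℝ[X]).eval (h : ℝ))‖ ≤ ε * l * Real.log N := by
  intro T hT h0 hP ε hε
  obtain ⟨R, hR1, hout⟩ := outer_near T hT h0 hP (ε ^ 2 / 12) (by positivity)
  have hR0 : 0 < R := by linarith
  obtain ⟨H₀, hH₀⟩ := WC86.finalS Pool.Agent.Lib.MP_663568_dch.minorLaw
    (WC86.major WC86.muAP_top) (ε / 2) R (by positivity) hR1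
  refine ⟨1 / R, by positivity, max H₀ 1, fun l N hl hlN => ?_⟩
  have hl0 : H₀ ≤ l := (le_max_left _ _).trans hl
  have hl1 : 1 ≤ l := (le_max_right _ _).trans hl
  have hN1 : (1 : ℝ) ≤ N := by exact_mod_cast hl1.trans hlN
  have hlog : 0 ≤ Real.log N := Real.log_nonneg hN1
  have key := (hH₀ l N hl0 hlN (near T (1 / R))).1
  have h1 : √(3 * WC86.outer (WC86.Sy (near T (1 / R))) R) / Real.pi ≤ ε / 2 := by
    have h2 : √(3 * WC86.outer (WC86.Sy (near T (1 / R))) R) ≤ ε / 2 := by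
      rw [Real.sqrt_le_left (by positivity)]
      nlinarith
    have h3 : 1 ≤ Real.pi := by linarith [Real.pi_gt_three]
    exact (div_le_self (Real.sqrt_nonneg _) h3).trans h2
  have h4 : WC86.Avg (near T (1 / R)) N l ≤ ε * l * Real.log N := by
    refine key.trans ?_
    gcongr
    linarith
  refine le_trans ?_ h4
  unfold WC86.Avg
  refine sum_le_sum fun n _ => mul_le_mul_of_nonneg_left ?_ (by positivity)
  refine Real.iSup_le (fun P => ?_) (Real.iSup_nonneg fun y => norm_nonneg _)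
  rw [norm_eq P.1 P.2.1]
  exact le_ciSup (bdd (near T (1 / R)) n l) ⟨(P : ℝ[X]).coeff 1, P.2.2⟩

end Pool.Agent.TU
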