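import Mathlib
import Pool.Agent.Lib.TU.Defs2

/-!
# Theorem U (MP_663568_nt): the definitions of the hand-in
-/

set_option autoImplicit false

namespace Pool.Agent.TU

open Pool.Agent.Lib.MP_663568_nt

/-- The explicit average. -/
theorem SB_explicit {t : ℕ} (B : Set (Fin t → ℝ)) (N H : ℕ) :
    ∑ n ∈ Finset.Icc 1 N, (1 / (n : ℝ)) * ⨆ α : {α : Fin t → ℝ // α ∈ B},
      ‖∑ h ∈ Finset.Icc 1 H, ((ArithmeticFunction.moebius (n + h) : ℤ) : ℂ) *
        Complex.exp (2 * Real.pi * Complex.I *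
          ((∑ i : Fin t, (α : Fin t → ℝ) i * (h : ℝ) ^ (i.val + 1) : ℝ) : ℂ))‖ = SB B N H := rfl

end Pool.Agent.TU
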