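import Mathlib

/-!
# The drift lemma (MP_663568_nt, Theorem U, lemma E; helper18)

A real polynomial with bounded coefficients which spends a positive proportion of the time near a
closed null set is nearly constant.
-/

set_option autoImplicit false

open MeasureTheory Set Filter Topology

namespace Pool.Agent.TU

/-- Preimages of null sets under functions with a continuous derivative which vanishes on a null
set only. -/
theorem null_preimage (f f' : ℝ → ℝ) (hf : ∀ x, HasDerivAt f (f' x) x) (hf' : Continuous f')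
    (hz : volume {x | f' x = 0} = 0) (T : Set ℝ) (hT : MeasurableSet T) (h0 : volume T = 0) :
    volume (f ⁻¹' T) = 0 := by
  have hfc : Continuous f := continuous_iff_continuousAt.2 fun x => (hf x).continuousAt
  have key : volume {x | f x ∈ T ∧ f' x ≠ 0} = 0 := by
    refine measure_null_of_locally_null _ ?_
    rintro x ⟨-, hx⟩
    obtain ⟨δ, hδ, hδ'⟩ := Metric.isOpen_iff.1 (isOpen_ne_fun hf' continuous_const) x hx
    set s := Ioo (x - δ) (x + δ) with hs
    have hne : ∀ y ∈ s, f' y ≠ 0 := by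
      intro y hy
      refine hδ' ?_
      rw [Metric.mem_ball, Real.dist_eq, abs_lt]
      constructor <;> linarith [hy.1, hy.2]
    have hinj : InjOn f s := by
      have aux : ∀ a ∈ s, ∀ b ∈ s, a < b → f a ≠ f b := by
        intro a ha b hb hab he
        obtain ⟨c, hc, hc'⟩ := exists_hasDerivAt_eq_zero hab hfc.continuousOn he
          (fun z _ => hf z)
        exact hne c ⟨by linarith [ha.1, hc.1], by linarith [hb.2, hc.2]⟩ hc'
      intro a ha b hb he
      rcases lt_trichotomy a b with h | h | h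
      · exact absurd he (aux a ha b hb h)
      · exact h
      · exact absurd he.symm (aux b hb a ha h)
    refine ⟨s ∩ f ⁻¹' T, ?_, ?_⟩
    · have h1 : s ∈ 𝓝 x := Ioo_mem_nhds (by linarith) (by linarith)
      have h2 : s ∈ 𝓝[{x | f x ∈ T ∧ f' x ≠ 0}] x := mem_nhdsWithin_of_mem_nhds h1
      filter_upwards [h2, self_mem_nhdsWithin] with y hy hy'
      exact ⟨hy, hy'.1⟩
    · have h1 := lintegral_image_eq_lintegral_abs_deriv_mul (measurableSet_Ioo (a := x - δ)
        (b := x + δ)) (fun y _ => (hf y).hasDerivWithinAt) hinj (T.indicator (fun _ => 1))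
      have h2 : ∫⁻ y in f '' s, T.indicator (fun _ => (1 : ENNReal)) y = 0 := by
        refine le_antisymm ?_ bot_le
        calc ∫⁻ y in f '' s, T.indicator (fun _ => (1 : ENNReal)) y
            ≤ ∫⁻ y, T.indicator (fun _ => (1 : ENNReal)) y := setLIntegral_le_lintegral _ _
          _ = 0 := by rw [lintegral_indicator_const hT, h0, mul_zero]
      rw [h2] at h1
      have hm : Measurable fun y => ENNReal.ofReal |f' y| *
          T.indicator (fun _ => (1 : ENNReal)) (f y) := by
        refine (hf'.measurable.abs.ennreal_ofReal).mul ?_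
        exact (measurable_const.indicator hT).comp hfc.measurable
      have h3 := (lintegral_eq_zero_iff hm).1 h1.symm
      have h4 : ∀ᵐ y ∂(volume.restrict s), ¬ (f y ∈ T) := by
        have h5 : ∀ᵐ y ∂(volume.restrict s), y ∈ s := ae_restrict_mem measurableSet_Ioo
        filter_upwards [h3, h5] with y hy hys hyT
        simp only [indicator_of_mem hyT, mul_one, Pi.zero_apply, ENNReal.ofReal_eq_zero] at hy
        exact hne y hys (abs_eq_zero.1 (le_antisymm hy (abs_nonneg _)))
      rw [ae_iff] at h4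
      have h6 : {a | ¬¬ (f a ∈ T)} = f ⁻¹' T := by
        ext a; simp
      rw [h6, Measure.restrict_apply (hfc.measurable hT), inter_comm] at h4
      exact h4
  refine measure_mono_null (t := {x | f' x = 0} ∪ {x | f x ∈ T ∧ f' x ≠ 0}) ?_
    (measure_union_null hz key)
  intro x hx
  by_cases h : f' x = 0
  · exact Or.inl h
  · exact Or.inr ⟨hx, h⟩

/-- The polynomial `y + ∑ d_i u^i`. -/
noncomputable def gp (t : ℕ) (y : ℝ) (d : ℕ → ℝ) (u : ℝ) : ℝ :=
  y + ∑ i ∈ Finset.Icc 1 t, d i * u ^ i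

theorem gp_null (t : ℕ) (y : ℝ) (d : ℕ → ℝ) (i : ℕ) (hi : i ∈ Finset.Icc 1 t) (hd : d i ≠ 0)
    (T : Set ℝ) (hT : MeasurableSet T) (h0 : volume T = 0) : volume (gp t y d ⁻¹' T) = 0 := by
  classical
  set P : Polynomial ℝ := Polynomial.C y + ∑ i ∈ Finset.Icc 1 t,
    Polynomial.C (d i) * Polynomial.X ^ i with hP
  have hPe : ∀ u, gp t y d u = P.eval u := by
    intro u
    rw [hP, Polynomial.eval_add, Polynomial.eval_C, Polynomial.eval_finsetSum]
    unfold gp
    congr 1
    refine Finset.sum_congr rfl fun j _ => by simp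
  have hc : P.coeff i = d i := by
    have h1 : 1 ≤ i := (Finset.mem_Icc.1 hi).1
    rw [hP, Polynomial.coeff_add, Polynomial.coeff_C, if_neg (by omega), zero_add,
      Polynomial.finsetSum_coeff, Finset.sum_eq_single i]
    · simp
    · intro j _ hj
      rw [Polynomial.coeff_C_mul, Polynomial.coeff_X_pow, if_neg (Ne.symm hj), mul_zero]
    · exact fun h => absurd hi h
  have hder : P.derivative ≠ 0 := by
    intro h
    have h1 : 1 ≤ i := (Finset.mem_Icc.1 hi).1
    have h2 := Polynomial.coeff_derivative P (i - 1)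
    rw [h, Polynomial.coeff_zero, Nat.sub_add_cancel h1, hc] at h2
    have h3 : (((i - 1 : ℕ) : ℝ) + 1) ≠ 0 := by positivity
    exact (mul_ne_zero hd h3) h2.symm
  refine null_preimage (gp t y d) (fun u => P.derivative.eval u) ?_
    (Polynomial.continuous _) ?_ T hT h0
  · intro u
    have h1 : gp t y d = fun u => P.eval u := funext hPe
    rw [h1]
    exact P.hasDerivAt u
  · exact (Polynomial.finite_setOfPred_isRoot hder).measure_zero _

theorem continuous_gp (t : ℕ) (y : ℝ) (d : ℕ → ℝ) : Continuous (gp t y d) := by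
  unfold gp; fun_prop

theorem drift (t : ℕ) (T : Set ℝ) (hc : IsClosed T) (hp : ∀ x ∈ T, x + 1 ∈ T ∧ x - 1 ∈ T)
    (h0 : volume T = 0) (η Bd c r₃ : ℝ) (hc0 : 0 < c) (hr : 0 < r₃) :
    ∃ ρ > 0, ∀ (y : ℝ) (d : ℕ → ℝ), (∀ i, |d i| ≤ Bd) →
      ENNReal.ofReal c ≤ volume {u : ℝ | u ∈ Icc 0 η ∧ gp t y d u ∈ Metric.cthickening ρ T} →
      ∀ i ∈ Finset.Icc 1 t, |d i| ≤ r₃ := by
  by_contra hcon
  push Not at hcon
  -- a sequence of counterexamples
  have hseq : ∀ N : ℕ, ∃ (y : ℝ) (d : ℕ → ℝ), (∀ i, |d i| ≤ Bd) ∧ y ∈ Icc (0 : ℝ) 1 ∧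
      ENNReal.ofReal c ≤ volume {u : ℝ | u ∈ Icc 0 η ∧
        gp t y d u ∈ Metric.cthickening (1 / ((N : ℝ) + 1)) T} ∧
      ∃ i ∈ Finset.Icc 1 t, r₃ < |d i| := by
    intro N
    obtain ⟨y, d, h1, h2, h3⟩ := hcon (1 / ((N : ℝ) + 1)) (by positivity)
    refine ⟨Int.fract y, d, h1, ⟨Int.fract_nonneg y, (Int.fract_lt_one y).le⟩, ?_, h3⟩
    have hT : ∀ (m : ℤ) (x : ℝ), x ∈ T → x + m ∈ T := by
      intro m
      induction m using Int.induction_on with
      | zero => intro x hx; simpa using hx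
      | succ k ih =>
        intro x hx
        have := (hp _ (ih x hx)).1
        push_cast
        rwa [← add_assoc]
      | pred k ih =>
        intro x hx
        have := (hp _ (ih x hx)).2
        push_cast at this ⊢
        rwa [add_sub_assoc] at this
    have hE : ∀ (m : ℤ) (x : ℝ), Metric.infEDist (x + m) T = Metric.infEDist x T := by
      intro m x
      have aux : ∀ (m : ℤ) (x : ℝ), Metric.infEDist (x + m) T ≤ Metric.infEDist x T := by
        intro m x
        refine Metric.le_infEDist.2 fun z hz => ?_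
        refine (Metric.infEDist_le_edist_of_mem (hT m z hz)).trans (le_of_eq ?_)
        rw [edist_add_right]
      refine le_antisymm (aux m x) ?_
      have := aux (-m) (x + m)
      simpa using this
    refine h2.trans (measure_mono ?_)
    rintro u ⟨hu, hu'⟩
    refine ⟨hu, ?_⟩
    rw [Metric.mem_cthickening_iff] at hu' ⊢
    have h4 : gp t y d u = gp t (Int.fract y) d u + (⌊y⌋ : ℤ) := by
      unfold gp
      have := Int.fract_add_floor y
      linarith
    rwa [h4, hE] at hu'
  choose y d hB hy hv hi using hseq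
  -- a convergent subsequence
  set K : Set (ℝ × (Fin (t + 1) → ℝ)) := Icc (0 : ℝ) 1 ×ˢ Set.pi univ (fun _ => Icc (-Bd) Bd)
    with hK
  have hKc : IsCompact K := isCompact_Icc.prod (isCompact_univ_pi fun _ => isCompact_Icc)
  set q : ℕ → ℝ × (Fin (t + 1) → ℝ) := fun N => (y N, fun i => d N i) with hq
  have hqK : ∀ N, q N ∈ K := by
    intro N
    refine ⟨hy N, ?_⟩
    intro i _
    have := abs_le.1 (hB N i)
    exact ⟨this.1, this.2⟩
  -- the index
  obtain ⟨i₀, hi₀, hfreq⟩ : ∃ i₀ ∈ Finset.Icc 1 t, ∃ᶠ N in atTop, r₃ < |d N i₀| := by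
    by_contra h
    push Not at h
    have h1 : ∀ᶠ N in atTop, ∀ i ∈ Finset.Icc 1 t, ¬ r₃ < |d N i| := by
      rw [Filter.eventually_all_finset]
      intro i hi
      exact (h i hi).mono fun N hN => not_lt.2 hN
    obtain ⟨N, hN⟩ := h1.exists
    obtain ⟨i, hi1, hi2⟩ := hi N
    exact hN i hi1 hi2
  obtain ⟨φ, hφ, hφ'⟩ := Filter.extraction_of_frequently_atTop hfreq
  obtain ⟨a, -, ψ, hψ, hlim⟩ := hKc.tendsto_subseq (x := q ∘ φ) (fun N => hqK (φ N))
  set θ := φ ∘ ψ with hθ
  have hθm : StrictMono θ := hφ.comp hψ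
  -- the limit
  set yl := a.1 with hyl
  set dl : ℕ → ℝ := fun i => if h : i < t + 1 then a.2 ⟨i, h⟩ else 0 with hdl
  have hylim : Tendsto (fun N => y (θ N)) atTop (𝓝 yl) :=
    (continuous_fst.tendsto a).comp hlim
  have hdlim : ∀ i ∈ Finset.Icc 1 t, Tendsto (fun N => d (θ N) i) atTop (𝓝 (dl i)) := by
    intro i hi
    have h1 : i < t + 1 := by
      have := (Finset.mem_Icc.1 hi).2
      omega
    have h2 : Tendsto (fun N => (q (θ N)).2 ⟨i, h1⟩) atTop (𝓝 (a.2 ⟨i, h1⟩)) :=
      (((continuous_apply (⟨i, h1⟩ : Fin (t + 1))).comp continuous_snd).tendsto a).comp hlim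
    simp only [hdl, dif_pos h1]
    exact h2
  have hd0 : dl i₀ ≠ 0 := by
    have h1 : r₃ ≤ |dl i₀| :=
      le_of_tendsto_of_tendsto tendsto_const_nhds (hdlim i₀ hi₀).abs
        (Eventually.of_forall fun N => (hφ' (ψ N)).le)
    intro h
    rw [h, abs_zero] at h1
    linarith
  have hglim : ∀ u, Tendsto (fun N => gp t (y (θ N)) (d (θ N)) u) atTop (𝓝 (gp t yl dl u)) := by
    intro u
    unfold gp
    refine hylim.add (tendsto_finsetSum _ fun i hi => ?_)
    exact (hdlim i hi).mul tendsto_const_nhds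
  -- the sets
  set A : ℕ → Set ℝ := fun N => {u : ℝ | u ∈ Icc 0 η ∧
    gp t (y (θ N)) (d (θ N)) u ∈ Metric.cthickening (1 / ((θ N : ℝ) + 1)) T} with hA
  have hAm : ∀ N, MeasurableSet (A N) := by
    intro N
    refine IsClosed.measurableSet ?_
    exact isClosed_Icc.inter (Metric.isClosed_cthickening.preimage (continuous_gp _ _ _))
  set Bs : ℕ → Set ℝ := fun M => ⋃ N ∈ Ici M, A N with hBs
  have hBm : ∀ M, MeasurableSet (Bs M) := fun M =>
    MeasurableSet.biUnion (to_countable _) fun N _ => hAm N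
  have hBanti : Antitone Bs := by
    intro M M' h
    refine biUnion_subset_biUnion_left ?_
    exact Ici_subset_Ici.2 h
  have hBle : ∀ M, ENNReal.ofReal c ≤ volume (Bs M) := by
    intro M
    refine (hv (θ M)).trans (measure_mono ?_)
    exact subset_biUnion_of_mem (u := A) (x := M) self_mem_Ici
  have hBfin : ∀ M, volume (Bs M) ≠ ⊤ := by
    intro M
    refine ne_top_of_le_ne_top (b := volume (Icc (0 : ℝ) η)) (by simp) (measure_mono ?_)
    refine iUnion₂_subset fun N _ => ?_
    exact fun u hu => hu.1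
  have hInt : ENNReal.ofReal c ≤ volume (⋂ M, Bs M) := by
    have h1 := tendsto_measure_iInter_atTop (μ := volume) (s := Bs)
      (fun M => (hBm M).nullMeasurableSet) hBanti ⟨0, hBfin 0⟩
    exact ge_of_tendsto' h1 hBle
  have hsub : (⋂ M, Bs M) ⊆ gp t yl dl ⁻¹' T := by
    intro u hu
    rw [mem_preimage]
    have h1 : ∃ᶠ N in atTop,
        gp t (y (θ N)) (d (θ N)) u ∈ Metric.cthickening (1 / ((θ N : ℝ) + 1)) T := by
      rw [frequently_atTop]
      intro M
      have := mem_iInter.1 hu M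
      simp only [hBs, mem_iUnion, exists_prop, mem_Ici] at this
      obtain ⟨N, hN, hN'⟩ := this
      exact ⟨N, hN, hN'.2⟩
    rw [← hc.closure_eq, Metric.mem_closure_iff_infEDist_zero]
    have h2 : Tendsto (fun N => Metric.infEDist (gp t (y (θ N)) (d (θ N)) u) T) atTop
        (𝓝 (Metric.infEDist (gp t yl dl u) T)) :=
      (Metric.continuous_infEDist.tendsto _).comp (hglim u)
    have h3 : Tendsto (fun N => ENNReal.ofReal (1 / ((θ N : ℝ) + 1))) atTop (𝓝 0) := by
      rw [← ENNReal.ofReal_zero]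
      refine (ENNReal.continuous_ofReal.tendsto 0).comp ?_
      exact tendsto_one_div_add_atTop_nhds_zero_nat.comp hθm.tendsto_atTop
    by_contra hne
    have hpos : 0 < Metric.infEDist (gp t yl dl u) T := pos_iff_ne_zero.2 hne
    obtain ⟨e, he1, he2⟩ := exists_between hpos
    have h4 : ∀ᶠ N in atTop, e < Metric.infEDist (gp t (y (θ N)) (d (θ N)) u) T :=
      h2.eventually (lt_mem_nhds he2)
    have h5 : ∀ᶠ N in atTop, ENNReal.ofReal (1 / ((θ N : ℝ) + 1)) < e :=
      h3.eventually (gt_mem_nhds he1)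
    obtain ⟨N, hN1, hN2, hN3⟩ := (h1.and_eventually (h4.and h5)).exists
    rw [Metric.mem_cthickening_iff] at hN1
    exact absurd (hN1.trans_lt hN3) (not_lt.2 hN2.le)
  have hnull := gp_null t yl dl i₀ hi₀ hd0 T hc.measurableSet h0
  have h7 := hInt.trans (measure_mono hsub)
  rw [hnull] at h7
  have h8 : 0 < ENNReal.ofReal c := ENNReal.ofReal_pos.2 hc0
  exact absurd h7 (not_le.2 h8)

end Pool.Agent.TU
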