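import Mathlib

/-!
# Theorem U: preimages of null sets under `C¹` functions and polynomials (helper85)
-/

set_option autoImplicit false

open MeasureTheory Set Filter Topology

namespace Pool.Agent.TU.Null85

/-- Preimages of measurable null sets under a `C¹` function are null outside the critical set. -/
theorem null_preimage {g : ℝ → ℝ} (hg : ContDiff ℝ 1 g) {T : Set ℝ} (hTm : MeasurableSet T)
    (hT : volume T = 0) : volume (g ⁻¹' T ∩ {u | deriv g u ≠ 0}) = 0 := by
  classical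
  have hc : Continuous (deriv g) := hg.continuous_deriv le_rfl
  have hgd : Differentiable ℝ g := hg.differentiable (by norm_num)
  have hcov : g ⁻¹' T ∩ {u | deriv g u ≠ 0} ⊆ ⋃ p : ℚ × ℚ, if (∀ x ∈ Ioo (p.1 : ℝ) p.2,
      deriv g x ≠ 0) then g ⁻¹' T ∩ Ioo (p.1 : ℝ) p.2 else ∅ := by
    rintro u ⟨hu1, hu2⟩
    have h1 : {x | deriv g x ≠ 0} ∈ 𝓝 u := (isOpen_ne_fun hc continuous_const).mem_nhds hu2
    obtain ⟨ε, hε, hb⟩ := Metric.mem_nhds_iff.1 h1
    obtain ⟨a, ha1, ha2⟩ := exists_rat_btwn (show u - ε < u by linarith)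
    obtain ⟨b, hb1, hb2⟩ := exists_rat_btwn (show u < u + ε by linarith)
    rw [mem_iUnion]
    refine ⟨(a, b), ?_⟩
    have h2 : ∀ x ∈ Ioo (a : ℝ) b, deriv g x ≠ 0 := fun x hx => hb (by
      rw [Metric.mem_ball, Real.dist_eq, abs_lt]
      exact ⟨by linarith [hx.1], by linarith [hx.2]⟩)
    simp only
    rw [if_pos h2]
    exact ⟨hu1, ha2, hb1⟩
  refine measure_mono_null hcov ?_
  rw [measure_iUnion_null_iff]
  rintro ⟨a, b⟩
  simp only
  split_ifs with h
  · have hm : MeasurableSet (g ⁻¹' T ∩ Ioo (a : ℝ) b) :=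
      (hgd.continuous.measurable hTm).inter measurableSet_Ioo
    have hinj : InjOn g (g ⁻¹' T ∩ Ioo (a : ℝ) b) := by
      have h3 : InjOn g (Ioo (a : ℝ) b) := by
        intro x hx y hy e
        by_contra hne
        rcases lt_or_gt_of_ne hne with h4 | h4
        · obtain ⟨c, hc1, hc2⟩ := exists_deriv_eq_zero h4 hgd.continuous.continuousOn e
          exact h c ⟨hx.1.trans hc1.1, hc1.2.trans hy.2⟩ hc2
        · obtain ⟨c, hc1, hc2⟩ := exists_deriv_eq_zero h4 hgd.continuous.continuousOn e.symm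
          exact h c ⟨hy.1.trans hc1.1, hc1.2.trans hx.2⟩ hc2
      exact h3.mono inter_subset_right
    have h5 := lintegral_image_eq_lintegral_abs_deriv_mul hm
      (fun x _ => (hgd x).hasDerivAt.hasDerivWithinAt) hinj (fun _ => (1 : ENNReal))
    have h6 : g '' (g ⁻¹' T ∩ Ioo (a : ℝ) b) ⊆ T := by
      rintro _ ⟨x, hx, rfl⟩
      exact hx.1
    have h7 : volume (g '' (g ⁻¹' T ∩ Ioo (a : ℝ) b)) = 0 := measure_mono_null h6 hT
    rw [Measure.restrict_eq_zero.2 h7, lintegral_zero_measure] at h5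
    simp only [mul_one] at h5
    have h8 := (lintegral_eq_zero_iff (by
      exact (ENNReal.measurable_ofReal.comp hc.abs.measurable))).1 h5.symm
    rw [Filter.EventuallyEq, ae_iff, Measure.restrict_apply' hm] at h8
    refine measure_mono_null (t := {a_1 | ¬ _} ∩ (g ⁻¹' T ∩ Ioo (a : ℝ) b))
      (fun x hx => ⟨?_, hx⟩) h8
    simp only [Pi.zero_apply, Set.mem_ofPred_eq, ENNReal.ofReal_eq_zero, not_le]
    exact abs_pos.2 (h x hx.2)
  · exact measure_empty

/-- A nonconstant polynomial pulls back closed null sets to null sets. -/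
theorem null_preimage_poly (p : Polynomial ℝ) (hp : p.derivative ≠ 0) {T : Set ℝ}
    (hTm : MeasurableSet T) (hT : volume T = 0) : volume ((fun u => p.eval u) ⁻¹' T) = 0 := by
  have hg : ContDiff ℝ 1 fun u => p.eval u := by
    simpa [Polynomial.coe_aeval_eq_eval] using p.contDiff_aeval (𝕜 := ℝ) 1
  have h1 := null_preimage hg hTm hT
  have h2 : volume {u : ℝ | p.derivative.eval u = 0} = 0 := by
    refine (Set.Finite.subset p.derivative.roots.toFinset.finite_toSet fun u hu => ?_).measure_zero _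
    rw [Finset.mem_coe, Multiset.mem_toFinset, Polynomial.mem_roots hp]
    exact hu
  refine measure_mono_null (t := (fun u => p.eval u) ⁻¹' T ∩ {u | deriv (fun u => p.eval u) u ≠ 0} ∪
    {u : ℝ | p.derivative.eval u = 0}) (fun u hu => ?_) (measure_union_null h1 h2)
  by_cases h3 : p.derivative.eval u = 0
  · exact Or.inr h3
  · left
    refine ⟨hu, ?_⟩
    rw [Set.mem_ofPred_eq, Polynomial.deriv]
    exact h3

/-- The polynomial `y + ∑ d_i u^(i+1)`. -/
noncomputable def gg {r : ℕ} (y : ℝ) (d : Fin r → ℝ) (u : ℝ) : ℝ := y + ∑ i : Fin r, d i * u ^ (i.1 + 1)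

theorem continuous_gg {r : ℕ} (y : ℝ) (d : Fin r → ℝ) : Continuous (gg y d) := by
  unfold gg
  fun_prop

theorem gg_null {r : ℕ} (y : ℝ) {d : Fin r → ℝ} (hd : ∃ i, d i ≠ 0) {T : Set ℝ}
    (hTm : MeasurableSet T) (hT : volume T = 0) : volume (gg y d ⁻¹' T) = 0 := by
  obtain ⟨p, hp⟩ : ∃ p : Polynomial ℝ, p = Polynomial.C y +
      ∑ i : Fin r, Polynomial.C (d i) * Polynomial.X ^ (i.1 + 1) := ⟨_, rfl⟩
  have h1 : (fun u => p.eval u) = gg y d := by
    funext u
    rw [hp, gg]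
    simp [Polynomial.eval_finset_sum]
  have hcoeff : ∀ i : Fin r, p.coeff (i.1 + 1) = d i := by
    intro i
    rw [hp, Polynomial.coeff_add, Polynomial.coeff_C, if_neg (by omega), zero_add,
      Polynomial.finset_sum_coeff, Finset.sum_eq_single i]
    · rw [Polynomial.coeff_C_mul, Polynomial.coeff_X_pow, if_pos rfl, mul_one]
    · intro j _ hj
      rw [Polynomial.coeff_C_mul, Polynomial.coeff_X_pow, if_neg, mul_zero]
      intro h
      exact hj (Fin.ext (by omega))
    · exact fun h => absurd (Finset.mem_univ _) h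
  have h2 : p.derivative ≠ 0 := by
    obtain ⟨i, hi⟩ := hd
    intro h
    have h3 := congrArg (fun q : Polynomial ℝ => q.coeff i.1) h
    simp only [Polynomial.coeff_derivative, Polynomial.coeff_zero, hcoeff] at h3
    rcases mul_eq_zero.1 h3 with h4 | h4
    · exact hi h4
    · have : (0 : ℝ) < (i.1 : ℝ) + 1 := by positivity
      linarith
  rw [← h1]
  exact null_preimage_poly p h2 hTm hT

/-- Lemma E: bounded polynomials which spend a positive proportion of the time near a closed null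
set, periodic modulo one, are nearly constant. -/
theorem drift {T : Set ℝ} (hTc : IsClosed T) (hT : volume T = 0) (hne : T.Nonempty)
    (hper : ∀ x ∈ T, ∀ m : ℤ, x + m ∈ T) (r : ℕ) {B η c ρ₃ : ℝ} (hη : 0 ≤ η) (hc : 0 < c)
    (hρ₃ : 0 < ρ₃) : ∃ ρ₂ : ℝ, 0 < ρ₂ ∧ ∀ (y : ℝ) (d : Fin r → ℝ), (∀ i, |d i| ≤ B) →
      ENNReal.ofReal c ≤ volume {u : ℝ | u ∈ Icc 0 η ∧ Metric.infDist (gg y d u) T ≤ ρ₂} →
      ∀ i, |d i| ≤ ρ₃ := by
  classical
  -- the compact set of the parameters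
  obtain ⟨K, hK⟩ : ∃ K : Set (ℝ × (Fin r → ℝ)), K = {q | q.1 ∈ Icc (0 : ℝ) 1 ∧
      (∀ i, |q.2 i| ≤ B) ∧ ∃ i, ρ₃ ≤ |q.2 i|} := ⟨_, rfl⟩
  have hKc : IsCompact K := by
    have hbig : IsCompact ((Icc (0 : ℝ) 1) ×ˢ (Set.univ.pi fun _ : Fin r => Icc (-B) B)) :=
      isCompact_Icc.prod (isCompact_univ_pi fun _ => isCompact_Icc)
    refine hbig.of_isClosed_subset ?_ ?_
    · have e : K = {q : ℝ × (Fin r → ℝ) | q.1 ∈ Icc (0 : ℝ) 1} ∩
          ((⋂ i, {q : ℝ × (Fin r → ℝ) | |q.2 i| ≤ B}) ∩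
            ⋃ i, {q : ℝ × (Fin r → ℝ) | ρ₃ ≤ |q.2 i|}) := by
        ext q
        simp [hK]
      rw [e]
      refine (isClosed_Icc.preimage continuous_fst).inter ((isClosed_iInter fun i => ?_).inter
        (isClosed_iUnion_of_finite fun i => ?_))
      · exact isClosed_le (by fun_prop) continuous_const
      · exact isClosed_le continuous_const (by fun_prop)
    · intro q hq
      rw [hK] at hq
      exact ⟨hq.1, fun i _ => abs_le.1 (hq.2.1 i)⟩
  -- the local bound
  have hloc : ∀ q ∈ K, ∃ δ : ℝ, 0 < δ ∧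
      volume {u : ℝ | u ∈ Icc 0 η ∧ Metric.infDist (gg q.1 q.2 u) T ≤ δ} < ENNReal.ofReal c := by
    intro q hq
    rw [hK] at hq
    obtain ⟨-, -, i, hi⟩ := hq
    have h0 : volume (gg q.1 q.2 ⁻¹' T) = 0 := gg_null q.1
      ⟨i, fun h => by rw [h, abs_zero] at hi; linarith⟩ hTc.measurableSet hT
    have hmeas : ∀ δ : ℝ, MeasurableSet {u : ℝ | u ∈ Icc 0 η ∧
        Metric.infDist (gg q.1 q.2 u) T ≤ δ} := fun δ =>
      measurableSet_Icc.inter (measurableSet_le
        ((Metric.continuous_infDist_pt T).comp (continuous_gg _ _)).measurable measurable_const)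
    have hlim := tendsto_measure_iInter_atTop (μ := volume) (s := fun k : ℕ => {u : ℝ |
      u ∈ Icc 0 η ∧ Metric.infDist (gg q.1 q.2 u) T ≤ 1 / ((k : ℝ) + 1)})
      (fun k => (hmeas _).nullMeasurableSet)
      (fun k l hkl u hu => ⟨hu.1, hu.2.trans (by
        have : (k : ℝ) ≤ l := by exact_mod_cast hkl
        gcongr)⟩)
      ⟨0, by
        refine ne_of_lt (lt_of_le_of_lt (measure_mono (t := Icc 0 η) fun u hu => hu.1) ?_)
        rw [Real.volume_Icc]
        exact ENNReal.ofReal_lt_top⟩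
    have hzero : volume (⋂ k : ℕ, {u : ℝ | u ∈ Icc 0 η ∧
        Metric.infDist (gg q.1 q.2 u) T ≤ 1 / ((k : ℝ) + 1)}) = 0 := by
      refine measure_mono_null (fun u hu => ?_) h0
      rw [mem_iInter] at hu
      have h1 : Metric.infDist (gg q.1 q.2 u) T ≤ 0 :=
        ge_of_tendsto' tendsto_one_div_add_atTop_nhds_zero_nat fun k => (hu k).2
      have h2 : Metric.infDist (gg q.1 q.2 u) T = 0 := le_antisymm h1 Metric.infDist_nonneg
      exact (hTc.mem_iff_infDist_zero hne).2 h2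
    rw [hzero] at hlim
    obtain ⟨k, hk⟩ := (hlim.eventually_lt_const (ENNReal.ofReal_pos.2 hc)).exists
    exact ⟨1 / ((k : ℝ) + 1), by positivity, hk⟩
  choose! δ hδ0 hδ using hloc
  -- uniform bound by compactness
  obtain ⟨M, hM⟩ : ∃ M : ℝ, M = 1 + ∑ i : Fin r, η ^ (i.1 + 1) := ⟨_, rfl⟩
  have hM0 : 0 < M := by
    rw [hM]
    have : 0 ≤ ∑ i : Fin r, η ^ (i.1 + 1) := Finset.sum_nonneg fun i _ => by positivity
    linarith
  have hclose : ∀ (q q' : ℝ × (Fin r → ℝ)) (ε : ℝ), dist q q' ≤ ε → ∀ u ∈ Icc 0 η,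
      |gg q.1 q.2 u - gg q'.1 q'.2 u| ≤ M * ε := by
    intro q q' ε hq u hu
    rw [Prod.dist_eq, max_le_iff] at hq
    have h1 : |q.1 - q'.1| ≤ ε := by
      have := hq.1
      rwa [Real.dist_eq] at this
    have h2 : ∀ i, |q.2 i - q'.2 i| ≤ ε := fun i => by
      have := (dist_le_pi_dist q.2 q'.2 i).trans hq.2
      rwa [Real.dist_eq] at this
    have h3 : gg q.1 q.2 u - gg q'.1 q'.2 u =
        (q.1 - q'.1) + ∑ i : Fin r, (q.2 i - q'.2 i) * u ^ (i.1 + 1) := by
      unfold gg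
      simp only [sub_mul, Finset.sum_sub_distrib]
      ring
    rw [h3, hM, add_mul, one_mul, Finset.sum_mul]
    refine (abs_add_le _ _).trans (add_le_add h1 ((Finset.abs_sum_le_sum_abs _ _).trans
      (Finset.sum_le_sum fun i _ => ?_)))
    rw [abs_mul, mul_comm, abs_pow, abs_of_nonneg hu.1]
    exact mul_le_mul (pow_le_pow_left₀ hu.1 hu.2 _) (h2 i) (abs_nonneg _) (by positivity)
  obtain ⟨t, ht1, ht2⟩ := hKc.elim_nhds_subcover (fun q => Metric.ball q (δ q / (2 * M)))
    fun q hq => Metric.ball_mem_nhds q (div_pos (hδ0 q hq) (by positivity))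
  obtain ⟨ρ₂, hρ, hρt⟩ : ∃ ρ₂ : ℝ, 0 < ρ₂ ∧ ∀ q ∈ t, ρ₂ ≤ δ q / 2 := by
    rcases t.eq_empty_or_nonempty with h | h
    · exact ⟨1, one_pos, fun q hq => by rw [h] at hq; exact absurd hq (Finset.notMem_empty q)⟩
    · obtain ⟨q, hq, hmin⟩ := t.exists_min_image δ h
      exact ⟨δ q / 2, half_pos (hδ0 q (ht1 q hq)), fun q' hq' => by
        have := hmin q' hq'
        linarith⟩
  refine ⟨ρ₂, hρ, fun y d hd hvol i => ?_⟩
  by_contra hcon
  push Not at hcon
  -- reduction to `y ∈ [0,1]`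
  have hgy : ∀ u, Metric.infDist (gg (Int.fract y) d u) T = Metric.infDist (gg y d u) T := by
    intro u
    have h1 : gg y d u = gg (Int.fract y) d u + (⌊y⌋ : ℤ) := by
      unfold gg
      rw [← Int.fract_add_floor y, Int.fract_add_intCast, Int.fract_fract, Int.floor_add_intCast,
        Int.floor_fract]
      push_cast
      ring
    rw [h1]
    have h2 : ∀ (x : ℝ) (m : ℤ), Metric.infDist (x + m) T ≤ Metric.infDist x T := by
      intro x m
      refine (Metric.le_infDist hne).2 fun z hz => ?_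
      have h3 := Metric.infDist_le_dist_of_mem (x := x + m) (hper z hz m)
      rwa [dist_add_right] at h3
    refine le_antisymm ?_ (h2 _ _)
    have h3 := h2 (gg (Int.fract y) d u + (⌊y⌋ : ℤ)) (-⌊y⌋)
    push_cast at h3
    rwa [add_neg_cancel_right] at h3
  have hqK : (Int.fract y, d) ∈ K := by
    rw [hK]
    exact ⟨⟨Int.fract_nonneg y, (Int.fract_lt_one y).le⟩, hd, i, hcon.le⟩
  obtain ⟨q, hqt, hq⟩ := mem_iUnion₂.1 (ht2 hqK)
  have hqK' := ht1 q hqt
  have hsub : {u : ℝ | u ∈ Icc 0 η ∧ Metric.infDist (gg y d u) T ≤ ρ₂} ⊆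
      {u : ℝ | u ∈ Icc 0 η ∧ Metric.infDist (gg q.1 q.2 u) T ≤ δ q} := by
    rintro u ⟨hu1, hu2⟩
    refine ⟨hu1, ?_⟩
    have h1 := hclose q (Int.fract y, d) (δ q / (2 * M)) (by
      rw [dist_comm]
      exact (Metric.mem_ball.1 hq).le) u hu1
    have h2 : M * (δ q / (2 * M)) = δ q / 2 := by
      field_simp
    rw [h2] at h1
    have h3 := Metric.infDist_le_infDist_add_dist (s := T) (x := gg q.1 q.2 u)
      (y := gg (Int.fract y) d u)
    rw [Real.dist_eq, hgy] at h3
    have h4 := hρt q hqt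
    simp only at h1
    linarith
  exact absurd (hvol.trans (measure_mono hsub)) (not_le.2 (hδ q hqK'))

end Pool.Agent.TU.Null85
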