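import Mathlib

/-!
# Project TU, polynomials pull back null sets to null sets (helper6)

A nonconstant polynomial pulls back null sets to null sets (for row E).
-/

set_option autoImplicit false
open Finset Polynomial MeasureTheory Topology

namespace Pool.Agent.TU

/-- A function with nonzero derivative pulls back null sets to null sets (local form). -/
theorem null_of_deriv (T : Set ℝ) (hTm : MeasurableSet T) (hnull : volume T = 0) (g g' : ℝ → ℝ)
    (hg : ∀ x, HasStrictDerivAt g (g' x) x) :
    volume {u : ℝ | g u ∈ T ∧ g' u ≠ 0} = 0 := by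
  have hgc : Continuous g := continuous_iff_continuousAt.2 fun x => (hg x).hasDerivAt.continuousAt
  refine measure_null_of_locally_null _ fun x hx => ?_
  obtain ⟨hxT, hx0⟩ := hx
  -- `g` is injective near `x`
  obtain ⟨V, hV, hinj⟩ : ∃ V ∈ 𝓝 x, Set.InjOn g V := by
    have h1 := HasStrictDerivAt.hasStrictFDerivAt_equiv (hg x) hx0
    refine ⟨(h1.toOpenPartialHomeomorph g).source, ?_, ?_⟩
    · exact (h1.toOpenPartialHomeomorph g).open_source.mem_nhds
        h1.mem_toOpenPartialHomeomorph_source
    · have := (h1.toOpenPartialHomeomorph g).injOn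
      simpa using this
  obtain ⟨W, hWV, hWo, hxW⟩ := mem_nhds_iff.1 hV
  refine ⟨{u : ℝ | g u ∈ T ∧ g' u ≠ 0} ∩ W,
    Filter.inter_mem self_mem_nhdsWithin (mem_nhdsWithin_of_mem_nhds (hWo.mem_nhds hxW)), ?_⟩
  -- measurability of the set of nonzero derivative
  have hg'm : Measurable g' := by
    have : g' = deriv g := by
      funext y
      exact (hg y).hasDerivAt.deriv.symm
    rw [this]
    exact measurable_deriv g
  have hsm : MeasurableSet ({u : ℝ | g u ∈ T ∧ g' u ≠ 0} ∩ W) := by
    refine MeasurableSet.inter ?_ hWo.measurableSet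
    exact (hgc.measurable hTm).inter (hg'm (measurableSet_singleton 0).compl)
  have h2 := lintegral_image_eq_lintegral_abs_deriv_mul hsm
    (fun y _ => (hg y).hasDerivAt.hasDerivWithinAt) (hinj.mono fun y hy => hWV hy.2) (fun _ => 1)
  have h3 : ∫⁻ y in g '' ({u : ℝ | g u ∈ T ∧ g' u ≠ 0} ∩ W), (1 : ENNReal) = 0 := by
    rw [lintegral_one, Measure.restrict_apply_univ]
    refine measure_mono_null ?_ hnull
    rintro _ ⟨y, hy, rfl⟩
    exact hy.1.1
  rw [h3] at h2
  have h4 := (setLIntegral_eq_zero_iff hsm (by fun_prop)).1 h2.symm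
  rw [← ae_restrict_iff' hsm] at h4
  have h5 : ∀ᵐ y ∂(volume.restrict ({u : ℝ | g u ∈ T ∧ g' u ≠ 0} ∩ W)), False := by
    filter_upwards [h4, ae_restrict_mem hsm] with y hy hy2
    rw [mul_one, ENNReal.ofReal_eq_zero] at hy
    exact absurd (abs_nonpos_iff.1 hy) hy2.1.2
  have h6 : volume.restrict ({u : ℝ | g u ∈ T ∧ g' u ≠ 0} ∩ W) = 0 := by
    simpa using h5
  simpa using h6

/-- A nonconstant polynomial pulls back null sets to null sets. -/
theorem null_poly (T : Set ℝ) (hTm : MeasurableSet T) (hnull : volume T = 0) (P : ℝ[X])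
    (hP : ∃ i, 1 ≤ i ∧ P.coeff i ≠ 0) : volume {u : ℝ | P.eval u ∈ T} = 0 := by
  have h1 := null_of_deriv T hTm hnull (fun u => P.eval u) (fun u => P.derivative.eval u)
    (fun x => P.hasStrictDerivAt x)
  have hd : P.derivative ≠ 0 := by
    obtain ⟨i, hi, h⟩ := hP
    intro h0
    have h2 := congrArg (fun Q : ℝ[X] => Q.coeff (i - 1)) h0
    simp only [coeff_derivative, coeff_zero] at h2
    rw [Nat.sub_add_cancel hi] at h2
    rcases mul_eq_zero.1 h2 with h3 | h3
    · exact h h3
    · have : (0 : ℝ) ≤ ((i - 1 : ℕ) : ℝ) := Nat.cast_nonneg _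
      linarith
  have h2 : volume {u : ℝ | P.derivative.eval u = 0} = 0 := by
    have : {u : ℝ | P.derivative.eval u = 0} = P.derivative.rootSet ℝ := by
      ext u
      simp [mem_rootSet, hd]
    rw [this]
    exact (P.derivative.rootSet_finite ℝ).measure_zero _
  refine measure_mono_null (t := {u : ℝ | P.eval u ∈ T ∧ P.derivative.eval u ≠ 0} ∪
    {u : ℝ | P.derivative.eval u = 0}) ?_ ?_
  · intro u hu
    by_cases h : P.derivative.eval u = 0
    · exact Or.inr h
    · exact Or.inl ⟨hu, h⟩
  · exact measure_union_null h1 h2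

end Pool.Agent.TU
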